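import Mathlib

/-!
# Kneser's addition theorem

Kneser's theorem for a finite abelian group `G`: if `K` is the stabilizer of `A + B`, then
`|A + K| + |B + K| ≤ |A + B| + |K|`, and the version for several summands.
-/

set_option autoImplicit false

open Finset Pointwise

namespace Pool.Agent.H59.Kneser

variable {G : Type*} [AddCommGroup G] [Fintype G] [DecidableEq G]

/-- The stabilizer of a finite set, as a finite set. -/
def st (C : Finset G) : Finset G := univ.filter (fun g => ∀ x ∈ C, g + x ∈ C)

lemma mem_st (C : Finset G) (g : G) : g ∈ st C ↔ ∀ x ∈ C, g + x ∈ C := by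
  simp [st]

lemma st_iff (C : Finset G) (g : G) (hg : g ∈ st C) (x : G) : g + x ∈ C ↔ x ∈ C := by
  rw [mem_st] at hg
  constructor
  · intro h
    have himg : C.image (fun y => g + y) ⊆ C := by
      intro y hy
      rw [mem_image] at hy
      obtain ⟨z, hz, rfl⟩ := hy
      exact hg z hz
    have hcard : C.card ≤ (C.image (fun y => g + y)).card := by
      rw [card_image_of_injective _ (add_right_injective g)]
    have heq := eq_of_subset_of_card_le himg hcard
    rw [← heq, mem_image] at h
    obtain ⟨z, hz, hzx⟩ := h
    have : z = x := add_left_cancel hzx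
    rwa [← this]
  · exact hg x

lemma zero_mem_st (C : Finset G) : (0 : G) ∈ st C := by
  rw [mem_st]; simp

lemma add_mem_st (C : Finset G) (g h : G) (hg : g ∈ st C) (hh : h ∈ st C) : g + h ∈ st C := by
  rw [mem_st] at *
  intro x hx
  rw [add_assoc]
  exact hg _ (hh x hx)

lemma neg_mem_st (C : Finset G) (g : G) (hg : g ∈ st C) : -g ∈ st C := by
  rw [mem_st]
  intro x hx
  rw [← st_iff C g hg]
  simpa using hx

/-- The stabilizer as a subgroup. -/
def stab (C : Finset G) : AddSubgroup G where
  carrier := {g | g ∈ st C}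
  zero_mem' := zero_mem_st C
  add_mem' := fun {a b} ha hb => add_mem_st C a b ha hb
  neg_mem' := fun {a} ha => neg_mem_st C a ha

lemma mem_stab (C : Finset G) (g : G) : g ∈ stab C ↔ g ∈ st C := Iff.rfl

/-- Half of the union lemma. -/
lemma union_half (C₁ C₂ : Finset G) (x : G) (hx1 : x ∉ C₁) (hx2 : x ∈ C₂) (h : ℕ)
    (hh : h = (st C₁ ∩ st C₂).card)
    (h1 : (C₂ \ C₁).card + h < (st C₁).card) (h2 : (C₁ \ C₂).card + h < (st C₂).card) :
    (st C₂).card < (st C₁).card := by
  set R := (st C₁).filter (fun a => x + a ∈ C₂) with hR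
  set P := (st C₂).filter (fun b => x + b ∉ C₁) with hP
  have hfib : ∀ (S T : Finset G), S ⊆ st C₁ → T ⊆ st C₂ → ∀ U : Finset G,
      (∀ a ∈ S, ∀ b ∈ T, x + a + b ∈ U) → S.card * T.card ≤ h * U.card := by
    intro S T hS hT U hU
    rw [← card_product]
    apply card_le_mul_card_image_of_maps_to (f := fun q : G × G => x + q.1 + q.2)
    · intro q hq
      rw [mem_product] at hq
      exact hU _ hq.1 _ hq.2
    · intro u _
      rw [hh]
      rcases (filter (fun q : G × G => x + q.1 + q.2 = u) (S ×ˢ T)).eq_empty_or_nonempty with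
        he | ⟨q0, hq0⟩
      · rw [he]; simp
      · rw [mem_filter, mem_product] at hq0
        apply card_le_card_of_injOn (fun q => q.1 - q0.1)
        · intro q hq
          rw [mem_coe, mem_filter, mem_product] at hq
          rw [mem_coe, mem_inter]
          have e : q.1 - q0.1 = q0.2 - q.2 := by
            have := hq.2.trans hq0.2.symm
            have h3 : q.1 + q.2 = q0.1 + q0.2 := by
              rw [add_assoc, add_assoc] at this
              exact add_left_cancel this
            rw [sub_eq_sub_iff_add_eq_add, h3, add_comm]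
          constructor
          · change q.1 - q0.1 ∈ st C₁
            rw [sub_eq_add_neg]
            exact add_mem_st _ _ _ (hS hq.1.1) (neg_mem_st _ _ (hS hq0.1.1))
          · change q.1 - q0.1 ∈ st C₂
            rw [e, sub_eq_add_neg]
            exact add_mem_st _ _ _ (hT hq0.1.2) (neg_mem_st _ _ (hT hq.1.2))
        · intro q hq q' hq' hqq
          rw [mem_coe, mem_filter, mem_product] at hq hq'
          have e1 : q.1 = q'.1 := by
            have : q.1 - q0.1 = q'.1 - q0.1 := hqq
            exact sub_left_inj.mp this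
          have e2 : q.2 = q'.2 := by
            have := hq.2.trans hq'.2.symm
            rw [e1] at this
            exact add_left_cancel this
          exact Prod.ext e1 e2
  have hhR : h ≤ R.card := by
    rw [hh]
    apply card_le_card
    intro a ha
    rw [mem_inter] at ha
    rw [hR, mem_filter]
    refine ⟨ha.1, ?_⟩
    rw [add_comm]
    exact (st_iff C₂ a ha.2 x).mpr hx2
  have hhP : h ≤ P.card := by
    rw [hh]
    apply card_le_card
    intro a ha
    rw [mem_inter] at ha
    rw [hP, mem_filter]
    refine ⟨ha.2, ?_⟩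
    rw [add_comm, st_iff C₁ a ha.1 x]
    exact hx1
  have hRle : R.card ≤ (st C₁).card := card_le_card (filter_subset _ _)
  have hPle : P.card ≤ (st C₂).card := card_le_card (filter_subset _ _)
  have hc1 : R.card * P.card ≤ h * (C₂ \ C₁).card := by
    apply hfib R P (filter_subset _ _) (filter_subset _ _)
    intro a ha b hb
    rw [hR, mem_filter] at ha
    rw [hP, mem_filter] at hb
    rw [mem_sdiff]
    constructor
    · rw [add_comm, st_iff C₂ b hb.1]
      exact ha.2
    · rw [add_right_comm, add_comm, st_iff C₁ a ha.1]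
      exact hb.2
  have hc2 : (st C₁ \ R).card * (st C₂ \ P).card ≤ h * (C₁ \ C₂).card := by
    apply hfib _ _ sdiff_subset sdiff_subset
    intro a ha b hb
    rw [hR, mem_sdiff, mem_filter] at ha
    rw [hP, mem_sdiff, mem_filter] at hb
    rw [mem_sdiff]
    constructor
    · rw [add_right_comm, add_comm, st_iff C₁ a ha.1]
      by_contra hcon
      exact hb.2 ⟨hb.1, hcon⟩
    · rw [add_comm, st_iff C₂ b hb.1]
      intro hcon
      exact ha.2 ⟨ha.1, hcon⟩
  have hsR : (st C₁ \ R).card + R.card = (st C₁).card := by
    rw [card_sdiff_add_card_eq_card (filter_subset _ _)]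
  have hsP : (st C₂ \ P).card + P.card = (st C₂).card := by
    rw [card_sdiff_add_card_eq_card (filter_subset _ _)]
  have hpos : 0 < h := by
    rw [hh]
    exact card_pos.mpr ⟨0, mem_inter.mpr ⟨zero_mem_st _, zero_mem_st _⟩⟩
  -- `B' = 0` or `B' ≥ h`
  have hB' : (st C₂ \ P).card = 0 ∨ h ≤ (st C₂ \ P).card := by
    rcases (st C₂ \ P).eq_empty_or_nonempty with he | ⟨b, hb⟩
    · left; rw [he]; simp
    · right
      rw [hh]
      apply card_le_card_of_injOn (fun a => a + b)
      · intro a ha
        rw [mem_coe, mem_inter] at ha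
        rw [hP, mem_sdiff, mem_filter] at hb
        rw [mem_coe, hP, mem_sdiff, mem_filter]
        refine ⟨add_mem_st _ _ _ ha.2 hb.1, fun hcon => hb.2 ⟨hb.1, ?_⟩⟩
        have h3 := hcon.2
        have e : x + (a + b) = a + (x + b) := by abel
        rw [e, st_iff C₁ a ha.1] at h3
        exact h3
      · intro a _ a' _ haa
        exact add_right_cancel haa
  set A := R.card
  set B := P.card
  set A' := (st C₁ \ R).card
  set B' := (st C₂ \ P).card
  set m1 := (st C₁).card
  set m2 := (st C₂).card
  set c1 := (C₂ \ C₁).card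
  set c2 := (C₁ \ C₂).card
  zify at *
  have k1 : (0 : ℤ) ≤ ((A : ℤ) - h) * (B - h) := mul_nonneg (by linarith) (by linarith)
  have k2 : (h : ℤ) * c1 < h * (m1 - h) := by
    apply mul_lt_mul_of_pos_left _ hpos
    linarith
  have k3 : (h : ℤ) * (A + B - h) < h * (m1 - h) := by nlinarith
  have k4 : (A : ℤ) + B - h < m1 - h := lt_of_mul_lt_mul_left k3 hpos.le
  have k5 : (B : ℤ) < A' := by linarith
  have k6 : (h : ℤ) * c2 < h * (m2 - h) := by
    apply mul_lt_mul_of_pos_left _ hpos
    linarith
  rcases hB' with h0 | h0
  · have hBm : (B : ℤ) = m2 := by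
      have : ((st C₂ \ P).card : ℤ) = 0 := by exact_mod_cast h0
      linarith
    have k7 : (h : ℤ) * m2 ≤ A * B := by
      rw [hBm]
      exact mul_le_mul_of_nonneg_right hhR (by positivity)
    have k8 : (h : ℤ) * m2 < h * (m1 - h) := by linarith
    have := lt_of_mul_lt_mul_left k8 hpos.le
    linarith
  · exfalso
    have k7 : (0 : ℤ) ≤ ((A' : ℤ) - h) * (B' - h) := mul_nonneg (by linarith) (by linarith)
    have k8 : (h : ℤ) * (A' + B' - h) < h * (m2 - h) := by nlinarith
    have k9 := lt_of_mul_lt_mul_left k8 hpos.le
    linarith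

/-- The union lemma. -/
lemma union_lemma (C₁ C₂ : Finset G) (t : ℕ) (h1 : t ≤ C₁.card + (st C₁).card)
    (h2 : t ≤ C₂.card + (st C₂).card) : t ≤ (C₁ ∪ C₂).card + (st (C₁ ∪ C₂)).card := by
  by_contra hcon
  push Not at hcon
  have hsub : (st C₁ ∩ st C₂).card ≤ (st (C₁ ∪ C₂)).card := by
    apply card_le_card
    intro a ha
    rw [mem_inter] at ha
    rw [mem_st]
    intro x hx
    rw [mem_union] at hx ⊢
    rcases hx with hx | hx
    · left; exact (mem_st _ _).mp ha.1 x hx
    · right; exact (mem_st _ _).mp ha.2 x hx
  have e1 : (C₁ ∪ C₂).card = (C₂ \ C₁).card + C₁.card := by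
    rw [union_comm, ← card_sdiff_add_card]
  have e2 : (C₁ ∪ C₂).card = (C₁ \ C₂).card + C₂.card := by
    rw [← card_sdiff_add_card]
  have k1 : (C₂ \ C₁).card + (st C₁ ∩ st C₂).card < (st C₁).card := by omega
  have k2 : (C₁ \ C₂).card + (st C₁ ∩ st C₂).card < (st C₂).card := by omega
  rcases (C₂ \ C₁).eq_empty_or_nonempty with he | ⟨x, hx⟩
  · have : C₁ ∪ C₂ = C₁ := union_eq_left.mpr (sdiff_eq_empty_iff_subset.mp he)
    rw [this] at hcon
    omega
  · rcases (C₁ \ C₂).eq_empty_or_nonempty with he | ⟨y, hy⟩
    · have : C₁ ∪ C₂ = C₂ := union_eq_right.mpr (sdiff_eq_empty_iff_subset.mp he)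
      rw [this] at hcon
      omega
    · rw [mem_sdiff] at hx hy
      have l1 := union_half C₁ C₂ x hx.2 hx.1 _ rfl k1 k2
      have l2 := union_half C₂ C₁ y hy.2 hy.1 _ rfl (by rw [inter_comm]; exact k2)
        (by rw [inter_comm]; exact k1)
      omega

/-- The union lemma for several sets. -/
lemma union_family {ι : Type*} [DecidableEq ι] (t : ℕ) (C : ι → Finset G) (S : Finset ι)
    (hS : S.Nonempty) (h : ∀ i ∈ S, t ≤ (C i).card + (st (C i)).card) :
    t ≤ (S.biUnion C).card + (st (S.biUnion C)).card := by
  induction hS using Finset.Nonempty.cons_induction with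
  | singleton a => simpa using h a (by simp)
  | cons a s ha hs ih =>
    rw [cons_eq_insert, biUnion_insert]
    apply union_lemma
    · exact h a (by simp)
    · exact ih (fun i hi => h i (by simp [hi]))

/-- Dyson transforms. -/
lemma dyson (n : ℕ) : ∀ (A B : Finset G), B.card ≤ n → ∀ a ∈ A, ∀ b ∈ B,
    ∃ A' B' : Finset G, a ∈ A' ∧ b ∈ B' ∧ A' + B' ⊆ A + B ∧ A'.card + B'.card = A.card + B.card ∧
      ∀ a' ∈ A', ∀ b' ∈ B', a' + b' - b ∈ A' := by
  induction n with
  | zero =>
    intro A B hB a _ b hb
    have : B = ∅ := by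
      rw [← card_eq_zero]; omega
    rw [this] at hb
    simp at hb
  | succ n ih =>
    intro A B hB a ha b hb
    by_cases hgood : ∀ a' ∈ A, ∀ b' ∈ B, a' + b' - b ∈ A
    · exact ⟨A, B, ha, hb, subset_rfl, rfl, hgood⟩
    · push Not at hgood
      obtain ⟨a', ha', b', hb', hab⟩ := hgood
      set e := a' - b with he
      set A1 := A ∪ B.image (fun y => y + e) with hA1
      set B1 := B.filter (fun y => y + e ∈ A) with hB1
      have hcardA : A1.card + B1.card = A.card + B.card := by
        have h1 := card_union_add_card_inter A (B.image (fun y => y + e))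
        have h2 : (A ∩ B.image (fun y => y + e)) = B1.image (fun y => y + e) := by
          ext z
          simp only [mem_inter, mem_image, hB1, mem_filter]
          constructor
          · rintro ⟨h3, y, hy, rfl⟩
            exact ⟨y, ⟨hy, h3⟩, rfl⟩
          · rintro ⟨y, ⟨hy, h3⟩, rfl⟩
            exact ⟨h3, y, hy, rfl⟩
        rw [h2, card_image_of_injective _ (add_left_injective e),
          card_image_of_injective _ (add_left_injective e)] at h1
        exact h1
      have hB1lt : B1.card < B.card := by
        apply card_lt_card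
        refine ⟨filter_subset _ _, fun hcon => ?_⟩
        have h3 := hcon hb'
        rw [hB1, mem_filter] at h3
        apply hab
        have : a' + b' - b = b' + e := by rw [he]; abel
        rw [this]
        exact h3.2
      have hb1 : b ∈ B1 := by
        rw [hB1, mem_filter]
        refine ⟨hb, ?_⟩
        rw [he]
        simpa using ha'
      have ha1 : a ∈ A1 := mem_union_left _ ha
      obtain ⟨A2, B2, h1, h2, h3, h4, h5⟩ := ih A1 B1 (by omega) a ha1 b hb1
      refine ⟨A2, B2, h1, h2, h3.trans ?_, h4.trans hcardA, h5⟩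
      intro z hz
      rw [mem_add] at hz ⊢
      obtain ⟨x, hx, y, hy, rfl⟩ := hz
      rw [hB1, mem_filter] at hy
      rw [hA1, mem_union, mem_image] at hx
      rcases hx with hx | ⟨w, hw, rfl⟩
      · exact ⟨x, hx, y, hy.1, rfl⟩
      · exact ⟨y + e, hy.2, w, hw, by abel⟩

/-- Weak form of Kneser's theorem. -/
lemma kneser_weak (A B : Finset G) (hA : A.Nonempty) (hB : B.Nonempty) :
    A.card + B.card ≤ (A + B).card + (st (A + B)).card := by
  have key : ∀ c ∈ A + B, ∃ C : Finset G, c ∈ C ∧ C ⊆ A + B ∧
      A.card + B.card ≤ C.card + (st C).card := by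
    intro c hc
    rw [mem_add] at hc
    obtain ⟨a, ha, b, hb, rfl⟩ := hc
    obtain ⟨A', B', h1, h2, h3, h4, h5⟩ := dyson B.card A B le_rfl a ha b hb
    refine ⟨A' + B', add_mem_add h1 h2, h3, ?_⟩
    rw [← h4]
    have hsub : A'.card ≤ (A' + B').card := card_le_card_add_right ⟨b, h2⟩
    have hst : B'.card ≤ (st (A' + B')).card := by
      apply card_le_card_of_injOn (fun y => y - b)
      · intro b' hb'
        rw [mem_coe] at hb' ⊢
        rw [mem_st]
        intro x hx
        rw [mem_add] at hx
        obtain ⟨a1, ha1, b1, hb1, rfl⟩ := hx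
        have h6 := h5 a1 ha1 b1 hb1
        have h7 : b' - b + (a1 + b1) = (a1 + b1 - b) + b' := by abel
        change b' - b + (a1 + b1) ∈ A' + B'
        rw [h7]
        exact add_mem_add h6 hb'
      · intro y _ y' _ hyy
        exact sub_left_inj.mp hyy
    omega
  choose! C hC1 hC2 hC3 using key
  have hU : (A + B).biUnion C = A + B := by
    apply subset_antisymm
    · rw [biUnion_subset]
      exact hC2
    · intro c hc
      rw [mem_biUnion]
      exact ⟨c, hc, hC1 c hc⟩
  have := union_family (A.card + B.card) C (A + B) (hA.add hB) hC3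
  rwa [hU] at this

lemma add_st_self (C : Finset G) : C + st C = C := by
  apply subset_antisymm
  · intro z hz
    rw [mem_add] at hz
    obtain ⟨x, hx, y, hy, rfl⟩ := hz
    rw [add_comm]
    exact (mem_st _ _).mp hy x hx
  · intro z hz
    rw [mem_add]
    exact ⟨z, hz, 0, zero_mem_st _, add_zero _⟩

lemma st_add_st (C : Finset G) : st C + st C = st C := by
  apply subset_antisymm
  · intro z hz
    rw [mem_add] at hz
    obtain ⟨x, hx, y, hy, rfl⟩ := hz
    exact add_mem_st _ _ _ hx hy
  · intro z hz
    rw [mem_add]
    exact ⟨z, hz, 0, zero_mem_st _, add_zero _⟩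

/-- **Kneser's theorem.** -/
theorem kneser (A B : Finset G) (hA : A.Nonempty) (hB : B.Nonempty) :
    (A + st (A + B)).card + (B + st (A + B)).card ≤ (A + B).card + (st (A + B)).card := by
  have h0 : (st (A + B)).Nonempty := ⟨0, zero_mem_st _⟩
  have e : (A + st (A + B)) + (B + st (A + B)) = A + B := by
    rw [add_add_add_comm, st_add_st, add_st_self]
  have := kneser_weak (A + st (A + B)) (B + st (A + B)) (hA.add h0) (hB.add h0)
  rwa [e] at this

lemma st_mono_add (X S : Finset G) : st S ⊆ st (X + S) := by
  intro g hg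
  rw [mem_st] at *
  intro z hz
  rw [mem_add] at hz ⊢
  obtain ⟨x, hx, y, hy, rfl⟩ := hz
  exact ⟨x, hx, g + y, hg y hy, by abel⟩

lemma list_sum_nonempty (L : List (Finset G)) (hL : ∀ X ∈ L, X.Nonempty) : L.sum.Nonempty := by
  induction L with
  | nil => simp
  | cons X L ih =>
    rw [List.sum_cons]
    exact (hL X (by simp)).add (ih (fun Y hY => hL Y (by simp [hY])))

lemma list_sum_add (L : List (Finset G)) (hL : L ≠ []) (K : Finset G) (hK : K + K = K) :
    (L.map (fun X => X + K)).sum = L.sum + K := by
  induction L with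
  | nil => exact absurd rfl hL
  | cons X L ih =>
    rcases eq_or_ne L [] with rfl | hne
    · simp
    · rw [List.map_cons, List.sum_cons, List.sum_cons, ih hne, add_add_add_comm, hK]

/-- **Kneser's theorem** for several summands. -/
theorem kneser_list (n : ℕ) : ∀ (L : List (Finset G)), L.length = n → L ≠ [] →
    (∀ X ∈ L, X.Nonempty) →
    (L.map (fun X => (X + st L.sum).card)).sum + (st L.sum).card ≤
      L.sum.card + L.length * (st L.sum).card := by
  induction n with
  | zero =>
    intro L h1 h2
    exact absurd (List.length_eq_zero_iff.mp h1) h2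
  | succ n ih =>
    intro L hlen hne hX
    obtain ⟨X, L', rfl⟩ := List.exists_cons_of_ne_nil hne
    rw [List.length_cons] at hlen
    rcases eq_or_ne L' [] with rfl | hne'
    · simp [add_st_self]
    · have hXn : X.Nonempty := hX X (by simp)
      have hL'n : L'.sum.Nonempty := list_sum_nonempty L' (fun Y hY => hX Y (by simp [hY]))
      set K := st (X :: L').sum with hK
      have hKK : K + K = K := st_add_st _
      have hk := kneser X L'.sum hXn hL'n
      rw [← List.sum_cons, ← hK] at hk
      have hKn : K.Nonempty := ⟨0, zero_mem_st _⟩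
      set L'' := L'.map (fun Y => Y + K) with hL''
      have hsum : L''.sum = L'.sum + K := list_sum_add L' hne' K hKK
      have hst : st L''.sum = K := by
        apply subset_antisymm
        · have h1 : st L''.sum ⊆ st (X + L''.sum) := st_mono_add _ _
          have h2 : X + L''.sum = (X :: L').sum := by
            rw [hsum, ← add_assoc, ← List.sum_cons, hK, add_st_self]
          rw [h2] at h1
          exact h1
        · intro g hg
          rw [mem_st, hsum]
          intro z hz
          rw [mem_add] at hz ⊢
          obtain ⟨x, hx, y, hy, rfl⟩ := hz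
          refine ⟨x, hx, g + y, ?_, by abel⟩
          rw [hK] at hg hy ⊢
          exact add_mem_st _ _ _ hg hy
      have hih := ih L'' (by rw [hL'', List.length_map]; omega)
        (by rw [hL'']; simpa using hne')
        (by
          intro Y hY
          rw [hL'', List.mem_map] at hY
          obtain ⟨Z, hZ, rfl⟩ := hY
          exact (hX Z (by simp [hZ])).add hKn)
      rw [hst, hsum] at hih
      have hmap : (L''.map (fun Y => (Y + K).card)) = L'.map (fun Y => (Y + K).card) := by
        rw [hL'', List.map_map]
        apply List.map_congr_left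
        intro Y _
        simp only [Function.comp_apply]
        rw [add_assoc, hKK]
      rw [hmap] at hih
      rw [List.map_cons, List.sum_cons, List.length_cons]
      have hl : L''.length = L'.length := by rw [hL'', List.length_map]
      rw [hl] at hih
      rw [add_mul, one_mul]
      omega

end Pool.Agent.H59.Kneser
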