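import Mathlib
import Pool.Agent.H59.Kneser

set_option autoImplicit false

open Finset Pointwise

namespace Pool.Agent.H59.KG

open Pool.Agent.H59.Kneser

section basics

variable {X Y : Type*} [AddCommGroup X] [AddCommGroup Y] [Fintype X] [Fintype Y]
  [DecidableEq X] [DecidableEq Y]

/-- The fibre of `B` over `c`. -/
def fib (f : X → Y) (B : Finset X) (c : Y) : Finset X := B.filter (fun x => f x = c)

omit [AddCommGroup X] [AddCommGroup Y] [Fintype X] [Fintype Y] [DecidableEq X] in
lemma mem_fib (f : X → Y) (B : Finset X) (c : Y) (x : X) :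
    x ∈ fib f B c ↔ x ∈ B ∧ f x = c := by
  simp [fib]

/-- The level sets. -/
def lev (f : X → Y) (B : Finset X) (j : ℕ) : Finset Y :=
  univ.filter (fun c => j ≤ (fib f B c).card)

omit [AddCommGroup X] [AddCommGroup Y] [Fintype X] [DecidableEq X] in
lemma mem_lev (f : X → Y) (B : Finset X) (j : ℕ) (c : Y) :
    c ∈ lev f B j ↔ j ≤ (fib f B c).card := by
  simp [lev]

omit [AddCommGroup X] [AddCommGroup Y] [Fintype X] [DecidableEq X] in
lemma lev_mono (f : X → Y) {B C : Finset X} (h : B ⊆ C) {i j : ℕ} (hij : j ≤ i) :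
    lev f B i ⊆ lev f C j := by
  intro c hc
  rw [mem_lev] at *
  have : (fib f B c).card ≤ (fib f C c).card := card_le_card (filter_subset_filter _ h)
  omega

omit [AddCommGroup X] [AddCommGroup Y] [Fintype X] [DecidableEq X] in
lemma lev_one (f : X → Y) (B : Finset X) : lev f B 1 = B.image f := by
  ext c
  rw [mem_lev, mem_image, Nat.one_le_iff_ne_zero, ← Nat.pos_iff_ne_zero, card_pos]
  constructor
  · rintro ⟨x, hx⟩
    rw [mem_fib] at hx
    exact ⟨x, hx.1, hx.2⟩
  · rintro ⟨x, hx, hxc⟩
    exact ⟨x, (mem_fib _ _ _ _).mpr ⟨hx, hxc⟩⟩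

omit [Fintype X] [Fintype Y] in
lemma fib_neg_card (f : X →+ Y) (B : Finset X) (c : Y) :
    (fib f (-B) c).card = (fib f B (-c)).card := by
  have : fib f (-B) c = -(fib f B (-c)) := by
    ext x
    rw [mem_neg', mem_fib, mem_fib, mem_neg', map_neg, neg_inj]
  rw [this, card_neg]

omit [Fintype X] in
lemma lev_neg (f : X →+ Y) (B : Finset X) (j : ℕ) : lev f (-B) j = -(lev f B j) := by
  ext c
  rw [mem_lev, mem_neg', mem_lev, fib_neg_card]

omit [AddCommGroup X] [AddCommGroup Y] [Fintype X] [DecidableEq X] in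
/-- The sum of the fibres. -/
lemma sum_fib (f : X → Y) (B : Finset X) : ∑ c, (fib f B c).card = B.card := by
  rw [card_eq_sum_card_fiberwise (f := f) (t := univ) (fun _ _ => mem_univ _)]
  rfl

omit [AddCommGroup X] [AddCommGroup Y] [Fintype X] [DecidableEq X] in
/-- Layer cake. -/
lemma sum_lev (f : X → Y) (B : Finset X) (h : ℕ) (hh : ∀ c, (fib f B c).card ≤ h) :
    ∑ j ∈ Icc 1 h, (lev f B j).card = B.card := by
  rw [← sum_fib f B]
  have h1 : ∀ c, (fib f B c).card = ∑ j ∈ Icc 1 h, if j ≤ (fib f B c).card then 1 else 0 := by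
    intro c
    rw [← sum_filter, sum_const, smul_eq_mul, mul_one]
    have : (filter (fun j => j ≤ (fib f B c).card) (Icc 1 h)) = Icc 1 (fib f B c).card := by
      ext j
      rw [mem_filter, mem_Icc, mem_Icc]
      have := hh c
      omega
    rw [this, Nat.card_Icc]
    omega
  rw [sum_congr rfl (fun c _ => h1 c), sum_comm]
  apply sum_congr rfl
  intro j _
  rw [← sum_filter, sum_const, smul_eq_mul, mul_one]
  rfl

/-- The sum of `m` copies of `W` and `n` copies of `-W`. -/
def R (m n : ℕ) (W : Finset X) : Finset X :=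
  (List.replicate m W ++ List.replicate n (-W)).sum

omit [Fintype X] in
lemma R_succ_left (m n : ℕ) (W : Finset X) : R (m + 1) n W = W + R m n W := by
  rw [R, R, List.replicate_succ, List.cons_append, List.sum_cons]

omit [Fintype X] in
lemma R_succ_right (m n : ℕ) (W : Finset X) : R m (n + 1) W = (-W) + R m n W := by
  rw [R, R, List.replicate_succ, List.sum_append, List.sum_append, List.sum_cons,
    add_left_comm]

omit [Fintype X] in
lemma R_zero (W : Finset X) : R 0 0 W = 0 := by
  simp [R]

omit [Fintype X] in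
lemma R_nonempty (m n : ℕ) (W : Finset X) (hW : W.Nonempty) : (R m n W).Nonempty := by
  induction m with
  | zero =>
    induction n with
    | zero => rw [R_zero]; exact ⟨0, by simp⟩
    | succ n ih => rw [R_succ_right]; exact (hW.neg).add ih
  | succ m ih => rw [R_succ_left]; exact hW.add ih

omit [Fintype X] [Fintype Y] in
lemma image_R (f : X →+ Y) (m n : ℕ) (W : Finset X) : (R m n W).image f = R m n (W.image f) := by
  induction m with
  | zero =>
    induction n with
    | zero => rw [R_zero, R_zero]; simp only [image_zero, map_zero]; rfl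
    | succ n ih =>
      rw [R_succ_right, R_succ_right, image_add, ih]
      congr 1
      ext y
      simp only [mem_image, mem_neg']
      constructor
      · rintro ⟨x, hx, rfl⟩
        exact ⟨-x, hx, by simp⟩
      · rintro ⟨x, hx, hxy⟩
        exact ⟨-x, by simpa using hx, by rw [map_neg, hxy, neg_neg]⟩
  | succ m ih => rw [R_succ_left, R_succ_left, image_add, ih]

omit [Fintype X] in
lemma R_mono (m n : ℕ) {W W' : Finset X} (h : W ⊆ W') : R m n W ⊆ R m n W' := by
  induction m with
  | zero =>
    induction n with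
    | zero => rw [R_zero, R_zero]
    | succ n ih =>
      rw [R_succ_right, R_succ_right]
      exact add_subset_add (neg_subset_neg h) ih
  | succ m ih =>
    rw [R_succ_left, R_succ_left]
    exact add_subset_add h ih

omit [Fintype X] in
lemma mem_R (m n : ℕ) (W : Finset X) (x : X) : x ∈ R m n W ↔ ∃ P Q : List X, P.length = m ∧
    Q.length = n ∧ (∀ z ∈ P, z ∈ W) ∧ (∀ z ∈ Q, z ∈ W) ∧ x = P.sum - Q.sum := by
  induction m generalizing x with
  | zero =>
    induction n generalizing x with
    | zero =>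
      rw [R_zero, mem_zero]
      constructor
      · rintro rfl
        exact ⟨[], [], by simp⟩
      · rintro ⟨P, Q, hP, hQ, -, -, rfl⟩
        rw [List.length_eq_zero_iff] at hP hQ
        simp [hP, hQ]
    | succ n ih =>
      rw [R_succ_right, mem_add]
      constructor
      · rintro ⟨y, hy, z, hz, rfl⟩
        rw [ih] at hz
        obtain ⟨P, Q, hP, hQ, h1, h2, rfl⟩ := hz
        rw [mem_neg'] at hy
        refine ⟨P, (-y) :: Q, hP, by simp [hQ], h1, ?_, ?_⟩
        · intro z hz
          rw [List.mem_cons] at hz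
          rcases hz with rfl | hz
          · exact hy
          · exact h2 z hz
        · rw [List.sum_cons]; abel
      · rintro ⟨P, Q, hP, hQ, h1, h2, rfl⟩
        obtain ⟨q, Q', rfl⟩ := List.exists_cons_of_length_pos (l := Q) (by omega)
        refine ⟨-q, ?_, P.sum - Q'.sum, ?_, ?_⟩
        · rw [mem_neg', neg_neg]; exact h2 q (by simp)
        · rw [ih]
          refine ⟨P, Q', hP, by simpa using hQ, h1, fun z hz => h2 z (by simp [hz]), rfl⟩
        · rw [List.sum_cons]; abel
  | succ m ih =>
    rw [R_succ_left, mem_add]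
    constructor
    · rintro ⟨y, hy, z, hz, rfl⟩
      rw [ih] at hz
      obtain ⟨P, Q, hP, hQ, h1, h2, rfl⟩ := hz
      refine ⟨y :: P, Q, by simp [hP], hQ, ?_, h2, ?_⟩
      · intro z hz
        rw [List.mem_cons] at hz
        rcases hz with rfl | hz
        · exact hy
        · exact h1 z hz
      · rw [List.sum_cons]; abel
    · rintro ⟨P, Q, hP, hQ, h1, h2, rfl⟩
      obtain ⟨q, P', rfl⟩ := List.exists_cons_of_length_pos (l := P) (by omega)
      refine ⟨q, h1 q (by simp), P'.sum - Q.sum, ?_, ?_⟩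
      · rw [ih]
        refine ⟨P', Q, by simpa using hP, hQ, fun z hz => h1 z (by simp [hz]), h2, rfl⟩
      · rw [List.sum_cons]; abel

/-- No zero-sum tuple (`a + 2` positive, `b + 1` negative entries) of `W` meets `V`. -/
def NoZ (a b : ℕ) (V W : Finset X) : Prop :=
  (0 : X) ∉ V + R (a + 1) (b + 1) W ∧ (0 : X) ∉ (-V) + R (a + 2) b W

/-- A homomorphism all of whose fibres have `h` elements. -/
structure Nice (f : X →+ Y) (h : ℕ) : Prop where
  pos : 0 < h
  card_fib : ∀ c, (fib f univ c).card = h

omit [DecidableEq X] in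
lemma Nice.card {f : X →+ Y} {h : ℕ} (hf : Nice f h) : Fintype.card X = Fintype.card Y * h := by
  have h1 := sum_fib f (univ : Finset X)
  rw [sum_congr rfl (fun c _ => hf.card_fib c), sum_const, card_univ, card_univ,
    smul_eq_mul] at h1
  exact h1.symm

omit [DecidableEq X] [Fintype Y] in
lemma Nice.fib_le {f : X →+ Y} {h : ℕ} (hf : Nice f h) (B : Finset X) (c : Y) :
    (fib f B c).card ≤ h := by
  rw [← hf.card_fib c]
  exact card_le_card (filter_subset_filter _ (subset_univ _))

/-- Pigeonhole on the fibres. -/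
lemma pigeon {f : X →+ Y} {h : ℕ} (hf : Nice f h) (B₁ B₂ D : Finset X) (i j : ℕ)
    (hij : h + 1 ≤ i + j) (h0 : (0 : X) ∉ B₁ + (B₂ + D)) :
    (0 : Y) ∉ lev f B₁ i + (lev f B₂ j + D.image f) := by
  intro hcon
  rw [mem_add] at hcon
  obtain ⟨c₁, hc₁, z, hz, hsum⟩ := hcon
  rw [mem_add] at hz
  obtain ⟨c₂, hc₂, e, he, rfl⟩ := hz
  rw [mem_image] at he
  obtain ⟨d, hd, rfl⟩ := he
  rw [mem_lev] at hc₁ hc₂
  have hdisj : Disjoint ((fib f B₁ c₁).image (fun x => -d - x)) (fib f B₂ c₂) := by
    rw [Finset.disjoint_left]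
    intro z hz hz2
    rw [mem_image] at hz
    obtain ⟨x, hx, rfl⟩ := hz
    rw [mem_fib] at hx hz2
    apply h0
    rw [mem_add]
    refine ⟨x, hx.1, -d - x + d, add_mem_add hz2.1 hd, by abel⟩
  have hsub : (fib f B₁ c₁).image (fun x => -d - x) ∪ fib f B₂ c₂ ⊆ fib f univ c₂ := by
    intro z hz
    rw [mem_union, mem_image] at hz
    rw [mem_fib]
    refine ⟨mem_univ _, ?_⟩
    rcases hz with ⟨x, hx, rfl⟩ | hz
    · rw [mem_fib] at hx
      rw [map_sub, map_neg, hx.2]
      have : c₂ = -f d - c₁ := by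
        rw [eq_sub_iff_add_eq, eq_neg_iff_add_eq_zero]
        rw [← hsum]; abel
      exact this.symm
    · exact ((mem_fib _ _ _ _).mp hz).2
  have h1 := card_le_card hsub
  rw [card_union_of_disjoint hdisj, hf.card_fib, card_image_of_injective _ (by
    intro x y hxy
    exact sub_right_inj.mp hxy)] at h1
  omega

/-- Kneser's theorem inside a coset of a group of prime order. -/
lemma cd_coset {f : X →+ Y} {p : ℕ} (hp : p.Prime) (hker : ∀ g, f g = 0 → p • g = 0)
    (A B : Finset X) (hA : A.Nonempty) (hB : B.Nonempty) (a b : Y) (hfA : ∀ x ∈ A, f x = a)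
    (hfB : ∀ x ∈ B, f x = b) :
    p ≤ (A + B).card ∨ A.card + B.card ≤ (A + B).card + 1 := by
  have hk := kneser A B hA hB
  have h0 : (0 : X) ∈ st (A + B) := zero_mem_st _
  have hAle : A.card ≤ (A + st (A + B)).card := card_le_card_add_right ⟨0, h0⟩
  have hBle : B.card ≤ (B + st (A + B)).card := card_le_card_add_right ⟨0, h0⟩
  by_cases htriv : st (A + B) = {0}
  · right
    rw [htriv, card_singleton] at hk
    rw [htriv] at hAle hBle
    omega
  · left
    obtain ⟨g, hg, hg0⟩ : ∃ g ∈ st (A + B), g ≠ 0 := by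
      by_contra hcon
      push Not at hcon
      apply htriv
      ext z
      rw [mem_singleton]
      exact ⟨hcon z, fun h => h ▸ h0⟩
    obtain ⟨x, hx⟩ := hA.add hB
    have hfx : ∀ z ∈ A + B, f z = a + b := by
      intro z hz
      rw [mem_add] at hz
      obtain ⟨u, hu, v, hv, rfl⟩ := hz
      rw [map_add, hfA u hu, hfB v hv]
    have hfg : f g = 0 := by
      have h1 := hfx _ ((mem_st _ _).mp hg x hx)
      rw [map_add, hfx x hx] at h1
      exact left_eq_add.mp (by rw [add_comm]; exact h1.symm)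
    have : Fact p.Prime := ⟨hp⟩
    have hord : addOrderOf g = p := addOrderOf_eq_prime (hker g hfg) hg0
    have h2 : (range p).card ≤ (A + B).card := by
      apply card_le_card_of_injOn (fun n => n • g + x)
      · intro n _
        rw [mem_coe]
        have : ∀ n : ℕ, n • g ∈ st (A + B) := by
          intro n
          induction n with
          | zero => simpa using h0
          | succ n ih => rw [succ_nsmul]; exact add_mem_st _ _ _ ih hg
        exact (mem_st _ _).mp (this n) x hx
      · intro n hn m hm hnm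
        rw [mem_coe, mem_range] at hn hm
        have h3 : n • g = m • g := add_right_cancel hnm
        have := nsmul_injOn_Iio_addOrderOf (x := g) (by simpa [hord] using hn)
          (by simpa [hord] using hm) h3
        exact this
    rwa [card_range] at h2

/-- The threshold lemma. -/
lemma threshold_aux {f : X →+ Y} {p : ℕ} (hp : p.Prime) (hker : ∀ g, f g = 0 → p • g = 0)
    (Bs : List (Finset X × ℕ)) (hpos : ∀ q ∈ Bs, 1 ≤ q.2) (y : Y)
    (hy : y ∈ (Bs.map (fun q => lev f q.1 q.2)).sum) :
    ∃ Z : Finset X, Z.Nonempty ∧ Z ⊆ (Bs.map (fun q => q.1)).sum ∧ (∀ z ∈ Z, f z = y) ∧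
      (p ≤ Z.card ∨ (Bs.map (fun q => q.2)).sum + 1 ≤ Z.card + Bs.length) := by
  induction Bs generalizing y with
  | nil =>
    simp only [List.map_nil, List.sum_nil, mem_zero] at hy
    refine ⟨{0}, by simp, by simp, ?_, by simp⟩
    intro z hz
    rw [mem_singleton] at hz
    rw [hz, map_zero, hy]
  | cons q Bs ih =>
    rw [List.map_cons, List.sum_cons, mem_add] at hy
    obtain ⟨c, hc, y', hy', rfl⟩ := hy
    obtain ⟨Z, hZn, hZs, hZf, hZc⟩ := ih (fun q hq => hpos q (by simp [hq])) y' hy'
    rw [mem_lev] at hc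
    have hq1 := hpos q (by simp)
    have hFn : (fib f q.1 c).Nonempty := card_pos.mp (by omega)
    refine ⟨fib f q.1 c + Z, hFn.add hZn, ?_, ?_, ?_⟩
    · rw [List.map_cons, List.sum_cons]
      exact add_subset_add (filter_subset _ _) hZs
    · intro z hz
      rw [mem_add] at hz
      obtain ⟨u, hu, v, hv, rfl⟩ := hz
      rw [map_add, hZf v hv, ((mem_fib _ _ _ _).mp hu).2]
    · rw [List.map_cons, List.sum_cons, List.length_cons]
      have hcd := cd_coset hp hker (fib f q.1 c) Z hFn hZn c y'
        (fun x hx => ((mem_fib _ _ _ _).mp hx).2) hZf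
      rcases hcd with h | h
      · left; exact h
      · rcases hZc with h' | h'
        · left
          have : 0 < (fib f q.1 c).card := card_pos.mpr hFn
          omega
        · right
          omega

lemma threshold {f : X →+ Y} {p : ℕ} (hf : Nice f p) (hp : p.Prime)
    (hker : ∀ g, f g = 0 → p • g = 0) (Bs : List (Finset X × ℕ)) (hpos : ∀ q ∈ Bs, 1 ≤ q.2)
    (h0 : (0 : X) ∉ (Bs.map (fun q => q.1)).sum)
    (hbig : p + Bs.length ≤ (Bs.map (fun q => q.2)).sum + 1) :
    (0 : Y) ∉ (Bs.map (fun q => lev f q.1 q.2)).sum := by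
  intro hcon
  obtain ⟨Z, _, hZs, hZf, hZc⟩ := threshold_aux hp hker Bs hpos 0 hcon
  have h1 : Z.card < p := by
    have hsub : Z ⊆ (fib f univ 0).erase 0 := by
      intro z hz
      rw [mem_erase, mem_fib]
      refine ⟨?_, mem_univ _, hZf z hz⟩
      rintro rfl
      exact h0 (hZs hz)
    have h2 := card_le_card hsub
    rw [card_erase_of_mem (by rw [mem_fib]; exact ⟨mem_univ _, map_zero f⟩), hf.card_fib] at h2
    have := hf.pos
    omega
  omega

end basics

section quot

variable {X : Type} [AddCommGroup X] [Fintype X] [DecidableEq X]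

lemma mk_nice (H : AddSubgroup X) (Z : Type) [AddCommGroup Z] [Fintype Z] [DecidableEq Z]
    (f : X →+ Z) (hsurj : Function.Surjective f) (hker : ∀ x, f x = 0 ↔ x ∈ H) :
    Nice f (Nat.card H) := by
  refine ⟨Nat.card_pos, ?_⟩
  intro c
  obtain ⟨x, rfl⟩ := hsurj c
  classical
  rw [Nat.card_eq_fintype_card, ← card_univ]
  symm
  apply card_bij (fun (h : H) _ => x + h)
  · intro h _
    rw [mem_fib]
    refine ⟨mem_univ _, ?_⟩
    rw [map_add, (hker h).mpr h.2, add_zero]
  · intro h _ h' _ hh
    exact Subtype.ext (add_left_cancel hh)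
  · intro z hz
    rw [mem_fib] at hz
    refine ⟨⟨-x + z, ?_⟩, mem_univ _, by simp⟩
    rw [← hker, map_add, map_neg, hz.2]
    abel

/-- Existence of quotients. -/
lemma exists_quot (H : AddSubgroup X) : ∃ (Z : Type) (_ : AddCommGroup Z) (_ : Fintype Z)
    (_ : DecidableEq Z) (f : X →+ Z), Function.Surjective f ∧ (∀ x, f x = 0 ↔ x ∈ H) ∧
    Nice f (Nat.card H) := by
  have h1 : ∀ x, QuotientAddGroup.mk' H x = 0 ↔ x ∈ H := by
    intro x
    rw [← AddMonoidHom.mem_ker, QuotientAddGroup.ker_mk']
  let i1 : Fintype (X ⧸ H) := Fintype.ofFinite _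
  let i2 : DecidableEq (X ⧸ H) := Classical.decEq _
  exact ⟨X ⧸ H, inferInstance, i1, i2, QuotientAddGroup.mk' H,
    QuotientAddGroup.mk'_surjective H, h1,
    mk_nice H (X ⧸ H) (QuotientAddGroup.mk' H) (QuotientAddGroup.mk'_surjective H) h1⟩

end quot

end Pool.Agent.H59.KG
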