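import Mathlib
import Pool.Agent.H59.KG1

set_option autoImplicit false

open Finset Pointwise

namespace Pool.Agent.H59.KG

open Pool.Agent.H59.Kneser

/-- All prime factors of `κ` are `1` mod `s`. -/
structure Pure (s κ : ℕ) : Prop where
  ne : κ ≠ 0
  pr : ∀ q : ℕ, q.Prime → q ∣ κ → q % s = 1

lemma mod_one_of_primes (s : ℕ) (hs : 2 ≤ s) (n : ℕ) (hn : n ≠ 0)
    (h : ∀ q : ℕ, q.Prime → q ∣ n → q % s = 1) : n % s = 1 := by
  induction n using Nat.recOnMul with
  | zero => exact absurd rfl hn
  | one => exact Nat.mod_eq_of_lt (by omega)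
  | prime p hp => exact h p hp dvd_rfl
  | mul a b ha hb =>
    have ha0 : a ≠ 0 := fun h => hn (by rw [h, zero_mul])
    have hb0 : b ≠ 0 := fun h => hn (by rw [h, mul_zero])
    have h1 := ha ha0 (fun q hq hqa => h q hq (hqa.mul_right b))
    have h2 := hb hb0 (fun q hq hqb => h q hq (hqb.mul_left a))
    rw [Nat.mul_mod, h1, h2, mul_one]
    exact Nat.mod_eq_of_lt (by omega)

lemma mod_one_ge (s n : ℕ) (hs : 2 ≤ s) (h : n % s = 1) (hn : n ≠ 1) : s + 1 ≤ n := by
  by_contra hcon
  have h1 : n ≤ s := by omega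
  rcases Nat.lt_or_ge n s with h2 | h2
  · rw [Nat.mod_eq_of_lt h2] at h
    exact hn h
  · have : n = s := by omega
    rw [this, Nat.mod_self] at h
    omega

lemma prime_dvd_of_killed {X : Type*} [AddCommGroup X] [Fintype X] (κ : ℕ)
    (hX : ∀ x : X, κ • x = 0) (q : ℕ) (hq : q.Prime) (hqX : q ∣ Fintype.card X) : q ∣ κ := by
  have : Fact q.Prime := ⟨hq⟩
  obtain ⟨x, hx⟩ := exists_prime_addOrderOf_dvd_card q hqX
  rw [← hx]
  exact addOrderOf_dvd_of_nsmul_eq_zero (hX x)

lemma card_mod {X : Type*} [AddCommGroup X] [Fintype X] (s κ : ℕ) (hs : 2 ≤ s) (hκ : Pure s κ)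
    (hX : ∀ x : X, κ • x = 0) : Fintype.card X % s = 1 :=
  mod_one_of_primes s hs _ Fintype.card_ne_zero
    (fun q hq h => hκ.pr q hq (prime_dvd_of_killed κ hX q hq h))

lemma killed_of_surj {X Y : Type*} [AddCommGroup X] [AddCommGroup Y] (κ : ℕ) (f : X →+ Y)
    (hf : Function.Surjective f) (hX : ∀ x : X, κ • x = 0) (y : Y) : κ • y = 0 := by
  obtain ⟨x, rfl⟩ := hf y
  rw [← map_nsmul, hX, map_zero]

section lp

variable {X Y : Type*} [AddCommGroup X] [AddCommGroup Y] [Fintype X] [Fintype Y]
  [DecidableEq X] [DecidableEq Y]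

lemma noz_round {f : X →+ Y} {h : ℕ} (hf : Nice f h) (a b : ℕ) (V W : Finset X)
    (hVW : V ⊆ W) (hZ : NoZ a b V W) (i j : ℕ) (hi : 1 ≤ i) (hj : 1 ≤ j) (hij : h + 1 ≤ i + j) :
    NoZ a b (lev f V i ∩ lev f W j) (lev f V i ∪ lev f W j) := by
  have hsub : lev f V i ∪ lev f W j ⊆ W.image f := by
    rw [← lev_one]
    exact union_subset (lev_mono f hVW hi) (lev_mono f subset_rfl hj)
  constructor
  · rw [R_succ_left, mem_add]
    rintro ⟨c₁, hc₁, z, hz, hsum⟩
    rw [mem_add] at hz
    obtain ⟨c₂, hc₂, r, hr, rfl⟩ := hz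
    have hr' : r ∈ (R a (b + 1) W).image f := by
      rw [image_R]
      exact R_mono _ _ hsub hr
    have h0 : (0 : X) ∉ V + (W + R a (b + 1) W) := by
      rw [← R_succ_left]; exact hZ.1
    have hp := pigeon hf V W (R a (b + 1) W) i j hij h0
    rw [mem_inter] at hc₁
    rw [mem_union] at hc₂
    rcases hc₂ with hc₂ | hc₂
    · apply hp
      rw [← hsum, mem_add]
      exact ⟨c₂, hc₂, c₁ + r, add_mem_add hc₁.2 hr', by abel⟩
    · apply hp
      rw [← hsum, mem_add]
      exact ⟨c₁, hc₁.1, c₂ + r, add_mem_add hc₂ hr', by abel⟩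
  · rw [R_succ_left, mem_add]
    rintro ⟨c₁, hc₁, z, hz, hsum⟩
    rw [mem_add] at hz
    obtain ⟨c₂, hc₂, r, hr, rfl⟩ := hz
    have hr' : r ∈ (R (a + 1) b W).image f := by
      rw [image_R]
      exact R_mono _ _ hsub hr
    rw [mem_neg', mem_inter] at hc₁
    rw [mem_union] at hc₂
    rcases hc₂ with hc₂ | hc₂
    · have h0 : (0 : X) ∉ V + ((-W) + R (a + 1) b W) := by
        rw [← R_succ_right]; exact hZ.1
      have hp := pigeon hf V (-W) (R (a + 1) b W) i j hij h0
      apply hp
      rw [← hsum, mem_add]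
      refine ⟨c₂, hc₂, c₁ + r, add_mem_add ?_ hr', by abel⟩
      rw [lev_neg, mem_neg']
      exact hc₁.2
    · have h0 : (0 : X) ∉ (-V) + (W + R (a + 1) b W) := by
        rw [← R_succ_left]; exact hZ.2
      have hp := pigeon hf (-V) W (R (a + 1) b W) i j hij h0
      apply hp
      rw [← hsum, mem_add]
      refine ⟨c₁, ?_, c₂ + r, add_mem_add hc₂ hr', by abel⟩
      rw [lev_neg, mem_neg']
      exact hc₁.1

lemma sum_reflect (h : ℕ) (g : ℕ → ℕ) : ∑ θ ∈ Icc 1 h, g (h + 1 - θ) = ∑ j ∈ Icc 1 h, g j := by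
  apply sum_bij' (fun θ _ => h + 1 - θ) (fun θ _ => h + 1 - θ)
  · intro θ hθ; rw [mem_Icc] at *; omega
  · intro θ hθ; rw [mem_Icc] at *; omega
  · intro θ hθ; rw [mem_Icc] at hθ; omega
  · intro θ hθ; rw [mem_Icc] at hθ; omega
  · intro θ hθ; rfl

/-- The rounding lemma. -/
lemma flat_of_large {f : X →+ Y} {h : ℕ} (hf : Nice f h) (a b κ : ℕ) (V W : Finset X)
    (hVW : V ⊆ W) (hZ : NoZ a b V W)
    (hY : ∀ V W : Finset Y, V ⊆ W → V.Nonempty → NoZ a b V W →
      (a + b + 3) * κ * (V.card + W.card) + 2 * Fintype.card Y ≤ 2 * κ * Fintype.card Y)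
    (hlarge : 2 * κ * Fintype.card X < (a + b + 3) * κ * (V.card + W.card) +
      2 * Fintype.card X) :
    2 * κ * Fintype.card Y < (a + b + 3) * κ * (W.image f).card + 2 * Fintype.card Y := by
  by_contra hflat
  push Not at hflat
  have key : ∀ θ ∈ Icc 1 h, (a + b + 3) * κ * ((lev f V θ).card + (lev f W (h + 1 - θ)).card) +
      2 * Fintype.card Y ≤ 2 * κ * Fintype.card Y := by
    intro θ hθ
    rw [mem_Icc] at hθ
    have hj : 1 ≤ h + 1 - θ := by omega
    have hc := card_union_add_card_inter (lev f V θ) (lev f W (h + 1 - θ))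
    rcases (lev f V θ ∩ lev f W (h + 1 - θ)).eq_empty_or_nonempty with he | hne
    · rw [he, card_empty, add_zero] at hc
      rw [← hc]
      have hsub : lev f V θ ∪ lev f W (h + 1 - θ) ⊆ W.image f := by
        rw [← lev_one]
        exact union_subset (lev_mono f hVW hθ.1) (lev_mono f subset_rfl hj)
      have h1 := card_le_card hsub
      have h2 : (a + b + 3) * κ * (lev f V θ ∪ lev f W (h + 1 - θ)).card ≤
        (a + b + 3) * κ * (W.image f).card := Nat.mul_le_mul_left _ h1
      omega
    · have h1 := hY _ _ (inter_subset_union) hne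
        (noz_round hf a b V W hVW hZ θ (h + 1 - θ) hθ.1 hj (by omega))
      have h2 : (lev f V θ).card + (lev f W (h + 1 - θ)).card =
        (lev f V θ ∩ lev f W (h + 1 - θ)).card + (lev f V θ ∪ lev f W (h + 1 - θ)).card := by
        omega
      rw [h2]
      exact h1
  have hs := sum_le_sum key
  rw [sum_add_distrib, ← mul_sum, sum_add_distrib, sum_lev f V h (hf.fib_le V),
    sum_reflect h (fun j => (lev f W j).card), sum_lev f W h (hf.fib_le W), sum_const, sum_const,
    Nat.card_Icc, smul_eq_mul, smul_eq_mul, Nat.add_sub_cancel] at hs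
  rw [hf.card] at hlarge
  have e1 : h * (2 * Fintype.card Y) = 2 * (Fintype.card Y * h) := by ring
  have e2 : h * (2 * κ * Fintype.card Y) = 2 * κ * (Fintype.card Y * h) := by ring
  omega

/-- Cardinality of periodic sets. -/
lemma card_add_ker {f : X →+ Y} {h : ℕ} (hf : Nice f h) (K : Finset X)
    (hK : ∀ x, f x = 0 ↔ x ∈ K) (B : Finset X) : (B + K).card = (B.image f).card * h := by
  have h1 : B + K = univ.filter (fun x => f x ∈ B.image f) := by
    ext x
    rw [mem_add, mem_filter, mem_image]
    constructor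
    · rintro ⟨y, hy, z, hz, rfl⟩
      exact ⟨mem_univ _, y, hy, by rw [map_add, (hK z).mpr hz, add_zero]⟩
    · rintro ⟨-, y, hy, hyx⟩
      exact ⟨y, hy, x - y, (hK _).mp (by rw [map_sub, hyx, sub_self]), by abel⟩
  rw [h1, card_eq_sum_card_fiberwise (f := f) (t := B.image f) (by
    intro x hx
    rw [mem_coe, mem_filter] at hx
    exact hx.2)]
  have h2 : ∀ c ∈ B.image f, (filter (fun x => f x = c)
      (univ.filter (fun x => f x ∈ B.image f))).card = h := by
    intro c hc
    rw [← hf.card_fib c]
    congr 1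
    ext x
    rw [mem_filter, mem_filter, mem_fib]
    constructor
    · rintro ⟨_, h3⟩; exact ⟨mem_univ _, h3⟩
    · rintro ⟨_, h3⟩; exact ⟨⟨mem_univ _, h3 ▸ hc⟩, h3⟩
  rw [sum_congr rfl h2, sum_const, smul_eq_mul]

end lp

section kn

variable {X : Type} [AddCommGroup X] [Fintype X] [DecidableEq X]

lemma card_stab (S : Finset X) : Nat.card (stab S) = (st S).card := by
  have : Nat.card (stab S) = Nat.card (st S : Set X) := rfl
  rw [this, Nat.card_coe_set_eq, Set.ncard_coe_finset]

lemma neg_add_st (S W : Finset X) : (-W + st S).card = (W + st S).card := by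
  have : -W + st S = -(W + st S) := by
    ext x
    rw [mem_neg', mem_add, mem_add]
    constructor
    · rintro ⟨y, hy, z, hz, rfl⟩
      exact ⟨-y, mem_neg'.mp hy, -z, neg_mem_st _ _ hz, by abel⟩
    · rintro ⟨y, hy, z, hz, hyz⟩
      refine ⟨-y, by rw [mem_neg', neg_neg]; exact hy, -z, neg_mem_st _ _ hz, ?_⟩
      rw [← neg_neg x, ← hyz]; abel
  rw [this, card_neg]

lemma sum_replicate_map (m n : ℕ) (S W : Finset X) :
    ((List.replicate m W ++ List.replicate n (-W)).map (fun Z => (Z + st S).card)).sum =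
      (m + n) * (W + st S).card := by
  rw [List.map_append, List.map_replicate, List.map_replicate, List.sum_append,
    List.sum_replicate, List.sum_replicate, neg_add_st, smul_eq_mul, smul_eq_mul, add_mul]

/-- Kneser's theorem for `V + R m n W`. -/
lemma kneser_R1 (m n : ℕ) (V W : Finset X) (hV : V.Nonempty) (hW : W.Nonempty)
    (h0 : (0 : X) ∉ V + R m n W) :
    (V + st (V + R m n W)).card + (m + n) * (W + st (V + R m n W)).card +
      2 * (st (V + R m n W)).card ≤ Fintype.card X + (m + n + 1) * (st (V + R m n W)).card := by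
  have h1 := kneser_list _ (V :: (List.replicate m W ++ List.replicate n (-W))) rfl (by simp)
    (by
      intro Z hZ
      simp only [List.mem_cons, List.mem_append, List.mem_replicate] at hZ
      rcases hZ with rfl | ⟨_, rfl⟩ | ⟨_, rfl⟩
      · exact hV
      · exact hW
      · exact hW.neg)
  rw [List.map_cons, List.sum_cons, List.sum_cons, List.length_cons, List.length_append,
    List.length_replicate, List.length_replicate, sum_replicate_map] at h1
  change _ ≤ (V + R m n W).card + _ at h1
  have h2 : (V + R m n W).card + (st (V + R m n W)).card ≤ Fintype.card X := by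
    rw [← card_univ, ← card_union_of_disjoint]
    · exact card_le_card (subset_univ _)
    · rw [Finset.disjoint_left]
      intro x hx hx'
      apply h0
      have := (mem_st _ _).mp (neg_mem_st _ _ hx') x hx
      rwa [neg_add_cancel] at this
  change (V + st (V + R m n W)).card + (m + n) * (W + st (V + R m n W)).card +
    (st (V + R m n W)).card ≤ (V + R m n W).card + (m + n + 1) * (st (V + R m n W)).card at h1
  omega

/-- Kneser's theorem for `V + (U + R m n W)`. -/
lemma kneser_R2 (m n : ℕ) (V U W : Finset X) (hV : V.Nonempty) (hU : U.Nonempty)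
    (hW : W.Nonempty) (S : Finset X) (hS : S = V + (U + R m n W)) (h0 : (0 : X) ∉ S) :
    (V + st S).card + (U + st S).card + (m + n) * (W + st S).card +
      2 * (st S).card ≤ Fintype.card X + (m + n + 2) * (st S).card := by
  have h1 := kneser_list _ (V :: U :: (List.replicate m W ++ List.replicate n (-W))) rfl (by simp)
    (by
      intro Z hZ
      simp only [List.mem_cons, List.mem_append, List.mem_replicate] at hZ
      rcases hZ with rfl | rfl | ⟨_, rfl⟩ | ⟨_, rfl⟩
      · exact hV
      · exact hU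
      · exact hW
      · exact hW.neg)
  rw [List.map_cons, List.sum_cons, List.map_cons, List.sum_cons, List.sum_cons, List.sum_cons,
    List.length_cons, List.length_cons, List.length_append,
    List.length_replicate, List.length_replicate, sum_replicate_map] at h1
  have hS' : V + (U + (List.replicate m W ++ List.replicate n (-W)).sum) = S := hS.symm
  rw [hS'] at h1
  have h2 : S.card + (st S).card ≤ Fintype.card X := by
    rw [← card_univ, ← card_union_of_disjoint]
    · exact card_le_card (subset_univ _)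
    · rw [Finset.disjoint_left]
      intro x hx hx'
      apply h0
      have := (mem_st _ _).mp (neg_mem_st _ _ hx') x hx
      rwa [neg_add_cancel] at this
  have e : (m + n + 1 + 1) * (st S).card = (m + n + 2) * (st S).card := by ring
  rw [e] at h1
  omega

/-- The inductive hypothesis. -/
def IH (a b κ N : ℕ) : Prop := ∀ (Y : Type) [AddCommGroup Y] [Fintype Y] [DecidableEq Y],
  (∀ y : Y, κ • y = 0) → Fintype.card Y < N → ∀ V W : Finset Y, V ⊆ W → V.Nonempty →
    NoZ a b V W → (a + b + 3) * κ * (V.card + W.card) + 2 * Fintype.card Y ≤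
      2 * κ * Fintype.card Y

lemma ar1 (s κ y w : ℤ) (hs : 4 ≤ s) (hκ : s + 1 ≤ κ) (hy : s + 1 ≤ y)
    (h1 : 1 + (s - 1) * w ≤ y + s - 2) (h2 : 2 * κ * y < s * κ * w + 2 * y) : False := by
  have h3 : (s - 1) * (2 * κ * y - 2 * y) < (s - 1) * (s * κ * w) := by
    apply mul_lt_mul_of_pos_left (by linarith) (by linarith)
  have h4 : s * κ * ((s - 1) * w) ≤ s * κ * (y + s - 3) := by
    apply mul_le_mul_of_nonneg_left (by linarith) (mul_nonneg (by linarith) (by linarith))
  have h5 : y * ((s - 2) * κ - (2 * s - 2)) < s * κ * (s - 3) := by linarith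
  have h6 : (0 : ℤ) ≤ (s - 2) * κ - (2 * s - 2) := by nlinarith
  have h7 : (s + 1) * ((s - 2) * κ - (2 * s - 2)) ≤ y * ((s - 2) * κ - (2 * s - 2)) :=
    mul_le_mul_of_nonneg_right hy h6
  have h8 : (2 * s - 2) * κ < (2 * s - 2) * (s + 1) := by linarith
  have h9 := lt_of_mul_lt_mul_left h8 (by linarith)
  linarith

/-- In a minimal counterexample the sumsets are aperiodic. -/
lemma aperiodic (a b κ : ℕ) (hs : 4 ≤ a + b + 3) (hκ : Pure (a + b + 3) κ)
    (hκ1 : a + b + 4 ≤ κ) (hX : ∀ x : X, κ • x = 0) (hIH : IH a b κ (Fintype.card X))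
    (V W : Finset X) (hVW : V ⊆ W) (hV : V.Nonempty) (hZ : NoZ a b V W)
    (hlarge : 2 * κ * Fintype.card X < (a + b + 3) * κ * (V.card + W.card) +
      2 * Fintype.card X) :
    V.card + (a + b + 2) * W.card ≤ Fintype.card X + (a + b + 1) := by
  have hW : W.Nonempty := hV.mono hVW
  have hk := kneser_R1 (a + 1) (b + 1) V W hV hW hZ.1
  set S := V + R (a + 1) (b + 1) W with hS
  have hSn : S.Nonempty := hV.add (R_nonempty _ _ _ hW)
  by_cases htriv : (st S).card = 1
  · have hst : st S = {0} := by
      rw [card_eq_one] at htriv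
      obtain ⟨x, hx⟩ := htriv
      have h0 : (0 : X) ∈ st S := zero_mem_st _
      rw [hx, mem_singleton] at h0
      rw [hx, h0]
    have e0 : ∀ B : Finset X, B + {0} = B := by
      intro B
      have : ({0} : Finset X) = 0 := rfl
      rw [this, add_zero]
    rw [hst, e0, e0, card_singleton] at hk
    have e : (a + 1 + (b + 1)) * W.card = (a + b + 2) * W.card := by ring
    rw [e] at hk
    omega
  · exfalso
    obtain ⟨Y, i1, i2, i3, f, hsurj, hker, hnice⟩ := exists_quot (stab S)
    rw [card_stab] at hnice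
    have hker' : ∀ x, f x = 0 ↔ x ∈ st S := hker
    have h1 : 1 ≤ (st S).card := hnice.pos
    have hcardX := hnice.card
    have hYpos : 0 < Fintype.card Y := Fintype.card_pos
    have hYlt : Fintype.card Y < Fintype.card X := by
      rw [hcardX]
      have : 2 ≤ (st S).card := by omega
      nlinarith
    have hYk := killed_of_surj κ f hsurj hX
    have hflat := flat_of_large hnice a b κ V W hVW hZ
      (fun V' W' => hIH Y hYk hYlt V' W') hlarge
    rw [card_add_ker hnice _ hker', card_add_ker hnice _ hker', hcardX] at hk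
    have hYne1 : Fintype.card Y ≠ 1 := by
      intro h
      obtain ⟨x, hx⟩ := hSn
      have hsub : Subsingleton Y := Fintype.card_le_one_iff_subsingleton.mp (by omega)
      have h2 : -x ∈ st S := (hker' _).mp (Subsingleton.elim _ _)
      have := (mem_st _ _).mp h2 x hx
      rw [neg_add_cancel] at this
      exact hZ.1 this
    have hmod := card_mod (a + b + 3) κ (by omega) hκ hYk
    have hy : a + b + 4 ≤ Fintype.card Y := by
      have := mod_one_ge (a + b + 3) (Fintype.card Y) (by omega) hmod hYne1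
      omega
    have hVi : 1 ≤ (V.image f).card := (hV.image f).card_pos
    have hk2 : ((V.image f).card + (a + b + 2) * (W.image f).card) * (st S).card ≤
        (Fintype.card Y + (a + b + 1)) * (st S).card := by
      linarith
    have hk3 := Nat.le_of_mul_le_mul_right hk2 h1
    apply ar1 (a + b + 3 : ℤ) κ (Fintype.card Y) (W.image f).card
    · exact_mod_cast hs
    · have : ((a + b + 4 : ℕ) : ℤ) ≤ κ := by exact_mod_cast hκ1
      push_cast at this
      linarith
    · have : ((a + b + 4 : ℕ) : ℤ) ≤ Fintype.card Y := by exact_mod_cast hy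
      push_cast at this
      linarith
    · have : (((V.image f).card + (a + b + 2) * (W.image f).card : ℕ) : ℤ) ≤
        ((Fintype.card Y + (a + b + 1) : ℕ) : ℤ) := by exact_mod_cast hk3
      push_cast at this
      have h5 : (1 : ℤ) ≤ (V.image f).card := by exact_mod_cast hVi
      linarith
    · have : ((2 * κ * Fintype.card Y : ℕ) : ℤ) <
        (((a + b + 3) * κ * (W.image f).card + 2 * Fintype.card Y : ℕ) : ℤ) := by
        exact_mod_cast hflat
      push_cast at this
      linarith

end kn

end Pool.Agent.H59.KG
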