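import Mathlib
import Pool.Agent.H59.KG2

set_option autoImplicit false

open Finset Pointwise

namespace Pool.Agent.H59.KG

open Pool.Agent.H59.Kneser

section thr

variable {X Y : Type*} [AddCommGroup X] [AddCommGroup Y] [Fintype X] [Fintype Y]
  [DecidableEq X] [DecidableEq Y]

lemma thr1 {f : X →+ Y} {p : ℕ} (hf : Nice f p) (hp : p.Prime)
    (hker : ∀ g, f g = 0 → p • g = 0) (m n : ℕ) (V U W : Finset X) (i j M : ℕ) (hi : 1 ≤ i)
    (hj : 1 ≤ j) (hM : 1 ≤ M) (h0 : (0 : X) ∉ V + (U + R m n W))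
    (hbig : p + (m + n + 2) ≤ i + j + (m + n) * M + 1) :
    (0 : Y) ∉ lev f V i + (lev f U j + R m n (lev f W M)) := by
  have h := threshold hf hp hker
    ((V, i) :: (U, j) :: (List.replicate m (W, M) ++ List.replicate n (-W, M)))
    (by
      intro q hq
      simp only [List.mem_cons, List.mem_append, List.mem_replicate] at hq
      rcases hq with rfl | rfl | ⟨_, rfl⟩ | ⟨_, rfl⟩ <;> assumption)
    (by
      rw [List.map_cons, List.map_cons, List.map_append, List.map_replicate, List.map_replicate,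
        List.sum_cons, List.sum_cons]
      exact h0)
    (by
      rw [List.map_cons, List.map_cons, List.map_append, List.map_replicate, List.map_replicate,
        List.sum_cons, List.sum_cons, List.sum_append, List.sum_replicate, List.sum_replicate,
        List.length_cons, List.length_cons, List.length_append, List.length_replicate,
        List.length_replicate]
      simp only [smul_eq_mul]
      rw [add_mul] at hbig
      omega)
  rw [List.map_cons, List.map_cons, List.map_append, List.map_replicate, List.map_replicate,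
    List.sum_cons, List.sum_cons] at h
  simp only [lev_neg] at h
  exact h

lemma noz_lev {f : X →+ Y} {p : ℕ} (hf : Nice f p) (hp : p.Prime)
    (hker : ∀ g, f g = 0 → p • g = 0) (a b : ℕ) (V W : Finset X) (hZ : NoZ a b V W) (j : ℕ)
    (hj : 1 ≤ j) (hbig : p + (a + b + 3) ≤ (a + b + 3) * j + 1) :
    NoZ a b (lev f V j) (lev f W j) := by
  constructor
  · rw [R_succ_left]
    apply thr1 hf hp hker a (b + 1) V W W j j j hj hj hj
    · rw [← R_succ_left]; exact hZ.1
    · have e : (a + b + 3) * j = j + j + (a + (b + 1)) * j := by ring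
      omega
  · rw [R_succ_left, ← lev_neg]
    apply thr1 hf hp hker (a + 1) b (-V) W W j j j hj hj hj
    · rw [← R_succ_left]; exact hZ.2
    · have e : (a + b + 3) * j = j + j + (a + 1 + b) * j := by ring
      omega

lemma disj_card (A B D : Finset Y) (hD : D.Nonempty) (h0 : (0 : Y) ∉ A + (B + D)) :
    A.card + B.card ≤ Fintype.card Y := by
  obtain ⟨r, hr⟩ := hD
  have hdisj : Disjoint (A.image (fun c => -r - c)) B := by
    rw [Finset.disjoint_left]
    intro z hz hz2
    rw [mem_image] at hz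
    obtain ⟨x, hx, rfl⟩ := hz
    apply h0
    rw [mem_add]
    exact ⟨x, hx, -r - x + r, add_mem_add hz2 hr, by abel⟩
  have h1 : (A.image (fun c => -r - c)).card = A.card := card_image_of_injective _ (by
    intro x y hxy
    exact sub_right_inj.mp hxy)
  rw [← h1, ← card_union_of_disjoint hdisj, ← card_univ]
  exact card_le_card (subset_univ _)

omit [AddCommGroup X] [AddCommGroup Y] [Fintype X] [DecidableEq X] in
lemma sum_ite_lev (f : X → Y) (B : Finset X) (j x : ℕ) :
    ∑ c, (if j ≤ (fib f B c).card then x else 0) = x * (lev f B j).card := by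
  rw [← sum_filter, sum_const, smul_eq_mul, mul_comm]
  rfl

omit [AddCommGroup X] [AddCommGroup Y] [Fintype X] [DecidableEq X] in
lemma lev_bound (f : X → Y) (B : Finset X) (e d : ℕ)
    (hmax : ∀ c, (fib f B c).card ≤ e + 2 * d + 1) :
    B.card ≤ e * Fintype.card Y + d * (lev f B (e + 1)).card +
      (d + 1) * (lev f B (e + d + 1)).card := by
  rw [← sum_fib f B, ← sum_ite_lev, ← sum_ite_lev, ← card_univ, mul_comm e, ← smul_eq_mul,
    ← sum_const, ← sum_add_distrib, ← sum_add_distrib]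
  apply sum_le_sum
  intro c _
  have := hmax c
  split_ifs <;> omega

omit [AddCommGroup X] [AddCommGroup Y] [Fintype X] [DecidableEq X] in
lemma lev_bound2 (f : X → Y) (B : Finset X) (q M : ℕ) (hqM : q ≤ M)
    (hmax : ∀ c, (fib f B c).card ≤ M) :
    B.card ≤ q * (lev f B 1).card + (M - q) * (lev f B (q + 1)).card := by
  rw [← sum_fib f B, ← sum_ite_lev, ← sum_ite_lev, ← sum_add_distrib]
  apply sum_le_sum
  intro c _
  have := hmax c
  split_ifs <;> omega

end thr

section arith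

lemma ar2 (s κ q d y S σ : ℤ) (hs : 4 ≤ s) (hq : 1 ≤ q) (hd : 1 ≤ d) (hy : 1 ≤ y)
    (hκ : s * q + 1 ≤ κ) (h1 : 2 * κ * (y * (s * q + 1)) < s * κ * S + 2 * (y * (s * q + 1)))
    (h2 : S ≤ (2 * q - d) * y + (d + 1) * σ) (h3 : s * κ * σ + 2 * y ≤ 2 * κ * y) : False := by
  have hκ0 : 0 < κ := by nlinarith
  have h4 : s * κ * S ≤ s * κ * ((2 * q - d) * y + (d + 1) * σ) :=
    mul_le_mul_of_nonneg_left h2 (mul_nonneg (by linarith) hκ0.le)
  have h5 : (d + 1) * (s * κ * σ) ≤ (d + 1) * (2 * κ * y - 2 * y) :=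
    mul_le_mul_of_nonneg_left (by linarith) (by linarith)
  have h6 : y * (2 * κ * (s * q + 1)) <
      y * (s * κ * (2 * q - d) + (d + 1) * (2 * κ - 2) + 2 * (s * q + 1)) := by linarith
  have h7 := lt_of_mul_lt_mul_left h6 (by linarith)
  have h8 : (s - 2) * (κ * d) < 2 * s * q - 2 * d := by linarith
  have h9 : κ * 1 ≤ κ * d := mul_le_mul_of_nonneg_left hd hκ0.le
  have h10 : 2 * (κ * d) ≤ (s - 2) * (κ * d) :=
    mul_le_mul_of_nonneg_right (by linarith) (by linarith)
  linarith

lemma ar3 (s κ y w : ℤ) (hs : 5 ≤ s) (hκ : (s + 1) * (s + 1) ≤ κ) (hy : s + 1 ≤ y)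
    (h1 : 2 + (s - 2) * w ≤ y + s - 2) (h2 : 2 * κ * y < s * κ * w + 2 * y) : False := by
  have hκ0 : 0 < κ := by nlinarith
  have h3 : (s - 2) * (2 * κ * y - 2 * y) < (s - 2) * (s * κ * w) := by
    apply mul_lt_mul_of_pos_left (by linarith) (by linarith)
  have h4 : s * κ * ((s - 2) * w) ≤ s * κ * (y + s - 4) := by
    apply mul_le_mul_of_nonneg_left (by linarith) (mul_nonneg (by linarith) hκ0.le)
  have h5 : y * ((s - 4) * κ - (2 * s - 4)) < s * κ * (s - 4) := by linarith
  have h6 : (0 : ℤ) ≤ (s - 4) * κ - (2 * s - 4) := by nlinarith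
  have h7 : (s + 1) * ((s - 4) * κ - (2 * s - 4)) ≤ y * ((s - 4) * κ - (2 * s - 4)) :=
    mul_le_mul_of_nonneg_right hy h6
  have h8 : (s - 4) * κ < (s + 1) * (2 * s - 4) := by linarith
  have h9 : (s - 4) * ((s + 1) * (s + 1)) ≤ (s - 4) * κ :=
    mul_le_mul_of_nonneg_left hκ (by linarith)
  have h10 : (s + 1) * ((s - 4) * (s + 1)) < (s + 1) * (2 * s - 4) := by linarith
  have h11 := lt_of_mul_lt_mul_left h10 (by linarith)
  nlinarith

lemma ar4 (κ q d y v x : ℤ) (hq : 1 ≤ q) (hd0 : 0 ≤ d) (hd : d ≤ q) (hy : 1 ≤ y)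
    (hκ : 5 * (4 * q + 1) ≤ κ) (h1 : 2 * v ≤ d * y + 2 * (4 * q + 1 - 2 * d) * x)
    (h2 : κ * x < 3 * y) (h3 : q * y < v) : False := by
  have hκ0 : 0 < κ := by linarith
  have h4 : κ * (2 * v) ≤ κ * (d * y + 2 * (4 * q + 1 - 2 * d) * x) :=
    mul_le_mul_of_nonneg_left h1 hκ0.le
  have h5 : 2 * (4 * q + 1 - 2 * d) * (κ * x) ≤ 2 * (4 * q + 1 - 2 * d) * (3 * y) :=
    mul_le_mul_of_nonneg_left h2.le (by linarith)
  have h6 : κ * (q * y) < κ * v := mul_lt_mul_of_pos_left h3 hκ0
  have h7 : y * (2 * κ * q) < y * (κ * d + 6 * (4 * q + 1 - 2 * d)) := by linarith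
  have h8 := lt_of_mul_lt_mul_left h7 (by linarith)
  have h9 : (κ - 12) * d ≤ (κ - 12) * q := mul_le_mul_of_nonneg_left hd (by linarith)
  have h10 : q * (κ - 18) < 0 := by nlinarith
  have h11 : 0 ≤ q * (κ - 18) := mul_nonneg (by linarith) (by linarith)
  linarith

lemma ar5 (s κ' q y v w : ℤ) (hs : 4 ≤ s) (hq : 1 ≤ q) (hκ : s + 1 ≤ κ')
    (hy : (s - 2) * (s + 1) ≤ y * (s - 3))
    (h1 : 2 * ((s * q + 1) * κ') * (y * (s * q + 1)) <
      s * ((s * q + 1) * κ') * (v + w) + 2 * (y * (s * q + 1)))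
    (h2 : v + (s - 1) * w ≤ y * (s * q + 1) + (s - 2)) : q * y < v := by
  by_contra hcon
  push Not at hcon
  have hp : 0 < s * q + 1 := by nlinarith
  have hys : s ≤ y := by
    by_contra hc
    push Not at hc
    nlinarith
  have hκ0 : 0 < (s * q + 1) * κ' := mul_pos hp (by linarith)
  have h3 : (s - 1) * (v + w) ≤ y * (s * q + 1) + (s - 2) + (s - 2) * (q * y) := by nlinarith
  have h4 : s * ((s * q + 1) * κ') * ((s - 1) * (v + w)) ≤
      s * ((s * q + 1) * κ') * (y * (s * q + 1) + (s - 2) + (s - 2) * (q * y)) :=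
    mul_le_mul_of_nonneg_left h3 (mul_nonneg (by linarith) hκ0.le)
  have h5 : (s - 1) * (2 * ((s * q + 1) * κ') * (y * (s * q + 1)) - 2 * (y * (s * q + 1))) <
      (s - 1) * (s * ((s * q + 1) * κ') * (v + w)) :=
    mul_lt_mul_of_pos_left (by linarith) (by linarith)
  have h6 : (s * q + 1) * (κ' * (s - 2) * (y - s)) < (s * q + 1) * ((2 * s - 2) * y) := by
    linarith
  have h7 := lt_of_mul_lt_mul_left h6 hp.le
  have h8 : (s + 1) * ((s - 2) * (y - s)) ≤ κ' * ((s - 2) * (y - s)) :=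
    mul_le_mul_of_nonneg_right hκ (mul_nonneg (by linarith) (by linarith))
  have h9 : s * (y * (s - 3)) < s * ((s - 2) * (s + 1)) := by nlinarith
  have h10 := lt_of_mul_lt_mul_left h9 (by linarith)
  linarith

end arith

end Pool.Agent.H59.KG
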