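import Mathlib
import Pool.Agent.H59.KG3

set_option autoImplicit false

open Finset Pointwise

namespace Pool.Agent.H59.KG

open Pool.Agent.H59.Kneser

/-- Kneser's theorem applied to a pair of level sets and the support. -/
lemma kneser_levels {Y : Type} [AddCommGroup Y] [Fintype Y] [DecidableEq Y]
    (a b κ : ℕ) (hs : 4 ≤ a + b + 3) (hκ : Pure (a + b + 3) κ)
    (hκ1 : (a + b + 4) * (a + b + 4) ≤ κ) (hY : ∀ x : Y, κ • x = 0)
    (A B W : Finset Y) (hA : A.Nonempty) (hB : B.Nonempty) (hW : W.Nonempty)
    (h0 : (0 : Y) ∉ A + (B + R a (b + 1) W))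
    (hflat : 2 * κ * Fintype.card Y < (a + b + 3) * κ * W.card + 2 * Fintype.card Y) :
    a + b + 3 = 4 ∧ κ * (A.card + B.card) < 3 * Fintype.card Y := by
  have hk := kneser_R2 a (b + 1) A B W hA hB hW _ rfl h0
  set S := A + (B + R a (b + 1) W) with hS
  have hSn : S.Nonempty := hA.add (hB.add (R_nonempty _ _ _ hW))
  obtain ⟨Z, i1, i2, i3, f, hsurj, hker, hnice⟩ := exists_quot (stab S)
  rw [card_stab] at hnice
  have hker' : ∀ x, f x = 0 ↔ x ∈ st S := hker
  have h1 : 1 ≤ (st S).card := hnice.pos
  have hcardY := hnice.card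
  have hZk := killed_of_surj κ f hsurj hY
  have hZne1 : Fintype.card Z ≠ 1 := by
    intro h
    obtain ⟨x, hx⟩ := hSn
    have hsub : Subsingleton Z := Fintype.card_le_one_iff_subsingleton.mp (by omega)
    have h2 : -x ∈ st S := (hker' _).mp (Subsingleton.elim _ _)
    have := (mem_st _ _).mp h2 x hx
    rw [neg_add_cancel] at this
    exact h0 this
  have hmod := card_mod (a + b + 3) κ (by omega) hκ hZk
  have hz := mod_one_ge (a + b + 3) (Fintype.card Z) (by omega) hmod hZne1
  rw [card_add_ker hnice _ hker', card_add_ker hnice _ hker', card_add_ker hnice _ hker',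
    hcardY] at hk
  have hk2 : ((A.image f).card + (B.image f).card + (a + b + 1) * (W.image f).card) *
      (st S).card ≤ (Fintype.card Z + (a + b + 1)) * (st S).card := by
    linarith
  have hk3 := Nat.le_of_mul_le_mul_right hk2 h1
  have hA1 : 1 ≤ (A.image f).card := (hA.image f).card_pos
  have hB1 : 1 ≤ (B.image f).card := (hB.image f).card_pos
  have hle : ∀ T : Finset Y, T.card ≤ (T.image f).card * (st S).card := by
    intro T
    rw [← card_add_ker hnice _ hker']
    exact card_le_card_add_right ⟨0, zero_mem_st _⟩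
  -- flatness downstairs
  have hflat2 : 2 * κ * Fintype.card Z < (a + b + 3) * κ * (W.image f).card +
      2 * Fintype.card Z := by
    have h3 : (a + b + 3) * κ * W.card ≤ (a + b + 3) * κ * ((W.image f).card * (st S).card) :=
      Nat.mul_le_mul_left _ (hle W)
    rw [hcardY] at hflat
    have h4 : (2 * κ * Fintype.card Z) * (st S).card < ((a + b + 3) * κ * (W.image f).card +
      2 * Fintype.card Z) * (st S).card := by linarith
    exact Nat.lt_of_mul_lt_mul_right h4
  set y := Fintype.card Z with hy
  set w := (W.image f).card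
  set u := (A.image f).card
  set v := (B.image f).card
  set h := (st S).card
  rcases Nat.lt_or_ge 4 (a + b + 3) with h5 | h5
  · exfalso
    apply ar3 (a + b + 3 : ℤ) κ y w
    · have : ((5 : ℕ) : ℤ) ≤ ((a + b + 3 : ℕ) : ℤ) := by exact_mod_cast h5
      push_cast at this
      linarith
    · have : (((a + b + 4) * (a + b + 4) : ℕ) : ℤ) ≤ (κ : ℕ) := by exact_mod_cast hκ1
      push_cast at this
      linarith
    · have : (((a + b + 3) + 1 : ℕ) : ℤ) ≤ (y : ℕ) := by exact_mod_cast hz
      push_cast at this
      linarith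
    · have h6 : ((u + v + (a + b + 1) * w : ℕ) : ℤ) ≤ ((y + (a + b + 1) : ℕ) : ℤ) := by
        exact_mod_cast hk3
      push_cast at h6
      have h7 : (1 : ℤ) ≤ u := by exact_mod_cast hA1
      have h8 : (1 : ℤ) ≤ v := by exact_mod_cast hB1
      linarith
    · have : ((2 * κ * y : ℕ) : ℤ) < (((a + b + 3) * κ * w + 2 * y : ℕ) : ℤ) := by
        exact_mod_cast hflat2
      push_cast at this
      linarith
  · have hs4 : a + b + 3 = 4 := by omega
    refine ⟨hs4, ?_⟩
    rw [hs4] at hflat2 hmod
    have hab : a + b + 1 = 2 := by omega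
    rw [hab] at hk3
    -- `2 w ≤ y - 1`
    have hw : 2 * w + 1 ≤ y := by omega
    have h6 : κ * (2 * w + 1) ≤ κ * y := Nat.mul_le_mul_left _ hw
    have h7 : κ < y := by
      have e : 4 * κ * w = 2 * (κ * (2 * w)) := by ring
      have e2 : 2 * κ * y = 2 * (κ * y) := by ring
      rw [e, e2] at hflat2
      rw [mul_add, mul_one] at h6
      omega
    have h8 : κ * (u + v + 2 * w) ≤ κ * (y + 2) := Nat.mul_le_mul_left _ hk3
    have h9 : κ * (u + v) < 3 * y := by
      have e : 4 * κ * w = 2 * (κ * (2 * w)) := by ring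
      have e2 : 2 * κ * y = 2 * (κ * y) := by ring
      rw [e, e2] at hflat2
      have e3 : κ * (u + v + 2 * w) = κ * (u + v) + κ * (2 * w) := by ring
      rw [e3, mul_add κ y 2] at h8
      omega
    have h10 : κ * (A.card + B.card) ≤ κ * ((u + v) * h) := by
      apply Nat.mul_le_mul_left
      rw [add_mul]
      exact Nat.add_le_add (hle A) (hle B)
    rw [hcardY]
    have h11 : κ * (u + v) * h < 3 * y * h := Nat.mul_lt_mul_of_pos_right h9 h1
    calc κ * (A.card + B.card) ≤ κ * ((u + v) * h) := h10
      _ = κ * (u + v) * h := by ring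
      _ < 3 * y * h := h11
      _ = 3 * (y * h) := by ring

set_option maxHeartbeats 1600000 in
/-- The dichotomy: in a flat direction all fibres of `W` have at most `q + 1` elements. -/
lemma dichotomy {X Y : Type} [AddCommGroup X] [Fintype X] [DecidableEq X] [AddCommGroup Y]
    [Fintype Y] [DecidableEq Y] {f : X →+ Y} {p : ℕ} (hf : Nice f p) (hp : p.Prime)
    (hker : ∀ g, f g = 0 → p • g = 0) (a b κ κ' q : ℕ) (hs : 4 ≤ a + b + 3)
    (hq : p = (a + b + 3) * q + 1) (hκp : κ = p * κ') (hκ' : a + b + 4 ≤ κ')
    (hκ : Pure (a + b + 3) κ) (hYk : ∀ x : Y, κ • x = 0)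
    (hYc : (a + b + 1) * (a + b + 4) ≤ Fintype.card Y * (a + b))
    (hY : ∀ V W : Finset Y, V ⊆ W → V.Nonempty → NoZ a b V W →
      (a + b + 3) * κ * (V.card + W.card) + 2 * Fintype.card Y ≤ 2 * κ * Fintype.card Y)
    (V W : Finset X) (hVW : V ⊆ W) (hZ : NoZ a b V W)
    (hlarge : 2 * κ * Fintype.card X < (a + b + 3) * κ * (V.card + W.card) +
      2 * Fintype.card X)
    (haper : V.card + (a + b + 2) * W.card ≤ Fintype.card X + (a + b + 1)) :
    (∀ c, (fib f W c).card ≤ q + 1) ∧
      (a + b + 3) * κ * ((lev f V (q + 1)).card + (lev f W (q + 1)).card) +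
        2 * Fintype.card Y ≤ 2 * κ * Fintype.card Y := by
  have hflat := flat_of_large hf a b κ V W hVW hZ hY hlarge
  have hq1 : 1 ≤ q := by
    rcases Nat.eq_zero_or_pos q with h | h
    · rw [h, mul_zero, zero_add] at hq
      rw [hq] at hp
      exact absurd hp Nat.not_prime_one
    · exact h
  have hp1 : a + b + 4 ≤ p := by
    rw [hq]
    have : (a + b + 3) * 1 ≤ (a + b + 3) * q := Nat.mul_le_mul_left _ hq1
    omega
  have hκ2 : (a + b + 4) * (a + b + 4) ≤ κ := by
    rw [hκp]
    exact Nat.mul_le_mul hp1 hκ'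
  set y := Fintype.card Y with hy
  have hy1 : 1 ≤ y := Fintype.card_pos
  have hXc : Fintype.card X = y * p := hf.card
  -- the sets are large
  have hVl : q * y < V.card := by
    have h5 := ar5 (a + b + 3 : ℤ) κ' q y V.card W.card
      (by exact_mod_cast hs) (by exact_mod_cast hq1)
      (by
        have : ((a + b + 4 : ℕ) : ℤ) ≤ κ' := by exact_mod_cast hκ'
        push_cast at this
        linarith)
      (by
        have : (((a + b + 1) * (a + b + 4) : ℕ) : ℤ) ≤ ((y * (a + b) : ℕ) : ℤ) := by
          exact_mod_cast hYc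
        push_cast at this
        linarith)
      (by
        have : ((2 * κ * Fintype.card X : ℕ) : ℤ) <
          (((a + b + 3) * κ * (V.card + W.card) + 2 * Fintype.card X : ℕ) : ℤ) := by
          exact_mod_cast hlarge
        rw [hXc, hκp, hq] at this
        push_cast at this
        linarith)
      (by
        have : ((V.card + (a + b + 2) * W.card : ℕ) : ℤ) ≤
          ((Fintype.card X + (a + b + 1) : ℕ) : ℤ) := by exact_mod_cast haper
        rw [hXc, hq] at this
        push_cast at this
        linarith)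
    exact_mod_cast h5
  have hfibV : ∀ c, (fib f V c).card ≤ (fib f W c).card := fun c =>
    card_le_card (filter_subset_filter _ hVW)
  -- the level `q + 1`
  have hVne : (lev f V (q + 1)).Nonempty := by
    by_contra hcon
    rw [not_nonempty_iff_eq_empty] at hcon
    have h1 : ∀ c, (fib f V c).card ≤ q := by
      intro c
      by_contra hc
      have : c ∈ lev f V (q + 1) := by rw [mem_lev]; omega
      rw [hcon] at this
      simp at this
    have h2 : V.card ≤ q * y := by
      rw [← sum_fib f V, hy, mul_comm, ← smul_eq_mul, ← card_univ, ← sum_const]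
      exact sum_le_sum (fun c _ => h1 c)
    omega
  have hσ := hY (lev f V (q + 1)) (lev f W (q + 1)) (lev_mono f hVW le_rfl) hVne
    (noz_lev hf hp hker a b V W hZ (q + 1) (by omega) (by rw [hq]; ring_nf; omega))
  refine ⟨?_, hσ⟩
  by_contra hcon
  push Not at hcon
  obtain ⟨c₁, hc₁⟩ := hcon
  obtain ⟨c₀, hc₀⟩ := Finite.exists_max (fun c => (fib f W c).card)
  set M := (fib f W c₀).card with hM
  have hMq : q + 2 ≤ M := by
    have := hc₀ c₁
    omega
  have hMp : M ≤ p := hf.fib_le W c₀
  have hMne : (lev f W M).Nonempty := ⟨c₀, by rw [mem_lev]⟩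
  have h0' : (0 : X) ∉ V + (W + R a (b + 1) W) := by
    rw [← R_succ_left]; exact hZ.1
  -- pairs of levels
  have hpair : ∀ i, 1 ≤ i → p + (a + b + 3) ≤ 2 * i + (a + b + 1) * M + 1 →
      (lev f V i).card + (lev f W i).card ≤ y := by
    intro i hi hbig
    apply disj_card _ _ (R a (b + 1) (lev f W M)) (R_nonempty _ _ _ hMne)
    apply thr1 hf hp hker a (b + 1) V W W i i M hi hi (by omega) h0'
    have e : a + (b + 1) = a + b + 1 := by ring
    rw [e]
    omega
  rcases Nat.lt_or_ge M (2 * q + 2) with hM2 | hM2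
  · -- `M ≤ 2 q + 1`
    obtain ⟨d, hd⟩ : ∃ d, M = q + 1 + d := ⟨M - (q + 1), by omega⟩
    obtain ⟨e, he⟩ : ∃ e, q = e + d := ⟨q - d, by omega⟩
    have hpr := hpair (e + 1) (by omega) (by
      rw [hq, hd, he]
      have : 1 ≤ a + b := by omega
      obtain ⟨r, hr⟩ : ∃ r, a + b = r + 1 := ⟨a + b - 1, by omega⟩
      rw [hr]
      ring_nf
      have h1 : 0 ≤ r * d := Nat.zero_le _
      nlinarith)
    have hbV := lev_bound f V e d (fun c => by
      have h1 := hfibV c
      have h2 := hc₀ c
      omega)
    have hbW := lev_bound f W e d (fun c => by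
      have h2 := hc₀ c
      omega)
    rw [← he] at hbV hbW
    apply ar2 (a + b + 3 : ℤ) κ q d y (V.card + W.card)
      ((lev f V (q + 1)).card + (lev f W (q + 1)).card)
      (by exact_mod_cast hs) (by exact_mod_cast hq1)
    · have : 1 ≤ d := by omega
      exact_mod_cast this
    · exact_mod_cast hy1
    · have : ((a + b + 3) * q + 1) ≤ κ := by
        rw [← hq, hκp]
        exact Nat.le_mul_of_pos_right _ (by omega)
      exact_mod_cast this
    · have : ((2 * κ * Fintype.card X : ℕ) : ℤ) <
        (((a + b + 3) * κ * (V.card + W.card) + 2 * Fintype.card X : ℕ) : ℤ) := by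
        exact_mod_cast hlarge
      rw [hXc, hq] at this
      push_cast at this
      linarith
    · have h1 : V.card + W.card ≤ 2 * e * y + d * ((lev f V (e + 1)).card +
          (lev f W (e + 1)).card) + (d + 1) * ((lev f V (q + 1)).card +
          (lev f W (q + 1)).card) := by
        rw [← hy] at hbV hbW
        linarith
      have h2 : d * ((lev f V (e + 1)).card + (lev f W (e + 1)).card) ≤ d * y :=
        Nat.mul_le_mul_left _ hpr
      have h3 : V.card + W.card ≤ 2 * e * y + d * y + (d + 1) * ((lev f V (q + 1)).card +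
          (lev f W (q + 1)).card) := by linarith
      have h4 : ((V.card + W.card : ℕ) : ℤ) ≤ ((2 * e * y + d * y + (d + 1) *
          ((lev f V (q + 1)).card + (lev f W (q + 1)).card) : ℕ) : ℤ) := by exact_mod_cast h3
      have h5 : (q : ℤ) = e + d := by exact_mod_cast he
      push_cast at h4
      rw [h5]
      linarith
    · have : (((a + b + 3) * κ * ((lev f V (q + 1)).card + (lev f W (q + 1)).card) + 2 * y : ℕ) :
        ℤ) ≤ ((2 * κ * y : ℕ) : ℤ) := by exact_mod_cast hσ
      push_cast at this
      linarith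
  · -- `M ≥ 2 q + 2`
    have hpr := hpair 1 le_rfl (by
      have h1 : (a + b + 1) * (2 * q + 2) ≤ (a + b + 1) * M := Nat.mul_le_mul_left _ hM2
      have h2 : 1 ≤ a + b := by omega
      have h3 : q * 1 ≤ q * (a + b) := Nat.mul_le_mul_left _ h2
      rw [hq]
      linarith)
    obtain ⟨c₂, hc₂⟩ := Finite.exists_max (fun c => (fib f V c).card)
    set m := (fib f V c₂).card with hm
    have hmq : q + 1 ≤ m := by
      obtain ⟨c, hc⟩ := hVne
      rw [mem_lev] at hc
      have := hc₂ c
      omega
    have hmp : m ≤ p := hf.fib_le V c₂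
    have hV1 : 2 * (lev f V 1).card ≤ y := by
      have := card_le_card (lev_mono f hVW (le_refl 1))
      omega
    have hVq : 2 * (lev f V (q + 1)).card ≤
        (lev f V (q + 1)).card + (lev f W (q + 1)).card := by
      have := card_le_card (lev_mono f hVW (le_refl (q + 1)))
      omega
    have hbV := lev_bound2 f V q m (by omega) (fun c => hc₂ c)
    -- `2 m ≥ p + 2 q`
    have hm2 : p + 2 * q ≤ 2 * m := by
      obtain ⟨r, hr⟩ : ∃ r, m = q + r := ⟨m - q, by omega⟩
      have h1 : m - q = r := by omega
      rw [h1] at hbV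
      have hκ0 : 0 < κ := by
        rw [hκp]; exact Nat.mul_pos hp.pos (by omega)
      have h2 : (a + b + 3) * κ * (2 * V.card) ≤ (a + b + 3) * κ * (q * y) +
          r * (2 * κ * y) := by
        have h3 : 2 * V.card ≤ q * y + r * ((lev f V (q + 1)).card +
            (lev f W (q + 1)).card) := by
          have e1 := Nat.mul_le_mul_left q hV1
          have e2 := Nat.mul_le_mul_left r hVq
          linarith
        have h4 : r * ((a + b + 3) * κ * ((lev f V (q + 1)).card +
            (lev f W (q + 1)).card)) ≤ r * (2 * κ * y) :=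
          Nat.mul_le_mul_left _ (by omega)
        have h5 : (a + b + 3) * κ * (2 * V.card) ≤ (a + b + 3) * κ * (q * y +
            r * ((lev f V (q + 1)).card + (lev f W (q + 1)).card)) :=
          Nat.mul_le_mul_left _ h3
        linarith
      have h6 : (a + b + 3) * κ * (q * y) < (a + b + 3) * κ * V.card :=
        Nat.mul_lt_mul_of_pos_left hVl (by positivity)
      have h7 : (κ * y) * ((a + b + 3) * q) < (κ * y) * (2 * r) := by linarith
      have h8 := Nat.lt_of_mul_lt_mul_left h7
      omega
    obtain ⟨d, hd⟩ : ∃ d, p = m + d := ⟨p - m, by omega⟩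
    have hVm : (lev f V m).Nonempty := ⟨c₂, by rw [mem_lev]⟩
    have hWm : (lev f W m).Nonempty := hVm.mono (lev_mono f hVW le_rfl)
    have hVd : (lev f V (d + 1)).Nonempty := hVm.mono (lev_mono f subset_rfl (by omega))
    have hWn : (W.image f).Nonempty := by
      rw [← lev_one]
      exact hWm.mono (lev_mono f subset_rfl (by omega))
    have hpg := pigeon hf V W (R a (b + 1) W) (d + 1) m (by omega) h0'
    rw [image_R] at hpg
    obtain ⟨hs4, hk⟩ := kneser_levels a b κ hs hκ hκ2 hYk _ _ _ hVd hWm hWn hpg hflat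
    have hb2 := lev_bound2 f V d m (by omega) (fun c => hc₂ c)
    apply ar4 κ q d y V.card (lev f V (d + 1)).card
    · exact_mod_cast hq1
    · positivity
    · have : d ≤ q := by
        have hq4 : p = 4 * q + 1 := by rw [hq, hs4]
        omega
      exact_mod_cast this
    · exact_mod_cast hy1
    · have h1 : 5 * p ≤ κ := by
        rw [hκp, mul_comm]
        exact Nat.mul_le_mul_left _ (by omega)
      rw [hq, hs4] at h1
      have h2 : ((5 * (4 * q + 1) : ℕ) : ℤ) ≤ (κ : ℕ) := by exact_mod_cast h1
      push_cast at h2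
      linarith
    · have hmd : ((m - d : ℕ) : ℤ) = 4 * q + 1 - 2 * d := by
        rw [Nat.cast_sub (by omega)]
        have h1 : (p : ℤ) = m + d := by exact_mod_cast hd
        have h2 : (p : ℤ) = 4 * q + 1 := by
          rw [hs4] at hq
          exact_mod_cast hq
        linarith
      have h3 : ((V.card : ℕ) : ℤ) ≤ ((d * (lev f V 1).card + (m - d) *
          (lev f V (d + 1)).card : ℕ) : ℤ) := by exact_mod_cast hb2
      rw [Nat.cast_add, Nat.cast_mul, Nat.cast_mul, hmd] at h3
      have h4 : 2 * ((lev f V 1).card : ℤ) ≤ y := by exact_mod_cast hV1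
      have h5 : (d : ℤ) * (2 * ((lev f V 1).card : ℤ)) ≤ d * y :=
        mul_le_mul_of_nonneg_left h4 (by positivity)
      linarith
    · have h1 : κ * (lev f V (d + 1)).card < 3 * y := by
        have : κ * (lev f V (d + 1)).card ≤ κ * ((lev f V (d + 1)).card + (lev f W m).card) :=
          Nat.mul_le_mul_left _ (by omega)
        omega
      exact_mod_cast h1
    · exact_mod_cast hVl

end Pool.Agent.H59.KG
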