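import Mathlib
import Pool.Agent.H59.KG4

set_option autoImplicit false

open Finset Pointwise

namespace Pool.Agent.H59.KG

open Pool.Agent.H59.Kneser

section moments

/-- Pairs of elements of `B` whose difference satisfies `P`. -/
def prs {X : Type*} [AddCommGroup X] (B : Finset X) (P : X → Prop) [DecidablePred P] : ℕ :=
  ((B ×ˢ B).filter (fun q => P (q.1 - q.2))).card

lemma sum_sq_fib {X Y : Type*} [AddCommGroup X] [AddCommGroup Y] [Fintype Y] [DecidableEq Y]
    (f : X →+ Y) (P : X → Prop) [DecidablePred P] (hP : ∀ x, f x = 0 ↔ P x) (B : Finset X) :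
    ∑ c, (fib f B c).card ^ 2 = prs B P := by
  rw [prs, card_eq_sum_card_fiberwise (f := fun q : X × X => f q.1) (t := univ)
    (fun _ _ => mem_univ _)]
  apply sum_congr rfl
  intro c _
  rw [sq, ← card_product]
  congr 1
  ext q
  rw [mem_product, mem_filter, mem_filter, mem_product, mem_fib, mem_fib, ← hP, map_sub,
    sub_eq_zero]
  constructor
  · rintro ⟨⟨h1, h2⟩, h3, h4⟩
    exact ⟨⟨⟨h1, h3⟩, by rw [h2, h4]⟩, h2⟩
  · rintro ⟨⟨⟨h1, h2⟩, h3⟩, h4⟩
    exact ⟨⟨h1, h4⟩, h2, by rw [← h3]; exact h4⟩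

lemma sum_sq_le {X Y : Type*} [AddCommGroup X] [AddCommGroup Y] [Fintype Y] [DecidableEq Y]
    (f : X →+ Y) (P : X → Prop) [DecidablePred P] (hP : ∀ x, f x = 0 ↔ P x) (B : Finset X)
    (q : ℕ) (hq : ∀ c, (fib f B c).card ≤ q + 1) :
    prs B P ≤ q * B.card + (q + 1) * (lev f B (q + 1)).card := by
  rw [← sum_sq_fib f P hP, ← sum_fib f B, mul_sum, ← sum_ite_lev, ← sum_add_distrib]
  apply sum_le_sum
  intro c _
  have h1 := hq c
  split_ifs with h
  · have : (fib f B c).card = q + 1 := by omega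
    rw [this]; nlinarith
  · have : (fib f B c).card ≤ q := by omega
    nlinarith

/-- Cauchy-Schwarz. -/
lemma prs_cs {X Y : Type*} [AddCommGroup X] [AddCommGroup Y] [Fintype X] [DecidableEq X]
    [Fintype Y] [DecidableEq Y]
    (f : X →+ Y) (P : X → Prop) [DecidablePred P] (hP : ∀ x, f x = 0 ↔ P x) (Q : ℕ)
    (hf : Nice f Q) (B : Finset X) : Q * B.card ^ 2 ≤ Fintype.card X * prs B P := by
  have h1 := sq_sum_le_card_mul_sum_sq (s := (univ : Finset Y))
    (f := fun c => (fib f B c).card)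
  rw [sum_fib, sum_sq_fib f P hP, card_univ] at h1
  rw [hf.card]
  calc Q * B.card ^ 2 ≤ Q * (Fintype.card Y * prs B P) := Nat.mul_le_mul_left _ h1
    _ = Fintype.card Y * Q * prs B P := by ring

/-- The set of elements killed by `m`. -/
def tor (X : Type*) [AddCommGroup X] [Fintype X] [DecidableEq X] (m : ℕ) : Finset X :=
  univ.filter (fun x => m • x = 0)

lemma mem_tor {X : Type*} [AddCommGroup X] [Fintype X] [DecidableEq X] (m : ℕ) (x : X) :
    x ∈ tor X m ↔ m • x = 0 := by simp [tor]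

/-- Every nonzero element of `X[p]` lies in at least `p - 1` of the groups `⟨e⟩`. -/
lemma count_e {X : Type*} [AddCommGroup X] [Fintype X] [DecidableEq X] (p : ℕ) (hp : p.Prime)
    (z : X) (hz : z ∈ tor X p) (hz0 : z ≠ 0) [∀ e : X, DecidablePred (· ∈ AddSubgroup.zmultiples e)] :
    p - 1 ≤ (((tor X p).erase 0).filter (fun e => z ∈ AddSubgroup.zmultiples e)).card := by
  rw [mem_tor] at hz
  have : Fact p.Prime := ⟨hp⟩
  have hord : addOrderOf z = p := addOrderOf_eq_prime hz hz0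
  have h1 : (Icc 1 (p - 1)).card = p - 1 := by rw [Nat.card_Icc]; omega
  rw [← h1]
  apply card_le_card_of_injOn (fun j => j • z)
  · intro j hj
    rw [mem_coe, mem_Icc] at hj
    rw [mem_coe, mem_filter, mem_erase, mem_tor]
    have hjp : ¬ p ∣ j := fun h => by
      have := Nat.le_of_dvd (by omega) h
      omega
    refine ⟨⟨?_, ?_⟩, ?_⟩
    · intro h
      have := addOrderOf_dvd_of_nsmul_eq_zero h
      rw [hord] at this
      exact hjp this
    · change p • (j • z) = 0
      rw [smul_comm, hz, smul_zero]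
    · -- invert `j` modulo `p`
      have hcop : Nat.Coprime j p := (Nat.Coprime.symm ((Nat.Prime.coprime_iff_not_dvd hp).mpr hjp))
      obtain ⟨t, ht⟩ := Nat.exists_mul_mod_eq_one_of_coprime hcop hp.one_lt
      rw [AddSubgroup.mem_zmultiples_iff]
      refine ⟨t, ?_⟩
      change (t : ℤ) • (j • z) = z
      rw [natCast_zsmul, ← mul_nsmul]
      have h2 : (j * t) • z = ((j * t) % p) • z := by
        conv_rhs => rw [← hord]
        rw [mod_addOrderOf_nsmul]
      rw [h2, ht.2, one_nsmul]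
  · intro i hi j hj hij
    rw [mem_coe, mem_Icc] at hi hj
    have h3 : i • z = j • z := hij
    exact nsmul_injOn_Iio_addOrderOf (x := z) (by simp only [Set.mem_Iio]; omega)
      (by simp only [Set.mem_Iio]; omega) h3

lemma sum_count {X : Type*} [AddCommGroup X] [Fintype X] [DecidableEq X] (p : ℕ) (hp : p.Prime)
    (B : Finset X) [∀ e : X, DecidablePred (· ∈ AddSubgroup.zmultiples e)] :
    ((tor X p).card - 1) * B.card + (p - 1) * prs B (· ∈ tor X p) ≤
      ∑ e ∈ (tor X p).erase 0, prs B (· ∈ AddSubgroup.zmultiples e) + (p - 1) * B.card := by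
  have h0 : (0 : X) ∈ tor X p := by rw [mem_tor, smul_zero]
  have hsplit : ∀ P : X → Prop, ∀ _ : DecidablePred P, P 0 →
      prs B P = B.card + ((B ×ˢ B).filter (fun q => P (q.1 - q.2) ∧ q.1 ≠ q.2)).card := by
    intro P _ hP
    rw [prs, ← card_filter_add_card_filter_not (fun q : X × X => q.1 = q.2), filter_filter,
      filter_filter]
    congr 1
    symm
    apply card_bij (fun x _ => (x, x))
    · intro x hx
      rw [mem_filter, mem_product]
      exact ⟨⟨hx, hx⟩, by simpa using hP⟩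
    · intro x _ y _ hxy
      exact (Prod.mk.inj hxy).1
    · intro q hq
      rw [mem_filter, mem_product] at hq
      exact ⟨q.1, hq.1.1, Prod.ext rfl hq.2.2⟩
  rw [sum_congr rfl (fun e _ => hsplit (· ∈ AddSubgroup.zmultiples e) _
    (AddSubgroup.zero_mem _)), hsplit (· ∈ tor X p) _ h0, sum_add_distrib, sum_const,
    card_erase_of_mem h0, smul_eq_mul, mul_add]
  have hmain : (p - 1) * ((B ×ˢ B).filter (fun q => q.1 - q.2 ∈ tor X p ∧ q.1 ≠ q.2)).card ≤
      ∑ e ∈ (tor X p).erase 0,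
        ((B ×ˢ B).filter (fun q => q.1 - q.2 ∈ AddSubgroup.zmultiples e ∧ q.1 ≠ q.2)).card := by
    have e1 : ∀ e ∈ (tor X p).erase 0,
        ((B ×ˢ B).filter (fun q => q.1 - q.2 ∈ AddSubgroup.zmultiples e ∧ q.1 ≠ q.2)).card =
        ∑ q ∈ B ×ˢ B, if (q.1 - q.2 ∈ AddSubgroup.zmultiples e ∧ q.1 ≠ q.2) then 1 else 0 := by
      intro e _
      rw [card_filter]
    rw [sum_congr rfl e1, sum_comm, card_filter, mul_sum]
    apply sum_le_sum
    intro q _
    split_ifs with h
    · rw [mul_one]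
      have h1 := count_e p hp (q.1 - q.2) h.1 (sub_ne_zero.mpr h.2)
      rw [card_filter] at h1
      refine h1.trans (le_of_eq ?_)
      apply sum_congr rfl
      intro e _
      simp only [h.2, ne_eq, not_false_eq_true, and_true]
    · simp
  linarith

lemma ar6 (s κ q Q N y S Z v w : ℤ) (hs : 4 ≤ s) (hq : 1 ≤ q) (hκ : s * q + 1 ≤ κ)
    (hQ : 2 * (s * q + 1) ≤ Q) (hN : N = y * (s * q + 1)) (hy : 1 ≤ y) (hS : S = v + w)
    (h1 : s * κ * ((Q - 1) * S + (s * q) * Z - (s * q) * S) + (Q - 1) * ((q + 1) * (2 * y)) ≤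
      (Q - 1) * (s * κ * (q * S)) + (Q - 1) * ((q + 1) * (2 * κ * y)))
    (h2 : Q * (v ^ 2 + w ^ 2) ≤ N * Z)
    (h4 : 2 * κ * N < s * κ * S + 2 * N) : False := by
  have hp : 0 < s * q + 1 := by nlinarith
  have hN0 : 0 < N := by rw [hN]; exact mul_pos (by linarith) hp
  have hκ0 : 0 < κ := by linarith
  have hQ0 : 0 < Q := by linarith
  have hsκ : 0 < s * κ := mul_pos (by linarith) hκ0
  have hsq : 0 < s * q := mul_pos (by linarith) (by linarith)
  -- Cauchy
  have h3 : Q * S ^ 2 ≤ 2 * (N * Z) := by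
    have : S ^ 2 ≤ 2 * (v ^ 2 + w ^ 2) := by rw [hS]; nlinarith [sq_nonneg (v - w)]
    have := mul_le_mul_of_nonneg_left this hQ0.le
    linarith
  obtain ⟨u, hu⟩ : ∃ u, u = s * κ * S := ⟨_, rfl⟩
  obtain ⟨t, ht⟩ : ∃ t, t = 2 * κ * N - 2 * N := ⟨_, rfl⟩
  have htu : t < u := by rw [ht, hu]; linarith
  have ht0 : 0 ≤ t := by
    rw [ht]
    have : N * 1 ≤ N * κ := mul_le_mul_of_nonneg_left (by linarith) hN0.le
    linarith
  have hu0 : 0 < u := by linarith
  -- multiply by `2 N`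
  have h5 : 2 * N * (Q - (s * q + 1)) * u + (s * q) * Q * S * u ≤
      2 * N * (Q - 1) * q * u + 2 * (Q - 1) * (q + 1) * y * t := by
    have h6 := mul_le_mul_of_nonneg_left h1 (by linarith : (0 : ℤ) ≤ 2 * N)
    have h7 := mul_le_mul_of_nonneg_left h3 (mul_pos hsκ hsq).le
    rw [hu, ht]
    linarith
  have h8 := mul_le_mul_of_nonneg_left h5 hp.le
  have h9 : 2 * (Q - 1) * (q + 1) * N * t ≤ 2 * (Q - 1) * (q + 1) * N * u := by
    apply mul_le_mul_of_nonneg_left htu.le
    apply mul_nonneg _ hN0.le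
    apply mul_nonneg _ (by linarith)
    linarith
  have h10 : u * (2 * N * (s * q + 1) * (Q - (s * q + 1)) + (s * q) * Q * ((s * q + 1) * S)) ≤
      u * (2 * N * (Q - 1) * ((s * q + 1) * q + q + 1)) := by
    have e1 : (s * q + 1) * (2 * (Q - 1) * (q + 1) * y * t) =
        2 * (Q - 1) * (q + 1) * N * t := by rw [hN]; ring
    linarith
  have h11 := le_of_mul_le_mul_left h10 hu0
  -- `p S > 2 q N`
  have h12 : 2 * q * N < (s * q + 1) * S := by
    have h13 : (s * q + 1) * (2 * κ * N) < (s * q + 1) * (s * κ * S + 2 * N) :=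
      mul_lt_mul_of_pos_left h4 hp
    have h14 : N * (s * q + 1) ≤ N * κ := mul_le_mul_of_nonneg_left hκ hN0.le
    have h15 : s * κ * (2 * q * N) < s * κ * ((s * q + 1) * S) := by linarith
    exact lt_of_mul_lt_mul_left h15 hsκ.le
  have h16 : (s * q) * Q * (2 * q * N) ≤ (s * q) * Q * ((s * q + 1) * S) :=
    mul_le_mul_of_nonneg_left h12.le (mul_pos hsq hQ0).le
  have h17 : N * (2 * (s * q + 1) * (Q - (s * q + 1)) + (s * q) * Q * (2 * q)) ≤
      N * (2 * (Q - 1) * ((s * q + 1) * q + q + 1)) := by linarith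
  have h18 := le_of_mul_le_mul_left h17 hN0
  -- contradiction
  have h19 : 2 * (s * q + 1) * ((s - 2) * q) ≤ Q * ((s - 2) * q) :=
    mul_le_mul_of_nonneg_right hQ (mul_nonneg (by linarith) (by linarith))
  have h20 : (0 : ℤ) ≤ (s * q + 1) * (s * q - 3 * q - 1) := by
    apply mul_nonneg hp.le
    nlinarith
  nlinarith

end moments

end Pool.Agent.H59.KG
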