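import Mathlib
import Pool.Agent.H59.KG5

set_option autoImplicit false

open Finset Pointwise

namespace Pool.Agent.H59.KG

open Pool.Agent.H59.Kneser

section torsion

variable {X : Type} [AddCommGroup X] [Fintype X] [DecidableEq X]

/-- The subgroup of elements killed by `m`. -/
def torG (X : Type) [AddCommGroup X] (m : ℕ) : AddSubgroup X := (nsmulAddMonoidHom m : X →+ X).ker

omit [Fintype X] [DecidableEq X] in
lemma mem_torG (m : ℕ) (x : X) : x ∈ torG X m ↔ m • x = 0 := by
  rw [torG, AddMonoidHom.mem_ker]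
  rfl

lemma card_torG (m : ℕ) : Nat.card (torG X m) = (tor X m).card := by
  have : ((tor X m : Finset X) : Set X) = (torG X m : Set X) := by
    ext x
    rw [mem_coe, mem_tor, SetLike.mem_coe, mem_torG]
  rw [← Set.ncard_coe_finset, this]
  rfl

lemma tor_mul (m n : ℕ) : (tor X (m * n)).card ≤ (tor X m).card * (tor X n).card := by
  apply card_le_mul_card_image_of_maps_to (f := fun x => m • x)
  · intro x hx
    rw [mem_tor] at hx ⊢
    rw [← mul_nsmul]
    exact hx
  · intro z _
    rcases ((tor X (m * n)).filter (fun x => m • x = z)).eq_empty_or_nonempty with he | ⟨x0, hx0⟩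
    · rw [he]; simp
    · rw [mem_filter] at hx0
      apply card_le_card_of_injOn (fun x => x - x0)
      · intro x hx
        rw [mem_coe, mem_filter] at hx
        rw [mem_coe, mem_tor]
        change m • (x - x0) = 0
        rw [smul_sub, hx.2, hx0.2, sub_self]
      · intro x _ y _ hxy
        exact sub_left_inj.mp hxy

lemma tor_prime_dvd (p : ℕ) (hp : p.Prime) (h : 1 < (tor X p).card) : p ∣ (tor X p).card := by
  obtain ⟨x, hx, hx0⟩ := exists_mem_ne h 0
  rw [mem_tor] at hx
  have : Fact p.Prime := ⟨hp⟩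
  have hord : addOrderOf x = p := addOrderOf_eq_prime hx hx0
  have h1 : Nat.card (AddSubgroup.zmultiples x) = p := by
    rw [Nat.card_zmultiples, hord]
  rw [← card_torG, ← h1]
  apply AddSubgroup.card_dvd_of_le
  rw [AddSubgroup.zmultiples_le, mem_torG]
  exact h1 ▸ hx

lemma exists_rank_two (κ : ℕ) (hκ : κ ≠ 0) (hX : ∀ x : X, κ • x = 0)
    (hN : κ < Fintype.card X) : ∃ p, p.Prime ∧ p ∣ κ ∧ 2 * p ≤ (tor X p).card := by
  by_contra hcon
  push Not at hcon
  have hle : ∀ m : ℕ, m ≠ 0 → m ∣ κ → (tor X m).card ≤ m := by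
    intro m
    induction m using Nat.recOnMul with
    | zero => intro h; exact absurd rfl h
    | one =>
      intro _ _
      have : tor X 1 = {0} := by
        ext x
        rw [mem_tor, mem_singleton, one_smul]
      rw [this, card_singleton]
    | prime p hp =>
      intro _ hd
      have h1 := hcon p hp hd
      by_contra h2
      push Not at h2
      obtain ⟨r, hr⟩ := tor_prime_dvd (X := X) p hp (by have := hp.one_lt; omega)
      rw [hr] at h1 h2
      have h3 : r < 2 := by
        by_contra h4
        have : p * 2 ≤ p * r := Nat.mul_le_mul_left _ (by omega)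
        omega
      interval_cases r <;> omega
    | mul a b ha hb =>
      intro h0 hd
      have ha0 : a ≠ 0 := fun h => h0 (by rw [h, zero_mul])
      have hb0 : b ≠ 0 := fun h => h0 (by rw [h, mul_zero])
      exact (tor_mul a b).trans (Nat.mul_le_mul (ha ha0 ((Dvd.intro _ rfl).trans hd))
        (hb hb0 ((Dvd.intro_left _ rfl).trans hd)))
  have h1 := hle κ hκ dvd_rfl
  have h2 : tor X κ = univ := by
    ext x
    rw [mem_tor]
    simp [hX]
  rw [h2, card_univ] at h1
  omega

end torsion

section small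

variable {X : Type} [AddCommGroup X] [Fintype X] [DecidableEq X]

omit [Fintype X] in
lemma list_split (P : List X) (z : X) (hz : z ∈ P) :
    ∃ P' : List X, P'.length + 1 = P.length ∧ (∀ x ∈ P', x ∈ P) ∧ P.sum = z + P'.sum := by
  refine ⟨P.erase z, ?_, ?_, ?_⟩
  · rw [List.length_erase_of_mem hz]
    have := List.length_pos_of_mem hz
    omega
  · intro x hx
    exact List.mem_of_mem_erase hx
  · rw [← List.sum_cons]
    exact (List.perm_cons_erase hz).sum_eq

lemma small_case (a b κ : ℕ) (hs : 4 ≤ a + b + 3) (hba : b ≤ a) (hκ : Pure (a + b + 3) κ)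
    (hκ1 : a + b + 4 ≤ κ) (hX : ∀ x : X, κ • x = 0) (hIH : IH a b κ (Fintype.card X))
    (hN : Fintype.card X ≤ κ)
    (V W : Finset X) (hVW : V ⊆ W) (hV : V.Nonempty) (hZ : NoZ a b V W)
    (hlarge : 2 * κ * Fintype.card X < (a + b + 3) * κ * (V.card + W.card) +
      2 * Fintype.card X) : False := by
  have hap := aperiodic a b κ hs hκ hκ1 hX hIH V W hVW hV hZ hlarge
  have hmod := card_mod (a + b + 3) κ (by omega) hκ hX
  obtain ⟨m, hm⟩ : ∃ m, Fintype.card X = (a + b + 3) * m + 1 := by
    refine ⟨Fintype.card X / (a + b + 3), ?_⟩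
    have := Nat.div_add_mod (Fintype.card X) (a + b + 3)
    omega
  have hκ0 : 0 < κ := by omega
  have hS : 2 * m + 1 ≤ V.card + W.card := by
    have h1 : κ * (2 * Fintype.card X) < κ * ((a + b + 3) * (V.card + W.card) + 2) := by
      have e1 : κ * (2 * Fintype.card X) = 2 * κ * Fintype.card X := by ring
      have e2 : κ * ((a + b + 3) * (V.card + W.card) + 2) =
        (a + b + 3) * κ * (V.card + W.card) + 2 * κ := by ring
      rw [e1, e2]
      omega
    have h2 := Nat.lt_of_mul_lt_mul_left h1
    rw [hm] at h2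
    have h3 : (a + b + 3) * (2 * m) < (a + b + 3) * (V.card + W.card) := by
      have e : 2 * ((a + b + 3) * m + 1) = (a + b + 3) * (2 * m) + 2 := by ring
      rw [e] at h2
      omega
    have h4 := Nat.lt_of_mul_lt_mul_left h3
    omega
  have hVWc := card_le_card hVW
  have hW1 : W.card ≤ m + 1 := by
    have h1 : (a + b + 1) * W.card ≤ (a + b + 1) * (m + 1) := by
      rw [hm] at hap
      have e1 : (a + b + 2) * W.card = (a + b + 1) * W.card + W.card := by ring
      have e2 : (a + b + 3) * m = (a + b + 1) * m + 2 * m := by ring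
      rw [e1, e2] at hap
      rw [mul_add, mul_one]
      omega
    exact Nat.le_of_mul_le_mul_left h1 (by omega)
  have hWc : W.card = m + 1 := by omega
  have hVc : V.card = m := by
    rw [hWc, hm] at hap
    have e1 : (a + b + 2) * (m + 1) = (a + b + 2) * m + (a + b + 2) := by ring
    have e2 : (a + b + 3) * m = (a + b + 2) * m + m := by ring
    rw [e1, e2] at hap
    omega
  have hsd : (W \ V).card = 1 := by
    rw [card_sdiff_of_subset hVW]; omega
  rw [card_eq_one] at hsd
  obtain ⟨u, hu⟩ := hsd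
  have huW : u ∈ W := by
    have : u ∈ W \ V := by rw [hu]; simp
    exact (mem_sdiff.mp this).1
  have hmem : ∀ z ∈ W, z ∉ V → z = u := by
    intro z hz hzV
    have : z ∈ W \ V := mem_sdiff.mpr ⟨hz, hzV⟩
    rw [hu, mem_singleton] at this
    exact this
  -- `W` is not sum-free
  have hnot : (0 : X) ∈ R (a + 2) (b + 1) W := by
    by_contra hcon
    have hZW : NoZ a b W W := by
      constructor
      · rw [← R_succ_left]; exact hcon
      · rw [← R_succ_right]; exact hcon
    have hlW : 2 * κ * Fintype.card X < (a + b + 3) * κ * (W.card + W.card) +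
      2 * Fintype.card X := by
      have : (a + b + 3) * κ * (V.card + W.card) ≤ (a + b + 3) * κ * (W.card + W.card) :=
        Nat.mul_le_mul_left _ (by omega)
      omega
    have h1 := aperiodic a b κ hs hκ hκ1 hX hIH W W subset_rfl (hV.mono hVW) hZW hlW
    rw [hWc, hm] at h1
    have e1 : (a + b + 2) * (m + 1) = (a + b + 2) * m + (a + b + 2) := by ring
    have e2 : (a + b + 3) * m = (a + b + 2) * m + m := by ring
    rw [e1, e2] at h1
    omega
  rw [mem_R] at hnot
  obtain ⟨P, Q, hP, hQ, hPW, hQW, hPQ⟩ := hnot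
  have hPu : ∀ z ∈ P, z = u := by
    intro z hz
    apply hmem z (hPW z hz)
    intro hzV
    obtain ⟨P', h1, h2, h3⟩ := list_split P z hz
    apply hZ.1
    rw [mem_add]
    refine ⟨z, hzV, P'.sum - Q.sum, ?_, ?_⟩
    · rw [mem_R]
      exact ⟨P', Q, by omega, hQ, fun x hx => hPW x (h2 x hx), hQW, rfl⟩
    · rw [hPQ, h3]; abel
  have hQu : ∀ z ∈ Q, z = u := by
    intro z hz
    apply hmem z (hQW z hz)
    intro hzV
    obtain ⟨Q', h1, h2, h3⟩ := list_split Q z hz
    apply hZ.2
    rw [mem_add]
    refine ⟨-z, by rw [mem_neg', neg_neg]; exact hzV, P.sum - Q'.sum, ?_, ?_⟩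
    · rw [mem_R]
      exact ⟨P, Q', hP, by omega, hPW, fun x hx => hQW x (h2 x hx), rfl⟩
    · rw [hPQ, h3]; abel
  rw [List.eq_replicate_of_mem hPu, List.eq_replicate_of_mem hQu, List.sum_replicate,
    List.sum_replicate, hP, hQ] at hPQ
  have hu0 : u = 0 := by
    obtain ⟨c, hc⟩ : ∃ c, a = b + c := ⟨a - b, by omega⟩
    have h1 : (c + 1) • u = 0 := by
      have e : (a + 2) • u = (c + 1) • u + (b + 1) • u := by
        rw [← add_nsmul]; congr 1; omega
      rw [e, add_sub_cancel_right] at hPQ
      exact hPQ.symm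
    have h2 := addOrderOf_dvd_of_nsmul_eq_zero h1
    have h3 := addOrderOf_dvd_of_nsmul_eq_zero (hX u)
    have h4 : Nat.Coprime (c + 1) κ := by
      rw [Nat.coprime_iff_gcd_eq_one]
      by_contra hg
      obtain ⟨r, hr, hrg⟩ := Nat.exists_prime_and_dvd hg
      have h5 := hκ.pr r hr (hrg.trans (Nat.gcd_dvd_right _ _))
      have h6 := Nat.le_of_dvd (by omega) (hrg.trans (Nat.gcd_dvd_left _ _))
      rw [Nat.mod_eq_of_lt (by omega)] at h5
      rw [h5] at hr
      exact Nat.not_prime_one hr
    have h5 : addOrderOf u = 1 := Nat.eq_one_of_dvd_coprimes h4 h2 h3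
    exact AddMonoid.addOrderOf_eq_one_iff.mp h5
  obtain ⟨v, hv⟩ := hV
  apply hZ.1
  rw [mem_add]
  refine ⟨v, hv, -v, ?_, by abel⟩
  rw [mem_R]
  refine ⟨List.replicate (a + 1) 0, v :: List.replicate b 0, by simp, by simp, ?_, ?_, ?_⟩
  · intro z hz
    rw [List.mem_replicate] at hz
    rw [hz.2, ← hu0]; exact huW
  · intro z hz
    rw [List.mem_cons, List.mem_replicate] at hz
    rcases hz with rfl | hz
    · exact hVW hv
    · rw [hz.2, ← hu0]; exact huW
  · simp

end small

end Pool.Agent.H59.KG
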