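import Mathlib
import Pool.Agent.H59.KG6

set_option autoImplicit false

open Finset Pointwise

namespace Pool.Agent.H59.KG

open Pool.Agent.H59.Kneser

section big

variable {X : Type} [AddCommGroup X] [Fintype X] [DecidableEq X]

/-- The estimate in the direction of one element `e` of order `p`. -/
lemma one_direction (a b κ κ' p q : ℕ) (hs : 4 ≤ a + b + 3) (hκ : Pure (a + b + 3) κ)
    (hp : p.Prime) (hq : p = (a + b + 3) * q + 1) (hκp : κ = p * κ') (hκ' : a + b + 4 ≤ κ')
    (hX : ∀ x : X, κ • x = 0) (hIH : IH a b κ (Fintype.card X)) (y : ℕ)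
    (hy : Fintype.card X = y * p) (hyc : (a + b + 1) * (a + b + 4) ≤ y * (a + b))
    (V W : Finset X) (hVW : V ⊆ W) (hZ : NoZ a b V W)
    (hlarge : 2 * κ * Fintype.card X < (a + b + 3) * κ * (V.card + W.card) +
      2 * Fintype.card X)
    (haper : V.card + (a + b + 2) * W.card ≤ Fintype.card X + (a + b + 1))
    (e : X) (he : p • e = 0) (he0 : e ≠ 0)
    [∀ e : X, DecidablePred (· ∈ AddSubgroup.zmultiples e)] :
    (a + b + 3) * κ * (prs V (· ∈ AddSubgroup.zmultiples e) +
      prs W (· ∈ AddSubgroup.zmultiples e)) + (q + 1) * (2 * y) ≤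
      (a + b + 3) * κ * (q * (V.card + W.card)) + (q + 1) * (2 * κ * y) := by
  have : Fact p.Prime := ⟨hp⟩
  have hord : addOrderOf e = p := addOrderOf_eq_prime he he0
  obtain ⟨Y, i1, i2, i3, f, hsurj, hker, hnice⟩ := exists_quot (AddSubgroup.zmultiples e)
  rw [Nat.card_zmultiples, hord] at hnice
  have hYk := killed_of_surj κ f hsurj hX
  have hYc : Fintype.card Y = y := by
    have h1 := hnice.card
    rw [hy] at h1
    exact (Nat.eq_of_mul_eq_mul_right hp.pos h1).symm
  have hYlt : Fintype.card Y < Fintype.card X := by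
    rw [hYc, hy]
    have h1 : 1 ≤ y := by
      rw [← hYc]; exact Fintype.card_pos
    have := hp.two_le
    nlinarith
  have hkerp : ∀ g, f g = 0 → p • g = 0 := by
    intro g hg
    rw [hker, AddSubgroup.mem_zmultiples_iff] at hg
    obtain ⟨k, rfl⟩ := hg
    rw [smul_comm, he, smul_zero]
  obtain ⟨h1, h2⟩ := dichotomy hnice hp hkerp a b κ κ' q hs hq hκp hκ' hκ hYk
    (by rw [hYc]; exact hyc) (fun V' W' => hIH Y hYk hYlt V' W') V W hVW hZ hlarge haper
  rw [hYc] at h2
  have h3 := sum_sq_le f (· ∈ AddSubgroup.zmultiples e) hker V q (fun c =>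
    (card_le_card (filter_subset_filter _ hVW)).trans (h1 c))
  have h4 := sum_sq_le f (· ∈ AddSubgroup.zmultiples e) hker W q h1
  have h5 : (a + b + 3) * κ * (prs V (· ∈ AddSubgroup.zmultiples e) +
      prs W (· ∈ AddSubgroup.zmultiples e)) ≤ (a + b + 3) * κ * ((q * V.card +
      (q + 1) * (lev f V (q + 1)).card) + (q * W.card + (q + 1) * (lev f W (q + 1)).card)) :=
    Nat.mul_le_mul_left _ (Nat.add_le_add h3 h4)
  have h6 : (q + 1) * ((a + b + 3) * κ * ((lev f V (q + 1)).card + (lev f W (q + 1)).card) +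
      2 * y) ≤ (q + 1) * (2 * κ * y) := Nat.mul_le_mul_left _ h2
  linarith

lemma big_case (a b κ : ℕ) (hs : 4 ≤ a + b + 3) (hκ : Pure (a + b + 3) κ)
    (hcomp : ∀ p, p.Prime → p ∣ κ → ∃ κ', κ = p * κ' ∧ a + b + 4 ≤ κ')
    (hκ1 : a + b + 4 ≤ κ) (hX : ∀ x : X, κ • x = 0) (hIH : IH a b κ (Fintype.card X))
    (hN : κ < Fintype.card X)
    (V W : Finset X) (hVW : V ⊆ W) (hV : V.Nonempty) (hZ : NoZ a b V W)
    (hlarge : 2 * κ * Fintype.card X < (a + b + 3) * κ * (V.card + W.card) +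
      2 * Fintype.card X) : False := by
  classical
  have haper := aperiodic a b κ hs hκ hκ1 hX hIH V W hVW hV hZ hlarge
  obtain ⟨p, hp, hpκ, hQ⟩ := exists_rank_two κ hκ.ne hX hN
  obtain ⟨κ', hκp, hκ'⟩ := hcomp p hp hpκ
  have hpm := hκ.pr p hp hpκ
  obtain ⟨q, hq⟩ : ∃ q, p = (a + b + 3) * q + 1 := by
    refine ⟨p / (a + b + 3), ?_⟩
    have := Nat.div_add_mod p (a + b + 3)
    omega
  have hq1 : 1 ≤ q := by
    rcases Nat.eq_zero_or_pos q with h | h
    · rw [h, mul_zero, zero_add] at hq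
      rw [hq] at hp
      exact absurd hp Nat.not_prime_one
    · exact h
  have hp1 : a + b + 4 ≤ p := by
    rw [hq]
    have : (a + b + 3) * 1 ≤ (a + b + 3) * q := Nat.mul_le_mul_left _ hq1
    omega
  -- an element of order `p`
  have hQ1 : 1 < (tor X p).card := by omega
  obtain ⟨e0, he0, he0'⟩ := exists_mem_ne hQ1 0
  rw [mem_tor] at he0
  obtain ⟨y, hy⟩ : ∃ y, Fintype.card X = y * p := by
    have : Fact p.Prime := ⟨hp⟩
    have hord : addOrderOf e0 = p := addOrderOf_eq_prime he0 he0'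
    obtain ⟨y, hy⟩ := hord ▸ addOrderOf_dvd_card (x := e0)
    exact ⟨y, by rw [hy, mul_comm]⟩
  have hyκ : κ' < y := by
    rw [hy, hκp, mul_comm] at hN
    exact Nat.lt_of_mul_lt_mul_right hN
  have hy0 : y ≠ 0 := by omega
  have hyp : ∀ r : ℕ, r.Prime → r ∣ y → r % (a + b + 3) = 1 := by
    intro r hr hry
    apply hκ.pr r hr
    apply prime_dvd_of_killed κ hX r hr
    rw [hy]
    exact hry.mul_right p
  have hymod := mod_one_of_primes (a + b + 3) (by omega) y hy0 hyp
  have hyc : (a + b + 1) * (a + b + 4) ≤ y * (a + b) := by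
    obtain ⟨t, ht⟩ : ∃ t, y = (a + b + 3) * t + 1 := by
      refine ⟨y / (a + b + 3), ?_⟩
      have := Nat.div_add_mod y (a + b + 3)
      omega
    have ht2 : 2 ≤ t := by
      by_contra hcon
      have h1 : t ≤ 1 := by omega
      have h2 : (a + b + 3) * t ≤ (a + b + 3) * 1 := Nat.mul_le_mul_left _ h1
      omega
    rcases Nat.lt_or_ge 4 (a + b + 3) with h5 | h5
    · have h2 : (a + b + 3) * 2 ≤ (a + b + 3) * t := Nat.mul_le_mul_left _ ht2
      have h3 : 2 * (a + b + 3) + 1 ≤ y := by omega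
      have h4 : (2 * (a + b + 3) + 1) * (a + b) ≤ y * (a + b) := Nat.mul_le_mul_right _ h3
      refine le_trans ?_ h4
      nlinarith
    · have hs4 : a + b + 3 = 4 := by omega
      have hab : a + b = 1 := by omega
      rw [hab]
      rw [hs4] at ht hyp
      have hy9 : y ≠ 9 := by
        intro h9
        have := hyp 3 (by norm_num) (by rw [h9]; norm_num)
        omega
      omega
  -- sum over all directions
  have h0 : (0 : X) ∈ tor X p := by rw [mem_tor, smul_zero]
  have hsum := sum_le_sum (fun e (he : e ∈ (tor X p).erase 0) =>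
    one_direction a b κ κ' p q hs hκ hp hq hκp hκ' hX hIH y hy hyc V W hVW hZ hlarge haper e
      ((mem_tor p e).mp (mem_erase.mp he).2) (mem_erase.mp he).1)
  rw [sum_add_distrib, ← mul_sum, sum_add_distrib, sum_const, sum_const,
    card_erase_of_mem h0, smul_eq_mul, smul_eq_mul] at hsum
  have hcV := sum_count p hp V
  have hcW := sum_count p hp W
  obtain ⟨Z, i1, i2, i3, g, hsurj, hker, hnice⟩ := exists_quot (torG X p)
  rw [card_torG] at hnice
  have hP : ∀ x, g x = 0 ↔ x ∈ tor X p := by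
    intro x
    rw [hker, mem_torG, mem_tor]
  have hcsV := prs_cs g (· ∈ tor X p) hP _ hnice V
  have hcsW := prs_cs g (· ∈ tor X p) hP _ hnice W
  set Q := (tor X p).card with hQdef
  set SV := ∑ e ∈ (tor X p).erase 0, prs V (· ∈ AddSubgroup.zmultiples e)
  set SW := ∑ e ∈ (tor X p).erase 0, prs W (· ∈ AddSubgroup.zmultiples e)
  have hQz : ((Q - 1 : ℕ) : ℤ) = (Q : ℤ) - 1 := by
    rw [Nat.cast_sub (by omega)]; simp
  have hpz : ((p - 1 : ℕ) : ℤ) = (a + b + 3 : ℤ) * q := by
    rw [Nat.cast_sub (by omega), hq]; push_cast; ring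
  apply ar6 (a + b + 3 : ℤ) κ q Q (Fintype.card X) y (V.card + W.card)
    (prs V (· ∈ tor X p) + prs W (· ∈ tor X p)) V.card W.card
  · exact_mod_cast hs
  · exact_mod_cast hq1
  · have : (a + b + 3) * q + 1 ≤ κ := by
      rw [← hq, hκp]
      exact Nat.le_mul_of_pos_right _ (by omega)
    exact_mod_cast this
  · have h1 : 2 * ((a + b + 3) * q + 1) ≤ Q := by rw [← hq]; exact hQ
    exact_mod_cast h1
  · rw [hy, hq]; push_cast; ring
  · have : 1 ≤ y := by omega
    exact_mod_cast this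
  · ring
  · have h1 : (((Q - 1) * V.card + (p - 1) * prs V (· ∈ tor X p) : ℕ) : ℤ) ≤
        ((SV + (p - 1) * V.card : ℕ) : ℤ) := by exact_mod_cast hcV
    have h2 : (((Q - 1) * W.card + (p - 1) * prs W (· ∈ tor X p) : ℕ) : ℤ) ≤
        ((SW + (p - 1) * W.card : ℕ) : ℤ) := by exact_mod_cast hcW
    push_cast at h1 h2
    rw [hQz, hpz] at h1 h2
    have h3 : (((a + b + 3) * κ * (SV + SW) + (Q - 1) * ((q + 1) * (2 * y)) : ℕ) : ℤ) ≤
        (((Q - 1) * ((a + b + 3) * κ * (q * (V.card + W.card)) + (q + 1) * (2 * κ * y)) : ℕ) :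
        ℤ) := by exact_mod_cast hsum
    push_cast at h3
    rw [hQz] at h3
    have h4 : ((a + b + 3 : ℤ) * κ) * (((Q : ℤ) - 1) * (V.card + W.card) + ((a + b + 3) * q) *
        (prs V (· ∈ tor X p) + prs W (· ∈ tor X p)) - ((a + b + 3) * q) *
        (V.card + W.card)) ≤ ((a + b + 3 : ℤ) * κ) * (SV + SW) := by
      apply mul_le_mul_of_nonneg_left _ (by positivity)
      linarith
    linarith
  · have h1 : ((Q * V.card ^ 2 : ℕ) : ℤ) ≤ ((Fintype.card X * prs V (· ∈ tor X p) : ℕ) : ℤ) := by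
      exact_mod_cast hcsV
    have h2 : ((Q * W.card ^ 2 : ℕ) : ℤ) ≤ ((Fintype.card X * prs W (· ∈ tor X p) : ℕ) : ℤ) := by
      exact_mod_cast hcsW
    push_cast at h1 h2
    linarith
  · have : ((2 * κ * Fintype.card X : ℕ) : ℤ) <
      (((a + b + 3) * κ * (V.card + W.card) + 2 * Fintype.card X : ℕ) : ℤ) := by
      exact_mod_cast hlarge
    push_cast at this
    linarith

end big

/-- The pair inequality for composite exponents all of whose prime factors are `1` mod `s`. -/
theorem pair_bound (a b κ : ℕ) (hs : 4 ≤ a + b + 3) (hba : b ≤ a) (hκ : Pure (a + b + 3) κ)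
    (hcomp : ∀ p, p.Prime → p ∣ κ → ∃ κ', κ = p * κ' ∧ a + b + 4 ≤ κ')
    (hκ1 : a + b + 4 ≤ κ) (n : ℕ) : ∀ (X : Type) [AddCommGroup X] [Fintype X] [DecidableEq X],
    Fintype.card X = n → (∀ x : X, κ • x = 0) → ∀ V W : Finset X, V ⊆ W → V.Nonempty →
    NoZ a b V W → (a + b + 3) * κ * (V.card + W.card) + 2 * Fintype.card X ≤
      2 * κ * Fintype.card X := by
  induction n using Nat.strong_induction_on with
  | _ n ih =>
    intro X _ _ _ hc hX V W hVW hV hZ
    by_contra hcon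
    push Not at hcon
    have hIH : IH a b κ (Fintype.card X) := by
      intro Y _ _ _ hYk hlt V' W' h1 h2 h3
      exact ih (Fintype.card Y) (by omega) Y rfl hYk V' W' h1 h2 h3
    rcases Nat.lt_or_ge κ (Fintype.card X) with h | h
    · exact big_case a b κ hs hκ hcomp hκ1 hX hIH h V W hVW hV hZ hcon
    · exact small_case a b κ hs hba hκ hκ1 hX hIH h V W hVW hV hZ hcon

end Pool.Agent.H59.KG
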