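import Mathlib

set_option autoImplicit false

open Finset Pointwise

namespace Pool.Agent.H59.KL

/-- `(k,l)`-sum-free sets, in terms of lists. -/
def SF {G : Type*} [AddCommGroup G] (k l : ℕ) (A : Finset G) : Prop :=
  ∀ P Q : List G, P.length = k → Q.length = l → (∀ x ∈ P, x ∈ A) → (∀ x ∈ Q, x ∈ A) →
    P.sum ≠ Q.sum

lemma sf_iff {G : Type*} [AddCommGroup G] [DecidableEq G] (k l : ℕ) (A : Finset G) :
    Disjoint ((Fintype.piFinset (fun _ : Fin k => A)).image (fun f : Fin k → G => ∑ i, f i))
      ((Fintype.piFinset (fun _ : Fin l => A)).image (fun f : Fin l → G => ∑ i, f i)) ↔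
      SF k l A := by
  constructor
  · intro h P Q hP hQ hPA hQA hs
    rw [Finset.disjoint_left] at h
    subst hP
    subst hQ
    apply h (a := P.sum)
    · rw [mem_image]
      refine ⟨fun i => P.get i, ?_, ?_⟩
      · rw [Fintype.mem_piFinset]
        intro i
        exact hPA _ (List.get_mem _ _)
      · rw [← List.sum_ofFn, List.ofFn_get]
    · rw [mem_image]
      refine ⟨fun i => Q.get i, ?_, ?_⟩
      · rw [Fintype.mem_piFinset]
        intro i
        exact hQA _ (List.get_mem _ _)
      · rw [← List.sum_ofFn, List.ofFn_get, hs]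
  · intro h
    rw [Finset.disjoint_left]
    intro x hx hx'
    rw [mem_image] at hx hx'
    obtain ⟨f, hf, rfl⟩ := hx
    obtain ⟨g, hg, hgf⟩ := hx'
    rw [Fintype.mem_piFinset] at hf hg
    apply h (List.ofFn f) (List.ofFn g) (by simp) (by simp)
    · intro x hx
      rw [List.mem_ofFn] at hx
      obtain ⟨i, rfl⟩ := hx
      exact hf i
    · intro x hx
      rw [List.mem_ofFn] at hx
      obtain ⟨i, rfl⟩ := hx
      exact hg i
    · rw [List.sum_ofFn, List.sum_ofFn, hgf]

/-- Cauchy-Davenport for a list of sets. -/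
lemma cd_list {V : Type*} [AddCommGroup V] [DecidableEq V] (p : ℕ)
    (hp : (p : ℕ∞) ≤ AddMonoid.minOrder V) (L : List (Finset V)) (hne : ∀ X ∈ L, X.Nonempty) :
    L.sum.Nonempty ∧ (p ≤ L.sum.card ∨ (L.map Finset.card).sum + 1 ≤ L.sum.card + L.length) := by
  induction L with
  | nil => simp
  | cons X L ih =>
    have hX : X.Nonempty := hne X (by simp)
    obtain ⟨hL, hL2⟩ := ih (fun Y hY => hne Y (by simp [hY]))
    rw [List.sum_cons]
    refine ⟨hX.add hL, ?_⟩
    have hcd := cauchy_davenport_minOrder_add hX hL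
    have hcd' : min p (X.card + L.sum.card - 1) ≤ (X + L.sum).card := by
      have h1 : min (p : ℕ∞) ((X.card + L.sum.card - 1 : ℕ) : ℕ∞) ≤ ((X + L.sum).card : ℕ∞) :=
        le_trans (min_le_min_right _ hp) hcd
      rcases min_le_iff.mp h1 with h2 | h2
      · exact (min_le_left _ _).trans (by exact_mod_cast h2)
      · exact (min_le_right _ _).trans (by exact_mod_cast h2)
    have hX1 : 1 ≤ X.card := hX.card_pos
    have hL1 : 1 ≤ L.sum.card := hL.card_pos
    rw [List.map_cons, List.sum_cons, List.length_cons]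
    rcases hL2 with h | h
    · left
      have h2 : L.sum.card ≤ (X + L.sum).card := Finset.card_le_card_add_left hX
      omega
    · rcases min_le_iff.mp hcd' with h3 | h3
      · left; exact h3
      · right; omega

/-- The fibre of `A` over `c`. -/
def fib {V W : Type*} [DecidableEq W] (f : V → W) (A : Finset V) (c : W) : Finset V :=
  A.filter (fun v => f v = c)

lemma mem_sum_fib {V W : Type*} [AddCommGroup V] [AddCommGroup W] [DecidableEq V] [DecidableEq W]
    (f : V →+ W) (A : Finset V) (cs : List W) (x : V)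
    (hx : x ∈ (cs.map (fun c => fib f A c)).sum) :
    f x = cs.sum ∧ ∃ P : List V, P.length = cs.length ∧ (∀ v ∈ P, v ∈ A) ∧ P.sum = x := by
  induction cs generalizing x with
  | nil =>
    simp only [List.map_nil, List.sum_nil, mem_zero] at hx
    subst hx
    exact ⟨by simp, [], by simp⟩
  | cons c cs ih =>
    rw [List.map_cons, List.sum_cons, mem_add] at hx
    obtain ⟨y, hy, z, hz, rfl⟩ := hx
    obtain ⟨h1, P, h2, h3, h4⟩ := ih z hz
    rw [fib, mem_filter] at hy
    refine ⟨by rw [map_add, hy.2, h1, List.sum_cons], y :: P, by simp [h2], ?_, by simp [h4]⟩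
    intro v hv
    rw [List.mem_cons] at hv
    rcases hv with rfl | hv
    · exact hy.1
    · exact h3 v hv

/-- The configuration inequality. -/
lemma config {V W : Type*} [AddCommGroup V] [AddCommGroup W] [Fintype V] [DecidableEq V]
    [DecidableEq W] (p k l : ℕ) (hp : (p : ℕ∞) ≤ AddMonoid.minOrder V) (f : V →+ W)
    (hker : ∀ z, (fib f univ z).card ≤ p) (A : Finset V) (hA : SF k l A)
    (cs ds : List W) (hk : cs.length = k) (hl : ds.length = l)
    (hc : ∀ c ∈ cs, 0 < (fib f A c).card) (hd : ∀ c ∈ ds, 0 < (fib f A c).card)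
    (hsum : cs.sum = ds.sum) :
    (cs.map (fun c => (fib f A c).card)).sum + (ds.map (fun c => (fib f A c).card)).sum + 2
      ≤ p + (k + l) := by
  obtain ⟨hPn, hP⟩ := cd_list p hp (cs.map (fun c => fib f A c)) (by
    intro X hX
    rw [List.mem_map] at hX
    obtain ⟨c, hc', rfl⟩ := hX
    exact card_pos.mp (hc c hc'))
  obtain ⟨hQn, hQ⟩ := cd_list p hp (ds.map (fun c => fib f A c)) (by
    intro X hX
    rw [List.mem_map] at hX
    obtain ⟨c, hc', rfl⟩ := hX
    exact card_pos.mp (hd c hc'))
  rw [List.map_map, List.length_map] at hP hQ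
  have hdisj : Disjoint (cs.map (fun c => fib f A c)).sum (ds.map (fun c => fib f A c)).sum := by
    rw [Finset.disjoint_left]
    intro x hx hx'
    obtain ⟨h1, P, h2, h3, h4⟩ := mem_sum_fib f A cs x hx
    obtain ⟨h1', Q, h2', h3', h4'⟩ := mem_sum_fib f A ds x hx'
    exact hA P Q (by omega) (by omega) h3 h3' (by rw [h4, h4'])
  have hsub : (cs.map (fun c => fib f A c)).sum ∪ (ds.map (fun c => fib f A c)).sum ⊆
      fib f univ cs.sum := by
    intro x hx
    rw [mem_union] at hx
    rw [fib, mem_filter]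
    refine ⟨mem_univ _, ?_⟩
    rcases hx with hx | hx
    · exact (mem_sum_fib f A cs x hx).1
    · rw [hsum]; exact (mem_sum_fib f A ds x hx).1
  have hcard := (card_le_card hsub).trans (hker _)
  rw [card_union_of_disjoint hdisj] at hcard
  have h1 := hPn.card_pos
  have h2 := hQn.card_pos
  have e1 : (card ∘ fun c => fib f A c) = (fun c => (fib f A c).card) := rfl
  rw [e1] at hP hQ
  omega

end Pool.Agent.H59.KL
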