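import Mathlib
import Pool.Agent.H59.KL1

set_option autoImplicit false

open Finset Pointwise

namespace Pool.Agent.H59.KL

lemma minOrder_ge {V : Type*} [AddCommGroup V] (p : ℕ) (hp : p.Prime)
    (h : ∀ x : V, p • x = 0) : (p : ℕ∞) ≤ AddMonoid.minOrder V := by
  rw [AddMonoid.le_minOrder]
  intro a ha _
  have h1 : addOrderOf a ∣ p := addOrderOf_dvd_of_nsmul_eq_zero (h a)
  rcases (Nat.dvd_prime hp).mp h1 with h2 | h2
  · rw [AddMonoid.addOrderOf_eq_one_iff] at h2
    exact absurd h2 ha
  · rw [h2]

lemma mem_fib {V W : Type*} [DecidableEq W] (f : V → W) (A : Finset V) (c : W) (v : V) :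
    v ∈ fib f A c ↔ v ∈ A ∧ f v = c := by
  rw [fib, mem_filter]

section plane

variable (p : ℕ) [hpf : Fact p.Prime]

/-- The functional attached to `w`. -/
def ff (w : ZMod p × ZMod p) : ZMod p × ZMod p →+ ZMod p :=
  AddMonoidHom.mk' (fun v => w.1 * v.1 + w.2 * v.2) (by intro a b; simp; ring)

@[simp] lemma ff_apply (w v : ZMod p × ZMod p) : ff p w v = w.1 * v.1 + w.2 * v.2 := rfl

lemma ff_comm (w v : ZMod p × ZMod p) : ff p w v = ff p v w := by
  simp [mul_comm]

lemma minOrder_plane : (p : ℕ∞) ≤ AddMonoid.minOrder (ZMod p × ZMod p) := by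
  apply minOrder_ge p hpf.out
  intro x
  ext <;> simp

lemma minOrder_line : (p : ℕ∞) ≤ AddMonoid.minOrder (ZMod p) := by
  apply minOrder_ge p hpf.out
  intro x
  simp

lemma ker_card (w : ZMod p × ZMod p) (hw : w ≠ 0) (z : ZMod p) :
    (fib (ff p w) univ z).card = p := by
  by_cases h1 : w.1 = 0
  · have h2 : w.2 ≠ 0 := by
      intro h2; apply hw; ext <;> simp [h1, h2]
    have : fib (ff p w) univ z = univ.image (fun x : ZMod p => (x, (z - w.1 * x) / w.2)) := by
      ext v
      rw [mem_fib, mem_image, ff_apply]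
      simp only [mem_univ, true_and]
      constructor
      · intro h
        refine ⟨v.1, ?_⟩
        ext
        · rfl
        · simp only
          field_simp
          rw [← h]; ring
      · rintro ⟨x, rfl⟩
        simp only
        field_simp
        ring
    rw [this, card_image_of_injective, card_univ, ZMod.card]
    intro x y hxy
    exact (Prod.ext_iff.mp hxy).1
  · have : fib (ff p w) univ z = univ.image (fun y : ZMod p => ((z - w.2 * y) / w.1, y)) := by
      ext v
      rw [mem_fib, mem_image, ff_apply]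
      simp only [mem_univ, true_and]
      constructor
      · intro h
        refine ⟨v.2, ?_⟩
        ext
        · simp only
          field_simp
          rw [← h]; ring
        · rfl
      · rintro ⟨x, rfl⟩
        simp only
        field_simp
        ring
    rw [this, card_image_of_injective, card_univ, ZMod.card]
    intro x y hxy
    exact (Prod.ext_iff.mp hxy).2

/-- Number of functionals vanishing at a non-zero vector. -/
lemma count_vanish (v : ZMod p × ZMod p) (hv : v ≠ 0) :
    (univ.filter (fun w => ff p w v = 0)).card = p := by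
  refine Eq.trans ?_ (ker_card p v hv 0)
  congr 1
  ext w
  rw [mem_fib, mem_filter, ff_comm]

/-- sum over all functionals of the number of points of `A` in the kernel -/
lemma sum_origin (A : Finset (ZMod p × ZMod p)) (h0 : (0 : ZMod p × ZMod p) ∉ A) :
    ∑ w ∈ univ.erase (0 : ZMod p × ZMod p), ((fib (ff p w) A 0).card : ℤ) =
      ((p : ℤ) - 1) * A.card := by
  have h1 : ∑ w : ZMod p × ZMod p, ((fib (ff p w) A 0).card : ℤ) = (p : ℤ) * A.card := by
    have : ∀ w : ZMod p × ZMod p, ((fib (ff p w) A 0).card : ℤ) =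
        ∑ v ∈ A, if ff p w v = 0 then (1 : ℤ) else 0 := by
      intro w
      rw [fib, card_filter]
      push_cast
      rfl
    simp_rw [this]
    rw [sum_comm]
    have h2 : ∀ v ∈ A, ∑ w : ZMod p × ZMod p, (if ff p w v = 0 then (1 : ℤ) else 0) = p := by
      intro v hv
      have hv0 : v ≠ 0 := by rintro rfl; exact h0 hv
      have h := count_vanish p v hv0
      rw [card_filter] at h
      exact_mod_cast h
    rw [sum_congr rfl h2, sum_const, nsmul_eq_mul, mul_comm]
  have h3 : ((fib (ff p 0) A 0).card : ℤ) = A.card := by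
    rw [fib, filter_true_of_mem]
    intro v _
    simp
  have h4 := add_sum_erase univ (fun w : ZMod p × ZMod p => ((fib (ff p w) A 0).card : ℤ))
    (mem_univ 0)
  rw [h1] at h4
  simp only [h3] at h4
  linarith

/-- second moment over the fibres of one map -/
lemma sum_sq_fib {V W : Type*} [DecidableEq W] [Fintype W] (f : V → W) (A : Finset V) :
    ∑ c : W, ((fib f A c).card : ℤ) ^ 2 =
      ∑ u ∈ A, ∑ v ∈ A, if f u = f v then (1 : ℤ) else 0 := by
  have h1 : ∀ u ∈ A, ∑ v ∈ A, (if f u = f v then (1 : ℤ) else 0) = (fib f A (f u)).card := by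
    intro u _
    rw [fib, card_filter]
    push_cast
    apply sum_congr rfl
    intro v _
    by_cases h : f u = f v
    · simp [h]
    · rw [if_neg h, if_neg (fun h' => h h'.symm)]
  rw [sum_congr rfl h1]
  rw [← sum_fiberwise A f (fun u => ((fib f A (f u)).card : ℤ))]
  apply sum_congr rfl
  intro c _
  have : ∀ u ∈ A.filter (fun u => f u = c), ((fib f A (f u)).card : ℤ) = (fib f A c).card := by
    intro u hu
    rw [mem_filter] at hu
    rw [hu.2]
  rw [sum_congr rfl this, sum_const, nsmul_eq_mul, sq]
  rfl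

/-- second moment over all functionals -/
lemma sum_second (A : Finset (ZMod p × ZMod p)) :
    ∑ w ∈ univ.erase (0 : ZMod p × ZMod p), ∑ c : ZMod p, ((fib (ff p w) A c).card : ℤ) ^ 2 =
      ((p : ℤ) - 1) * A.card * (A.card + p) := by
  have h1 : ∑ w : ZMod p × ZMod p, ∑ c : ZMod p, ((fib (ff p w) A c).card : ℤ) ^ 2 =
      A.card * ((p : ℤ) ^ 2 + (A.card - 1) * p) := by
    simp_rw [sum_sq_fib]
    rw [sum_comm]
    have h2 : ∀ u ∈ A, ∑ w : ZMod p × ZMod p, ∑ v ∈ A, (if ff p w u = ff p w v then (1 : ℤ) else 0)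
        = (p : ℤ) ^ 2 + (A.card - 1) * p := by
      intro u hu
      rw [sum_comm, ← add_sum_erase A _ hu]
      have h3 : ∑ w : ZMod p × ZMod p, (if ff p w u = ff p w u then (1 : ℤ) else 0) = (p : ℤ) ^ 2 := by
        simp [ZMod.card, sq]
      have h4 : ∀ v ∈ A.erase u, ∑ w : ZMod p × ZMod p,
          (if ff p w u = ff p w v then (1 : ℤ) else 0) = p := by
        intro v hv
        rw [mem_erase] at hv
        have h := count_vanish p (u - v) (sub_ne_zero.mpr (Ne.symm hv.1))
        rw [card_filter] at h
        have h' : ∑ w : ZMod p × ZMod p, (if ff p w (u - v) = 0 then (1 : ℤ) else 0) = p := by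
          exact_mod_cast h
        refine Eq.trans ?_ h'
        apply sum_congr rfl
        intro w _
        by_cases hh : ff p w u = ff p w v
        · rw [if_pos hh, if_pos (by rw [map_sub, hh, sub_self])]
        · rw [if_neg hh, if_neg (by rw [map_sub, sub_eq_zero]; exact hh)]
      rw [h3, sum_congr rfl h4, sum_const, card_erase_of_mem hu, nsmul_eq_mul]
      have : 1 ≤ A.card := card_pos.mpr ⟨u, hu⟩
      push_cast [Nat.cast_sub this]
      ring
    rw [sum_congr rfl h2, sum_const, nsmul_eq_mul]
  have h3 : ∑ c : ZMod p, ((fib (ff p 0) A c).card : ℤ) ^ 2 = (A.card : ℤ) ^ 2 := by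
    rw [sum_sq_fib]
    simp [sq]
  have h4 := add_sum_erase univ (fun w : ZMod p × ZMod p =>
    ∑ c : ZMod p, ((fib (ff p w) A c).card : ℤ) ^ 2) (mem_univ 0)
  rw [h1] at h4
  simp only [h3] at h4
  linarith

lemma sum_fib_card {V W : Type*} [DecidableEq W] [Fintype W] (f : V → W) (A : Finset V) :
    ∑ c : W, (fib f A c).card = A.card := by
  rw [card_eq_sum_card_fiberwise (f := f) (t := univ) (fun _ _ => mem_coe.mpr (mem_univ _))]
  rfl

end plane

end Pool.Agent.H59.KL
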