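import Mathlib
import Pool.Agent.H59.KL2

set_option autoImplicit false

open Finset Pointwise

namespace Pool.Agent.H59.KL

section conf

variable (p : ℕ) [hpf : Fact p.Prime]

/-- A `(k,l)`-sum-free subset of the line. -/
lemma line_card (k l : ℕ) (B : Finset (ZMod p)) (hB : SF k l B) (hne : B.Nonempty) :
    (k + l) * B.card + 2 ≤ p + (k + l) := by
  have h1 : ∀ z : ZMod p, (fib (0 : ZMod p →+ ZMod p) univ z).card ≤ p := by
    intro z
    calc _ ≤ (univ : Finset (ZMod p)).card := card_le_card (filter_subset _ _)
      _ = p := by rw [card_univ, ZMod.card]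
  have h2 : fib (0 : ZMod p →+ ZMod p) B 0 = B := by
    ext v
    rw [mem_fib]
    simp
  have h3 := config p k l (minOrder_line p) (0 : ZMod p →+ ZMod p) h1 B hB
    (List.replicate k 0) (List.replicate l 0) (by simp) (by simp)
    (by intro c hc; rw [List.eq_of_mem_replicate hc, h2]; exact hne.card_pos)
    (by intro c hc; rw [List.eq_of_mem_replicate hc, h2]; exact hne.card_pos)
    (by simp)
  rw [List.map_replicate, List.map_replicate, h2, List.sum_replicate, List.sum_replicate] at h3
  simp only [smul_eq_mul] at h3
  rw [add_mul]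
  exact h3

variable (k l : ℕ) (A : Finset (ZMod p × ZMod p)) (hA : SF k l A)
  (w : ZMod p × ZMod p) (hw : w ≠ 0)

include hA hw

lemma config_plane (cs ds : List (ZMod p)) (hk : cs.length = k) (hl : ds.length = l)
    (hc : ∀ c ∈ cs, 0 < (fib (ff p w) A c).card) (hd : ∀ c ∈ ds, 0 < (fib (ff p w) A c).card)
    (hsum : cs.sum = ds.sum) :
    (cs.map (fun c => (fib (ff p w) A c).card)).sum +
      (ds.map (fun c => (fib (ff p w) A c).card)).sum + 2 ≤ p + (k + l) :=
  config p k l (minOrder_plane p) (ff p w) (fun z => (ker_card p w hw z).le) A hA cs ds hk hl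
    hc hd hsum

lemma origin_card (h0 : 0 < (fib (ff p w) A 0).card) :
    (k + l) * (fib (ff p w) A 0).card + 2 ≤ p + (k + l) := by
  have h3 := config_plane p k l A hA w hw
    (List.replicate k 0) (List.replicate l 0) (by simp) (by simp)
    (by intro c hc; rw [List.eq_of_mem_replicate hc]; exact h0)
    (by intro c hc; rw [List.eq_of_mem_replicate hc]; exact h0)
    (by simp)
  rw [List.map_replicate, List.map_replicate, List.sum_replicate, List.sum_replicate] at h3
  simp only [smul_eq_mul] at h3
  rw [add_mul]
  exact h3

lemma pair_origin (k' l' : ℕ) (hk : k = k' + 1) (hl : l = l' + 1)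
    (h0 : 0 < (fib (ff p w) A 0).card) (c : ZMod p) (hc : 0 < (fib (ff p w) A c).card) :
    2 * (fib (ff p w) A c).card + (k' + l') * (fib (ff p w) A 0).card + 2 ≤ p + (k + l) := by
  have h3 := config_plane p k l A hA w hw
    (c :: List.replicate k' 0) (c :: List.replicate l' 0) (by simp [hk]) (by simp [hl])
    (by
      intro d hd
      rw [List.mem_cons] at hd
      rcases hd with rfl | hd
      · exact hc
      · rw [List.eq_of_mem_replicate hd]; exact h0)
    (by
      intro d hd
      rw [List.mem_cons] at hd
      rcases hd with rfl | hd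
      · exact hc
      · rw [List.eq_of_mem_replicate hd]; exact h0)
    (by simp)
  simp only [List.map_cons, List.map_replicate, List.sum_cons, List.sum_replicate,
    smul_eq_mul] at h3
  nlinarith [h3]

lemma two_level (k' : ℕ) (hk : k = k' + 2) (j : ℕ) (hj : 1 ≤ j) (T : Finset (ZMod p))
    (hT : p < 2 * T.card) (hTj : ∀ c ∈ T, j ≤ (fib (ff p w) A c).card)
    (c : ZMod p) (hc : 0 < (fib (ff p w) A c).card) :
    2 * j + (k' + l) * (fib (ff p w) A c).card + 2 ≤ p + (k + l) := by
  set z : ZMod p := l • c - k' • c with hz
  -- find two elements of `T` with sum `z`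
  have h1 : ∃ c₁ ∈ T, ∃ c₂ ∈ T, c₁ + c₂ = z := by
    by_contra hcon
    push Not at hcon
    have hdisj : Disjoint T (T.image (fun x => z - x)) := by
      rw [Finset.disjoint_left]
      intro x hx hx'
      rw [mem_image] at hx'
      obtain ⟨y, hy, hyx⟩ := hx'
      exact hcon x hx y hy (by rw [← hyx]; ring)
    have h2 : (T ∪ T.image (fun x => z - x)).card ≤ p := by
      calc _ ≤ (univ : Finset (ZMod p)).card := card_le_card (subset_univ _)
        _ = p := by rw [card_univ, ZMod.card]
    rw [card_union_of_disjoint hdisj, card_image_of_injective _ (sub_right_injective)] at h2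
    omega
  obtain ⟨c₁, h1, c₂, h2, h12⟩ := h1
  have h3 := config_plane p k l A hA w hw
    (c₁ :: c₂ :: List.replicate k' c) (List.replicate l c) (by simp [hk]) (by simp)
    (by
      intro d hd
      rw [List.mem_cons, List.mem_cons] at hd
      rcases hd with rfl | rfl | hd
      · have := hTj _ h1; omega
      · have := hTj _ h2; omega
      · rw [List.eq_of_mem_replicate hd]; exact hc)
    (by
      intro d hd
      rw [List.eq_of_mem_replicate hd]; exact hc)
    (by
      rw [List.sum_cons, List.sum_cons, List.sum_replicate, List.sum_replicate, ← add_assoc,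
        h12, hz]
      abel)
  simp only [List.map_cons, List.map_replicate, List.sum_cons, List.sum_replicate,
    smul_eq_mul] at h3
  have := hTj _ h1
  have := hTj _ h2
  nlinarith [h3]

lemma one_other (k' : ℕ) (hk : k = k' + 1) (hall : ∀ c, 0 < (fib (ff p w) A c).card)
    (c : ZMod p) : 1 + (k' + l) * (fib (ff p w) A c).card + 2 ≤ p + (k + l) := by
  have h3 := config_plane p k l A hA w hw
    ((l • c - k' • c) :: List.replicate k' c) (List.replicate l c) (by simp [hk]) (by simp)
    (fun d _ => hall d) (fun d _ => hall d)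
    (by
      rw [List.sum_cons, List.sum_replicate, List.sum_replicate]
      abel)
  simp only [List.map_cons, List.map_replicate, List.sum_cons, List.sum_replicate,
    smul_eq_mul] at h3
  have := hall (l • c - k' • c)
  nlinarith [h3]

lemma level_card (j : ℕ) (hj : 1 ≤ j) (hlev : p + (k + l) < (k + l) * j + 2) :
    (k + l) * (univ.filter (fun c => j ≤ (fib (ff p w) A c).card)).card + 2 ≤ p + (k + l) ∨
      (univ.filter (fun c => j ≤ (fib (ff p w) A c).card)) = ∅ := by
  rcases (univ.filter (fun c => j ≤ (fib (ff p w) A c).card)).eq_empty_or_nonempty with h | h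
  · exact Or.inr h
  · left
    apply line_card p k l _ _ h
    intro P Q hP hQ hPA hQA hs
    have hPj : ∀ c ∈ P, j ≤ (fib (ff p w) A c).card := fun c hc => (mem_filter.mp (hPA c hc)).2
    have hQj : ∀ c ∈ Q, j ≤ (fib (ff p w) A c).card := fun c hc => (mem_filter.mp (hQA c hc)).2
    have h3 := config_plane p k l A hA w hw P Q hP hQ
      (fun c hc => lt_of_lt_of_le hj (hPj c hc)) (fun c hc => lt_of_lt_of_le hj (hQj c hc)) hs
    have hP' : P.length • j ≤ (P.map (fun c => (fib (ff p w) A c).card)).sum := by
      rw [← List.length_map (fun c => (fib (ff p w) A c).card)]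
      apply List.card_nsmul_le_sum
      intro x hx
      rw [List.mem_map] at hx
      obtain ⟨c, hc, rfl⟩ := hx
      exact hPj c hc
    have hQ' : Q.length • j ≤ (Q.map (fun c => (fib (ff p w) A c).card)).sum := by
      rw [← List.length_map (fun c => (fib (ff p w) A c).card)]
      apply List.card_nsmul_le_sum
      intro x hx
      rw [List.mem_map] at hx
      obtain ⟨c, hc, rfl⟩ := hx
      exact hQj c hc
    rw [hP, smul_eq_mul] at hP'
    rw [hQ, smul_eq_mul] at hQ'
    nlinarith [h3]

end conf

end Pool.Agent.H59.KL
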