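import Mathlib
import Pool.Agent.H59.KL3

set_option autoImplicit false

open Finset Pointwise

namespace Pool.Agent.H59.KL

section core

variable (p : ℕ) [hpf : Fact p.Prime]

lemma sum_le_levels (a : ZMod p → ℕ) (S T : Finset (ZMod p)) (x y z : ℕ)
    (h : ∀ c, a c ≤ x + (if c ∈ S then y else 0) + (if c ∈ T then z else 0)) :
    ∑ c, a c ≤ x * p + y * S.card + z * T.card := by
  calc ∑ c, a c ≤ ∑ c, (x + (if c ∈ S then y else 0) + (if c ∈ T then z else 0)) :=
        sum_le_sum (fun c _ => h c)
    _ = x * p + y * S.card + z * T.card := by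
        rw [sum_add_distrib, sum_add_distrib]
        simp [ZMod.card, mul_comm]

/-- All fibres have at most `m + 1` elements, for `k + l ≥ 4`. -/
lemma flat_ge4 (k l m : ℕ) (hl : 0 < l) (hlk : l < k) (h4 : 4 ≤ k + l)
    (hp : p = (k + l) * m + 1) (A : Finset (ZMod p × ZMod p)) (hA : SF k l A)
    (hcard : m * p + 1 ≤ A.card) (w : ZMod p × ZMod p) (hw : w ≠ 0)
    (h0 : 0 < (fib (ff p w) A 0).card) (c : ZMod p) :
    (fib (ff p w) A c).card ≤ m + 1 := by
  obtain ⟨cs, hcs⟩ := Finite.exists_max (fun c => (fib (ff p w) A c).card)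
  refine (hcs c).trans ?_
  by_contra hM
  push Not at hM
  set M := (fib (ff p w) A cs).card with hMdef
  have hMpos : 0 < M := by omega
  obtain ⟨δ, hδ⟩ : ∃ δ, M = m + 1 + δ := ⟨M - (m + 1), by omega⟩
  have hδ1 : 1 ≤ δ := by omega
  obtain ⟨k', hk'⟩ : ∃ k', k = k' + 1 := ⟨k - 1, by omega⟩
  obtain ⟨l', hl'⟩ : ∃ l', l = l' + 1 := ⟨l - 1, by omega⟩
  obtain ⟨k'', hk''⟩ : ∃ k'', k = k'' + 2 := ⟨k - 2, by omega⟩
  -- first bound: `2 M ≤ p`
  have hpo := pair_origin p k l A hA w hw k' l' hk' hl' h0 cs hMpos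
  have h2M : 2 * M ≤ p := by
    have : k' + l' ≤ (k' + l') * (fib (ff p w) A 0).card := Nat.le_mul_of_pos_right _ h0
    omega
  have hsum : ∑ c, (fib (ff p w) A c).card = A.card := sum_fib_card (ff p w) A
  -- the top level
  have htop : (univ.filter (fun c => m + 1 ≤ (fib (ff p w) A c).card)).card ≤ m := by
    rcases level_card p k l A hA w hw (m + 1) (by omega) (by nlinarith) with h | h
    · by_contra hcon
      push Not at hcon
      have : (k + l) * (m + 1) ≤ (k + l) *
        (univ.filter (fun c => m + 1 ≤ (fib (ff p w) A c).card)).card :=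
        Nat.mul_le_mul_left _ hcon
      nlinarith
    · rw [h]; simp
  rcases le_or_gt δ m with hδm | hδm
  · -- intermediate level `m + 1 - δ`
    obtain ⟨e, he⟩ : ∃ e, m = e + δ := ⟨m - δ, by omega⟩
    have hT : 2 * (univ.filter (fun c => e + 1 ≤ (fib (ff p w) A c).card)).card ≤ p := by
      by_contra hcon
      push Not at hcon
      have := two_level p k l A hA w hw k'' hk'' (e + 1) (by omega) _ hcon
        (fun c hc => (mem_filter.mp hc).2) cs hMpos
      rw [← hMdef, hδ] at this
      have hkl : 2 ≤ k'' + l := by omega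
      have : (k'' + l) * δ ≥ 2 * δ := Nat.mul_le_mul_right _ hkl
      nlinarith
    have hb := sum_le_levels p (fun c => (fib (ff p w) A c).card)
      (univ.filter (fun c => e + 1 ≤ (fib (ff p w) A c).card))
      (univ.filter (fun c => m + 1 ≤ (fib (ff p w) A c).card)) e δ (δ + 1) (by
        intro c
        simp only [mem_filter, mem_univ, true_and]
        have := hcs c
        split_ifs <;> omega)
    rw [hsum] at hb
    have e1 : δ * (2 * (univ.filter (fun c => e + 1 ≤ (fib (ff p w) A c).card)).card) ≤ δ * p :=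
      Nat.mul_le_mul_left _ hT
    have e2 : (δ + 1) * (univ.filter (fun c => m + 1 ≤ (fib (ff p w) A c).card)).card
      ≤ (δ + 1) * m := Nat.mul_le_mul_left _ htop
    have e3 : 4 * m + 1 ≤ p := by rw [hp]; nlinarith
    have e4 : δ * (4 * m + 1) ≤ δ * p := Nat.mul_le_mul_left _ e3
    have e5 : m * p = e * p + δ * p := by rw [he]; ring
    have e6 : m ≤ δ * m := Nat.le_mul_of_pos_left _ hδ1
    clear_value M
    linarith
  · -- here `M ≥ 2 m + 2`
    have hT : 2 * (univ.filter (fun c => 1 ≤ (fib (ff p w) A c).card)).card ≤ p := by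
      by_contra hcon
      push Not at hcon
      have := two_level p k l A hA w hw k'' hk'' 1 (by omega) _ hcon
        (fun c hc => (mem_filter.mp hc).2) cs hMpos
      rw [← hMdef] at this
      have hkl : 2 ≤ k'' + l := by omega
      have h5 : (k'' + l) * (2 * m + 2) ≤ (k'' + l) * M := Nat.mul_le_mul_left _ (by omega)
      rw [hp] at this
      subst hk''
      nlinarith
    have hb := sum_le_levels p (fun c => (fib (ff p w) A c).card)
      (univ.filter (fun c => 1 ≤ (fib (ff p w) A c).card))
      (univ.filter (fun c => m + 1 ≤ (fib (ff p w) A c).card)) 0 m (δ + 1) (by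
        intro c
        simp only [mem_filter, mem_univ, true_and]
        have := hcs c
        split_ifs <;> omega)
    rw [hsum] at hb
    have e1 : m * (2 * (univ.filter (fun c => 1 ≤ (fib (ff p w) A c).card)).card) ≤ m * p :=
      Nat.mul_le_mul_left _ hT
    have e2 : (δ + 1) * (univ.filter (fun c => m + 1 ≤ (fib (ff p w) A c).card)).card
      ≤ (δ + 1) * m := Nat.mul_le_mul_left _ htop
    have e3 : (2 * (m + 1 + δ)) * m ≤ p * m := Nat.mul_le_mul_right _ (by omega)
    clear_value M
    linarith [Nat.zero_le (m * m)]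

end core

end Pool.Agent.H59.KL
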