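import Mathlib
import Pool.Agent.H59.KL4

set_option autoImplicit false

open Finset Pointwise

namespace Pool.Agent.H59.KL

section core

variable (p : ℕ) [hpf : Fact p.Prime]

/-- the top level set is small -/
lemma top_le (k l m : ℕ) (hl : 0 < l) (hp : p = (k + l) * m + 1)
    (A : Finset (ZMod p × ZMod p)) (hA : SF k l A) (w : ZMod p × ZMod p) (hw : w ≠ 0) :
    (univ.filter (fun c => m + 1 ≤ (fib (ff p w) A c).card)).card ≤ m := by
  rcases level_card p k l A hA w hw (m + 1) (by omega) (by rw [hp]; ring_nf; omega) with h | h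
  · by_contra hcon
    push Not at hcon
    have : (k + l) * (m + 1) ≤ (k + l) *
      (univ.filter (fun c => m + 1 ≤ (fib (ff p w) A c).card)).card :=
      Nat.mul_le_mul_left _ hcon
    rw [mul_add] at this
    omega
  · rw [h]; simp

/-- second-moment lower bound when all fibres have at most `m+1` elements -/
lemma W_ge4 (m : ℕ) (hm : 0 < m) (A : Finset (ZMod p × ZMod p))
    (hcard : m * p + 1 ≤ A.card) (w : ZMod p × ZMod p)
    (hflat : ∀ c, (fib (ff p w) A c).card ≤ m + 1)
    (htop : (univ.filter (fun c => m + 1 ≤ (fib (ff p w) A c).card)).card ≤ m) :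
    (m : ℤ) * (p - m) ≤ ∑ c : ZMod p, ((fib (ff p w) A c).card : ℤ) *
      (m + 1 - (fib (ff p w) A c).card) := by
  have hsum : ∑ c, (fib (ff p w) A c).card = A.card := sum_fib_card (ff p w) A
  have hb := sum_le_levels p (fun c => (fib (ff p w) A c).card)
      (univ.filter (fun c => 1 ≤ (fib (ff p w) A c).card))
      (univ.filter (fun c => m + 1 ≤ (fib (ff p w) A c).card)) 0 m 1 (by
        intro c
        simp only [mem_filter, mem_univ, true_and]
        have := hflat c
        split_ifs <;> omega)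
  rw [hsum] at hb
  have hfull : (univ.filter (fun c => 1 ≤ (fib (ff p w) A c).card)) = univ := by
    apply eq_of_subset_of_card_le (subset_univ _)
    rw [card_univ, ZMod.card]
    by_contra hcon
    push Not at hcon
    have h1 : m * ((univ.filter (fun c => 1 ≤ (fib (ff p w) A c).card)).card + 1) ≤ m * p :=
      Nat.mul_le_mul_left _ hcon
    rw [mul_add] at h1
    omega
  have hpt : ∀ c ∈ (univ : Finset (ZMod p)),
      ((m : ℤ) - (if c ∈ univ.filter (fun c => m + 1 ≤ (fib (ff p w) A c).card) then (m : ℤ) else 0))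
      ≤ ((fib (ff p w) A c).card : ℤ) * (m + 1 - (fib (ff p w) A c).card) := by
    intro c _
    have h1 : 1 ≤ (fib (ff p w) A c).card := by
      have : c ∈ (univ.filter (fun c => 1 ≤ (fib (ff p w) A c).card)) := by
        rw [hfull]; exact mem_univ _
      exact (mem_filter.mp this).2
    have h2 := hflat c
    simp only [mem_filter, mem_univ, true_and]
    by_cases h3 : m + 1 ≤ (fib (ff p w) A c).card
    · have h4 : (fib (ff p w) A c).card = m + 1 := le_antisymm h2 h3
      rw [if_pos h3, h4]
      push_cast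
      simp
    · rw [if_neg h3]
      have h4 : (fib (ff p w) A c).card ≤ m := by omega
      have h5 : (0 : ℤ) ≤ (((fib (ff p w) A c).card : ℤ) - 1) * (m - (fib (ff p w) A c).card) := by
        apply mul_nonneg
        · have : (1 : ℤ) ≤ (fib (ff p w) A c).card := by exact_mod_cast h1
          linarith
        · have : ((fib (ff p w) A c).card : ℤ) ≤ m := by exact_mod_cast h4
          linarith
      linarith
  have h6 := sum_le_sum hpt
  rw [sum_sub_distrib] at h6
  have h7 : ∑ c : ZMod p, (if c ∈ univ.filter (fun c => m + 1 ≤ (fib (ff p w) A c).card)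
      then (m : ℤ) else 0) =
      (univ.filter (fun c => m + 1 ≤ (fib (ff p w) A c).card)).card * (m : ℤ) := by
    rw [sum_ite_mem, univ_inter, sum_const, nsmul_eq_mul]
  rw [h7, sum_const, card_univ, ZMod.card, nsmul_eq_mul] at h6
  have h8 : ((univ.filter (fun c => m + 1 ≤ (fib (ff p w) A c).card)).card : ℤ) * m ≤ m * m := by
    apply mul_le_mul_of_nonneg_right _ (by positivity)
    exact_mod_cast htop
  linarith

/-- the two global inequalities -/
lemma global (m : ℕ) (A : Finset (ZMod p × ZMod p)) :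
    ∑ w ∈ univ.erase (0 : ZMod p × ZMod p), ∑ c : ZMod p, ((fib (ff p w) A c).card : ℤ) *
      (m + 1 - (fib (ff p w) A c).card) =
      ((p : ℤ) - 1) * A.card * (m * (p + 1) + 1 - A.card) := by
  have h1 : ∀ w ∈ univ.erase (0 : ZMod p × ZMod p), ∑ c : ZMod p, ((fib (ff p w) A c).card : ℤ) *
      (m + 1 - (fib (ff p w) A c).card) = (m + 1) * A.card -
      ∑ c : ZMod p, ((fib (ff p w) A c).card : ℤ) ^ 2 := by
    intro w _
    have hsum : ∑ c, ((fib (ff p w) A c).card : ℤ) = A.card := by
      exact_mod_cast sum_fib_card (ff p w) A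
    rw [← hsum, mul_sum, ← sum_sub_distrib]
    apply sum_congr rfl
    intro c _
    ring
  rw [sum_congr rfl h1, sum_sub_distrib, sum_second, sum_const, card_erase_of_mem (mem_univ _),
    card_univ, Fintype.card_prod, ZMod.card, nsmul_eq_mul]
  have : 1 ≤ p * p := Nat.mul_pos hpf.out.pos hpf.out.pos
  push_cast [Nat.cast_sub this]
  ring

/-- kernels contain at most `m` points -/
lemma origin_le (k l m : ℕ) (hl : 0 < l) (hp : p < (k + l) * m + 2)
    (A : Finset (ZMod p × ZMod p)) (hA : SF k l A) (w : ZMod p × ZMod p) (hw : w ≠ 0) :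
    (fib (ff p w) A 0).card ≤ m := by
  rcases Nat.eq_zero_or_pos (fib (ff p w) A 0).card with h | h
  · omega
  · have := origin_card p k l A hA w hw h
    by_contra hcon
    push Not at hcon
    have h2 : (k + l) * (m + 1) ≤ (k + l) * (fib (ff p w) A 0).card :=
      Nat.mul_le_mul_left _ hcon
    rw [mul_add] at h2
    omega

lemma zero_not_mem {G : Type*} [AddCommGroup G] (k l : ℕ) (A : Finset G) (hA : SF k l A) :
    (0 : G) ∉ A := by
  intro h
  apply hA (List.replicate k 0) (List.replicate l 0) (by simp) (by simp)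
  · intro x hx; rw [List.eq_of_mem_replicate hx]; exact h
  · intro x hx; rw [List.eq_of_mem_replicate hx]; exact h
  · simp

/-- upper bound for the cardinality via kernels -/
lemma card_le_kernels (k l m : ℕ) (hl : 0 < l) (hp : p < (k + l) * m + 2)
    (A : Finset (ZMod p × ZMod p)) (hA : SF k l A) : A.card ≤ m * (p + 1) := by
  have h1 := sum_origin p A (zero_not_mem k l A hA)
  have h2 : ∑ w ∈ univ.erase (0 : ZMod p × ZMod p), ((fib (ff p w) A 0).card : ℤ) ≤
      ∑ w ∈ univ.erase (0 : ZMod p × ZMod p), (m : ℤ) := by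
    apply sum_le_sum
    intro w hw
    exact_mod_cast origin_le p k l m hl hp A hA w (ne_of_mem_erase hw)
  rw [h1, sum_const, card_erase_of_mem (mem_univ _), card_univ, Fintype.card_prod, ZMod.card,
    nsmul_eq_mul] at h2
  have h3 : 1 ≤ p * p := Nat.mul_pos hpf.out.pos hpf.out.pos
  push_cast [Nat.cast_sub h3] at h2
  have h4 : (1 : ℤ) < p := by exact_mod_cast hpf.out.one_lt
  have h5 : ((p : ℤ) - 1) * A.card ≤ (p - 1) * (m * (p + 1)) := by linarith
  have h6 : (A.card : ℤ) ≤ m * (p + 1) := le_of_mul_le_mul_left h5 (by linarith)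
  exact_mod_cast h6

/-- all kernels are hit if `A` is large -/
lemma origin_pos (k l m : ℕ) (hl : 0 < l) (hp : p < (k + l) * m + 2)
    (A : Finset (ZMod p × ZMod p)) (hA : SF k l A) (hcard : m * p + 1 ≤ A.card)
    (w : ZMod p × ZMod p) (hw : w ≠ 0) : 0 < (fib (ff p w) A 0).card := by
  by_contra hcon
  have hz : (fib (ff p w) A 0).card = 0 := by omega
  have h1 := sum_origin p A (zero_not_mem k l A hA)
  -- multiples of `w`
  set S : Finset (ZMod p × ZMod p) := (univ.erase (0 : ZMod p)).image (fun t => t • w) with hS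
  have hinj : Function.Injective (fun t : ZMod p => t • w) := by
    intro s t hst
    simp only at hst
    rw [← sub_eq_zero, ← sub_smul, smul_eq_zero] at hst
    rcases hst with h | h
    · exact sub_eq_zero.mp h
    · exact absurd h hw
  have hScard : S.card = p - 1 := by
    rw [hS, card_image_of_injective _ hinj, card_erase_of_mem (mem_univ _), card_univ, ZMod.card]
  have hSsub : S ⊆ univ.erase (0 : ZMod p × ZMod p) := by
    intro x hx
    rw [hS, mem_image] at hx
    obtain ⟨t, ht, rfl⟩ := hx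
    rw [mem_erase]
    refine ⟨?_, mem_univ _⟩
    rw [smul_ne_zero_iff]
    exact ⟨ne_of_mem_erase ht, hw⟩
  have hSz : ∀ x ∈ S, ((fib (ff p x) A 0).card : ℤ) = 0 := by
    intro x hx
    rw [hS, mem_image] at hx
    obtain ⟨t, ht, rfl⟩ := hx
    have ht0 : t ≠ 0 := ne_of_mem_erase ht
    have : fib (ff p (t • w)) A 0 = fib (ff p w) A 0 := by
      ext v
      rw [mem_fib, mem_fib, ff_apply, ff_apply]
      have e1 : (t • w).1 * v.1 + (t • w).2 * v.2 = t * (w.1 * v.1 + w.2 * v.2) := by
        simp only [Prod.smul_fst, Prod.smul_snd, smul_eq_mul]; ring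
      rw [e1, mul_eq_zero]
      tauto
    rw [this, hz]
    simp
  have h2 : ∑ w ∈ univ.erase (0 : ZMod p × ZMod p), ((fib (ff p w) A 0).card : ℤ) ≤
      ∑ w ∈ (univ.erase (0 : ZMod p × ZMod p)) \ S, (m : ℤ) := by
    rw [← sum_sdiff hSsub, sum_eq_zero hSz, add_zero]
    apply sum_le_sum
    intro x hx
    exact_mod_cast origin_le p k l m hl hp A hA x (ne_of_mem_erase (mem_sdiff.mp hx).1)
  rw [h1, sum_const, card_sdiff_of_subset hSsub, hScard, card_erase_of_mem (mem_univ _), card_univ,
    Fintype.card_prod, ZMod.card, nsmul_eq_mul] at h2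
  have h3 : 1 ≤ p := hpf.out.pos
  have h3' : 1 ≤ p * p := Nat.mul_pos hpf.out.pos hpf.out.pos
  have h3'' : p - 1 ≤ p * p - 1 := by
    have : p ≤ p * p := Nat.le_mul_of_pos_left _ h3
    omega
  push_cast [Nat.cast_sub h3, Nat.cast_sub h3', Nat.cast_sub h3''] at h2
  have h4 : (1 : ℤ) < p := by exact_mod_cast hpf.out.one_lt
  have h5 : ((p : ℤ) - 1) * A.card ≤ (p - 1) * (m * p) := by linarith
  have h6 : (A.card : ℤ) ≤ m * p := le_of_mul_le_mul_left h5 (by linarith)
  have h7 : A.card ≤ m * p := by exact_mod_cast h6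
  omega

/-- The case `p = (k+l) m + 1`, `k + l ≥ 4`. -/
lemma typeIII_ge4 (k l m : ℕ) (hl : 0 < l) (hlk : l < k) (h4 : 4 ≤ k + l)
    (hp : p = (k + l) * m + 1) (A : Finset (ZMod p × ZMod p)) (hA : SF k l A) :
    A.card ≤ m * p := by
  by_contra hcon
  push Not at hcon
  have hcard : m * p + 1 ≤ A.card := hcon
  have hm : 0 < m := by
    rcases Nat.eq_zero_or_pos m with h | h
    · rw [h] at hp
      have := hpf.out.one_lt
      omega
    · exact h
  have hp' : p < (k + l) * m + 2 := by omega
  have h1 : ∀ w ∈ univ.erase (0 : ZMod p × ZMod p), (m : ℤ) * (p - m) ≤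
      ∑ c : ZMod p, ((fib (ff p w) A c).card : ℤ) * (m + 1 - (fib (ff p w) A c).card) := by
    intro w hw
    have hw0 := ne_of_mem_erase hw
    exact W_ge4 p m hm A hcard w
      (flat_ge4 p k l m hl hlk h4 hp A hA hcard w hw0
        (origin_pos p k l m hl hp' A hA hcard w hw0))
      (top_le p k l m hl hp A hA w hw0)
  have h2 := sum_le_sum h1
  rw [global, sum_const, card_erase_of_mem (mem_univ _), card_univ, Fintype.card_prod, ZMod.card,
    nsmul_eq_mul] at h2
  have h3 : 1 ≤ p * p := Nat.mul_pos hpf.out.pos hpf.out.pos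
  push_cast [Nat.cast_sub h3] at h2
  have h5 : (1 : ℤ) < p := by exact_mod_cast hpf.out.one_lt
  have h6 : (A.card : ℤ) ≤ m * (p + 1) := by
    exact_mod_cast card_le_kernels p k l m hl hp' A hA
  have h7 : (m : ℤ) * p + 1 ≤ A.card := by exact_mod_cast hcard
  have h8 : (A.card : ℤ) * (m * (p + 1) + 1 - A.card) ≤ (m * (p + 1)) * m := by
    apply mul_le_mul h6 (by linarith) (by linarith) (by positivity)
  have h9 : ((p : ℤ) - 1) * ((p + 1) * (m * (p - m))) ≤ (p - 1) * (m * (p + 1) * m) := by
    calc ((p : ℤ) - 1) * ((p + 1) * (m * (p - m))) = ((p : ℤ) * p - 1) * (m * (p - m)) := by ring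
      _ ≤ (p - 1) * A.card * (m * (p + 1) + 1 - A.card) := h2
      _ = (p - 1) * (A.card * (m * (p + 1) + 1 - A.card)) := by ring
      _ ≤ (p - 1) * (m * (p + 1) * m) := by
        apply mul_le_mul_of_nonneg_left h8 (by linarith)
  have h10 := le_of_mul_le_mul_left h9 (by linarith)
  have h11 : (m : ℤ) * (p + 1) * (p - m) ≤ m * (p + 1) * m := by linarith
  have hm' : (0 : ℤ) < m := by exact_mod_cast hm
  have h12 : (p : ℤ) - m ≤ m := le_of_mul_le_mul_left h11 (by positivity)
  have h13 : (p : ℤ) = (k + l) * m + 1 := by exact_mod_cast hp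
  have h14 : (4 : ℤ) * m ≤ (k + l) * m := by
    apply mul_le_mul_of_nonneg_right _ hm'.le
    exact_mod_cast h4
  linarith

end core

end Pool.Agent.H59.KL
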