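import Mathlib
import Pool.Agent.H59.KL5

set_option autoImplicit false

open Finset Pointwise

namespace Pool.Agent.H59.KL

section core

variable (p : ℕ) [hpf : Fact p.Prime]

lemma sum_ite_card (S : Finset (ZMod p)) (x : ℤ) :
    ∑ c : ZMod p, (if c ∈ S then x else 0) = S.card * x := by
  rw [sum_ite_mem, univ_inter, sum_const, nsmul_eq_mul]

/-- second-moment lower bound for `k = 2`, `l = 1`. -/
lemma W_3 (m : ℕ) (hm : 0 < m) (hp : p = 3 * m + 1) (A : Finset (ZMod p × ZMod p))
    (hA : SF 2 1 A) (hcard : m * p + 1 ≤ A.card) (w : ZMod p × ZMod p) (hw : w ≠ 0)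
    (h0 : 0 < (fib (ff p w) A 0).card) :
    4 * (m : ℤ) * p - 4 * m ^ 2 - 4 * m + 4 - (2 * m + m * p) * (m - (fib (ff p w) A 0).card) ≤
    4 * ∑ c : ZMod p, ((fib (ff p w) A c).card : ℤ) * (m + 1 - (fib (ff p w) A c).card) := by
  have h0m : (fib (ff p w) A 0).card ≤ m :=
    origin_le p 2 1 m (by norm_num) (by omega) A hA w hw
  obtain ⟨b, hb⟩ : ∃ b : ℤ, b = m - (fib (ff p w) A 0).card := ⟨_, rfl⟩
  have hb0 : 0 ≤ b := by
    have : ((fib (ff p w) A 0).card : ℤ) ≤ m := by exact_mod_cast h0m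
    linarith
  have hbm : b ≤ m - 1 := by
    have : (1 : ℤ) ≤ (fib (ff p w) A 0).card := by exact_mod_cast h0
    linarith
  rw [← hb]
  have hpz : (p : ℤ) = 3 * m + 1 := by exact_mod_cast hp
  have hmz : (1 : ℤ) ≤ m := by exact_mod_cast hm
  have hac : ∀ c, 2 * ((fib (ff p w) A c).card : ℤ) ≤ 2 * m + 2 + b := by
    intro c
    rcases Nat.eq_zero_or_pos (fib (ff p w) A c).card with h | h
    · rw [h]; push_cast; linarith
    · have h1 := pair_origin p 2 1 A hA w hw 1 0 rfl rfl h0 c h
      have h2 : 2 * ((fib (ff p w) A c).card : ℤ) + (1 + 0) * (fib (ff p w) A 0).card + 2 ≤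
        p + (2 + 1) := by exact_mod_cast h1
      linarith
  have htop := top_le p 2 1 m (by norm_num) hp A hA w hw
  set T1 := univ.filter (fun c => 1 ≤ (fib (ff p w) A c).card) with hT1
  set T2 := univ.filter (fun c => m + 1 ≤ (fib (ff p w) A c).card) with hT2
  have htopz : (T2.card : ℤ) ≤ m := by exact_mod_cast htop
  have hsum : ∑ c, ((fib (ff p w) A c).card : ℤ) = A.card := by
    exact_mod_cast sum_fib_card (ff p w) A
  have hcardz : (m : ℤ) * p + 1 ≤ A.card := by exact_mod_cast hcard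
  have hpt1 : ∀ c ∈ (univ : Finset (ZMod p)), 2 * ((fib (ff p w) A c).card : ℤ) ≤
      (if c ∈ T1 then 2 * (m : ℤ) else 0) + (if c ∈ T2 then (b + 2) else 0) := by
    intro c _
    have h1 := hac c
    rw [hT1, hT2]
    simp only [mem_filter, mem_univ, true_and]
    by_cases h2 : m + 1 ≤ (fib (ff p w) A c).card
    · rw [if_pos (by omega), if_pos h2]
      linarith
    · by_cases h3 : 1 ≤ (fib (ff p w) A c).card
      · rw [if_pos h3, if_neg h2]
        have : ((fib (ff p w) A c).card : ℤ) ≤ m := by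
          have : (fib (ff p w) A c).card ≤ m := by omega
          exact_mod_cast this
        linarith
      · rw [if_neg h3, if_neg h2]
        have : (fib (ff p w) A c).card = 0 := by omega
        rw [this]; simp
  have hs1 := sum_le_sum hpt1
  rw [← mul_sum, hsum, sum_add_distrib, sum_ite_card, sum_ite_card] at hs1
  have hpt2 : ∀ c ∈ (univ : Finset (ZMod p)),
      (if c ∈ T1 then 4 * (m : ℤ) else 0) - (if c ∈ T2 then (4 * m + (2 * m + 2 + b) * b) else 0)
      ≤ 4 * (((fib (ff p w) A c).card : ℤ) * (m + 1 - (fib (ff p w) A c).card)) := by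
    intro c _
    have h1 := hac c
    rw [hT1, hT2]
    simp only [mem_filter, mem_univ, true_and]
    by_cases h2 : m + 1 ≤ (fib (ff p w) A c).card
    · rw [if_pos (by omega), if_pos h2]
      have h4 : (m : ℤ) + 1 ≤ (fib (ff p w) A c).card := by exact_mod_cast h2
      have h5 : (2 * ((fib (ff p w) A c).card : ℤ)) * (2 * (fib (ff p w) A c).card - 2 * m - 2) ≤
          (2 * m + 2 + b) * b := by
        apply mul_le_mul h1 (by linarith) (by linarith) (by linarith)
      linarith
    · by_cases h3 : 1 ≤ (fib (ff p w) A c).card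
      · rw [if_pos h3, if_neg h2]
        have h4 : ((fib (ff p w) A c).card : ℤ) ≤ m := by
          have : (fib (ff p w) A c).card ≤ m := by omega
          exact_mod_cast this
        have h5 : (1 : ℤ) ≤ (fib (ff p w) A c).card := by exact_mod_cast h3
        have h6 : (0 : ℤ) ≤ (((fib (ff p w) A c).card : ℤ) - 1) * (m - (fib (ff p w) A c).card) :=
          mul_nonneg (by linarith) (by linarith)
        linarith
      · rw [if_neg h3, if_neg h2]
        have : (fib (ff p w) A c).card = 0 := by omega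
        rw [this]; simp
  have hs2 := sum_le_sum hpt2
  rw [← mul_sum, sum_sub_distrib, sum_ite_card, sum_ite_card] at hs2
  -- combine
  have e1 : (T2.card : ℤ) * (b + 2) ≤ m * (b + 2) :=
    mul_le_mul_of_nonneg_right htopz (by linarith)
  have e2 : (T2.card : ℤ) * (4 * m + (2 * m + 2 + b) * b) ≤ m * (4 * m + (2 * m + 2 + b) * b) :=
    mul_le_mul_of_nonneg_right htopz (by positivity)
  have e3 : (2 * (m : ℤ) + 2 + b) * b ≤ p * b :=
    mul_le_mul_of_nonneg_right (by linarith) hb0
  have e4 : (m : ℤ) * ((2 * (m : ℤ) + 2 + b) * b) ≤ m * (p * b) :=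
    mul_le_mul_of_nonneg_left e3 (by linarith)
  linarith

/-- The case `p = 3 m + 1`, `(k,l) = (2,1)`. -/
lemma typeIII_3 (m : ℕ) (hp : p = 3 * m + 1) (A : Finset (ZMod p × ZMod p)) (hA : SF 2 1 A) :
    A.card ≤ m * p := by
  by_contra hcon
  push Not at hcon
  have hcard : m * p + 1 ≤ A.card := hcon
  have hm : 0 < m := by
    rcases Nat.eq_zero_or_pos m with h | h
    · rw [h] at hp
      have := hpf.out.one_lt
      omega
    · exact h
  have hp' : p < (2 + 1) * m + 2 := by omega
  have h1 : ∀ w ∈ univ.erase (0 : ZMod p × ZMod p),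
      4 * (m : ℤ) * p - 4 * m ^ 2 - 4 * m + 4 - (2 * m + m * p) * (m - (fib (ff p w) A 0).card) ≤
      4 * ∑ c : ZMod p, ((fib (ff p w) A c).card : ℤ) * (m + 1 - (fib (ff p w) A c).card) := by
    intro w hw
    have hw0 := ne_of_mem_erase hw
    exact W_3 p m hm hp A hA hcard w hw0
      (origin_pos p 2 1 m (by norm_num) hp' A hA hcard w hw0)
  have h2 := sum_le_sum h1
  rw [← mul_sum, global, sum_sub_distrib, ← mul_sum, sum_sub_distrib,
    sum_origin p A (zero_not_mem 2 1 A hA), sum_const, sum_const,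
    card_erase_of_mem (mem_univ _), card_univ, Fintype.card_prod, ZMod.card,
    nsmul_eq_mul, nsmul_eq_mul] at h2
  have h3 : 1 ≤ p * p := Nat.mul_pos hpf.out.pos hpf.out.pos
  push_cast [Nat.cast_sub h3] at h2
  have h5 : (1 : ℤ) < p := by exact_mod_cast hpf.out.one_lt
  have h6 : (A.card : ℤ) ≤ m * (p + 1) := by
    exact_mod_cast card_le_kernels p 2 1 m (by norm_num) hp' A hA
  have h7 : (m : ℤ) * p + 1 ≤ A.card := by exact_mod_cast hcard
  have h8 : (A.card : ℤ) * (m * (p + 1) + 1 - A.card) ≤ (m * (p + 1)) * m := by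
    apply mul_le_mul h6 (by linarith) (by linarith) (by positivity)
  -- total deficiency
  have h9 : ((p : ℤ) * p - 1) * m - (p - 1) * A.card ≤ (p - 1) * (m - 1) := by
    have : ((p : ℤ) - 1) * (m * p + 1) ≤ (p - 1) * A.card :=
      mul_le_mul_of_nonneg_left h7 (by linarith)
    linarith
  have h10 : (2 * (m : ℤ) + m * p) * (((p : ℤ) * p - 1) * m - (p - 1) * A.card) ≤
      (2 * m + m * p) * ((p - 1) * (m - 1)) :=
    mul_le_mul_of_nonneg_left h9 (by positivity)
  have h11 : ((p : ℤ) - 1) * ((p + 1) * (4 * m * p - 4 * m ^ 2 - 4 * m + 4) -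
      (2 * m + m * p) * (m - 1)) ≤ (p - 1) * (4 * (m * (p + 1) * m)) := by
    calc ((p : ℤ) - 1) * ((p + 1) * (4 * m * p - 4 * m ^ 2 - 4 * m + 4) -
          (2 * m + m * p) * (m - 1)) =
        ((p : ℤ) * p - 1) * (4 * m * p - 4 * m ^ 2 - 4 * m + 4) -
          (2 * m + m * p) * ((p - 1) * (m - 1)) := by ring
      _ ≤ ((p : ℤ) * p - 1) * (4 * m * p - 4 * m ^ 2 - 4 * m + 4) -
          (2 * m + m * p) * (((p : ℤ) * p - 1) * m - (p - 1) * A.card) := by linarith
      _ ≤ 4 * ((p - 1) * A.card * (m * (p + 1) + 1 - A.card)) := h2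
      _ = (p - 1) * (4 * (A.card * (m * (p + 1) + 1 - A.card))) := by ring
      _ ≤ (p - 1) * (4 * (m * (p + 1) * m)) := by
        apply mul_le_mul_of_nonneg_left _ (by linarith)
        linarith
  have h12 := le_of_mul_le_mul_left h11 (by linarith)
  have hpz : (p : ℤ) = 3 * m + 1 := by exact_mod_cast hp
  have hmz : (1 : ℤ) ≤ m := by exact_mod_cast hm
  rw [hpz] at h12
  have e1 : (0 : ℤ) ≤ (m : ℤ) ^ 3 := by positivity
  have e2 : (0 : ℤ) ≤ (m : ℤ) ^ 2 := by positivity
  nlinarith [h12, e1, e2, hmz]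

end core

end Pool.Agent.H59.KL
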