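import Mathlib
import Pool.Agent.H59.KL6

set_option autoImplicit false

open Finset Pointwise

namespace Pool.Agent.H59.KL

section core

variable (p : ℕ) [hpf : Fact p.Prime]

/-- The case `p ≤ (k+l) m`. -/
lemma nontype (k l m : ℕ) (hl : 0 < l) (hlk : l < k)
    (hp : p ≤ (k + l) * m) (hm : (k + l) * m + 2 ≤ p + (k + l))
    (A : Finset (ZMod p × ZMod p)) (hA : SF k l A) (w : ZMod p × ZMod p) (hw : w ≠ 0)
    (h0 : m ≤ (fib (ff p w) A 0).card) :
    A.card ≤ m * p := by
  by_contra hcon
  push Not at hcon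
  have hcard : m * p + 1 ≤ A.card := hcon
  have hp2 : 2 ≤ p := hpf.out.two_le
  have hm0 : 0 < m := by
    rcases Nat.eq_zero_or_pos m with h | h
    · rw [h] at hp; omega
    · exact h
  have hs3 : 3 ≤ k + l := by omega
  obtain ⟨cs, hcs⟩ := Finite.exists_max (fun c => (fib (ff p w) A c).card)
  have hsum : ∑ c, (fib (ff p w) A c).card = A.card := sum_fib_card (ff p w) A
  have hM : m + 1 ≤ (fib (ff p w) A cs).card := by
    by_contra h
    push Not at h
    have := sum_le_levels p (fun c => (fib (ff p w) A c).card) ∅ ∅ m 0 0 (by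
      intro c
      have := hcs c
      simp
      omega)
    rw [hsum] at this
    simp at this
    omega
  set M := (fib (ff p w) A cs).card with hMdef
  have hMpos : 0 < M := by omega
  obtain ⟨δ, hδ⟩ : ∃ δ, M = m + δ := ⟨M - m, by omega⟩
  have hδ1 : 1 ≤ δ := by omega
  obtain ⟨k', hk'⟩ : ∃ k', k = k' + 1 := ⟨k - 1, by omega⟩
  obtain ⟨l', hl'⟩ : ∃ l', l = l' + 1 := ⟨l - 1, by omega⟩
  obtain ⟨k'', hk''⟩ : ∃ k'', k = k'' + 2 := ⟨k - 2, by omega⟩
  have hpo := pair_origin p k l A hA w hw k' l' hk' hl' (by omega) cs hMpos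
  have h1 : 2 * M + (k' + l') * m + 2 ≤ p + (k + l) := by
    have : (k' + l') * m ≤ (k' + l') * (fib (ff p w) A 0).card := Nat.mul_le_mul_left _ h0
    omega
  -- `2 δ + (k+l) m + 2 ≤ p + (k+l)`
  have h2 : 2 * δ + (k + l) * m + 2 ≤ p + (k + l) := by
    have : (k + l) * m = (k' + l') * m + 2 * m := by rw [hk', hl']; ring
    omega
  have htop : (univ.filter (fun c => m + 1 ≤ (fib (ff p w) A c).card)).card ≤ m := by
    rcases level_card p k l A hA w hw (m + 1) (by omega) (by rw [mul_add]; omega) with h | h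
    · by_contra hcon
      push Not at hcon
      have : (k + l) * (m + 1) ≤ (k + l) *
        (univ.filter (fun c => m + 1 ≤ (fib (ff p w) A c).card)).card :=
        Nat.mul_le_mul_left _ hcon
      rw [mul_add] at this
      omega
    · rw [h]; simp
  obtain ⟨m', hm'⟩ : ∃ m', m = m' + 1 := ⟨m - 1, by omega⟩
  -- the level `m` is large
  have hbig : p < 2 * (univ.filter (fun c => m ≤ (fib (ff p w) A c).card)).card := by
    by_contra hcon
    push Not at hcon
    have hb := sum_le_levels p (fun c => (fib (ff p w) A c).card)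
      (univ.filter (fun c => m ≤ (fib (ff p w) A c).card))
      (univ.filter (fun c => m + 1 ≤ (fib (ff p w) A c).card)) m' 1 δ (by
        intro c
        simp only [mem_filter, mem_univ, true_and]
        have := hcs c
        split_ifs <;> omega)
    rw [hsum] at hb
    have e1 : δ * (univ.filter (fun c => m + 1 ≤ (fib (ff p w) A c).card)).card ≤ δ * m :=
      Nat.mul_le_mul_left _ htop
    have e2 : m * p = m' * p + p := by rw [hm']; ring
    -- `p + 2 ≤ 2 δ m`
    have e3 : p + 2 ≤ 2 * (δ * m) := by omega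
    -- multiply `h2` by `m`
    have e4 : m * (2 * δ + (k + l) * m + 2) ≤ m * (p + (k + l)) := Nat.mul_le_mul_left _ h2
    have e5 : (k + l) * m + 2 ≤ p + (k + l) := hm
    obtain ⟨e, he⟩ : ∃ e, (k + l) * m = p + e := ⟨(k + l) * m - p, by omega⟩
    have e6 : e ≤ m * e := Nat.le_mul_of_pos_left _ hm0
    have e7 : m * ((k + l) * m) = m * p + m * e := by rw [he, mul_add]
    have e8 : m * (k + l) = p + e := by rw [mul_comm, he]
    clear_value M
    clear hM hMdef hMpos hδ hpo h1 hb e1 hcon hsum hcs htop h2 hp hm e5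
    linarith
  have h3 := two_level p k l A hA w hw k'' hk'' m hm0 _ hbig
    (fun c hc => (mem_filter.mp hc).2) cs hMpos
  rw [← hMdef] at h3
  -- so `(k+l) m = p`
  have e1 : (k + l) * m + (k'' + l) * δ + 2 ≤ p + (k + l) := by
    have : (k + l) * m + (k'' + l) * δ = 2 * m + (k'' + l) * M := by rw [hδ, hk'']; ring
    omega
  have e2 : k'' + l ≤ (k'' + l) * δ := Nat.le_mul_of_pos_right _ hδ1
  have e3 : p = (k + l) * m := by omega
  have hm1 : m = 1 := by
    have hpr := hpf.out
    rw [e3] at hpr
    rcases (Nat.prime_mul_iff.mp hpr) with ⟨_, h⟩ | ⟨_, h⟩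
    · exact h
    · omega
  have hδ2 : δ = 1 := by
    have e4 : (k'' + l) * δ ≤ (k'' + l) * 1 := by omega
    have : δ ≤ 1 := Nat.le_of_mul_le_mul_left e4 (by omega)
    omega
  subst hm1
  subst hδ2
  rw [mul_one] at e3
  have hM2 : M = 2 := by omega
  have hb := sum_le_levels p (fun c => (fib (ff p w) A c).card)
    (univ.filter (fun c => 1 ≤ (fib (ff p w) A c).card))
    (univ.filter (fun c => 1 + 1 ≤ (fib (ff p w) A c).card)) 0 1 1 (by
      intro c
      simp only [mem_filter, mem_univ, true_and]
      have := hcs c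
      split_ifs <;> omega)
  rw [hsum] at hb
  have hfull : (univ.filter (fun c => 1 ≤ (fib (ff p w) A c).card)) = univ := by
    apply eq_of_subset_of_card_le (subset_univ _)
    rw [card_univ, ZMod.card]
    omega
  have hall : ∀ c, 0 < (fib (ff p w) A c).card := by
    intro c
    have : c ∈ (univ.filter (fun c => 1 ≤ (fib (ff p w) A c).card)) := by
      rw [hfull]; exact mem_univ _
    exact (mem_filter.mp this).2
  have h4 := one_other p k l A hA w hw k' hk' hall cs
  rw [← hMdef, hM2] at h4
  omega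

/-- Summary for the plane: an arbitrary `(k,l)`-sum-free set in `(ℤ/p)²` that meets some line
through the origin in `m` points has at most `m p` points. -/
lemma plane_bound (k l m : ℕ) (hl : 0 < l) (hlk : l < k)
    (hp : p ≤ (k + l) * m + 1) (hm : (k + l) * m + 2 ≤ p + (k + l))
    (A : Finset (ZMod p × ZMod p)) (hA : SF k l A) (w : ZMod p × ZMod p) (hw : w ≠ 0)
    (h0 : m ≤ (fib (ff p w) A 0).card) :
    A.card ≤ m * p := by
  rcases Nat.lt_or_ge p ((k + l) * m + 1) with h | h
  · exact nontype p k l m hl hlk (by omega) hm A hA w hw h0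
  · have hp' : p = (k + l) * m + 1 := le_antisymm hp h
    rcases Nat.lt_or_ge (k + l) 4 with h4 | h4
    · have hk : k = 2 := by omega
      have hl1 : l = 1 := by omega
      subst hk
      subst hl1
      exact typeIII_3 p m (by omega) A hA
    · exact typeIII_ge4 p k l m hl hlk h4 hp' A hA

end core

end Pool.Agent.H59.KL
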