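import Mathlib
import Pool.Agent.H59.KL7

set_option autoImplicit false

open Finset Pointwise

namespace Pool.Agent.H59.KL

lemma sf_preimage {G H : Type*} [AddCommGroup G] [AddCommGroup H] [Fintype H] [DecidableEq G]
    (k l : ℕ) (A : Finset G) (hA : SF k l A) (f : H →+ G) :
    SF k l (univ.filter (fun x => f x ∈ A)) := by
  intro P Q hP hQ hPA hQA hs
  apply hA (P.map f) (Q.map f) (by simpa using hP) (by simpa using hQ)
  · intro x hx
    rw [List.mem_map] at hx
    obtain ⟨y, hy, rfl⟩ := hx
    exact (mem_filter.mp (hPA y hy)).2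
  · intro x hx
    rw [List.mem_map] at hx
    obtain ⟨y, hy, rfl⟩ := hx
    exact (mem_filter.mp (hQA y hy)).2
  · rw [← map_list_sum, ← map_list_sum, hs]

section general

variable (p : ℕ) [hpf : Fact p.Prime] {G : Type*} [AddCommGroup G] [Fintype G] [DecidableEq G]
  [Module (ZMod p) G]

lemma count_smul (A : Finset G) (x : ZMod p) (hx : x ≠ 0) (g : G) :
    (univ.filter (fun h : G => g + x • h ∈ A)).card = A.card := by
  apply card_bij (fun h _ => g + x • h)
  · intro h hh; exact (mem_filter.mp hh).2
  · intro h₁ _ h₂ _ h12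
    have : x • h₁ = x • h₂ := by simpa using h12
    exact smul_right_injective G hx this
  · intro a ha
    refine ⟨x⁻¹ • (a - g), ?_, ?_⟩
    · rw [mem_filter]
      refine ⟨mem_univ _, ?_⟩
      rw [smul_inv_smul₀ hx]
      simpa using ha
    · rw [smul_inv_smul₀ hx]; abel

/-- The upper bound for groups of prime exponent. -/
lemma gen_bound (k l m : ℕ) (hl : 0 < l) (hlk : l < k)
    (hp : p ≤ (k + l) * m + 1) (hm : (k + l) * m + 2 ≤ p + (k + l))
    (A : Finset G) (hA : SF k l A) : A.card * p ≤ m * Fintype.card G := by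
  have h0A : (0 : G) ∉ A := zero_not_mem k l A hA
  have hp2 : 2 ≤ p := hpf.out.two_le
  have hp1 : 0 < p - 1 := by omega
  by_cases hg : ∃ g : G, m ≤ (univ.filter (fun x : ZMod p => x • g ∈ A)).card
  · obtain ⟨g, hg⟩ := hg
    -- the maps `φ_h`
    let φ : G → (ZMod p × ZMod p →+ G) := fun h =>
      AddMonoidHom.mk' (fun v => v.1 • g + v.2 • h) (by
        intro a b
        simp only [Prod.fst_add, Prod.snd_add, add_smul]
        abel)
    have hφ : ∀ h v, φ h v = v.1 • g + v.2 • h := fun h v => rfl
    have h1 : ∀ h : G, (univ.filter (fun v => φ h v ∈ A)).card ≤ m * p := by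
      intro h
      apply plane_bound p k l m hl hlk hp hm _ (sf_preimage k l A hA (φ h)) (0, 1) (by simp)
      refine hg.trans ?_
      apply card_le_card_of_injOn (fun x => (x, 0))
      · intro x hx
        rw [mem_coe, mem_filter] at hx
        rw [mem_coe, mem_fib, mem_filter]
        refine ⟨⟨mem_univ _, ?_⟩, ?_⟩
        · rw [hφ]; simpa using hx.2
        · simp
      · intro x _ y _ hxy
        exact (Prod.ext_iff.mp hxy).1
    -- double counting
    have h2 : ∑ h : G, (univ.filter (fun v => φ h v ∈ A)).card =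
        ∑ v : ZMod p × ZMod p, (univ.filter (fun h : G => φ h v ∈ A)).card := by
      simp_rw [card_filter]
      rw [sum_comm]
    have h3 : ∑ h : G, (univ.filter (fun v => φ h v ∈ A)).card ≤ ∑ h : G, m * p :=
      sum_le_sum (fun h _ => h1 h)
    rw [h2, sum_const, card_univ, smul_eq_mul, Fintype.sum_prod_type] at h3
    have h4 : ∀ x : ZMod p, ∑ y : ZMod p, (univ.filter (fun h : G => φ h (x, y) ∈ A)).card =
        (if x • g ∈ A then Fintype.card G else 0) + (p - 1) * A.card := by
      intro x
      rw [← add_sum_erase univ _ (mem_univ (0 : ZMod p))]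
      congr 1
      · by_cases hx : x • g ∈ A
        · rw [if_pos hx, filter_true_of_mem, card_univ]
          intro h _
          rw [hφ]; simpa using hx
        · rw [if_neg hx, card_eq_zero, filter_eq_empty_iff]
          intro h _
          rw [hφ]; simpa using hx
      · have : ∀ y ∈ univ.erase (0 : ZMod p),
            (univ.filter (fun h : G => φ h (x, y) ∈ A)).card = A.card := by
          intro y hy
          have := count_smul p A y (ne_of_mem_erase hy) (x • g)
          simpa [hφ] using this
        rw [sum_congr rfl this, sum_const, card_erase_of_mem (mem_univ _), card_univ, ZMod.card,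
          smul_eq_mul]
    simp_rw [h4] at h3
    rw [sum_add_distrib, ← sum_filter, sum_const, sum_const, card_univ, ZMod.card, smul_eq_mul,
      smul_eq_mul] at h3
    have h5 : m * Fintype.card G ≤
        (univ.filter (fun x : ZMod p => x • g ∈ A)).card * Fintype.card G :=
      Nat.mul_le_mul_right _ hg
    obtain ⟨q, hq⟩ : ∃ q, p = q + 1 := ⟨p - 1, by omega⟩
    have hq1 : p - 1 = q := by omega
    rw [hq1] at h3 hp1
    have h6 : (q : ℕ) * (A.card * p) ≤ q * (m * Fintype.card G) := by
      have e1 : Fintype.card G * (m * p) = q * (m * Fintype.card G) + m * Fintype.card G := by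
        rw [hq]; ring
      have e2 : p * (q * A.card) = q * (A.card * p) := by ring
      omega
    exact Nat.le_of_mul_le_mul_left h6 hp1
  · push Not at hg
    have h2 : ∑ g : G, (univ.filter (fun x : ZMod p => x • g ∈ A)).card =
        ∑ x : ZMod p, (univ.filter (fun g : G => x • g ∈ A)).card := by
      simp_rw [card_filter]
      rw [sum_comm]
    have h3 : ∑ g : G, ((univ.filter (fun x : ZMod p => x • g ∈ A)).card + 1) ≤ ∑ g : G, m :=
      sum_le_sum (fun g _ => hg g)
    rw [sum_add_distrib, h2, sum_const, sum_const, card_univ, smul_eq_mul, smul_eq_mul,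
      ← add_sum_erase univ _ (mem_univ (0 : ZMod p))] at h3
    have h4 : ∀ x ∈ univ.erase (0 : ZMod p),
        (univ.filter (fun g : G => x • g ∈ A)).card = A.card := by
      intro x hx
      have := count_smul p A x (ne_of_mem_erase hx) 0
      simpa using this
    rw [sum_congr rfl h4, sum_const, card_erase_of_mem (mem_univ _), card_univ, ZMod.card,
      smul_eq_mul] at h3
    have hmp : m ≤ p := by
      by_contra hcon
      push Not at hcon
      have : (k + l) * (p + 1) ≤ (k + l) * m := Nat.mul_le_mul_left _ hcon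
      have h3 : 3 * p ≤ (k + l) * p := Nat.mul_le_mul_right _ (by omega)
      rw [mul_add] at this
      omega
    obtain ⟨q, hq⟩ : ∃ q, p = q + 1 := ⟨p - 1, by omega⟩
    have hq1 : p - 1 = q := by omega
    rw [hq1] at h3 hp1
    have h6 : (q : ℕ) * (A.card * p) ≤ q * (m * Fintype.card G) := by
      have e0 : q * A.card + Fintype.card G ≤ Fintype.card G * m := by omega
      have e1 : p * (q * A.card + Fintype.card G) ≤ p * (Fintype.card G * m) :=
        Nat.mul_le_mul_left _ e0
      have e2 : p * (Fintype.card G * m) = q * (m * Fintype.card G) + m * Fintype.card G := by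
        rw [hq]; ring
      have e3 : p * (q * A.card + Fintype.card G) = q * (A.card * p) + p * Fintype.card G := by
        ring
      have e4 : m * Fintype.card G ≤ p * Fintype.card G := Nat.mul_le_mul_right _ hmp
      omega
    exact Nat.le_of_mul_le_mul_left h6 hp1

/-- Lower bound: pull back along a surjection to `ℤ/p`. -/
lemma pull_back (k l : ℕ) [Nontrivial G] (B : Finset (ZMod p)) (hB : SF k l B) :
    ∃ A : Finset G, SF k l A ∧ A.card * p = B.card * Fintype.card G := by
  obtain ⟨v, hv⟩ := exists_ne (0 : G)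
  have : ∃ f : Module.Dual (ZMod p) G, f v ≠ 0 := by
    by_contra hcon
    push Not at hcon
    exact hv ((Module.forall_dual_apply_eq_zero_iff (ZMod p) v).mp hcon)
  obtain ⟨f, hf⟩ := this
  obtain ⟨u, hu⟩ : ∃ u : G, f u = 1 := ⟨(f v)⁻¹ • v, by simp [hf]⟩
  refine ⟨univ.filter (fun x => f x ∈ B), sf_preimage k l B hB f.toAddMonoidHom, ?_⟩
  have h1 : ∑ t : ZMod p, ∑ x : G, (if f (x + t • u) ∈ B then 1 else 0) =
      p * (univ.filter (fun x => f x ∈ B)).card := by
    have : ∀ t : ZMod p, ∑ x : G, (if f (x + t • u) ∈ B then 1 else 0) =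
        (univ.filter (fun x => f x ∈ B)).card := by
      intro t
      rw [card_filter]
      exact Fintype.sum_equiv (Equiv.addRight (t • u)) _ _ (fun x => rfl)
    simp_rw [this]
    rw [sum_const, card_univ, ZMod.card, smul_eq_mul]
  have h2 : ∑ t : ZMod p, ∑ x : G, (if f (x + t • u) ∈ B then 1 else 0) =
      Fintype.card G * B.card := by
    rw [sum_comm]
    have : ∀ x : G, ∑ t : ZMod p, (if f (x + t • u) ∈ B then 1 else 0) = B.card := by
      intro x
      have h3 : ∑ t : ZMod p, (if f (x + t • u) ∈ B then 1 else 0) =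
          ∑ t : ZMod p, (if t ∈ B then 1 else 0) := by
        apply Fintype.sum_equiv (Equiv.addLeft (f x))
        intro t
        have e1 : f (x + t • u) = f x + t := by simp [hu]
        have e2 : (Equiv.addLeft (f x)) t = f x + t := rfl
        by_cases h : f x + t ∈ B
        · rw [if_pos (by rw [e1]; exact h), if_pos (by rw [e2]; exact h)]
        · rw [if_neg (by rw [e1]; exact h), if_neg (by rw [e2]; exact h)]
      rw [h3, sum_ite_mem, univ_inter, sum_const, smul_eq_mul, mul_one]
    simp_rw [this]
    rw [sum_const, card_univ, smul_eq_mul]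
  rw [mul_comm, ← h1, h2, mul_comm]

end general

section line

variable (p : ℕ) [hpf : Fact p.Prime]

lemma list_interval (c : ZMod p) (m : ℕ) (B : Finset (ZMod p))
    (hB : B = (range (m + 1)).image (fun i : ℕ => c + (i : ZMod p))) (P : List (ZMod p))
    (hP : ∀ x ∈ P, x ∈ B) :
    ∃ I : ℕ, I ≤ P.length * m ∧ P.sum = (P.length : ZMod p) * c + (I : ZMod p) := by
  induction P with
  | nil => exact ⟨0, by simp, by simp⟩
  | cons x P ih =>
    obtain ⟨I, hI, hIs⟩ := ih (fun y hy => hP y (by simp [hy]))
    have hx := hP x (by simp)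
    rw [hB, mem_image] at hx
    obtain ⟨i, hi, rfl⟩ := hx
    rw [mem_range] at hi
    refine ⟨i + I, ?_, ?_⟩
    · rw [List.length_cons, add_mul]; omega
    · rw [List.sum_cons, hIs, List.length_cons]
      push_cast
      ring

/-- Extremal example: an interval. -/
lemma interval_example (k l m : ℕ) (hkl : (k : ZMod p) ≠ (l : ZMod p))
    (hm : (k + l) * m + 2 ≤ p + (k + l)) (hmp : m ≤ p) :
    ∃ B : Finset (ZMod p), SF k l B ∧ B.card = m := by
  rcases Nat.eq_zero_or_pos m with h | h
  · subst h
    refine ⟨∅, ?_, by simp⟩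
    intro P Q hP hQ hPA hQA hs
    have hk : k ≠ 0 ∨ l ≠ 0 := by
      by_contra hcon
      push Not at hcon
      rw [hcon.1, hcon.2] at hkl
      exact hkl rfl
    rcases hk with hk | hk
    · rcases P with _ | ⟨x, P⟩
      · exact hk hP.symm
      · exact absurd (hPA x (by simp)) (by simp)
    · rcases Q with _ | ⟨x, Q⟩
      · exact hk hQ.symm
      · exact absurd (hQA x (by simp)) (by simp)
  · obtain ⟨m', hm'⟩ : ∃ m', m = m' + 1 := ⟨m - 1, by omega⟩
    subst hm'
    have hne : (k : ZMod p) - l ≠ 0 := sub_ne_zero.mpr hkl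
    set c : ZMod p := ((l : ZMod p) * m' + 1) / ((k : ZMod p) - l) with hc
    have hc' : ((k : ZMod p) - l) * c = (l : ZMod p) * m' + 1 := by
      rw [hc]; field_simp
    refine ⟨(range (m' + 1)).image (fun i : ℕ => c + (i : ZMod p)), ?_, ?_⟩
    · intro P Q hP hQ hPA hQA hs
      obtain ⟨I, hI, hIs⟩ := list_interval p c m' _ rfl P hPA
      obtain ⟨J, hJ, hJs⟩ := list_interval p c m' _ rfl Q hQA
      rw [hIs, hJs, hP, hQ] at hs
      rw [hP] at hI
      rw [hQ] at hJ
      have h1 : ((l * m' + 1 + I : ℕ) : ZMod p) = (J : ZMod p) := by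
        push_cast
        linear_combination hs - hc'
      rw [ZMod.natCast_eq_natCast_iff] at h1
      have h2 := (Nat.modEq_iff_dvd' (by omega : J ≤ l * m' + 1 + I)).mp h1.symm
      have h3 := Nat.le_of_dvd (by omega) h2
      have h4 : (k + l) * (m' + 1) = k * m' + l * m' + (k + l) := by ring
      omega
    · rw [card_image_of_injOn, card_range]
      intro i hi j hj hij
      have h1 : (i : ZMod p) = (j : ZMod p) := by simpa using hij
      rw [ZMod.natCast_eq_natCast_iff] at h1
      rw [coe_range, Set.mem_Iio] at hi hj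
      exact Nat.ModEq.eq_of_lt_of_lt h1 (by omega) (by omega)

end line

/-- The conjecture for groups of prime exponent. -/
theorem main (G : Type) [AddCommGroup G] [Fintype G] [DecidableEq G] (κ : ℕ) [NeZero κ]
    (hexp : AddMonoid.exponent G = κ) (hprime : κ.Prime) (k l : ℕ) (hl : 0 < l) (hlk : l < k) :
    ((Finset.univ.filter (fun A : Finset G =>
        Disjoint ((Fintype.piFinset (fun _ : Fin k => A)).image (fun f : Fin k → G => ∑ i, f i))
                 ((Fintype.piFinset (fun _ : Fin l => A)).image (fun f : Fin l → G => ∑ i, f i)))).sup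
        Finset.card) * κ
    = ((Finset.univ.filter (fun A : Finset (ZMod κ) =>
        Disjoint ((Fintype.piFinset (fun _ : Fin k => A)).image (fun f : Fin k → ZMod κ => ∑ i, f i))
                 ((Fintype.piFinset (fun _ : Fin l => A)).image (fun f : Fin l → ZMod κ => ∑ i, f i)))).sup
        Finset.card) * Fintype.card G := by
  haveI : Fact κ.Prime := ⟨hprime⟩
  have hsmul : ∀ x : G, κ • x = 0 := by
    intro x; rw [← hexp]; exact AddMonoid.exponent_nsmul_eq_zero x
  letI : Module (ZMod κ) G := AddCommGroup.zmodModule hsmul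
  haveI : Nontrivial G := by
    by_contra hcon
    rw [not_nontrivial_iff_subsingleton] at hcon
    have : AddMonoid.exponent G = 1 := AddMonoid.exp_eq_one_of_subsingleton
    rw [this] at hexp
    exact hprime.one_lt.ne hexp
  set SG := (Finset.univ.filter (fun A : Finset G =>
        Disjoint ((Fintype.piFinset (fun _ : Fin k => A)).image (fun f : Fin k → G => ∑ i, f i))
                 ((Fintype.piFinset (fun _ : Fin l => A)).image (fun f : Fin l → G => ∑ i, f i))))
    with hSG
  set SZ := (Finset.univ.filter (fun A : Finset (ZMod κ) =>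
        Disjoint ((Fintype.piFinset (fun _ : Fin k => A)).image (fun f : Fin k → ZMod κ => ∑ i, f i))
                 ((Fintype.piFinset (fun _ : Fin l => A)).image (fun f : Fin l → ZMod κ => ∑ i, f i))))
    with hSZ
  have memG : ∀ A : Finset G, A ∈ SG ↔ SF k l A := by
    intro A; rw [hSG, mem_filter, sf_iff]; simp
  have memZ : ∀ A : Finset (ZMod κ), A ∈ SZ ↔ SF k l A := by
    intro A; rw [hSZ, mem_filter, sf_iff]; simp
  have hcardpos : 0 < κ := hprime.pos
  apply le_antisymm
  · -- upper bound
    obtain ⟨A, hA, hAc⟩ : ∃ A ∈ SG, SG.sup Finset.card = A.card := by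
      apply exists_mem_eq_sup
      refine ⟨∅, ?_⟩
      rw [memG]
      intro P Q hP hQ hPA hQA hs
      rcases P with _ | ⟨x, P⟩
      · simp at hP; omega
      · exact absurd (hPA x (by simp)) (by simp)
    rw [hAc]
    rw [memG] at hA
    by_cases hkl : (k : ZMod κ) = (l : ZMod κ)
    · -- `A` is empty
      have hAe : A = ∅ := by
        rw [eq_empty_iff_forall_notMem]
        intro a ha
        apply hA (List.replicate k a) (List.replicate l a) (by simp) (by simp)
        · intro x hx; rw [List.eq_of_mem_replicate hx]; exact ha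
        · intro x hx; rw [List.eq_of_mem_replicate hx]; exact ha
        · rw [List.sum_replicate, List.sum_replicate, ← Nat.cast_smul_eq_nsmul (ZMod κ) k,
            ← Nat.cast_smul_eq_nsmul (ZMod κ) l, hkl]
      rw [hAe]
      simp
    · -- choose `m`
      obtain ⟨m, hm1, hm2⟩ : ∃ m, κ ≤ (k + l) * m + 1 ∧ (k + l) * m + 2 ≤ κ + (k + l) := by
        refine ⟨(κ + (k + l) - 2) / (k + l), ?_, ?_⟩
        · have h1 := Nat.lt_mul_div_succ (κ + (k + l) - 2) (by omega : 0 < k + l)
          rw [mul_add] at h1
          omega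
        · have h1 := Nat.mul_div_le (κ + (k + l) - 2) (k + l)
          have := hprime.two_le
          omega
      have h2 := gen_bound κ k l m hl hlk hm1 hm2 A hA
      have hmp : m ≤ κ := by
        by_contra hcon
        push Not at hcon
        have : (k + l) * (κ + 1) ≤ (k + l) * m := Nat.mul_le_mul_left _ hcon
        have h3 : 3 * κ ≤ (k + l) * κ := Nat.mul_le_mul_right _ (by omega)
        rw [mul_add] at this
        omega
      obtain ⟨B, hB, hBc⟩ := interval_example κ k l m hkl hm2 hmp
      have h3 : m ≤ SZ.sup Finset.card := by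
        rw [← hBc]
        exact le_sup (f := Finset.card) ((memZ B).mpr hB)
      exact h2.trans (Nat.mul_le_mul_right _ h3)
  · -- lower bound
    obtain ⟨B, hB, hBc⟩ : ∃ B ∈ SZ, SZ.sup Finset.card = B.card := by
      apply exists_mem_eq_sup
      refine ⟨∅, ?_⟩
      rw [memZ]
      intro P Q hP hQ hPA hQA hs
      rcases P with _ | ⟨x, P⟩
      · simp at hP; omega
      · exact absurd (hPA x (by simp)) (by simp)
    rw [hBc]
    rw [memZ] at hB
    obtain ⟨A, hA, hAc⟩ := pull_back (G := G) κ k l B hB
    rw [← hAc]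
    exact Nat.mul_le_mul_right _ (le_sup (f := Finset.card) ((memG A).mpr hA))

end Pool.Agent.H59.KL
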