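import Mathlib
import Pool.Agent.H59.KG7
import Pool.Agent.H59.KL8

set_option autoImplicit false

open Finset Pointwise

namespace Pool.Agent.H59.KG

open Pool.Agent.H59.Kneser
open Pool.Agent.H59.KL (SF)

section sf

variable {X : Type*} [AddCommGroup X] [DecidableEq X]

lemma sf_iff_R (k l : ℕ) (A : Finset X) : SF k l A ↔ (0 : X) ∉ R k l A := by
  rw [mem_R]
  constructor
  · rintro h ⟨P, Q, hP, hQ, h1, h2, h3⟩
    exact h P Q hP hQ h1 h2 (sub_eq_zero.mp h3.symm)
  · intro h P Q hP hQ h1 h2 h3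
    exact h ⟨P, Q, hP, hQ, h1, h2, by rw [h3, sub_self]⟩

lemma sf_noz (a b : ℕ) (A : Finset X) (h : SF (a + 2) (b + 1) A) : NoZ a b A A := by
  rw [sf_iff_R] at h
  constructor
  · rw [← R_succ_left]; exact h
  · rw [← R_succ_right]; exact h

lemma sf_zero (k l : ℕ) (A : Finset X) (h : SF k l A) : (0 : X) ∉ A := by
  intro h0
  apply h (List.replicate k 0) (List.replicate l 0) (by simp) (by simp)
  · intro x hx; rw [List.eq_of_mem_replicate hx]; exact h0
  · intro x hx; rw [List.eq_of_mem_replicate hx]; exact h0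
  · simp

end sf

lemma prime_bound (G : Type) [AddCommGroup G] [Fintype G] [DecidableEq G] (k l p : ℕ)
    (hl : 0 < l) (hlk : l < k) (hp : p.Prime) (hps : p % (k + l) = 1) (hG : ∀ x : G, p • x = 0)
    (A : Finset G) (hA : SF k l A) :
    (k + l) * p * A.card + Fintype.card G ≤ p * Fintype.card G := by
  have : Fact p.Prime := ⟨hp⟩
  let _ : Module (ZMod p) G := AddCommGroup.zmodModule hG
  obtain ⟨q, hq⟩ : ∃ q, p = (k + l) * q + 1 := by
    refine ⟨p / (k + l), ?_⟩
    have := Nat.div_add_mod p (k + l)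
    omega
  have h1 := KL.gen_bound p k l q hl hlk hq.le (by omega) A hA
  have h2 : (k + l) * (A.card * p) ≤ (k + l) * (q * Fintype.card G) := Nat.mul_le_mul_left _ h1
  calc (k + l) * p * A.card + Fintype.card G = (k + l) * (A.card * p) + Fintype.card G := by ring
    _ ≤ (k + l) * (q * Fintype.card G) + Fintype.card G := by omega
    _ = ((k + l) * q + 1) * Fintype.card G := by ring
    _ = p * Fintype.card G := by rw [← hq]

/-- The bound for exponents all of whose prime factors are `1` mod `k + l`. -/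
lemma pure_bound (G : Type) [AddCommGroup G] [Fintype G] [DecidableEq G] (k l κ : ℕ)
    (hl : 0 < l) (hlk : l < k) (hs : 4 ≤ k + l) (hκ : Pure (k + l) κ) (hG : ∀ x : G, κ • x = 0)
    (A : Finset G) (hA : SF k l A) :
    (k + l) * κ * A.card + Fintype.card G ≤ κ * Fintype.card G := by
  have hκ0 : 1 ≤ κ := Nat.one_le_iff_ne_zero.mpr hκ.ne
  rcases A.eq_empty_or_nonempty with rfl | hAn
  · rw [card_empty, mul_zero, zero_add]
    exact Nat.le_mul_of_pos_left _ hκ0
  · by_cases hp : κ.Prime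
    · exact prime_bound G k l κ hl hlk hp (hκ.pr κ hp dvd_rfl) hG A hA
    · have hκ1 : κ ≠ 1 := by
        rintro rfl
        obtain ⟨x, hx⟩ := hAn
        have hx0 : x = 0 := by simpa using hG x
        rw [hx0] at hx
        exact sf_zero k l A hA hx
      obtain ⟨a, ha⟩ : ∃ a, k = a + 2 := ⟨k - 2, by omega⟩
      obtain ⟨b, hb⟩ : ∃ b, l = b + 1 := ⟨l - 1, by omega⟩
      have e : k + l = a + b + 3 := by omega
      rw [e] at hs hκ ⊢
      have hmod : ∀ r : ℕ, r ≠ 0 → r ≠ 1 → r ∣ κ → a + b + 4 ≤ r := by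
        intro r hr0 hr1 hr
        apply mod_one_ge (a + b + 3) r (by omega) _ hr1
        exact mod_one_of_primes _ (by omega) r hr0 (fun q hq hqr => hκ.pr q hq (hqr.trans hr))
      have h1 := pair_bound a b κ hs (by omega) hκ (by
        intro p hpp hpκ
        obtain ⟨κ', hκ'⟩ := hpκ
        refine ⟨κ', hκ', ?_⟩
        apply hmod κ'
        · rintro rfl
          rw [mul_zero] at hκ'
          exact hκ.ne hκ'
        · rintro rfl
          rw [mul_one] at hκ'
          rw [hκ'] at hp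
          exact hp hpp
        · exact ⟨p, by rw [hκ', mul_comm]⟩) (hmod κ hκ.ne hκ1 dvd_rfl) _ G rfl hG A A subset_rfl
        hAn (sf_noz a b A (by rw [ha, hb] at hA; exact hA))
      have e1 : (a + b + 3) * κ * (A.card + A.card) = 2 * ((a + b + 3) * κ * A.card) := by ring
      rw [e1, mul_assoc 2 κ] at h1
      omega

/-- The bound when the exponent divides `κ₁ * κ₂` with `κ₁ ∣ k - l` and `κ₂` pure. -/
lemma mixed_bound (G : Type) [AddCommGroup G] [Fintype G] [DecidableEq G] (k l κ₁ κ₂ : ℕ)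
    (hl : 0 < l) (hlk : l < k) (hs : 4 ≤ k + l) (hκ : Pure (k + l) κ₂) (hκ1 : κ₁ ∣ k - l)
    (hG : ∀ x : G, (κ₁ * κ₂) • x = 0) (A : Finset G) (hA : SF k l A) :
    (k + l) * κ₂ * A.card + Fintype.card G ≤ κ₂ * Fintype.card G := by
  classical
  have hcop : Nat.Coprime κ₁ κ₂ := by
    rw [Nat.coprime_iff_gcd_eq_one]
    by_contra hg
    obtain ⟨r, hr, hrg⟩ := Nat.exists_prime_and_dvd hg
    have h5 := hκ.pr r hr (hrg.trans (Nat.gcd_dvd_right _ _))
    have h6 := Nat.le_of_dvd (by omega) ((hrg.trans (Nat.gcd_dvd_left _ _)).trans hκ1)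
    rw [Nat.mod_eq_of_lt (by omega)] at h5
    rw [h5] at hr
    exact Nat.not_prime_one hr
  -- the product map
  have hinj : ∀ x ∈ tor G κ₁, ∀ y ∈ tor G κ₂, ∀ x' ∈ tor G κ₁, ∀ y' ∈ tor G κ₂,
      x + y = x' + y' → x = x' ∧ y = y' := by
    intro x hx y hy x' hx' y' hy' h
    rw [mem_tor] at hx hy hx' hy'
    have h1 : κ₁ • (x - x') = 0 := by rw [smul_sub, hx, hx', sub_self]
    have h2 : x - x' = y' - y := by
      rw [sub_eq_sub_iff_add_eq_add, h, add_comm]
    have h3 : κ₂ • (x - x') = 0 := by rw [h2, smul_sub, hy, hy', sub_self]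
    have h4 : addOrderOf (x - x') = 1 := Nat.eq_one_of_dvd_coprimes hcop
      (addOrderOf_dvd_of_nsmul_eq_zero h1) (addOrderOf_dvd_of_nsmul_eq_zero h3)
    have h5 : x - x' = 0 := AddMonoid.addOrderOf_eq_one_iff.mp h4
    have h6 : x = x' := sub_eq_zero.mp h5
    refine ⟨h6, ?_⟩
    rw [h6] at h
    exact add_left_cancel h
  have hsurj : ∀ z : G, ∃ x ∈ tor G κ₁, ∃ y ∈ tor G κ₂, x + y = z := by
    intro z
    have hb : (κ₁ : ℤ) * Nat.gcdA κ₁ κ₂ + (κ₂ : ℤ) * Nat.gcdB κ₁ κ₂ = 1 := by
      have := Nat.gcd_eq_gcd_ab κ₁ κ₂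
      rw [Nat.coprime_iff_gcd_eq_one.mp hcop] at this
      exact_mod_cast this.symm
    refine ⟨((κ₂ : ℤ) * Nat.gcdB κ₁ κ₂) • z, ?_, ((κ₁ : ℤ) * Nat.gcdA κ₁ κ₂) • z, ?_, ?_⟩
    · rw [mem_tor, ← natCast_zsmul, ← mul_zsmul']
      have e : (κ₁ : ℤ) * ((κ₂ : ℤ) * Nat.gcdB κ₁ κ₂) = Nat.gcdB κ₁ κ₂ * ((κ₁ * κ₂ : ℕ) : ℤ) := by
        push_cast; ring
      rw [mul_comm] at e
      rw [e, mul_zsmul, natCast_zsmul, hG, smul_zero]
    · rw [mem_tor, ← natCast_zsmul, ← mul_zsmul']
      have e : (κ₂ : ℤ) * ((κ₁ : ℤ) * Nat.gcdA κ₁ κ₂) = Nat.gcdA κ₁ κ₂ * ((κ₁ * κ₂ : ℕ) : ℤ) := by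
        push_cast; ring
      rw [mul_comm] at e
      rw [e, mul_zsmul, natCast_zsmul, hG, smul_zero]
    · rw [← add_zsmul, add_comm, hb, one_zsmul]
  -- cardinalities
  have hcount : ∀ B : Finset G, B.card =
      ∑ x ∈ tor G κ₁, ((tor G κ₂).filter (fun y => x + y ∈ B)).card := by
    intro B
    have h1 : B.card = (((tor G κ₁) ×ˢ (tor G κ₂)).filter (fun q => q.1 + q.2 ∈ B)).card := by
      symm
      apply card_bij (fun q _ => q.1 + q.2)
      · intro q hq
        exact (mem_filter.mp hq).2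
      · intro q hq q' hq' hqq
        rw [mem_filter, mem_product] at hq hq'
        obtain ⟨h1, h2⟩ := hinj _ hq.1.1 _ hq.1.2 _ hq'.1.1 _ hq'.1.2 hqq
        exact Prod.ext h1 h2
      · intro z hz
        obtain ⟨x, hx, y, hy, hxy⟩ := hsurj z
        refine ⟨(x, y), ?_, hxy⟩
        rw [mem_filter, mem_product]
        exact ⟨⟨hx, hy⟩, by rw [hxy]; exact hz⟩
    rw [h1, card_filter, sum_product]
    apply sum_congr rfl
    intro x _
    rw [card_filter]
  have hcG : Fintype.card G = (tor G κ₁).card * (tor G κ₂).card := by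
    rw [← card_univ, hcount univ]
    simp
  -- the bound on each coset
  have hcoset : ∀ x ∈ tor G κ₁, (k + l) * κ₂ *
      ((tor G κ₂).filter (fun y => x + y ∈ A)).card + (tor G κ₂).card ≤
      κ₂ * (tor G κ₂).card := by
    intro x hx
    rw [mem_tor] at hx
    have hgx : (k - l) • x = 0 := by
      obtain ⟨c, hc⟩ := hκ1
      rw [hc, mul_comm, mul_nsmul', hx, smul_zero]
    have hkl : k • x = l • x := by
      have e : k = (k - l) + l := by omega
      conv_lhs => rw [e]
      rw [add_nsmul, hgx, zero_add]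
    let B : Finset (torG G κ₂) := univ.filter (fun y => x + (y : G) ∈ A)
    have hB : SF k l B := by
      intro P Q hP hQ hPB hQB hs
      apply hA (P.map (fun (y : torG G κ₂) => x + (y : G)))
        (Q.map (fun (y : torG G κ₂) => x + (y : G))) (by simpa using hP)
        (by simpa using hQ)
      · intro z hz
        rw [List.mem_map] at hz
        obtain ⟨y, hy, rfl⟩ := hz
        exact (mem_filter.mp (hPB y hy)).2
      · intro z hz
        rw [List.mem_map] at hz
        obtain ⟨y, hy, rfl⟩ := hz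
        exact (mem_filter.mp (hQB y hy)).2
      · have hmap : ∀ L : List (torG G κ₂), (L.map (fun (y : torG G κ₂) => x + (y : G))).sum =
            L.length • x + ((L.sum : torG G κ₂) : G) := by
          intro L
          induction L with
          | nil => simp
          | cons y L ih =>
            rw [List.map_cons, List.sum_cons, ih, List.length_cons, List.sum_cons, succ_nsmul,
              AddSubgroup.coe_add]
            abel
        rw [hmap, hmap, hP, hQ, hs, hkl]
    have hb := pure_bound (torG G κ₂) k l κ₂ hl hlk hs hκ (by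
      intro y
      apply Subtype.ext
      have := (mem_torG κ₂ (y : G)).mp y.2
      rw [AddSubgroup.coe_nsmul, this]; rfl) B hB
    have e1 : Fintype.card (torG G κ₂) = (tor G κ₂).card := by
      rw [← Nat.card_eq_fintype_card, card_torG]
    have e2 : B.card = ((tor G κ₂).filter (fun y => x + y ∈ A)).card := by
      apply card_bij (fun (y : torG G κ₂) _ => (y : G))
      · intro y hy
        rw [mem_filter, mem_tor]
        exact ⟨(mem_torG κ₂ (y : G)).mp y.2, (mem_filter.mp hy).2⟩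
      · intro y _ y' _ h
        exact Subtype.ext h
      · intro z hz
        rw [mem_filter, mem_tor] at hz
        exact ⟨⟨z, (mem_torG κ₂ z).mpr hz.1⟩, mem_filter.mpr ⟨mem_univ _, hz.2⟩, rfl⟩
    rw [e1, e2] at hb
    exact hb
  have hsum := sum_le_sum hcoset
  rw [sum_add_distrib, ← mul_sum, ← hcount A, sum_const, sum_const, smul_eq_mul,
    smul_eq_mul] at hsum
  rw [hcG]
  calc (k + l) * κ₂ * A.card + (tor G κ₁).card * (tor G κ₂).card
      ≤ (tor G κ₁).card * (κ₂ * (tor G κ₂).card) := hsum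
    _ = κ₂ * ((tor G κ₁).card * (tor G κ₂).card) := by ring

end Pool.Agent.H59.KG
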