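import Mathlib
import Pool.Agent.H59.KG8

set_option autoImplicit false

open Finset Pointwise

namespace Pool.Agent.H59.KG

open Pool.Agent.H59.Kneser
open Pool.Agent.H59.KL (SF)

lemma exists_surj (G : Type) [AddCommGroup G] [Finite G] (κ : ℕ) [NeZero κ]
    (hexp : AddMonoid.exponent G = κ) : ∃ f : G →+ ZMod κ, Function.Surjective f := by
  have hM : Monoid.exponent (Multiplicative G) = κ := by
    rw [← hexp]; rfl
  have : NeZero (Monoid.exponent (Multiplicative G)) := by rw [hM]; infer_instance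
  obtain ⟨e⟩ := CommGroup.monoidHom_mulEquiv_of_hasEnoughRootsOfUnity (Multiplicative G) ℂ
  obtain ⟨g, hg⟩ := Monoid.exists_orderOf_eq_exponent
    (Monoid.ExponentExists.of_finite (G := Multiplicative G))
  set χ := e.symm g with hχ
  have hord : orderOf χ = κ := by
    rw [hχ, ← hM, ← hg]
    exact e.symm.orderOf_eq g
  have hpow : ∀ m : ℕ, χ ^ m = 1 ↔ κ ∣ m := by
    intro m
    rw [← hord, orderOf_dvd_iff_pow_eq_one]
  -- the range is cyclic of order `κ`
  have hfin : Finite χ.range := Finite.of_surjective χ.rangeRestrict χ.rangeRestrict_surjective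
  have hcyc : IsCyclic χ.range := by infer_instance
  have hexpR : Monoid.exponent χ.range = κ := by
    apply Nat.dvd_antisymm
    · apply Monoid.exponent_dvd_of_forall_pow_eq_one
      rintro ⟨y, x, rfl⟩
      apply Subtype.ext
      have := DFunLike.congr_fun ((hpow κ).mpr dvd_rfl) x
      simpa using this
    · rw [← hpow]
      apply MonoidHom.ext
      intro x
      have h1 := Monoid.pow_exponent_eq_one (⟨χ x, ⟨x, rfl⟩⟩ : χ.range)
      have h2 := congrArg (fun z : χ.range => (z : ℂˣ)) h1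
      simp only [Subgroup.coe_pow, Subgroup.coe_one] at h2
      rw [MonoidHom.pow_apply, h2, MonoidHom.one_apply]
  have hcard : Nat.card χ.range = κ := by
    rw [← IsCyclic.exponent_eq_card, hexpR]
  let E := (zmodCyclicMulEquiv hcyc).symm
  have hsurj : Function.Surjective (E.toMonoidHom.comp χ.rangeRestrict) := by
    rw [MonoidHom.coe_comp]
    exact E.surjective.comp χ.rangeRestrict_surjective
  have hfin : ∀ m : ℕ, m = κ → ∀ F : Multiplicative G →* Multiplicative (ZMod m),
      Function.Surjective F → ∃ f : G →+ ZMod κ, Function.Surjective f := by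
    rintro m rfl F hF
    exact ⟨MonoidHom.toAdditive F, hF⟩
  exact hfin _ hcard _ hsurj

lemma nice_of_surj {X Y : Type} [AddCommGroup X] [Fintype X] [DecidableEq X] [AddCommGroup Y]
    [Fintype Y] [DecidableEq Y] (f : X →+ Y) (hf : Function.Surjective f) :
    ∃ h, Nice f h := ⟨_, mk_nice f.ker Y f hf (fun _ => Iff.rfl)⟩

lemma card_preimage {X Y : Type} [AddCommGroup X] [Fintype X] [DecidableEq X] [AddCommGroup Y]
    [Fintype Y] [DecidableEq Y] (f : X →+ Y) (h : ℕ) (hf : Nice f h) (B : Finset Y) :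
    (univ.filter (fun x => f x ∈ B)).card = B.card * h := by
  rw [card_eq_sum_card_fiberwise (f := f) (t := B) (by
    intro x hx
    rw [mem_coe, mem_filter] at hx
    exact hx.2)]
  have h2 : ∀ c ∈ B, (filter (fun x => f x = c) (univ.filter (fun x => f x ∈ B))).card = h := by
    intro c hc
    rw [← hf.card_fib c]
    congr 1
    ext x
    rw [mem_filter, mem_filter, mem_fib]
    constructor
    · rintro ⟨_, h3⟩; exact ⟨mem_univ _, h3⟩
    · rintro ⟨_, h3⟩; exact ⟨⟨mem_univ _, h3 ▸ hc⟩, h3⟩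
  rw [sum_congr rfl h2, sum_const, smul_eq_mul]

/-- Pulling back sum-free sets along a surjection. -/
lemma pull {X Y : Type} [AddCommGroup X] [Fintype X] [DecidableEq X] [AddCommGroup Y]
    [Fintype Y] [DecidableEq Y] (f : X →+ Y) (hf : Function.Surjective f) (k l : ℕ)
    (B : Finset Y) (hB : SF k l B) : ∃ A : Finset X, SF k l A ∧
      A.card * Fintype.card Y = B.card * Fintype.card X := by
  obtain ⟨h, hn⟩ := nice_of_surj f hf
  refine ⟨univ.filter (fun x => f x ∈ B), KL.sf_preimage k l B hB f, ?_⟩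
  rw [card_preimage f h hn, hn.card]
  ring

lemma list_interval (d : ℕ) (c : ZMod d) (m : ℕ) (P : List (ZMod d))
    (hP : ∀ x ∈ P, x ∈ (range (m + 1)).image (fun i : ℕ => c + (i : ZMod d))) :
    ∃ I : ℕ, I ≤ P.length * m ∧ P.sum = (P.length : ZMod d) * c + (I : ZMod d) := by
  induction P with
  | nil => exact ⟨0, by simp, by simp⟩
  | cons x P ih =>
    obtain ⟨I, hI, hIs⟩ := ih (fun y hy => hP y (by simp [hy]))
    have hx := hP x (by simp)
    rw [mem_image] at hx
    obtain ⟨i, hi, rfl⟩ := hx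
    rw [mem_range] at hi
    refine ⟨i + I, ?_, ?_⟩
    · rw [List.length_cons, add_mul]; omega
    · rw [List.sum_cons, hIs, List.length_cons]
      push_cast
      ring

/-- An interval is sum-free. -/
lemma interval_gen (d k l m : ℕ) (hlk : l < k)
    (h : (k + l) * m + 1 + Nat.gcd d (k - l) ≤ d) :
    ∃ B : Finset (ZMod d), SF k l B ∧ B.card = m + 1 := by
  have hd0 : 0 < d := by omega
  set g := Nat.gcd d (k - l) with hg
  have hg0 : 0 < g := Nat.gcd_pos_of_pos_left _ hd0
  -- the multiple of `g` just above `l m`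
  set u := (l * m) / g + 1 with hu
  have hu1 : l * m < g * u := by
    rw [hu]; exact Nat.lt_mul_div_succ _ hg0
  have hu2 : g * u ≤ l * m + g := by
    rw [hu, mul_add, mul_one]
    have := Nat.mul_div_le (l * m) g
    omega
  -- solve `(k - l) c = g u`
  obtain ⟨c, hc⟩ : ∃ c : ZMod d, ((k : ZMod d) - l) * c = ((g * u : ℕ) : ZMod d) := by
    have hb := Nat.gcd_eq_gcd_ab d (k - l)
    refine ⟨(Nat.gcdB d (k - l) : ZMod d) * (u : ZMod d), ?_⟩
    have h1 : ((Nat.gcd d (k - l) : ℤ) : ZMod d) = ((k : ZMod d) - l) * (Nat.gcdB d (k - l)) := by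
      rw [hb]
      push_cast
      rw [Nat.cast_sub hlk.le]
      simp
    have h2 : ((g : ℕ) : ZMod d) = ((k : ZMod d) - l) * (Nat.gcdB d (k - l)) := by
      rw [← h1, hg]; simp
    rw [Nat.cast_mul, h2]
    ring
  refine ⟨(range (m + 1)).image (fun i : ℕ => c + (i : ZMod d)), ?_, ?_⟩
  · intro P Q hP hQ hPA hQA hs
    obtain ⟨I, hI, hIs⟩ := list_interval d c m P hPA
    obtain ⟨J, hJ, hJs⟩ := list_interval d c m Q hQA
    rw [hIs, hJs, hP, hQ] at hs
    rw [hP] at hI
    rw [hQ] at hJ
    have h1 : ((g * u + I : ℕ) : ZMod d) = (J : ZMod d) := by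
      rw [Nat.cast_add, ← hc]
      linear_combination hs
    rw [ZMod.natCast_eq_natCast_iff] at h1
    have h2 := (Nat.modEq_iff_dvd' (by omega : J ≤ g * u + I)).mp h1.symm
    have h3 := Nat.le_of_dvd (by omega) h2
    have h4 : (k + l) * m = k * m + l * m := by ring
    omega
  · have h5 : m < d := by
      have h7 : m * 1 ≤ m * (k + l) := Nat.mul_le_mul_left _ (by omega)
      have h8 : m * (k + l) = (k + l) * m := mul_comm _ _
      omega
    rw [card_image_of_injOn, card_range]
    intro i hi j hj hij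
    have h6 : (i : ZMod d) = (j : ZMod d) := by simpa using hij
    rw [ZMod.natCast_eq_natCast_iff] at h6
    rw [coe_range, Set.mem_Iio] at hi hj
    exact Nat.ModEq.eq_of_lt_of_lt h6 (by omega) (by omega)

/-- A sum-free set of `ZMod κ` of density `m / d`. -/
lemma interval_pull (κ d k l m : ℕ) [NeZero κ] (hlk : l < k) (hd : d ∣ κ)
    (h : (k + l) * m + 1 + Nat.gcd d (k - l) ≤ d) :
    ∃ B : Finset (ZMod κ), SF k l B ∧ B.card * d = (m + 1) * κ := by
  have hd0 : d ≠ 0 := by omega
  have : NeZero d := ⟨hd0⟩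
  obtain ⟨B, hB, hBc⟩ := interval_gen d k l m hlk h
  obtain ⟨A, hA, hAc⟩ := pull (ZMod.castHom hd (ZMod d)).toAddMonoidHom
    (ZMod.castHom_surjective hd) k l B hB
  rw [ZMod.card, ZMod.card, hBc] at hAc
  exact ⟨A, hA, hAc⟩

end Pool.Agent.H59.KG
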