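import Mathlib
import Pool.Agent.H59.KG9

set_option autoImplicit false

open Finset Pointwise

namespace Pool.Agent.H59.KG

open Pool.Agent.H59.Kneser
open Pool.Agent.H59.KL (SF)

lemma sf_empty {X : Type*} [AddCommGroup X] (k l : ℕ) (hk : 0 < k) : SF k l (∅ : Finset X) := by
  intro P Q hP hQ hPA hQA hs
  rcases P with _ | ⟨x, P⟩
  · simp at hP; omega
  · exact absurd (hPA x (by simp)) (by simp)

/-- The factor of the exponent that is prime to `g` is pure. -/
lemma pure_part (κ κ' g s : ℕ) (hκ : κ ≠ 0) (hκ' : κ' ∣ κ) (hg : 0 < g) (hgs : g < s)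
    (hbad : ∀ p b : ℕ, p.Prime → 0 < b → p ^ b ∣ g → ¬ p ^ (b + 1) ∣ g → p ^ (b + 1) ∣ κ →
      ¬ (1 ≤ p ^ (b + 1) % s ∧ p ^ (b + 1) % s ≤ p ^ b))
    (hall : ∀ d, d ∣ κ' → 1 ≤ d % s ∧ d % s ≤ Nat.gcd d g) :
    Pure s (κ' / Nat.gcd κ' g) := by
  have hκ'0 : κ' ≠ 0 := fun h => hκ (by rw [h] at hκ'; exact zero_dvd_iff.mp hκ')
  have hgcd : Nat.gcd κ' g ∣ κ' := Nat.gcd_dvd_left _ _
  refine ⟨?_, ?_⟩
  · have := Nat.div_pos (Nat.le_of_dvd (Nat.pos_of_ne_zero hκ'0) hgcd)
      (Nat.gcd_pos_of_pos_right _ hg)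
    omega
  · intro r hr hrd
    have hrκ' : r ∣ κ' := hrd.trans (Nat.div_dvd_of_dvd hgcd)
    by_cases hrg : r ∣ g
    · exfalso
      have hb1 : 0 < g.factorization r := by
        have : r ^ 1 ∣ g := by simpa using hrg
        rw [hr.pow_dvd_iff_le_factorization hg.ne'] at this
        omega
      have hb2 : r ^ (g.factorization r) ∣ g := Nat.ordProj_dvd g r
      have hb3 : ¬ r ^ (g.factorization r + 1) ∣ g := by
        rw [hr.pow_dvd_iff_le_factorization hg.ne']
        omega
      have hb4 : r ^ (g.factorization r + 1) ∣ κ' := by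
        rw [hr.pow_dvd_iff_le_factorization hκ'0]
        by_contra hcon
        have hle : κ'.factorization r ≤ g.factorization r := by omega
        have h1 : r ^ (κ'.factorization r) ∣ Nat.gcd κ' g :=
          Nat.dvd_gcd (Nat.ordProj_dvd κ' r) ((pow_dvd_pow r hle).trans hb2)
        have h2 : r ^ (κ'.factorization r + 1) ∣ κ' := by
          have h3 : r ^ (κ'.factorization r) * r ∣ Nat.gcd κ' g * (κ' / Nat.gcd κ' g) :=
            Nat.mul_dvd_mul h1 hrd
          rw [Nat.mul_div_cancel' hgcd] at h3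
          rwa [pow_succ]
        rw [hr.pow_dvd_iff_le_factorization hκ'0] at h2
        omega
      obtain ⟨h5, h6⟩ := hall _ hb4
      apply hbad r (g.factorization r) hr hb1 hb2 hb3 (hb4.trans hκ')
      refine ⟨h5, h6.trans ?_⟩
      obtain ⟨j, hj, hj2⟩ := (Nat.dvd_prime_pow hr).mp
        (Nat.gcd_dvd_left (r ^ (g.factorization r + 1)) g)
      rw [hj2]
      apply Nat.pow_le_pow_right hr.pos
      by_contra hcon
      have hj3 : j = g.factorization r + 1 := by omega
      apply hb3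
      rw [← hj3, ← hj2]
      exact Nat.gcd_dvd_right _ _
    · obtain ⟨h1, h2⟩ := hall r hrκ'
      have h3 : Nat.gcd r g = 1 := Nat.coprime_iff_gcd_eq_one.mp
        ((Nat.Prime.coprime_iff_not_dvd hr).mpr hrg)
      rw [h3] at h2
      omega

/-- The upper bound. -/
theorem upper (G : Type) [AddCommGroup G] [Fintype G] [DecidableEq G] (κ : ℕ) [NeZero κ]
    (hG : ∀ x : G, κ • x = 0) (k l : ℕ) (hl : 0 < l) (hlk : l < k) (hs : 4 ≤ k + l)
    (hbad : ∀ p b : ℕ, p.Prime → 0 < b → p ^ b ∣ k - l → ¬ p ^ (b + 1) ∣ k - l →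
      p ^ (b + 1) ∣ κ → ¬ (1 ≤ p ^ (b + 1) % (k + l) ∧ p ^ (b + 1) % (k + l) ≤ p ^ b))
    (A : Finset G) (hA : SF k l A) :
    ∃ B : Finset (ZMod κ), SF k l B ∧ A.card * κ ≤ B.card * Fintype.card G := by
  rcases A.eq_empty_or_nonempty with rfl | hAn
  · exact ⟨∅, sf_empty k l (by omega), by simp⟩
  obtain ⟨a, ha⟩ : ∃ a, k = a + 2 := ⟨k - 2, by omega⟩
  obtain ⟨b, hb⟩ : ∃ b, l = b + 1 := ⟨l - 1, by omega⟩
  have h0 : (0 : G) ∉ A + R (a + 1) (b + 1) A := by
    rw [← R_succ_left]
    rw [ha, hb, sf_iff_R] at hA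
    exact hA
  have hk := kneser_R1 (a + 1) (b + 1) A A hAn hAn h0
  set S := A + R (a + 1) (b + 1) A with hS
  obtain ⟨Y, i1, i2, i3, f, hsurj, hker, hnice⟩ := exists_quot (stab S)
  rw [card_stab] at hnice
  have hker' : ∀ x, f x = 0 ↔ x ∈ st S := hker
  have h1 : 1 ≤ (st S).card := hnice.pos
  have hcardG := hnice.card
  have hYk := killed_of_surj κ f hsurj hG
  have hAle : A.card ≤ (A.image f).card * (st S).card := by
    rw [← card_add_ker hnice _ hker']
    exact card_le_card_add_right ⟨0, zero_mem_st _⟩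
  rw [card_add_ker hnice _ hker', hcardG] at hk
  have hk2 : ((k + l) * (A.image f).card) * (st S).card ≤
      (Fintype.card Y + (k + l - 2)) * (st S).card := by
    have e : k + l - 2 = a + b + 1 := by omega
    rw [e, ha, hb]
    linarith
  have hk3 := Nat.le_of_mul_le_mul_right hk2 h1
  have hA' : SF k l (A.image f) := by
    rw [sf_iff_R, ← image_R, mem_image]
    rintro ⟨x, hx, hx0⟩
    apply h0
    have hxS : x ∈ S := by
      rw [hS, ← R_succ_left, ← ha, ← hb]; exact hx
    have := (mem_st _ _).mp (neg_mem_st _ _ ((hker' x).mp hx0)) x hxS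
    rwa [neg_add_cancel] at this
  have hA'n : 1 ≤ (A.image f).card := (hAn.image f).card_pos
  have hκ'dvd : AddMonoid.exponent Y ∣ κ :=
    AddMonoid.exponent_dvd_of_forall_nsmul_eq_zero hYk
  set κ' := AddMonoid.exponent Y with hκ'
  have hκ'card : κ' ∣ Fintype.card Y := by
    rw [← Nat.card_eq_fintype_card]
    exact AddGroup.exponent_dvd_nat_card
  by_cases hall : ∀ d, d ∣ κ' → 1 ≤ d % (k + l) ∧ d % (k + l) ≤ Nat.gcd d (k - l)
  · -- the pure case
    have hpure := pure_part κ κ' (k - l) (k + l) (NeZero.ne κ) hκ'dvd (by omega) (by omega)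
      hbad hall
    have hgcd : Nat.gcd κ' (k - l) ∣ κ' := Nat.gcd_dvd_left _ _
    set κ₂ := κ' / Nat.gcd κ' (k - l) with hκ₂
    have hmul : Nat.gcd κ' (k - l) * κ₂ = κ' := Nat.mul_div_cancel' hgcd
    have hmb := mixed_bound Y k l (Nat.gcd κ' (k - l)) κ₂ hl hlk hs hpure
      (Nat.gcd_dvd_right _ _) (by
        intro x
        rw [hmul, hκ']
        exact AddMonoid.exponent_nsmul_eq_zero x) (A.image f) hA'
    have hmod := mod_one_of_primes (k + l) (by omega) κ₂ hpure.ne hpure.pr
    obtain ⟨c, hc⟩ : ∃ c, κ₂ = (k + l) * c + 1 := by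
      refine ⟨κ₂ / (k + l), ?_⟩
      have := Nat.div_add_mod κ₂ (k + l)
      omega
    have hb2 : κ₂ * (A.image f).card ≤ c * Fintype.card Y := by
      have h2 : (k + l) * (κ₂ * (A.image f).card) ≤ (k + l) * (c * Fintype.card Y) := by
        have e1 : κ₂ * Fintype.card Y = (k + l) * (c * Fintype.card Y) + Fintype.card Y := by
          rw [hc]; ring
        rw [e1] at hmb
        have e2 : (k + l) * (κ₂ * (A.image f).card) = (k + l) * κ₂ * (A.image f).card := by ring
        omega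
      exact Nat.le_of_mul_le_mul_left h2 (by omega)
    have hc0 : c ≠ 0 := by
      rintro rfl
      rw [zero_mul] at hb2
      have h2 : 1 ≤ κ₂ * (A.image f).card :=
        Nat.mul_pos (Nat.pos_of_ne_zero hpure.ne) hA'n
      omega
    obtain ⟨c', hc'⟩ : ∃ c', c = c' + 1 := ⟨c - 1, by omega⟩
    have hcop : Nat.gcd κ₂ (k - l) = 1 := by
      by_contra hg
      obtain ⟨r, hr, hrg⟩ := Nat.exists_prime_and_dvd hg
      have h5 := hpure.pr r hr (hrg.trans (Nat.gcd_dvd_left _ _))
      have h6 := Nat.le_of_dvd (by omega) (hrg.trans (Nat.gcd_dvd_right _ _))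
      rw [Nat.mod_eq_of_lt (by omega)] at h5
      rw [h5] at hr
      exact Nat.not_prime_one hr
    have hκ₂dvd : κ₂ ∣ κ := (Dvd.intro_left _ hmul).trans hκ'dvd
    obtain ⟨B, hB, hBc⟩ := interval_pull κ κ₂ k l c' hlk hκ₂dvd (by
      rw [hcop, hc, hc']
      have : (k + l) * (c' + 1) = (k + l) * c' + (k + l) := by ring
      omega)
    refine ⟨B, hB, ?_⟩
    rw [← hc'] at hBc
    have h5 : (A.card * κ) * κ₂ ≤ (B.card * Fintype.card G) * κ₂ := by
      calc (A.card * κ) * κ₂ ≤ (((A.image f).card * (st S).card) * κ) * κ₂ :=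
            Nat.mul_le_mul_right _ (Nat.mul_le_mul_right _ hAle)
        _ = (κ₂ * (A.image f).card) * ((st S).card * κ) := by ring
        _ ≤ (c * Fintype.card Y) * ((st S).card * κ) := Nat.mul_le_mul_right _ hb2
        _ = (c * κ) * (Fintype.card Y * (st S).card) := by ring
        _ = (B.card * κ₂) * Fintype.card G := by rw [hBc, hcardG]
        _ = (B.card * Fintype.card G) * κ₂ := by ring
    exact Nat.le_of_mul_le_mul_right h5 (Nat.pos_of_ne_zero hpure.ne)
  · -- a divisor `d` of `κ'` with a good residue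
    push Not at hall
    obtain ⟨d, hd, hdr⟩ := hall
    have hd0 : 0 < d := Nat.pos_of_ne_zero (fun h => by
      rw [h] at hd
      exact NeZero.ne κ (zero_dvd_iff.mp (hd.trans hκ'dvd)))
    have hδ : Nat.gcd d (k - l) ≤ k - l := Nat.le_of_dvd (by omega) (Nat.gcd_dvd_right _ _)
    obtain ⟨j, r, hdm, hrlt, hdr'⟩ : ∃ j r, d = (k + l) * j + r ∧ r < k + l ∧
        (1 ≤ r → Nat.gcd d (k - l) < r) :=
      ⟨d / (k + l), d % (k + l), (Nat.div_add_mod d (k + l)).symm,
        Nat.mod_lt d (by omega), hdr⟩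
    obtain ⟨m, hm1, hm2⟩ : ∃ m, (k + l) * m + 1 + Nat.gcd d (k - l) ≤ d ∧
        d ≤ (k + l) * (m + 1) := by
      by_cases hr : 1 ≤ r
      · refine ⟨j, ?_, ?_⟩
        · have := hdr' hr
          omega
        · rw [mul_add]; omega
      · have hr0 : r = 0 := by omega
        rcases Nat.eq_zero_or_pos j with hj | hj
        · rw [hj, hr0] at hdm
          omega
        · obtain ⟨j', hj'⟩ : ∃ j', j = j' + 1 := ⟨j - 1, by omega⟩
          rw [hj', hr0, mul_add] at hdm
          refine ⟨j', by omega, ?_⟩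
          rw [mul_add]; omega
    obtain ⟨t, ht⟩ := hd.trans hκ'card
    obtain ⟨B, hB, hBc⟩ := interval_pull κ d k l m hlk (hd.trans hκ'dvd) hm1
    refine ⟨B, hB, ?_⟩
    have hAt : (A.image f).card ≤ (m + 1) * t := by
      by_contra hcon
      have h2 : (m + 1) * t + 1 ≤ (A.image f).card := by omega
      have h3 := Nat.mul_le_mul_left (k + l) h2
      have h4 : d * t ≤ (k + l) * (m + 1) * t := Nat.mul_le_mul_right _ hm2
      have e : (k + l) * ((m + 1) * t + 1) = (k + l) * (m + 1) * t + (k + l) := by ring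
      rw [e] at h3
      rw [ht] at hk3
      omega
    have h5 : (A.card * κ) * d ≤ (B.card * Fintype.card G) * d := by
      calc (A.card * κ) * d ≤ (((A.image f).card * (st S).card) * κ) * d :=
            Nat.mul_le_mul_right _ (Nat.mul_le_mul_right _ hAle)
        _ = (A.image f).card * ((st S).card * κ * d) := by ring
        _ ≤ ((m + 1) * t) * ((st S).card * κ * d) := Nat.mul_le_mul_right _ hAt
        _ = ((m + 1) * κ) * (d * t * (st S).card) := by ring
        _ = (B.card * d) * Fintype.card G := by rw [hBc, hcardG, ht]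
        _ = (B.card * Fintype.card G) * d := by ring
    exact Nat.le_of_mul_le_mul_right h5 hd0

end Pool.Agent.H59.KG
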