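import Mathlib
import Pool.Agent.H59.KG10

set_option autoImplicit false

open Finset Pointwise

namespace Pool.Agent.H59.KM

open Pool.Agent.H59.Kneser
open Pool.Agent.H59.KG
open Pool.Agent.H59.KL (SF)

/-- The largest size of a `(k,l)`-sum-free subset of `ZMod d`. -/
noncomputable def mz (k l d : ℕ) : ℕ :=
  sSup {m | ∃ B : Finset (ZMod d), SF k l B ∧ B.card = m}

section mz

variable (k l : ℕ)

lemma mz_bdd (d : ℕ) (hd : d ≠ 0) : BddAbove {m | ∃ B : Finset (ZMod d), SF k l B ∧ B.card = m} := by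
  have : NeZero d := ⟨hd⟩
  refine ⟨d, ?_⟩
  rintro m ⟨B, _, rfl⟩
  have := card_le_univ B
  rwa [ZMod.card] at this

lemma le_mz (d : ℕ) (hd : d ≠ 0) (B : Finset (ZMod d)) (hB : SF k l B) : B.card ≤ mz k l d :=
  le_csSup (mz_bdd k l d hd) ⟨B, hB, rfl⟩

lemma exists_mz (hk : 0 < k) (d : ℕ) (hd : d ≠ 0) :
    ∃ B : Finset (ZMod d), SF k l B ∧ B.card = mz k l d := by
  have h := Nat.sSup_mem (s := {m | ∃ B : Finset (ZMod d), SF k l B ∧ B.card = m})
    ⟨0, ∅, sf_empty k l hk, card_empty⟩ (mz_bdd k l d hd)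
  exact h

lemma mz_mono (hk : 0 < k) (d κ : ℕ) (hκ : κ ≠ 0) (hd : d ∣ κ) :
    mz k l d * κ ≤ mz k l κ * d := by
  have hd0 : d ≠ 0 := fun h => hκ (by rw [h] at hd; exact zero_dvd_iff.mp hd)
  have : NeZero d := ⟨hd0⟩
  have : NeZero κ := ⟨hκ⟩
  obtain ⟨B, hB, hBc⟩ := exists_mz k l hk d hd0
  obtain ⟨A, hA, hAc⟩ := pull (ZMod.castHom hd (ZMod d)).toAddMonoidHom
    (ZMod.castHom_surjective hd) k l B hB
  rw [ZMod.card, ZMod.card, hBc] at hAc
  rw [← hAc]
  exact Nat.mul_le_mul_right _ (le_mz k l κ hκ A hA)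

/-- An interval is sum-free, exact form. -/
lemma mz_interval (d m u : ℕ) (hlk : l < k) (h1 : l * m < Nat.gcd d (k - l) * u)
    (h2 : Nat.gcd d (k - l) * u + k * m < d) : m + 1 ≤ mz k l d := by
  have hd0 : 0 < d := by omega
  set g := Nat.gcd d (k - l) with hg
  have hg0 : 0 < g := Nat.gcd_pos_of_pos_left _ hd0
  -- solve `(k - l) c = g u`
  obtain ⟨c, hc⟩ : ∃ c : ZMod d, ((k : ZMod d) - l) * c = ((g * u : ℕ) : ZMod d) := by
    have hb := Nat.gcd_eq_gcd_ab d (k - l)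
    refine ⟨(Nat.gcdB d (k - l) : ZMod d) * (u : ZMod d), ?_⟩
    have h1 : ((Nat.gcd d (k - l) : ℤ) : ZMod d) = ((k : ZMod d) - l) * (Nat.gcdB d (k - l)) := by
      rw [hb]
      push_cast
      rw [Nat.cast_sub hlk.le]
      simp
    have h2 : ((g : ℕ) : ZMod d) = ((k : ZMod d) - l) * (Nat.gcdB d (k - l)) := by
      rw [← h1, hg]; simp
    rw [Nat.cast_mul, h2]
    ring
  have hcard : ((range (m + 1)).image (fun i : ℕ => c + (i : ZMod d))).card = m + 1 := by
    have h5 : m < d := by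
      have h7 : m * 1 ≤ m * k := Nat.mul_le_mul_left _ (by omega)
      have h8 : m * k = k * m := mul_comm _ _
      omega
    rw [card_image_of_injOn, card_range]
    intro i hi j hj hij
    have h6 : (i : ZMod d) = (j : ZMod d) := by simpa using hij
    rw [ZMod.natCast_eq_natCast_iff] at h6
    rw [coe_range, Set.mem_Iio] at hi hj
    exact Nat.ModEq.eq_of_lt_of_lt h6 (by omega) (by omega)
  rw [← hcard]
  apply le_mz k l d (by omega)
  intro P Q hP hQ hPA hQA hs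
  obtain ⟨I, hI, hIs⟩ := list_interval d c m P hPA
  obtain ⟨J, hJ, hJs⟩ := list_interval d c m Q hQA
  rw [hIs, hJs, hP, hQ] at hs
  rw [hP] at hI
  rw [hQ] at hJ
  have h1 : ((g * u + I : ℕ) : ZMod d) = (J : ZMod d) := by
    rw [Nat.cast_add, ← hc]
    linear_combination hs
  rw [ZMod.natCast_eq_natCast_iff] at h1
  have h2 := (Nat.modEq_iff_dvd' (by omega : J ≤ g * u + I)).mp h1.symm
  have h3 := Nat.le_of_dvd (by omega) h2
  omega

lemma mz_interval' (d m : ℕ) (hlk : l < k) (h : (k + l) * m + 1 + Nat.gcd d (k - l) ≤ d) :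
    m + 1 ≤ mz k l d := by
  have hd0 : 0 < d := by omega
  set g := Nat.gcd d (k - l) with hg
  have hg0 : 0 < g := Nat.gcd_pos_of_pos_left _ hd0
  have hu1 : l * m < g * ((l * m) / g + 1) := Nat.lt_mul_div_succ _ hg0
  have hu2 : g * ((l * m) / g + 1) ≤ l * m + g := by
    rw [mul_add, mul_one]
    have := Nat.mul_div_le (l * m) g
    omega
  apply mz_interval k l d m ((l * m) / g + 1) hlk hu1
  have h4 : (k + l) * m = k * m + l * m := by ring
  rw [← hg]
  omega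

/-- A modulus with a good residue. -/
lemma mz_good (d : ℕ) (hd0 : 0 < d) (hl : 0 < l) (hlk : l < k)
    (h : ¬ (1 ≤ d % (k + l) ∧ d % (k + l) ≤ Nat.gcd d (k - l))) :
    d ≤ (k + l) * mz k l d := by
  have hδ : Nat.gcd d (k - l) ≤ k - l := Nat.le_of_dvd (by omega) (Nat.gcd_dvd_right _ _)
  obtain ⟨j, r, hdm, hrlt, hdr'⟩ : ∃ j r, d = (k + l) * j + r ∧ r < k + l ∧
      (1 ≤ r → Nat.gcd d (k - l) < r) :=
    ⟨d / (k + l), d % (k + l), (Nat.div_add_mod d (k + l)).symm,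
      Nat.mod_lt d (by omega), by
        intro h1
        by_contra h2
        exact h ⟨h1, by omega⟩⟩
  obtain ⟨m, hm1, hm2⟩ : ∃ m, (k + l) * m + 1 + Nat.gcd d (k - l) ≤ d ∧
      d ≤ (k + l) * (m + 1) := by
    by_cases hr : 1 ≤ r
    · refine ⟨j, ?_, ?_⟩
      · have := hdr' hr
        omega
      · rw [mul_add]; omega
    · have hr0 : r = 0 := by omega
      rcases Nat.eq_zero_or_pos j with hj | hj
      · rw [hj, hr0] at hdm
        omega
      · obtain ⟨j', hj'⟩ : ∃ j', j = j' + 1 := ⟨j - 1, by omega⟩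
        rw [hj', hr0, mul_add] at hdm
        refine ⟨j', by omega, ?_⟩
        rw [mul_add]; omega
  have := mz_interval' k l d m hlk hm1
  exact hm2.trans (Nat.mul_le_mul_left _ this)

/-- The lower bound `⌊d / (k + l)⌋`. -/
lemma mz_floor (d : ℕ) (hl : 0 < l) (hlk : l < k) : d / (k + l) ≤ mz k l d := by
  rcases Nat.eq_zero_or_pos (d / (k + l)) with h | h
  · omega
  · obtain ⟨m, hm⟩ : ∃ m, d / (k + l) = m + 1 := ⟨d / (k + l) - 1, by omega⟩
    rw [hm]
    have h1 := Nat.mul_div_le d (k + l)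
    rw [hm] at h1
    have h2 : 0 < d := by
      rcases Nat.eq_zero_or_pos d with h0 | h0
      · rw [h0] at h; simp at h
      · exact h0
    have hδ : Nat.gcd d (k - l) ≤ k - l := Nat.le_of_dvd (by omega) (Nat.gcd_dvd_right _ _)
    apply mz_interval' k l d m hlk
    rw [mul_add, mul_one] at h1
    omega

end mz

/-- All divisors of `κ` are bad. -/
def AB (k l κ : ℕ) : Prop := ∀ d, d ∣ κ → (k + l) * mz k l d < d

lemma AB.ne (k l κ : ℕ) (h : AB k l κ) : κ ≠ 0 := by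
  rintro rfl
  have := h 0 dvd_rfl
  omega

lemma AB.of_dvd (k l κ d : ℕ) (h : AB k l κ) (hd : d ∣ κ) : AB k l d :=
  fun d' hd' => h d' (hd'.trans hd)

/-- The residues of the divisors. -/
lemma AB.res (k l κ : ℕ) (hl : 0 < l) (hlk : l < k) (h : AB k l κ) (d : ℕ) (hd : d ∣ κ) :
    1 ≤ d % (k + l) ∧ d % (k + l) ≤ Nat.gcd d (k - l) := by
  by_contra hcon
  have h1 := h d hd
  have hd0 : 0 < d := by omega
  have h2 := mz_good k l d hd0 hl hlk hcon
  omega

lemma AB.div_pos (k l κ : ℕ) (hl : 0 < l) (hlk : l < k) (h : AB k l κ) (d : ℕ) (hd : d ∣ κ)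
    (hdg : ¬ d ∣ k - l) : 1 ≤ d / (k + l) := by
  obtain ⟨h1, h2⟩ := h.res k l κ hl hlk d hd
  by_contra hcon
  have h3 : d / (k + l) = 0 := by
    rcases Nat.eq_zero_or_pos (d / (k + l)) with h | h
    · exact h
    · exact absurd h hcon
  have h4 := Nat.div_add_mod d (k + l)
  rw [h3, mul_zero, zero_add] at h4
  rw [h4] at h2
  have h5 : Nat.gcd d (k - l) = d := le_antisymm
    (Nat.le_of_dvd (by omega) (Nat.gcd_dvd_left _ _)) h2
  exact hdg (by rw [← h5]; exact Nat.gcd_dvd_right _ _)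

/-- The criterion used to exclude periodic sums. -/
def Crit (k l κ t : ℕ) : Prop := ∀ d, d ∣ κ → ¬ d ∣ k - l → d ≤ 2 * t * mz k l d

lemma Crit.mono (k l κ t t' : ℕ) (h : Crit k l κ t) (htt : t ≤ t') : Crit k l κ t' := by
  intro d hd hdg
  have h1 := h d hd hdg
  have h2 : 2 * t * mz k l d ≤ 2 * t' * mz k l d :=
    Nat.mul_le_mul_right _ (Nat.mul_le_mul_left _ htt)
  omega

/-- The criterion with `t = k + l - 1`. -/
lemma AB.crit (k l κ : ℕ) (hl : 0 < l) (hlk : l < k) (h : AB k l κ) :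
    Crit k l κ (k + l - 1) := by
  intro d hd hdg
  obtain ⟨h1, h2⟩ := h.res k l κ hl hlk d hd
  have h3 := h.div_pos k l κ hl hlk d hd hdg
  have h4 := mz_floor k l d hl hlk
  have h5 := Nat.div_add_mod d (k + l)
  have hδ : Nat.gcd d (k - l) ≤ k - l := Nat.le_of_dvd (by omega) (Nat.gcd_dvd_right _ _)
  have h6 : 2 * (k + l - 1) * (d / (k + l)) ≤ 2 * (k + l - 1) * mz k l d :=
    Nat.mul_le_mul_left _ h4
  obtain ⟨c, hc⟩ : ∃ c, k + l = c + 2 := ⟨k + l - 2, by omega⟩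
  have e : 2 * (k + l - 1) = (k + l) + c := by omega
  have h7 : 2 * (k + l - 1) * (d / (k + l)) = (k + l) * (d / (k + l)) + c * (d / (k + l)) := by
    rw [e]; ring
  have h8 : c * 1 ≤ c * (d / (k + l)) := Nat.mul_le_mul_left _ h3
  omega

end Pool.Agent.H59.KM
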