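import Mathlib
import Pool.Agent.H59.KM1

set_option autoImplicit false

open Finset Pointwise

namespace Pool.Agent.H59.KM

open Pool.Agent.H59.Kneser
open Pool.Agent.H59.KG
open Pool.Agent.H59.KL (SF)

section rr

variable {X : Type*} [AddCommGroup X] [DecidableEq X]

lemma R_eq (m n : ℕ) (W : Finset X) : R m n W = m • W + n • (-W) := by
  rw [R, List.sum_append, List.sum_replicate, List.sum_replicate]

lemma R_add (m n m' n' : ℕ) (W : Finset X) : R m n W + R m' n' W = R (m + m') (n + n') W := by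
  rw [R_eq, R_eq, R_eq, add_nsmul, add_nsmul]
  abel

end rr

section mv

variable {X : Type} [AddCommGroup X] [Fintype X] [DecidableEq X]

/-- A minimal violation of the inequality for pairs. -/
structure MV (a b κ : ℕ) (V W : Finset X) : Prop where
  sub : V ⊆ W
  ne : V.Nonempty
  noz : NoZ a b V W
  big : 2 * mz (a + 2) (b + 1) κ * Fintype.card X < κ * (V.card + W.card)
  kill : ∀ x : X, κ • x = 0
  ih : ∀ (Y : Type) [AddCommGroup Y] [Fintype Y] [DecidableEq Y], (∀ y : Y, κ • y = 0) →
    Fintype.card Y < Fintype.card X → ∀ V W : Finset Y, V ⊆ W → V.Nonempty → NoZ a b V W →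
    κ * (V.card + W.card) ≤ 2 * mz (a + 2) (b + 1) κ * Fintype.card Y

variable {a b κ : ℕ} {V W : Finset X}

lemma MV.W_ne (h : MV a b κ V W) : W.Nonempty := h.ne.mono h.sub

/-- The image of `W` in a proper quotient is large. -/
lemma MV.flat (h : MV a b κ V W) {Y : Type} [AddCommGroup Y] [Fintype Y] [DecidableEq Y]
    (f : X →+ Y) (hs : Function.Surjective f) (n : ℕ) (hf : Nice f n) (hn : 2 ≤ n) :
    2 * mz (a + 2) (b + 1) κ * Fintype.card Y < κ * (W.image f).card := by
  by_contra hflat
  push Not at hflat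
  have hYk := killed_of_surj κ f hs h.kill
  have hYpos : 0 < Fintype.card Y := Fintype.card_pos
  have hYlt : Fintype.card Y < Fintype.card X := by
    rw [hf.card]
    nlinarith
  have key : ∀ θ ∈ Icc 1 n, κ * ((lev f V θ).card + (lev f W (n + 1 - θ)).card) ≤
      2 * mz (a + 2) (b + 1) κ * Fintype.card Y := by
    intro θ hθ
    rw [mem_Icc] at hθ
    have hj : 1 ≤ n + 1 - θ := by omega
    have hc := card_union_add_card_inter (lev f V θ) (lev f W (n + 1 - θ))
    rcases (lev f V θ ∩ lev f W (n + 1 - θ)).eq_empty_or_nonempty with he | hne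
    · rw [he, card_empty, add_zero] at hc
      rw [← hc]
      have hsub : lev f V θ ∪ lev f W (n + 1 - θ) ⊆ W.image f := by
        rw [← lev_one]
        exact union_subset (lev_mono f h.sub hθ.1) (lev_mono f subset_rfl hj)
      exact (Nat.mul_le_mul_left _ (card_le_card hsub)).trans hflat
    · have h1 := h.ih Y hYk hYlt _ _ (inter_subset_union) hne
        (noz_round hf a b V W h.sub h.noz θ (n + 1 - θ) hθ.1 hj (by omega))
      have h2 : (lev f V θ).card + (lev f W (n + 1 - θ)).card =
        (lev f V θ ∩ lev f W (n + 1 - θ)).card + (lev f V θ ∪ lev f W (n + 1 - θ)).card := by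
        omega
      rw [h2]
      exact h1
  have hs := sum_le_sum key
  rw [← mul_sum, sum_add_distrib, sum_lev f V n (hf.fib_le V),
    sum_reflect n (fun j => (lev f W j).card), sum_lev f W n (hf.fib_le W), sum_const,
    Nat.card_Icc, smul_eq_mul, Nat.add_sub_cancel] at hs
  have hb := h.big
  rw [hf.card] at hb
  have e1 : n * (2 * mz (a + 2) (b + 1) κ * Fintype.card Y) =
      2 * mz (a + 2) (b + 1) κ * (Fintype.card Y * n) := by ring
  omega

/-- The integral form. -/
lemma MV.flatd (h : MV a b κ V W) {Y : Type} [AddCommGroup Y] [Fintype Y] [DecidableEq Y]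
    (f : X →+ Y) (hs : Function.Surjective f) (n : ℕ) (hf : Nice f n) (hn : 2 ≤ n)
    (hκ : κ ≠ 0) (d z : ℕ) (hd : d ∣ κ) (hz : Fintype.card Y = d * z) :
    2 * mz (a + 2) (b + 1) d * z + 1 ≤ (W.image f).card := by
  have h1 := h.flat f hs n hf hn
  have h2 := mz_mono (a + 2) (b + 1) (by omega) d κ hκ hd
  have h3 : κ * (2 * mz (a + 2) (b + 1) d * z) < κ * (W.image f).card := by
    refine lt_of_le_of_lt ?_ h1
    rw [hz]
    calc κ * (2 * mz (a + 2) (b + 1) d * z) = 2 * z * (mz (a + 2) (b + 1) d * κ) := by ring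
      _ ≤ 2 * z * (mz (a + 2) (b + 1) κ * d) := Nat.mul_le_mul_left _ h2
      _ = 2 * mz (a + 2) (b + 1) κ * (d * z) := by ring
  exact Nat.lt_of_mul_lt_mul_left h3

/-- The same bound upstairs for `V` and `W` together. -/
lemma MV.bigd (h : MV a b κ V W) (hκ : κ ≠ 0) (d z : ℕ) (hd : d ∣ κ)
    (hz : Fintype.card X = d * z) :
    2 * mz (a + 2) (b + 1) d * z + 1 ≤ V.card + W.card := by
  have h1 := h.big
  have h2 := mz_mono (a + 2) (b + 1) (by omega) d κ hκ hd
  have h3 : κ * (2 * mz (a + 2) (b + 1) d * z) < κ * (V.card + W.card) := by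
    refine lt_of_le_of_lt ?_ h1
    rw [hz]
    calc κ * (2 * mz (a + 2) (b + 1) d * z) = 2 * z * (mz (a + 2) (b + 1) d * κ) := by ring
      _ ≤ 2 * z * (mz (a + 2) (b + 1) κ * d) := Nat.mul_le_mul_left _ h2
      _ = 2 * mz (a + 2) (b + 1) κ * (d * z) := by ring
  exact Nat.lt_of_mul_lt_mul_left h3

lemma MV.W_le (h : MV a b κ V W) : V.card ≤ W.card := card_le_card h.sub

/-- The trivial solution. -/
lemma triv_sol {Y : Type*} [AddCommGroup Y] [DecidableEq Y] (φ : X →+ Y) (hVW : V ⊆ W)
    (hV : V.Nonempty) (hba : b ≤ a) (w : X) (hw : w ∈ W) (c : ℕ) (hc : c ≤ a + 1)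
    (hg : (a + 1 - b) • φ w = 0) :
    ∃ x ∈ V + R (a + 1 - c) (b + 1) W, φ x = -(c • φ w) := by
  obtain ⟨v, hv⟩ := hV
  refine ⟨v + ((a + 1 - c) • w - (v + b • w)), ?_, ?_⟩
  · rw [mem_add]
    refine ⟨v, hv, _, ?_, rfl⟩
    rw [mem_R]
    refine ⟨List.replicate (a + 1 - c) w, v :: List.replicate b w, by simp, by simp, ?_, ?_,
      by simp⟩
    · intro z hz
      rw [List.mem_replicate] at hz
      rw [hz.2]; exact hw
    · intro z hz
      rw [List.mem_cons, List.mem_replicate] at hz
      rcases hz with rfl | hz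
      · exact hVW hv
      · rw [hz.2]; exact hw
  · have h1 : v + ((a + 1 - c) • w - (v + b • w)) = (a + 1 - c) • w - b • w := by abel
    rw [h1, map_sub, map_nsmul, map_nsmul]
    have h2 : (a + 1 - c) • φ w + c • φ w = b • φ w := by
      rw [← add_nsmul]
      have e : a + 1 - c + c = (a + 1 - b) + b := by omega
      rw [e, add_nsmul, hg, zero_add]
    rw [sub_eq_iff_eq_add, ← h2]
    abel

/-- No element of `W` is killed by `k - l`. -/
lemma MV.gw (h : MV a b κ V W) (hba : b ≤ a) (w : X) (hw : w ∈ W) : (a + 1 - b) • w ≠ 0 := by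
  intro hg
  obtain ⟨x, hx, hx0⟩ := triv_sol (AddMonoidHom.id X) h.sub h.ne hba w hw 0 (by omega) hg
  simp only [AddMonoidHom.id_apply, zero_smul, neg_zero] at hx0
  apply h.noz.1
  rw [← hx0]
  simpa using hx

/-- Kneser's theorem for `V + (U + R m n W)`. -/
lemma kneser_gen (m n : ℕ) (V U W : Finset X) (hV : V.Nonempty) (hU : U.Nonempty)
    (hW : W.Nonempty) (S : Finset X) (hS : S = V + (U + R m n W)) :
    (V + st S).card + (U + st S).card + (m + n) * (W + st S).card ≤
      S.card + (m + n + 1) * (st S).card := by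
  have h1 := kneser_list _ (V :: U :: (List.replicate m W ++ List.replicate n (-W))) rfl (by simp)
    (by
      intro Z hZ
      simp only [List.mem_cons, List.mem_append, List.mem_replicate] at hZ
      rcases hZ with rfl | rfl | ⟨_, rfl⟩ | ⟨_, rfl⟩
      · exact hV
      · exact hU
      · exact hW
      · exact hW.neg)
  rw [List.map_cons, List.sum_cons, List.map_cons, List.sum_cons, List.sum_cons, List.sum_cons,
    List.length_cons, List.length_cons, List.length_append,
    List.length_replicate, List.length_replicate, sum_replicate_map] at h1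
  have hS' : V + (U + (List.replicate m W ++ List.replicate n (-W)).sum) = S := hS.symm
  rw [hS'] at h1
  have e : (m + n + 1 + 1) * (st S).card = (m + n + 1) * (st S).card + (st S).card := by ring
  rw [e] at h1
  omega

lemma card_add_st_le (S : Finset X) (x : X) (hx : x ∉ S) :
    S.card + (st S).card ≤ Fintype.card X := by
  have hinj : ((st S).image (fun z => x + z)).card = (st S).card :=
    card_image_of_injective _ (fun u v huv => add_left_cancel huv)
  rw [← hinj, ← card_univ, ← card_union_of_disjoint]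
  · exact card_le_card (subset_univ _)
  · rw [Finset.disjoint_left]
    intro u hu hu'
    rw [mem_image] at hu'
    obtain ⟨z, hz, rfl⟩ := hu'
    apply hx
    have := (mem_st _ _).mp (neg_mem_st _ _ hz) _ hu
    have e : -z + (x + z) = x := by abel
    rwa [e] at this

/-- The periodic case of a partial sum. -/
lemma MV.period (h : MV a b κ V W) (hba : b ≤ a) (w : X) (hw : w ∈ W) (c : ℕ)
    (hc : c ≤ a + 1) (U T : Finset X) (hU0 : (0 : X) ∈ U)
    (hT : T = V + (U + R (a + 1 - c) (b + 1) W)) (hUT : U ⊆ st T) (h0 : -(c • w) ∉ T) :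
    ∃ (Y : Type) (_ : AddCommGroup Y) (_ : Fintype Y) (_ : DecidableEq Y) (f : X →+ Y),
      Function.Surjective f ∧ (∀ x, f x = 0 ↔ x ∈ st T) ∧ Nice f (st T).card ∧
      (∃ y : Y, (a + 1 - b) • y ≠ 0) ∧
      (a + b + 2 - c) * (W.image f).card + 2 ≤ Fintype.card Y + (a + b + 2 - c) := by
  obtain ⟨Y, i1, i2, i3, f, hsurj, hker, hnice⟩ := exists_quot (stab T)
  rw [card_stab] at hnice
  have hker' : ∀ x, f x = 0 ↔ x ∈ st T := hker
  refine ⟨Y, i1, i2, i3, f, hsurj, hker', hnice, ?_, ?_⟩
  · by_contra hcon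
    push Not at hcon
    obtain ⟨x, hx, hxf⟩ := triv_sol f h.sub h.ne hba w hw c hc (hcon _)
    have hxT : x ∈ T := by
      rw [hT]
      rw [mem_add] at hx ⊢
      obtain ⟨v, hv, r, hr, rfl⟩ := hx
      exact ⟨v, hv, r, by rw [mem_add]; exact ⟨0, hU0, r, hr, zero_add _⟩, rfl⟩
    have h1 : x + c • w ∈ st T := by
      rw [← hker', map_add, hxf, map_nsmul]; abel
    have h2 := (mem_st _ _).mp (neg_mem_st _ _ h1) x hxT
    apply h0
    have e : -(x + c • w) + x = -(c • w) := by abel
    rwa [e] at h2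
  · have hk := kneser_gen (a + 1 - c) (b + 1) V U W h.ne ⟨0, hU0⟩ h.W_ne T hT
    have hk2 := card_add_st_le T _ h0
    have hU1 : (st T).card ≤ (U + st T).card := by
      apply card_le_card
      intro z hz
      rw [mem_add]
      exact ⟨0, hU0, z, hz, zero_add _⟩
    have e : a + 1 - c + (b + 1) = a + b + 2 - c := by omega
    rw [e] at hk
    rw [card_add_ker hnice _ hker'] at hk
    rw [card_add_ker hnice _ hker'] at hk
    rw [hnice.card] at hk2
    have hV1 : 1 ≤ (V.image f).card := (h.ne.image f).card_pos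
    have hs1 : 1 ≤ (st T).card := hnice.pos
    rw [card_add_ker hnice _ hker'] at hU1 hk
    have h3 : ((a + b + 2 - c) * (W.image f).card + 2) * (st T).card ≤
        (Fintype.card Y + (a + b + 2 - c)) * (st T).card := by
      have h4 : 1 * (st T).card ≤ (V.image f).card * (st T).card := Nat.mul_le_mul_right _ hV1
      linarith
    exact Nat.le_of_mul_le_mul_right h3 hs1

/-- The criterion gives a contradiction. -/
lemma MV.crit (h : MV a b κ V W) (hba : b ≤ a) (hκ : κ ≠ 0) (t : ℕ)
    (hcrit : Crit (a + 2) (b + 1) κ t) {Y : Type} [AddCommGroup Y] [Fintype Y] [DecidableEq Y]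
    (f : X →+ Y) (hs : Function.Surjective f) (n : ℕ) (hf : Nice f n) (hn : 2 ≤ n)
    (hg : ∃ y : Y, (a + 1 - b) • y ≠ 0)
    (hle : t * (W.image f).card + 2 ≤ Fintype.card Y + t) : False := by
  have hYk := killed_of_surj κ f hs h.kill
  have hd : AddMonoid.exponent Y ∣ κ := AddMonoid.exponent_dvd_of_forall_nsmul_eq_zero hYk
  have hdc : AddMonoid.exponent Y ∣ Fintype.card Y := by
    rw [← Nat.card_eq_fintype_card]
    exact AddGroup.exponent_dvd_nat_card
  obtain ⟨z, hz⟩ := hdc
  have hdg : ¬ AddMonoid.exponent Y ∣ (a + 2) - (b + 1) := by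
    intro hcon
    obtain ⟨y, hy⟩ := hg
    apply hy
    have e : a + 1 - b = (a + 2) - (b + 1) := by omega
    rw [e]
    exact AddMonoid.exponent_dvd_iff_forall_nsmul_eq_zero.mp hcon y
  have h1 := hcrit _ hd hdg
  have h2 := h.flatd f hs n hf hn hκ _ z hd hz
  have h3 : AddMonoid.exponent Y * z ≤ (2 * t * mz (a + 2) (b + 1) (AddMonoid.exponent Y)) * z :=
    Nat.mul_le_mul_right _ h1
  have h4 := Nat.mul_le_mul_left t h2
  rw [hz] at hle
  have e : t * (2 * mz (a + 2) (b + 1) (AddMonoid.exponent Y) * z + 1) =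
    (2 * t * mz (a + 2) (b + 1) (AddMonoid.exponent Y)) * z + t := by ring
  omega

/-- The full sum has a trivial stabilizer. -/
lemma MV.aper (h : MV a b κ V W) (hba : b ≤ a) (hAB : AB (a + 2) (b + 1) κ) (S : Finset X)
    (hS : S = V + R (a + 1) (b + 1) W) : (st S).card = 1 := by
  have h1 : 1 ≤ (st S).card := card_pos.mpr ⟨0, zero_mem_st _⟩
  by_contra hcon
  obtain ⟨w, hw⟩ := h.W_ne
  obtain ⟨Y, i1, i2, i3, f, hsurj, hker, hnice, hg, hle⟩ := h.period hba w hw 0 (by omega)
    {0} S (by simp) (by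
      rw [hS]
      have : ({0} : Finset X) = 0 := rfl
      rw [this, zero_add, Nat.sub_zero]) (by
      rw [singleton_subset_iff]; exact zero_mem_st _) (by
      rw [zero_smul, neg_zero, hS]
      exact h.noz.1)
  have hcr := hAB.crit (a + 2) (b + 1) κ (by omega) (by omega)
  have e : a + 2 + (b + 1) - 1 = a + b + 2 - 0 := by omega
  rw [e] at hcr
  exact h.crit hba (hAB.ne) _ hcr f hsurj _ hnice (by omega) hg hle

lemma MV.aper_le (h : MV a b κ V W) (hba : b ≤ a) (hAB : AB (a + 2) (b + 1) κ) :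
    V.card + (a + b + 2) * W.card ≤ (V + R (a + 1) (b + 1) W).card + (a + b + 2) := by
  have h1 := h.aper hba hAB _ rfl
  have hk := kneser_gen (a + 1) (b + 1) V {0} W h.ne ⟨0, by simp⟩ h.W_ne
    (V + R (a + 1) (b + 1) W) (by
      have : ({0} : Finset X) = 0 := rfl
      rw [this, zero_add])
  have hst : st (V + R (a + 1) (b + 1) W) = {0} := by
    rw [card_eq_one] at h1
    obtain ⟨x, hx⟩ := h1
    have h0 : (0 : X) ∈ st (V + R (a + 1) (b + 1) W) := zero_mem_st _
    rw [hx, mem_singleton] at h0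
    rw [hx, h0]
  have e0 : ∀ B : Finset X, B + {0} = B := by
    intro B
    have : ({0} : Finset X) = 0 := rfl
    rw [this, add_zero]
  rw [hst, e0, e0, e0, card_singleton] at hk
  have e : (a + 1 + (b + 1)) * W.card = (a + b + 2) * W.card := by ring
  rw [e] at hk
  omega

lemma MV.aper_lt (h : MV a b κ V W) (hba : b ≤ a) (hAB : AB (a + 2) (b + 1) κ) :
    V.card + (a + b + 2) * W.card ≤ Fintype.card X + (a + b + 1) := by
  have h1 := h.aper_le hba hAB
  have h2 := card_add_st_le _ _ h.noz.1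
  rw [h.aper hba hAB _ rfl] at h2
  omega

/-- `W` generates `X` affinely. -/
lemma MV.gen (h : MV a b κ V W) (hba : b ≤ a) (hAB : AB (a + 2) (b + 1) κ) (D : AddSubgroup X)
    (hD : D ≠ ⊤) : ∃ w ∈ W, ∃ w' ∈ W, w - w' ∉ D := by
  by_contra hcon
  push Not at hcon
  obtain ⟨Y, i1, i2, i3, f, hsurj, hker, hnice⟩ := exists_quot D
  obtain ⟨w0, hw0⟩ := h.W_ne
  have hW1 : ∀ w ∈ W, f w = f w0 := by
    intro w hw
    have := (hker _).mpr (hcon w hw w0 hw0)
    rwa [map_sub, sub_eq_zero] at this
  -- the sum lies in one fibre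
  have hSle : (V + R (a + 1) (b + 1) W).card ≤ Nat.card D := by
    have h1 : ∀ x ∈ V + R (a + 1) (b + 1) W, f x = (a + 2) • f w0 - (b + 1) • f w0 := by
      intro x hx
      rw [mem_add] at hx
      obtain ⟨v, hv, r, hr, rfl⟩ := hx
      rw [mem_R] at hr
      obtain ⟨P, Q, hP, hQ, hPW, hQW, rfl⟩ := hr
      have hsum : ∀ L : List X, (∀ z ∈ L, z ∈ W) → f L.sum = L.length • f w0 := by
        intro L
        induction L with
        | nil => simp
        | cons z L ih =>
          intro hL
          rw [List.sum_cons, map_add, ih (fun z' hz' => hL z' (by simp [hz'])),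
            hW1 z (hL z (by simp)), List.length_cons, succ_nsmul]
          abel
      rw [map_add, map_sub, hsum P hPW, hsum Q hQW, hP, hQ, hW1 v (h.sub hv)]
      have e : (a + 2) • f w0 = f w0 + (a + 1) • f w0 := by
        rw [show a + 2 = (a + 1) + 1 by ring, succ_nsmul]; abel
      rw [e]; abel
    have h2 : V + R (a + 1) (b + 1) W ⊆ fib f univ ((a + 2) • f w0 - (b + 1) • f w0) := by
      intro x hx
      rw [mem_fib]
      exact ⟨mem_univ _, h1 x hx⟩
    have h3 := card_le_card h2
    rwa [hnice.card_fib] at h3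
  -- `D` has index at least two
  have hY2 : 2 ≤ Fintype.card Y := by
    by_contra hc
    have hpos : 0 < Fintype.card Y := Fintype.card_pos
    have hsub : Subsingleton Y := Fintype.card_le_one_iff_subsingleton.mp (by omega)
    apply hD
    rw [eq_top_iff]
    intro x _
    exact (hker x).mp (Subsingleton.elim _ _)
  have hcard := hnice.card
  set d := AddMonoid.exponent X with hd
  have hdκ : d ∣ κ := AddMonoid.exponent_dvd_of_forall_nsmul_eq_zero h.kill
  obtain ⟨z, hz⟩ : d ∣ Fintype.card X := by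
    rw [← Nat.card_eq_fintype_card]
    exact AddGroup.exponent_dvd_nat_card
  have hdg : ¬ d ∣ (a + 2) - (b + 1) := by
    intro hc
    apply h.gw hba w0 hw0
    have e : a + 1 - b = (a + 2) - (b + 1) := by omega
    rw [e]
    exact AddMonoid.exponent_dvd_iff_forall_nsmul_eq_zero.mp hc w0
  have hcr := hAB.crit (a + 2) (b + 1) κ (by omega) (by omega) d hdκ hdg
  have hbig := h.bigd hAB.ne d z hdκ hz
  have hVW := h.W_le
  have hap := h.aper_le hba hAB
  have e : a + 2 + (b + 1) - 1 = a + b + 2 := by omega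
  rw [e] at hcr
  set M := mz (a + 2) (b + 1) d
  have hX0 : 0 < Fintype.card X := Fintype.card_pos
  have hz0 : 0 < z := by
    rcases Nat.eq_zero_or_pos z with h0 | h0
    · rw [h0, mul_zero] at hz; omega
    · exact h0
  have hd0 : 0 < d := by
    rcases Nat.eq_zero_or_pos d with h0 | h0
    · rw [h0, zero_mul] at hz; omega
    · exact h0
  have hM1 : 1 ≤ M := by
    rcases Nat.eq_zero_or_pos M with h0 | h0
    · rw [h0, mul_zero] at hcr; omega
    · exact h0
  have hWc : M * z + 1 ≤ W.card := by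
    have e1 : 2 * M * z = 2 * (M * z) := by ring
    omega
  -- `|S| ≥ s M z`
  have h5 : (a + b + 3) * (M * z) ≤ (V + R (a + 1) (b + 1) W).card := by
    have h6 : (a + b + 1) * (M * z + 1) ≤ (a + b + 1) * W.card := Nat.mul_le_mul_left _ hWc
    have e1 : (a + b + 2) * W.card = (a + b + 1) * W.card + W.card := by ring
    have e2 : (a + b + 1) * (M * z + 1) = (a + b + 1) * (M * z) + (a + b + 1) := by ring
    have e3 : (a + b + 3) * (M * z) = (a + b + 1) * (M * z) + 2 * M * z := by ring
    omega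
  have h6 : Nat.card D * 2 ≤ Fintype.card X := by
    rw [hcard, mul_comm]
    exact Nat.mul_le_mul_right _ hY2
  have h7 : d * z ≤ (2 * (a + b + 2) * M) * z := Nat.mul_le_mul_right _ hcr
  have h8 : 1 ≤ M * z := Nat.mul_pos hM1 hz0
  have e4 : (2 * (a + b + 2) * M) * z = 2 * ((a + b + 2) * (M * z)) := by ring
  have e5 : (a + b + 3) * (M * z) = (a + b + 2) * (M * z) + M * z := by ring
  omega

end mv

end Pool.Agent.H59.KM
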