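import Mathlib
import Pool.Agent.H59.KM2

set_option autoImplicit false

open Finset Pointwise

namespace Pool.Agent.H59.KM

open Pool.Agent.H59.Kneser
open Pool.Agent.H59.KG
open Pool.Agent.H59.KL (SF)

section mv

variable {X : Type} [AddCommGroup X] [Fintype X] [DecidableEq X]
variable {a b κ : ℕ} {V W : Finset X}

omit [Fintype X] in
lemma list_sum_mem_R (c : ℕ) (L : List X) (hL : L.length = c) (hW : ∀ z ∈ L, z ∈ W) :
    L.sum ∈ R c 0 W := by
  rw [mem_R]
  exact ⟨L, [], hL, rfl, hW, by simp, by simp⟩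

/-- Copies of a large fibre fill a coset of the kernel. -/
lemma fill_lev {Y : Type} [AddCommGroup Y] [Fintype Y] [DecidableEq Y] {f : X →+ Y} {p : ℕ}
    (hf : Nice f p) (hp : p.Prime) (hker : ∀ g, f g = 0 → p • g = 0) (W : Finset X) (w : X)
    (j c : ℕ) (hj : 1 ≤ j) (hw : j ≤ (fib f W (f w)).card) (hc : p ≤ c * (j - 1) + 1) (x : X)
    (hx : f x = 0) : c • w + x ∈ R c 0 W := by
  obtain ⟨Z, hZn, hZs, hZf, hZc⟩ := threshold_aux hp hker (List.replicate c (W, j))
    (by
      intro q hq
      rw [List.mem_replicate] at hq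
      rw [hq.2]; exact hj) (c • f w) (by
      rw [List.map_replicate, List.sum_replicate]
      exact Finset.nsmul_mem_nsmul (by rw [mem_lev]; exact hw))
  rw [List.map_replicate, List.sum_replicate] at hZs
  rw [List.map_replicate, List.sum_replicate, List.length_replicate, smul_eq_mul] at hZc
  have hZp : p ≤ Z.card := by
    rcases hZc with h | h
    · exact h
    · have h : c * j + 1 ≤ Z.card + c := h
      obtain ⟨j', hj'⟩ : ∃ j', j = j' + 1 := ⟨j - 1, by omega⟩
      rw [hj'] at h hc
      rw [Nat.add_sub_cancel] at hc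
      have e : c * (j' + 1) = c * j' + c := by ring
      omega
  have hZsub : Z ⊆ fib f univ (c • f w) := by
    intro z hz
    rw [mem_fib]
    exact ⟨mem_univ _, hZf z hz⟩
  have hZeq : Z = fib f univ (c • f w) := by
    apply eq_of_subset_of_card_le hZsub
    rw [hf.card_fib]; exact hZp
  have h1 : c • w + x ∈ Z := by
    rw [hZeq, mem_fib]
    refine ⟨mem_univ _, ?_⟩
    rw [map_add, hx, map_nsmul, add_zero]
  have h2 := hZs h1
  rw [R_eq, zero_smul, add_zero]
  exact h2

/-- The fillers. -/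
lemma MV.filler (h : MV a b κ V W) (w : X) (c : ℕ) (hc : c ≤ a + 1)
    (H : AddSubgroup X) (hfill : ∀ x ∈ H, c • w + x ∈ R c 0 W) (U : Finset X)
    (hU : ∀ x, x ∈ U ↔ x ∈ H) : -(c • w) ∉ V + (U + R (a + 1 - c) (b + 1) W) := by
  intro hcon
  rw [mem_add] at hcon
  obtain ⟨v, hv, y, hy, hvy⟩ := hcon
  rw [mem_add] at hy
  obtain ⟨x, hx, r, hr, rfl⟩ := hy
  apply h.noz.1
  have e : a + 1 = c + (a + 1 - c) := by omega
  have e2 : R (a + 1) (b + 1) W = R c 0 W + R (a + 1 - c) (b + 1) W := by
    rw [R_add, zero_add, ← e]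
  rw [e2, mem_add]
  refine ⟨v, hv, (c • w + x) + r, add_mem_add (hfill x ((hU x).mp hx)) hr, ?_⟩
  have : v + (c • w + x + r) = c • w + (v + (x + r)) := by abel
  rw [this, hvy]; abel

omit [Fintype X] in
lemma mem_univ_filter_st [Fintype X] (H : AddSubgroup X) (U B : Finset X)
    (hU : ∀ x, x ∈ U ↔ x ∈ H) (T : Finset X) (hT : T = B + U) : U ⊆ st T := by
  intro x hx
  rw [mem_st]
  intro z hz
  rw [hT, mem_add] at hz ⊢
  obtain ⟨y, hy, u, hu, rfl⟩ := hz
  refine ⟨y, hy, x + u, ?_, by abel⟩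
  rw [hU] at *
  exact H.add_mem hx hu

/-- No filler is possible under the criterion. -/
lemma MV.no_fill (h : MV a b κ V W) (hba : b ≤ a) (hκ : κ ≠ 0) (w : X) (hw : w ∈ W) (c : ℕ)
    (hc : c ≤ a + 1) (H : AddSubgroup X) (hH : 2 ≤ Nat.card H)
    (hfill : ∀ x ∈ H, c • w + x ∈ R c 0 W) (hcrit : Crit (a + 2) (b + 1) κ (a + b + 2 - c)) :
    False := by
  classical
  set U : Finset X := univ.filter (· ∈ H) with hUdef
  have hU : ∀ x, x ∈ U ↔ x ∈ H := fun x => by simp [hUdef]
  have h0 := h.filler w c hc H hfill U hU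
  have hUT := mem_univ_filter_st H U (V + R (a + 1 - c) (b + 1) W) hU
    (V + (U + R (a + 1 - c) (b + 1) W)) (by abel)
  obtain ⟨Y, i1, i2, i3, f, hsurj, hker, hnice, hg, hle⟩ := h.period hba w hw c hc U _
    (by rw [hU]; exact H.zero_mem) rfl hUT h0
  have hcard : 2 ≤ (st (V + (U + R (a + 1 - c) (b + 1) W))).card := by
    refine le_trans ?_ (card_le_card hUT)
    have hUH : ((U : Finset X) : Set X) = (H : Set X) := by
      ext x
      rw [mem_coe, hU]; rfl
    have : Nat.card H = U.card := by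
      rw [← Set.ncard_coe_finset, hUH]
      rfl
    omega
  exact h.crit hba hκ _ hcrit f hsurj _ hnice hcard hg hle

/-- No two elements of `W` differ by an element of order `p`. -/
lemma MV.no_diff (h : MV a b κ V W) (hba : b ≤ a) (hκ : κ ≠ 0) (p : ℕ) (hp : p.Prime)
    (hpa : p ≤ a + 2) (hcrit : Crit (a + 2) (b + 1) κ (a + b + 3 - p)) (w w' : X)
    (hw : w ∈ W) (hw' : w' ∈ W) (hpw : p • (w' - w) = 0) : w' = w := by
  by_contra hne
  have hne' : w' - w ≠ 0 := sub_ne_zero.mpr hne
  have : Fact p.Prime := ⟨hp⟩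
  have hord : addOrderOf (w' - w) = p := addOrderOf_eq_prime hpw hne'
  refine h.no_fill hba hκ w hw (p - 1) (by omega) (AddSubgroup.zmultiples (w' - w)) ?_ ?_ ?_
  · rw [Nat.card_zmultiples, hord]; exact hp.two_le
  · intro x hx
    rw [mem_zmultiples_iff_mem_range_addOrderOf, mem_image] at hx
    obtain ⟨j, hj, rfl⟩ := hx
    rw [hord, mem_range] at hj
    have h1 := list_sum_mem_R (W := W) (p - 1) (List.replicate j w' ++
      List.replicate (p - 1 - j) w) (by simp; omega) (by
        intro z hz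
        simp only [List.mem_append, List.mem_replicate] at hz
        rcases hz with hz | hz
        · rw [hz.2]; exact hw'
        · rw [hz.2]; exact hw)
    rw [List.sum_append, List.sum_replicate, List.sum_replicate] at h1
    have e : j • w' + (p - 1 - j) • w = (p - 1) • w + j • (w' - w) := by
      have e1 : (p - 1) • w = (p - 1 - j) • w + j • w := by
        rw [← add_nsmul]; congr 1; omega
      rw [e1, smul_sub]; abel
    rwa [e] at h1
  · have e : a + b + 2 - (p - 1) = a + b + 3 - p := by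
      have := hp.two_le
      omega
    rwa [e]

end mv

end Pool.Agent.H59.KM
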