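import Mathlib
import Pool.Agent.H59.KM3

set_option autoImplicit false

open Finset Pointwise

namespace Pool.Agent.H59.KM

open Pool.Agent.H59.Kneser
open Pool.Agent.H59.KG
open Pool.Agent.H59.KL (SF)

section mv

variable {X : Type} [AddCommGroup X] [Fintype X] [DecidableEq X]
variable {a b κ : ℕ} {V W : Finset X}

/-- Kneser's theorem for `R m n W`. -/
lemma kneser_R0 (m n : ℕ) (hmn : 1 ≤ m + n) (W : Finset X) (hW : W.Nonempty) (S : Finset X)
    (hS : S = R m n W) :
    (m + n) * (W + st S).card + (st S).card ≤ S.card + (m + n) * (st S).card := by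
  have h1 := kneser_list _ (List.replicate m W ++ List.replicate n (-W)) rfl (by
    intro h
    have := congrArg List.length h
    simp at this
    omega)
    (by
      intro Z hZ
      simp only [List.mem_append, List.mem_replicate] at hZ
      rcases hZ with ⟨_, rfl⟩ | ⟨_, rfl⟩
      · exact hW
      · exact hW.neg)
  rw [List.length_append, List.length_replicate, List.length_replicate,
    sum_replicate_map] at h1
  have hS' : (List.replicate m W ++ List.replicate n (-W)).sum = S := hS.symm
  rw [hS'] at h1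
  exact h1

omit [Fintype X] in
lemma R_dil (p m n : ℕ) (W B : Finset X) (hB : B ⊆ p • W) : R m n B ⊆ R (p * m) (p * n) W := by
  rw [R_eq, R_eq]
  have h1 : m • B ⊆ (p * m) • W := by
    rw [mul_nsmul]
    exact Finset.nsmul_subset_nsmul_left hB
  have h2 : n • (-B) ⊆ (p * n) • (-W) := by
    have h3 : -B ⊆ p • (-W) := by
      rw [neg_nsmul]
      intro x hx
      rw [mem_neg'] at hx ⊢
      exact hB hx
    rw [mul_nsmul]
    exact Finset.nsmul_subset_nsmul_left h3
  exact Finset.add_subset_add h1 h2

/-- The dilation argument. -/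
lemma MV.dilate (h : MV a b κ V W) (hba : b ≤ a) (hAB : AB (a + 2) (b + 1) κ) (p : ℕ)
    (hp : 1 ≤ p) (hpg : p ∣ a + 1 - b) (hpt : 1 ≤ (a + 1) / p + (b + 1) / p)
    (hinj : ∀ w ∈ W, ∀ w' ∈ W, p • (w' - w) = 0 → w' = w) :
    ∃ n m : ℕ, n ∣ Fintype.card X ∧ 2 ≤ m ∧
      ((a + 1) / p + (b + 1) / p) * m + 2 ≤ n + ((a + 1) / p + (b + 1) / p) ∧
      mz (a + 2) (b + 1) κ * (tor X p).card * n < κ * m := by
  classical
  set k' := (a + 1) / p with hk'
  set l' := (b + 1) / p with hl'
  have hka : p * k' ≤ a + 1 := Nat.mul_div_le _ _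
  have hlb : p * l' ≤ b + 1 := Nat.mul_div_le _ _
  obtain ⟨v, hv⟩ := h.ne
  have hvW := h.sub hv
  set B : Finset X := W.image (fun w => p • w) with hBdef
  have hBc : B.card = W.card := by
    rw [hBdef, card_image_of_injOn]
    intro w hw w' hw' hww
    have hww' : p • w = p • w' := hww
    exact (hinj w hw w' hw' (by rw [smul_sub, hww', sub_self])).symm
  have hBn : B.Nonempty := h.W_ne.image _
  have hBsub : B ⊆ p • W := by
    intro x hx
    rw [hBdef, mem_image] at hx
    obtain ⟨w, hw, rfl⟩ := hx
    exact Finset.nsmul_mem_nsmul hw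
  set S : Finset X := R k' l' B with hS
  set x0 : X := (a + 2 - p * k') • v - (b + 1 - p * l') • v with hx0
  -- `-x0` is not in the sum
  have hx0S : -x0 ∉ S := by
    intro hcon
    have h1 := R_dil p k' l' W B hBsub hcon
    apply h.noz.1
    have e : R (a + 1) (b + 1) W = R (a + 1 - p * k') (b + 1 - p * l') W +
        R (p * k') (p * l') W := by
      rw [R_add]; congr 1 <;> omega
    rw [e, mem_add]
    refine ⟨v, hv, ((a + 1 - p * k') • v - (b + 1 - p * l') • v) + -x0,
      add_mem_add ?_ h1, ?_⟩
    · rw [mem_R]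
      refine ⟨List.replicate (a + 1 - p * k') v, List.replicate (b + 1 - p * l') v, by simp,
        by simp, ?_, ?_, by simp⟩
      · intro z hz
        rw [List.mem_replicate] at hz
        rw [hz.2]; exact hvW
      · intro z hz
        rw [List.mem_replicate] at hz
        rw [hz.2]; exact hvW
    · rw [hx0]
      have e1 : (a + 2 - p * k') • v = v + (a + 1 - p * k') • v := by
        rw [show a + 2 - p * k' = 1 + (a + 1 - p * k') by omega, add_nsmul, one_nsmul]
      rw [e1]; abel
  -- the subgroup `p X`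
  set φ : X →+ X := nsmulAddMonoidHom p with hφ
  have hφa : ∀ x, φ x = p • x := fun x => rfl
  set P : AddSubgroup X := φ.range with hP
  set Pf : Finset X := univ.filter (· ∈ P) with hPf
  have hmemPf : ∀ x, x ∈ Pf ↔ x ∈ P := fun x => by simp [hPf]
  have hPcard : Nat.card P = Pf.card := by
    have hUH : ((Pf : Finset X) : Set X) = (P : Set X) := by
      ext x
      rw [mem_coe, hmemPf]; rfl
    rw [← Set.ncard_coe_finset, hUH]
    rfl
  have hXP : Fintype.card X = Pf.card * (tor X p).card := by
    have h1 : Nat.card φ.range * Nat.card φ.ker = Nat.card X := by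
      rw [← AddSubgroup.index_ker, mul_comm]
      exact AddSubgroup.card_mul_index φ.ker
    have h2 : Nat.card φ.ker = (tor X p).card := by
      rw [← card_torG]
      rfl
    rw [h2, ← hP, hPcard, Nat.card_eq_fintype_card] at h1
    exact h1.symm
  have hx0P : -x0 ∈ Pf := by
    rw [hmemPf]
    apply P.neg_mem
    obtain ⟨u, hu⟩ := hpg
    refine ⟨((u : ℤ) - k' + l') • v, ?_⟩
    rw [hφa, hx0, ← natCast_zsmul, ← natCast_zsmul, ← natCast_zsmul, ← mul_zsmul', ← sub_smul]
    congr 1
    have h1 : ((a + 2 - p * k' : ℕ) : ℤ) = (a : ℤ) + 2 - p * k' := by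
      rw [Nat.cast_sub (by omega)]; push_cast; ring
    have h2 : ((b + 1 - p * l' : ℕ) : ℤ) = (b : ℤ) + 1 - p * l' := by
      rw [Nat.cast_sub hlb]; push_cast; ring
    have h3 : ((a + 1 - b : ℕ) : ℤ) = (a : ℤ) + 1 - b := by
      rw [Nat.cast_sub (by omega)]; push_cast; ring
    rw [h1, h2]
    have h4 : ((a + 1 - b : ℕ) : ℤ) = p * u := by rw [hu]; push_cast; ring
    rw [h3] at h4
    linarith
  have hBP : ∀ x ∈ B, x ∈ P := by
    intro x hx
    rw [hBdef, mem_image] at hx
    obtain ⟨w, _, rfl⟩ := hx
    exact ⟨w, rfl⟩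
  have hSP : ∀ x ∈ S, x ∈ P := by
    intro x hx
    rw [hS, mem_R] at hx
    obtain ⟨L, M, _, _, hL, hM, rfl⟩ := hx
    exact P.sub_mem (P.list_sum_mem (fun z hz => hBP z (hL z hz)))
      (P.list_sum_mem (fun z hz => hBP z (hM z hz)))
  have hSn : S.Nonempty := R_nonempty _ _ _ hBn
  have hKP : ∀ x ∈ st S, x ∈ P := by
    intro x hx
    obtain ⟨s, hs⟩ := hSn
    have h1 := (mem_st _ _).mp hx s hs
    have h2 := P.sub_mem (hSP _ h1) (hSP _ hs)
    rwa [add_sub_cancel_right] at h2
  -- `|S| + |K| ≤ |P|`
  have hSK : S.card + (st S).card ≤ Pf.card := by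
    have hinj : ((st S).image (fun z => -x0 + z)).card = (st S).card :=
      card_image_of_injective _ (fun u v huv => add_left_cancel huv)
    rw [← hinj, ← card_union_of_disjoint]
    · apply card_le_card
      intro z hz
      rw [mem_union, mem_image] at hz
      rw [hmemPf]
      rcases hz with hz | ⟨z', hz', rfl⟩
      · exact hSP z hz
      · exact P.add_mem ((hmemPf _).mp hx0P) (hKP z' hz')
    · rw [Finset.disjoint_left]
      intro u hu hu'
      rw [mem_image] at hu'
      obtain ⟨z, hz, rfl⟩ := hu'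
      apply hx0S
      have := (mem_st _ _).mp (neg_mem_st _ _ hz) _ hu
      have e : -z + (-x0 + z) = -x0 := by abel
      rwa [e] at this
  have hk := kneser_R0 k' l' hpt B hBn S hS
  obtain ⟨Y, i1, i2, i3, f, hsurj, hker, hnice⟩ := exists_quot (stab S)
  rw [card_stab] at hnice
  have hker' : ∀ x, f x = 0 ↔ x ∈ st S := hker
  have hs1 : 1 ≤ (st S).card := hnice.pos
  have hPK : (Pf + st S).card = Pf.card := by
    congr 1
    apply subset_antisymm
    · intro z hz
      rw [mem_add] at hz
      obtain ⟨x, hx, y, hy, rfl⟩ := hz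
      rw [hmemPf] at hx ⊢
      exact P.add_mem hx (hKP y hy)
    · intro z hz
      rw [mem_add]
      exact ⟨z, hz, 0, zero_mem_st _, add_zero _⟩
  rw [card_add_ker hnice _ hker'] at hPK hk
  set n := (Pf.image f).card with hn
  set m := (B.image f).card with hm
  have hle : (k' + l') * m + 2 ≤ n + (k' + l') := by
    have h3 : ((k' + l') * m + 2) * (st S).card ≤ (n + (k' + l')) * (st S).card := by
      have e1 : ((k' + l') * m + 2) * (st S).card = (k' + l') * (m * (st S).card) +
        2 * (st S).card := by ring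
      have e2 : (n + (k' + l')) * (st S).card = n * (st S).card + (k' + l') * (st S).card := by
        ring
      rw [e1, e2, hPK]
      omega
    exact Nat.le_of_mul_le_mul_right h3 hs1
  refine ⟨n, m, ?_, ?_, hle, ?_⟩
  · rw [hXP, ← hPK]
    exact ⟨(st S).card * (tor X p).card, by ring⟩
  · by_contra hcon
    have hm1 : m ≤ 1 := by omega
    rw [hm, card_le_one] at hm1
    have hD : (stab S).comap φ = ⊤ := by
      by_contra hne
      obtain ⟨w, hw, w', hw', hww⟩ := h.gen hba hAB _ hne
      apply hww
      rw [AddSubgroup.mem_comap, map_sub]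
      have h1 := hm1 (f (φ w)) (mem_image_of_mem f (mem_image_of_mem _ hw)) (f (φ w'))
        (mem_image_of_mem f (mem_image_of_mem _ hw'))
      have h2 : f (φ w - φ w') = 0 := by rw [map_sub, h1, sub_self]
      exact (hker _).mp h2
    have h1 : Pf ⊆ st S := by
      intro x hx
      rw [hmemPf] at hx
      obtain ⟨y, rfl⟩ := hx
      have : y ∈ (stab S).comap φ := by rw [hD]; exact AddSubgroup.mem_top y
      exact this
    have h2 := card_le_card h1
    have h3 : 1 ≤ S.card := hSn.card_pos
    omega
  · have h1 : B.card ≤ m * (st S).card := by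
      rw [hm, ← card_add_ker hnice _ hker']
      exact card_le_card_add_right ⟨0, zero_mem_st _⟩
    rw [hBc] at h1
    have h2 := h.big
    have h3 := h.W_le
    have h4 : κ * (V.card + W.card) ≤ κ * (2 * (m * (st S).card)) :=
      Nat.mul_le_mul_left _ (by omega)
    have h5 : (mz (a + 2) (b + 1) κ * (tor X p).card * n) * (2 * (st S).card) <
        (κ * m) * (2 * (st S).card) := by
      calc (mz (a + 2) (b + 1) κ * (tor X p).card * n) * (2 * (st S).card)
          = 2 * mz (a + 2) (b + 1) κ * ((n * (st S).card) * (tor X p).card) := by ring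
        _ = 2 * mz (a + 2) (b + 1) κ * Fintype.card X := by rw [hPK, hXP]
        _ < κ * (V.card + W.card) := h2
        _ ≤ κ * (2 * (m * (st S).card)) := h4
        _ = (κ * m) * (2 * (st S).card) := by ring
    exact Nat.lt_of_mul_lt_mul_right h5

end mv

end Pool.Agent.H59.KM
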