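import Mathlib
import Pool.Agent.H59.KM4

set_option autoImplicit false

open Finset Pointwise

namespace Pool.Agent.H59.KM

open Pool.Agent.H59.Kneser
open Pool.Agent.H59.KG
open Pool.Agent.H59.KL (SF)

/-- The arithmetic data of a bad prime: `p ^ e` is the exact power of `p` dividing `k - l`,
`p ^ (e + 1)` divides `κ`, and no other prime factor of `κ` divides `k - l`. -/
structure BP (k l κ p e : ℕ) : Prop where
  prime : p.Prime
  e1 : 1 ≤ e
  dvd : p ^ e ∣ k - l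
  ndvd : ¬ p ^ (e + 1) ∣ k - l
  dκ : p ^ (e + 1) ∣ κ
  other : ∀ r : ℕ, r.Prime → r ∣ κ → r ≠ p → ¬ r ∣ k - l

section bp

variable {k l κ p e : ℕ}

lemma BP.low (h : BP k l κ p e) (hl : 0 < l) (hlk : l < k) : p ^ e + 2 ≤ k + l := by
  have := Nat.le_of_dvd (by omega) h.dvd
  omega

lemma gcd_le_pow (h : BP k l κ p e) (j : ℕ) : Nat.gcd (p ^ j) (k - l) ≤ p ^ e := by
  obtain ⟨i, hi, hi2⟩ := (Nat.dvd_prime_pow h.prime).mp (Nat.gcd_dvd_left (p ^ j) (k - l))
  rw [hi2]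
  apply Nat.pow_le_pow_right h.prime.pos
  by_contra hcon
  apply h.ndvd
  refine (pow_dvd_pow p (by omega : e + 1 ≤ i)).trans ?_
  rw [← hi2]
  exact Nat.gcd_dvd_right _ _

lemma BP.high (h : BP k l κ p e) (hl : 0 < l) (hlk : l < k) (hAB : AB k l κ) :
    k + l < p ^ (e + 1) := by
  obtain ⟨h1, h2⟩ := hAB.res k l κ hl hlk _ h.dκ
  have h3 := gcd_le_pow h (e + 1)
  have h4 : p ^ e < p ^ (e + 1) := Nat.pow_lt_pow_right h.prime.one_lt (by omega)
  by_contra hcon
  rcases Nat.lt_or_ge (p ^ (e + 1)) (k + l) with h5 | h5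
  · rw [Nat.mod_eq_of_lt h5] at h2
    omega
  · have h6 : p ^ (e + 1) = k + l := by omega
    rw [h6, Nat.mod_self] at h1
    omega

/-- Prime factors other than `p` are `1` modulo `k + l`. -/
lemma BP.pure (h : BP k l κ p e) (hl : 0 < l) (hlk : l < k) (hAB : AB k l κ) (r : ℕ)
    (hr : r.Prime) (hrκ : r ∣ κ) (hrp : r ≠ p) : r % (k + l) = 1 := by
  obtain ⟨h1, h2⟩ := hAB.res k l κ hl hlk r hrκ
  have h3 : Nat.gcd r (k - l) = 1 := Nat.coprime_iff_gcd_eq_one.mp
    ((Nat.Prime.coprime_iff_not_dvd hr).mpr (h.other r hr hrκ hrp))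
  rw [h3] at h2
  omega

/-- The criterion reduces to the powers of `p`. -/
lemma BP.crit (h : BP k l κ p e) (hl : 0 < l) (hlk : l < k) (hAB : AB k l κ) (t : ℕ)
    (ht : k + l + 1 ≤ 2 * t)
    (hpow : ∀ j, e + 1 ≤ j → p ^ j ∣ κ → p ^ j ≤ 2 * t * (p ^ j / (k + l))) :
    Crit k l κ t := by
  intro d hd hdg
  have hκ0 := hAB.ne
  have hd0 : d ≠ 0 := fun h0 => hκ0 (by rw [h0] at hd; exact zero_dvd_iff.mp hd)
  obtain ⟨j, d₂, hd₂, hdj⟩ := Nat.exists_eq_pow_mul_and_not_dvd hd0 p h.prime.ne_one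
  have hfl := mz_floor k l d hl hlk
  have hm : 2 * t * (d / (k + l)) ≤ 2 * t * mz k l d := Nat.mul_le_mul_left _ hfl
  refine le_trans ?_ hm
  by_cases h1 : d₂ = 1
  · rw [h1, mul_one] at hdj
    rw [hdj]
    apply hpow j _ (by rw [← hdj]; exact hd)
    by_contra hcon
    apply hdg
    rw [hdj]
    exact (pow_dvd_pow p (by omega : j ≤ e)).trans h.dvd
  · have hd₂d : d₂ ∣ d := Dvd.intro_left _ hdj.symm
    have hd₂0 : d₂ ≠ 0 := fun h0 => hd0 (by rw [hdj, h0, mul_zero])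
    have hpure : ∀ r : ℕ, r.Prime → r ∣ d₂ → r % (k + l) = 1 := by
      intro r hr hrd
      apply h.pure hl hlk hAB r hr ((hrd.trans hd₂d).trans hd)
      rintro rfl
      exact hd₂ hrd
    have hmod := mod_one_of_primes (k + l) (by omega) d₂ hd₂0 hpure
    have hge := mod_one_ge (k + l) d₂ (by omega) hmod h1
    have hcop : Nat.Coprime d₂ (k - l) := by
      rw [Nat.coprime_iff_gcd_eq_one]
      by_contra hg
      obtain ⟨r, hr, hrg⟩ := Nat.exists_prime_and_dvd hg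
      have h5 := hpure r hr (hrg.trans (Nat.gcd_dvd_left _ _))
      have h6 := Nat.le_of_dvd (by omega) (hrg.trans (Nat.gcd_dvd_right _ _))
      rw [Nat.mod_eq_of_lt (by omega)] at h5
      rw [h5] at hr
      exact Nat.not_prime_one hr
    obtain ⟨h2, h3⟩ := hAB.res k l κ hl hlk d hd
    have h4 : Nat.gcd d (k - l) ≤ p ^ j := by
      rw [hdj, Nat.Coprime.gcd_mul_right_cancel _ hcop]
      exact Nat.le_of_dvd (Nat.pow_pos h.prime.pos) (Nat.gcd_dvd_left _ _)
    have h5 : p ^ j ≤ d / (k + l) := by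
      rw [Nat.le_div_iff_mul_le (by omega), hdj]
      exact Nat.mul_le_mul_left _ (by omega)
    have h6 := Nat.div_add_mod d (k + l)
    have h7 : (k + l + 1) * (d / (k + l)) ≤ 2 * t * (d / (k + l)) := Nat.mul_le_mul_right _ ht
    have e1 : (k + l + 1) * (d / (k + l)) = (k + l) * (d / (k + l)) + d / (k + l) := by ring
    omega

/-- Data of a power of `p`. -/
lemma BP.powdata (h : BP k l κ p e) (hl : 0 < l) (hlk : l < k) (hAB : AB k l κ) (j : ℕ)
    (hjκ : p ^ j ∣ κ) : ∃ m i, p ^ j = (k + l) * m + i ∧ 1 ≤ i ∧ i ≤ p ^ e ∧ i < k + l ∧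
      p ^ j / (k + l) = m := by
  obtain ⟨h2, h3⟩ := hAB.res k l κ hl hlk _ hjκ
  refine ⟨p ^ j / (k + l), p ^ j % (k + l), (Nat.div_add_mod _ _).symm, h2,
    h3.trans (gcd_le_pow h j), Nat.mod_lt _ (by omega), rfl⟩

/-- The criterion for `e ≥ 2`. -/
lemma BP.crit_two (h : BP k l κ p e) (hl : 0 < l) (hlk : l < k) (hAB : AB k l κ) (he : 2 ≤ e) :
    Crit k l κ (k + l - p) ∧ 2 * p + 1 ≤ k + l ∧ p + 3 ≤ k + l := by
  have hlow := h.low hl hlk
  have hhigh := h.high hl hlk hAB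
  have hp2 := h.prime.two_le
  have hpe : p * p ≤ p ^ e := by
    rw [← sq]; exact Nat.pow_le_pow_right h.prime.pos he
  have h2p : 2 * p ≤ p * p := Nat.mul_le_mul_right _ hp2
  refine ⟨?_, by omega, by nlinarith⟩
  apply h.crit hl hlk hAB _ (by omega)
  intro j hj hjκ
  obtain ⟨m, i, hji, hi1, hi2, hi3, hm⟩ := h.powdata hl hlk hAB j hjκ
  rw [hm]
  have hpe1 : p ^ (e + 1) ≤ p ^ j := Nat.pow_le_pow_right h.prime.pos hj
  have hm1 : 1 ≤ m := by
    rcases Nat.eq_zero_or_pos m with h0 | h0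
    · rw [h0] at hji; omega
    · exact h0
  obtain ⟨c, hc⟩ : ∃ c, k + l = c + 2 * p := ⟨k + l - 2 * p, by omega⟩
  have e1 : k + l - p = c + p := by omega
  rw [e1, hji, hc]
  have e2 : 2 * (c + p) * m = (c + 2 * p) * m + c * m := by ring
  rw [e2]
  apply Nat.add_le_add_left
  rcases Nat.lt_or_ge m 2 with hm2 | hm2
  · have hm1' : m = 1 := by omega
    subst hm1'
    -- `j = e + 1`
    have hje : j = e + 1 := by
      by_contra hne
      have h1 : e + 2 ≤ j := by omega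
      have h2 : p ^ (e + 2) ≤ p ^ j := Nat.pow_le_pow_right h.prime.pos h1
      have h3 : p ^ (e + 2) = p * p ^ (e + 1) := by ring
      have h4 : 2 * p ^ (e + 1) ≤ p * p ^ (e + 1) := Nat.mul_le_mul_right _ hp2
      omega
    rw [hje, pow_succ] at hji
    rcases Nat.lt_or_ge p 3 with h3 | h3
    · have hp : p = 2 := by omega
      subst hp
      omega
    · have h4 : 3 * p ^ e ≤ p ^ e * p := by rw [mul_comm]; exact Nat.mul_le_mul_left _ h3
      have h5 : 3 * p ≤ p * p := Nat.mul_le_mul_right _ h3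
      omega
  · have h1 : c * 2 ≤ c * m := Nat.mul_le_mul_left _ hm2
    have h2 : 4 * p ≤ p * p + 4 := by nlinarith [sq_nonneg ((p : ℤ) - 2)]
    omega

end bp

end Pool.Agent.H59.KM
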