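import Mathlib
import Pool.Agent.H59.KM5

set_option autoImplicit false

open Finset Pointwise

namespace Pool.Agent.H59.KM

open Pool.Agent.H59.Kneser
open Pool.Agent.H59.KG
open Pool.Agent.H59.KL (SF)

lemma num_t (a b p : ℕ) (hp : 2 ≤ p) (hba : b ≤ a) (hpg : p ∣ a + 1 - b) :
    a + b + 5 ≤ p * ((a + 1) / p + (b + 1) / p + 2) := by
  obtain ⟨u, hu⟩ := hpg
  have h1 := Nat.div_add_mod (a + 1) p
  have h2 := Nat.div_add_mod (b + 1) p
  have h3 := Nat.mod_lt (a + 1) (by omega : p > 0)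
  have h4 := Nat.mod_lt (b + 1) (by omega : p > 0)
  set k' := (a + 1) / p
  set l' := (b + 1) / p
  set c1 := (a + 1) % p
  set c2 := (b + 1) % p
  have h5 : (p : ℤ) * ((l' : ℤ) + u - k') = c1 + 1 - c2 := by
    have e1 : ((a + 1 - b : ℕ) : ℤ) = p * u := by rw [hu]; push_cast; ring
    rw [Nat.cast_sub (by omega)] at e1
    have e2 : ((p * k' + c1 : ℕ) : ℤ) = ((a + 1 : ℕ) : ℤ) := by rw [h1]
    have e3 : ((p * l' + c2 : ℕ) : ℤ) = ((b + 1 : ℕ) : ℤ) := by rw [h2]
    push_cast at e1 e2 e3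
    linarith
  obtain ⟨q, hq⟩ : ∃ q : ℤ, q = (l' : ℤ) + u - k' := ⟨_, rfl⟩
  rw [← hq] at h5
  have hpz : (2 : ℤ) ≤ p := by exact_mod_cast hp
  have h3z : (c1 : ℤ) < p := by exact_mod_cast h3
  have h4z : (c2 : ℤ) < p := by exact_mod_cast h4
  have h6 : (c1 : ℤ) + c2 ≤ 2 * p - 3 := by
    have hc1 : (0 : ℤ) ≤ c1 := by positivity
    have hc2 : (0 : ℤ) ≤ c2 := by positivity
    rcases lt_trichotomy q 0 with hq0 | hq0 | hq0
    · exfalso
      have : (p : ℤ) * q ≤ p * (-1) := by
        apply mul_le_mul_of_nonneg_left _ (by linarith)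
        linarith
      linarith
    · rw [hq0, mul_zero] at h5
      linarith
    · rcases lt_or_ge q 2 with hq2 | hq2
      · have hq1 : q = 1 := by linarith
        rw [hq1, mul_one] at h5
        linarith
      · exfalso
        have : (p : ℤ) * 2 ≤ p * q := by
          apply mul_le_mul_of_nonneg_left _ (by linarith)
          linarith
        linarith
  have h7 : ((a + b + 5 : ℕ) : ℤ) ≤ ((p * (k' + l' + 2) : ℕ) : ℤ) := by
    have e2 : ((p * k' + c1 : ℕ) : ℤ) = ((a + 1 : ℕ) : ℤ) := by rw [h1]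
    have e3 : ((p * l' + c2 : ℕ) : ℤ) = ((b + 1 : ℕ) : ℤ) := by rw [h2]
    push_cast at e2 e3 ⊢
    linarith
  exact_mod_cast h7

lemma num1 (κ μ Q n m t : ℤ) (hκ : 0 < κ) (h1 : t * m + 2 ≤ n + t) (hm : 2 ≤ m) (ht : 2 ≤ t)
    (h2 : μ * Q * n < κ * m) (h3 : 2 * κ ≤ (t + 2) * (Q * μ)) : False := by
  have hn : 0 < n := by nlinarith
  have h4 : 2 * κ * n ≤ (t + 2) * (Q * μ) * n := mul_le_mul_of_nonneg_right h3 hn.le
  have h5 : (t + 2) * (μ * Q * n) < (t + 2) * (κ * m) := mul_lt_mul_of_pos_left h2 (by linarith)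
  have h6 : κ * (2 * n) < κ * ((t + 2) * m) := by linarith
  have h7 := lt_of_mul_lt_mul_left h6 hκ.le
  have h8 : 0 ≤ (t - 2) * (m - 2) := mul_nonneg (by linarith) (by linarith)
  linarith

section mv

variable {X : Type} [AddCommGroup X] [Fintype X] [DecidableEq X]
variable {a b κ : ℕ} {V W : Finset X}

lemma sub_eq (hba : b ≤ a) : a + 2 - (b + 1) = a + 1 - b := by omega

/-- The contradiction for a noncyclic `p`-part, when `p ^ 2` divides `k - l`. -/
lemma MV.bad_two (h : MV a b κ V W) (hba : b ≤ a) (hAB : AB (a + 2) (b + 1) κ) (p e : ℕ)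
    (hbp : BP (a + 2) (b + 1) κ p e) (he : 2 ≤ e) (hQ : p * p ≤ (tor X p).card)
    (hQ2 : p = 2 → (tor X p).card = 4 ∨ 8 ≤ (tor X p).card) : False := by
  have hκ0 := hAB.ne
  have hκpos : 0 < κ := Nat.pos_of_ne_zero hκ0
  have hp := hbp.prime
  have hp2 := hp.two_le
  obtain ⟨hcr, hs1, hs2⟩ := hbp.crit_two (by omega) (by omega) hAB he
  have hlow := hbp.low (by omega) (by omega)
  have hhigh := hbp.high (by omega) (by omega) hAB
  have e0 : a + 2 + (b + 1) = a + b + 3 := by ring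
  rw [e0] at hcr hs1 hs2 hlow hhigh
  have hpg : p ∣ a + 1 - b := by
    rw [← sub_eq hba]
    exact (dvd_pow_self p (by omega)).trans hbp.dvd
  have hpe : p * p ≤ p ^ e := by
    rw [← sq]; exact Nat.pow_le_pow_right hp.pos he
  have hpa : p ≤ a + 2 := by
    have h1 := Nat.le_of_dvd (by omega) hpg
    omega
  have hinj : ∀ w ∈ W, ∀ w' ∈ W, p • (w' - w) = 0 → w' = w := fun w hw w' hw' hww =>
    h.no_diff hba hκ0 p hp hpa hcr w w' hw hw' hww
  have hT1 := num_t a b p hp2 hba hpg
  set t := (a + 1) / p + (b + 1) / p with ht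
  have hT2 : 2 ≤ t := by
    by_contra hcon
    have h1 : p * (t + 2) ≤ p * 3 := Nat.mul_le_mul_left _ (by omega)
    have h2 : p * 3 ≤ p * p + 2 := by nlinarith [mul_nonneg (by
      have : (2 : ℤ) ≤ p := by exact_mod_cast hp2
      linarith : (0 : ℤ) ≤ (p : ℤ) - 1) (by
      have : (2 : ℤ) ≤ p := by exact_mod_cast hp2
      linarith : (0 : ℤ) ≤ (p : ℤ) - 2)]
    omega
  obtain ⟨n, m, hnX, hm2, hnm, hμ⟩ := h.dilate hba hAB p (by omega) hpg (by omega) hinj
  rw [← ht] at hnm
  set μ := mz (a + 2) (b + 1) κ with hμdef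
  set Q := (tor X p).card with hQdef
  -- the final numeric contradiction
  have hfin : 2 * κ ≤ (t + 2) * (Q * μ) → False := by
    intro hc
    apply num1 κ μ Q n m t
    · exact_mod_cast hκpos
    · exact_mod_cast hnm
    · exact_mod_cast hm2
    · exact_mod_cast hT2
    · exact_mod_cast hμ
    · exact_mod_cast hc
  -- `s μ p ≥ (p - 1) κ`
  obtain ⟨m1, i, hji, hi1, hi2, hi3, hm1⟩ := hbp.powdata (by omega) (by omega) hAB (e + 1) hbp.dκ
  rw [e0] at hji hi3 hm1
  have hfl := mz_floor (a + 2) (b + 1) (p ^ (e + 1)) (by omega) (by omega)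
  rw [e0, hm1] at hfl
  have hmono := mz_mono (a + 2) (b + 1) (by omega) _ κ hκ0 hbp.dκ
  rw [← hμdef] at hmono
  have hm1κ : m1 * κ ≤ μ * p ^ (e + 1) := (Nat.mul_le_mul_right _ hfl).trans hmono
  have hsμ : (p - 1) * κ ≤ (a + b + 3) * μ * p := by
    have h1 : (p - 1) * p ^ e ≤ (a + b + 3) * m1 := by
      have e1 : p ^ (e + 1) = (p - 1) * p ^ e + p ^ e := by
        rw [pow_succ]
        obtain ⟨c, hc⟩ : ∃ c, p = c + 1 := ⟨p - 1, by omega⟩
        rw [hc, Nat.add_sub_cancel]; ring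
      omega
    have h2 : ((p - 1) * κ) * p ^ e ≤ ((a + b + 3) * μ * p) * p ^ e := by
      calc ((p - 1) * κ) * p ^ e = ((p - 1) * p ^ e) * κ := by ring
        _ ≤ ((a + b + 3) * m1) * κ := Nat.mul_le_mul_right _ h1
        _ = (a + b + 3) * (m1 * κ) := by ring
        _ ≤ (a + b + 3) * (μ * p ^ (e + 1)) := Nat.mul_le_mul_left _ hm1κ
        _ = ((a + b + 3) * μ * p) * p ^ e := by ring
    exact Nat.le_of_mul_le_mul_right h2 (Nat.pow_pos hp.pos)
  -- reduction to `Q`
  have hred : ∀ Q', Q' * p ≤ Q → Q' * ((a + b + 5) * μ) ≤ (t + 2) * (Q * μ) := by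
    intro Q' hQ'
    calc Q' * ((a + b + 5) * μ) ≤ Q' * ((p * (t + 2)) * μ) :=
          Nat.mul_le_mul_left _ (Nat.mul_le_mul_right _ hT1)
      _ = (t + 2) * ((Q' * p) * μ) := by ring
      _ ≤ (t + 2) * (Q * μ) := Nat.mul_le_mul_left _ (Nat.mul_le_mul_right _ hQ')
  have hs5 : (a + b + 3) * μ ≤ (a + b + 5) * μ := Nat.mul_le_mul_right _ (by omega)
  rcases Nat.lt_or_ge p 3 with h3 | h3
  · -- `p = 2`
    have hp2' : p = 2 := by omega
    rcases hQ2 hp2' with hQ4 | hQ8
    · -- `Q = 4`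
      by_cases hr : ∃ r : ℕ, r.Prime ∧ r ∣ κ ∧ r ≠ p
      · obtain ⟨r, hr, hrκ, hrp⟩ := hr
        have hmod := hbp.pure (by omega) (by omega) hAB r hr hrκ hrp
        rw [e0] at hmod
        have hge := mod_one_ge (a + b + 3) r (by omega) hmod hr.ne_one
        have hcop : Nat.Coprime (p ^ (e + 1)) r := by
          apply Nat.Coprime.pow_left
          exact (Nat.coprime_primes hp hr).mpr (fun hh => hrp hh.symm)
        have hdκ : p ^ (e + 1) * r ∣ κ := Nat.Coprime.mul_dvd_of_dvd_of_dvd hcop hbp.dκ hrκ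
        set d := p ^ (e + 1) * r with hd
        have hfl2 := mz_floor (a + 2) (b + 1) d (by omega) (by omega)
        rw [e0] at hfl2
        have hmono2 := mz_mono (a + 2) (b + 1) (by omega) _ κ hκ0 hdκ
        rw [← hμdef] at hmono2
        have h5 : p ^ (e + 1) ≤ d / (a + b + 3) := by
          rw [Nat.le_div_iff_mul_le (by omega), hd]
          exact Nat.mul_le_mul_left _ (by omega)
        have h6 := Nat.div_add_mod d (a + b + 3)
        have h7 := Nat.mod_lt d (by omega : a + b + 3 > 0)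
        have h8 : d ≤ (a + b + 5) * (d / (a + b + 3)) := by
          have e1 : (a + b + 5) * (d / (a + b + 3)) = (a + b + 3) * (d / (a + b + 3)) +
            2 * (d / (a + b + 3)) := by ring
          omega
        have hd0 : 0 < d := Nat.pos_of_ne_zero (fun h0 => hκ0 (by
          rw [h0] at hdκ; exact zero_dvd_iff.mp hdκ))
        have h9 : κ ≤ (a + b + 5) * μ := by
          have h10 : κ * d ≤ ((a + b + 5) * μ) * d := by
            calc κ * d ≤ κ * ((a + b + 5) * (d / (a + b + 3))) := Nat.mul_le_mul_left _ h8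
              _ ≤ κ * ((a + b + 5) * mz (a + 2) (b + 1) d) :=
                Nat.mul_le_mul_left _ (Nat.mul_le_mul_left _ hfl2)
              _ = (a + b + 5) * (mz (a + 2) (b + 1) d * κ) := by ring
              _ ≤ (a + b + 5) * (μ * d) := Nat.mul_le_mul_left _ hmono2
              _ = ((a + b + 5) * μ) * d := by ring
          exact Nat.le_of_mul_le_mul_right h10 hd0
        apply hfin
        refine le_trans ?_ (hred 2 (by rw [hp2', hQ4]))
        exact Nat.mul_le_mul_left _ h9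
      · -- `X` is a `2`-group
        push Not at hr
        subst hp2'
        have hX0 : Fintype.card X ≠ 0 := Fintype.card_ne_zero
        have hXpow := Nat.eq_prime_pow_of_unique_prime_dvd hX0
          (p := 2) (fun {r} hr' hrX => hr r hr' (prime_dvd_of_killed κ h.kill r hr' hrX))
        rw [hXpow] at hnX
        obtain ⟨c, hc, hnc⟩ := (Nat.dvd_prime_pow hp).mp hnX
        have hnt : t + 2 ≤ n := by
          have : t * 2 ≤ t * m := Nat.mul_le_mul_left _ hm2
          omega
        obtain ⟨e', he'⟩ : ∃ e', e = e' + 1 := ⟨e - 1, by omega⟩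
        have hte : 2 ^ e' ≤ t := by
          rw [he', pow_succ] at hlow
          omega
        have hce : e ≤ c := by
          by_contra hcon
          have h1 : c ≤ e' := by omega
          have h2 : 2 ^ c ≤ 2 ^ e' := Nat.pow_le_pow_right (by norm_num) h1
          omega
        obtain ⟨n', hn'⟩ : ∃ n', n = 2 ^ e * n' := by
          obtain ⟨x, hx⟩ := pow_dvd_pow 2 hce
          exact ⟨x, by rw [hnc, hx]⟩
        have hm1' : 1 ≤ m1 := by
          rcases Nat.eq_zero_or_pos m1 with h0 | h0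
          · rw [h0] at hji; omega
          · exact h0
        have hκμ : κ ≤ μ * 2 ^ (e + 1) := by
          refine le_trans ?_ hm1κ
          exact Nat.le_mul_of_pos_left _ hm1'
        rw [hQ4] at hμ
        have h1 : μ * 4 * n < μ * 2 ^ (e + 1) * m := lt_of_lt_of_le hμ (Nat.mul_le_mul_right _ hκμ)
        have h2 : (μ * 2 ^ (e + 1)) * (2 * n') < (μ * 2 ^ (e + 1)) * m := by
          have e1 : μ * 4 * n = (μ * 2 ^ (e + 1)) * (2 * n') := by
            rw [hn', pow_succ]; ring
          rw [← e1]; exact h1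
        have h3 := Nat.lt_of_mul_lt_mul_left h2
        have h4 : t * (2 * n' + 1) ≤ t * m := Nat.mul_le_mul_left _ h3
        have h5 : 2 ^ e' * n' ≤ t * n' := Nat.mul_le_mul_right _ hte
        rw [hn', he', pow_succ] at hnm
        have e1 : t * (2 * n' + 1) = 2 * (t * n') + t := by ring
        have e2 : 2 ^ e' * 2 * n' = 2 * (2 ^ e' * n') := by ring
        omega
    · apply hfin
      refine le_trans ?_ (hred 4 (by rw [hp2']; exact hQ8))
      rw [hp2'] at hsμ
      omega
  · apply hfin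
    refine le_trans ?_ (hred p hQ)
    have h4 : 2 * κ ≤ (p - 1) * κ := Nat.mul_le_mul_right _ (by omega)
    have h5 : (a + b + 3) * μ * p = p * ((a + b + 3) * μ) := by ring
    have h6 : p * ((a + b + 3) * μ) ≤ p * ((a + b + 5) * μ) := Nat.mul_le_mul_left _ hs5
    omega

end mv

end Pool.Agent.H59.KM
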