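import Mathlib
import Pool.Agent.H59.KM6

set_option autoImplicit false

open Finset Pointwise

namespace Pool.Agent.H59.KM

open Pool.Agent.H59.Kneser
open Pool.Agent.H59.KG
open Pool.Agent.H59.KL (SF)

section arith

variable {k l κ p : ℕ}

lemma BP.three (h : BP k l κ p 1) (hl : 0 < l) (hlk : l < k) (hAB : AB k l κ) :
    3 ≤ p ∧ p + 2 ≤ k + l ∧ k + l < p * p := by
  have h1 := h.low hl hlk
  have h2 := h.high hl hlk hAB
  have h3 := h.prime.two_le
  rw [pow_one] at h1
  have e : p ^ (1 + 1) = p * p := by ring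
  rw [e] at h2
  refine ⟨?_, h1, h2⟩
  by_contra hcon
  have hp : p = 2 := by omega
  subst hp
  omega

lemma ar_e1 (s p m i : ℤ) (hp : 3 ≤ p) (hs : p + 4 ≤ s) (h : p * p = s * m + i) (hi1 : 1 ≤ i)
    (hi : i ≤ p) (hm : 1 ≤ m) : i ≤ (s - p - 1) * m := by
  rcases lt_or_ge p 4 with h4 | h4
  · have hp3 : p = 3 := by linarith
    have h1 : (s - p - 1) * 1 ≤ (s - p - 1) * m :=
      mul_le_mul_of_nonneg_left hm (by linarith)
    linarith
  · have hm3 : m ≤ p - 3 := by
      by_contra hcon
      push Not at hcon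
      have h1 : p - 2 ≤ m := by linarith
      have h2 : (p + 4) * (p - 2) ≤ s * m := by
        apply mul_le_mul hs h1 (by linarith) (by linarith)
      nlinarith
    have h1 : (p + 1) * m ≤ (p + 1) * (p - 3) := mul_le_mul_of_nonneg_left hm3 (by linarith)
    nlinarith

lemma ar_e2 (s p m i : ℤ) (hp : 3 ≤ p) (hs : 2 * p + 2 ≤ s) (h : p * p = s * m + i)
    (hi1 : 1 ≤ i) (hi : i ≤ p) (hm : 1 ≤ m) (hodd : p % 2 = 1) : i ≤ (s - 2 * p) * m := by
  rcases lt_or_ge (2 * m + 1) p with h1 | h1
  · have h2 : p * (2 * m) ≤ p * (p - 2) := mul_le_mul_of_nonneg_left (by linarith) (by linarith)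
    nlinarith
  · have h2 : p ≤ 2 * m + 1 := h1
    have h3 : 2 * m + 1 ≤ p := by
      by_contra hcon
      push Not at hcon
      have h4 : p + 1 ≤ 2 * m := by omega
      have h5 : (2 * p + 2) * (p + 1) ≤ s * (2 * m) :=
        mul_le_mul hs h4 (by linarith) (by linarith)
      nlinarith
    have h4 : p = 2 * m + 1 := le_antisymm h2 h3
    have h5 : s ≤ 2 * p + 2 := by
      by_contra hcon
      push Not at hcon
      have h6 : (2 * p + 3) * m ≤ s * m := mul_le_mul_of_nonneg_right (by linarith) (by linarith)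
      rw [h4] at h h6
      nlinarith
    have h6 : s = 2 * p + 2 := le_antisymm h5 hs
    rw [h6, h4] at h
    rw [h6]
    nlinarith

/-- `k - l` is a multiple of `p`. -/
lemma BP.mult (h : BP k l κ p 1) (hl : 0 < l) (hlk : l < k) :
    (k = l + p) ∨ 2 * p + 2 ≤ k + l := by
  obtain ⟨u, hu⟩ := h.dvd
  rw [pow_one] at hu
  rcases Nat.lt_or_ge u 2 with h1 | h1
  · rcases Nat.eq_zero_or_pos u with h0 | h0
    · rw [h0, mul_zero] at hu; omega
    · have : u = 1 := by omega
      rw [this, mul_one] at hu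
      left; omega
  · right
    have : p * 2 ≤ p * u := Nat.mul_le_mul_left _ h1
    omega

/-- `l = 1`, `k = p + 1` is impossible. -/
lemma BP.not_small (h : BP k l κ p 1) (hl : 0 < l) (hlk : l < k) (hAB : AB k l κ) :
    k + l ≠ p + 2 := by
  intro hs
  obtain ⟨h3, -, -⟩ := h.three hl hlk hAB
  rcases h.mult hl hlk with hk | hk
  · have hl1 : l = 1 := by omega
    subst hl1
    have hd : p * p ∣ κ := by
      have := h.dκ
      rwa [show p ^ (1 + 1) = p * p by ring] at this
    have hg : Nat.gcd (p * p) (k - 1) = p := by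
      have : k - 1 = p := by omega
      rw [this]
      exact Nat.gcd_eq_right (Dvd.intro_left _ rfl)
    have h1 := mz_interval k 1 (p * p) (p - 2) 1 hlk (by rw [hg]; omega) (by
      rw [hg, hk]
      obtain ⟨c, hc⟩ : ∃ c, p = c + 2 := ⟨p - 2, by omega⟩
      rw [hc, Nat.add_sub_cancel]
      nlinarith)
    have h2 := hAB _ hd
    have h4 : (k + 1) * (p - 2 + 1) ≤ (k + 1) * mz k 1 (p * p) := Nat.mul_le_mul_left _ h1
    rw [hs] at h2 h4
    obtain ⟨c, hc⟩ : ∃ c, p = c + 2 := ⟨p - 2, by omega⟩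
    rw [hc] at h2 h4
    rw [Nat.add_sub_cancel] at h4
    nlinarith
  · omega

lemma BP.j3 (h : BP k l κ p 1) (hl : 0 < l) (hlk : l < k) (hAB : AB k l κ) (j : ℕ)
    (hj : 3 ≤ j) : p ≤ p ^ j / (k + l) := by
  obtain ⟨h3, h4, h5⟩ := h.three hl hlk hAB
  rw [Nat.le_div_iff_mul_le (by omega)]
  have h6 : p ^ 3 ≤ p ^ j := Nat.pow_le_pow_right h.prime.pos hj
  have h7 : p * (k + l) ≤ p * (p * p) := Nat.mul_le_mul_left _ (by omega)
  have e : p ^ 3 = p * (p * p) := by ring
  omega

/-- The criterion used against fibres with three elements. -/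
lemma BP.crit_three (h : BP k l κ p 1) (hl : 0 < l) (hlk : l < k) (hAB : AB k l κ) (q : ℕ)
    (hq : p = 2 * q + 1) : Crit k l κ (k + l - (q + 1)) := by
  obtain ⟨h3, h4, h5⟩ := h.three hl hlk hAB
  have hns := h.not_small hl hlk hAB
  have hs4 : p + 4 ≤ k + l := by
    rcases h.mult hl hlk with hk | hk <;> omega
  apply h.crit hl hlk hAB _ (by omega)
  intro j hj hjκ
  obtain ⟨m, i, hji, hi1, hi2, hi3, hm⟩ := h.powdata hl hlk hAB j hjκ
  rw [hm, hji]
  rw [pow_one] at hi2
  have hred : i ≤ (k + l - p - 1) * m → (k + l) * m + i ≤ 2 * (k + l - (q + 1)) * m := by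
    intro hi
    have e : 2 * (k + l - (q + 1)) = (k + l) + (k + l - p - 1) := by omega
    have e2 : 2 * (k + l - (q + 1)) * m = (k + l) * m + (k + l - p - 1) * m := by
      rw [e]; ring
    omega
  apply hred
  rcases Nat.lt_or_ge j 3 with h6 | h6
  · have hj2 : j = 2 := by omega
    subst hj2
    have hm1 : 1 ≤ m := by
      rcases Nat.eq_zero_or_pos m with h0 | h0
      · rw [h0, sq] at hji
        have : p * 1 < p * p := Nat.mul_lt_mul_of_pos_left (by omega) (by omega)
        omega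
      · exact h0
    have h7 := ar_e1 (k + l : ℤ) p m i (by exact_mod_cast h3) (by exact_mod_cast hs4)
      (by rw [sq] at hji; exact_mod_cast hji) (by exact_mod_cast hi1) (by exact_mod_cast hi2)
      (by exact_mod_cast hm1)
    have h8 : ((k + l - p - 1 : ℕ) : ℤ) = (k : ℤ) + l - p - 1 := by
      rw [Nat.cast_sub (by omega), Nat.cast_sub (by omega)]; push_cast; ring
    have h9 : (i : ℤ) ≤ (((k + l - p - 1) * m : ℕ) : ℤ) := by
      rw [Nat.cast_mul, h8]; exact h7
    exact_mod_cast h9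
  · have h7 := h.j3 hl hlk hAB j h6
    rw [hm] at h7
    have h8 : 1 * m ≤ (k + l - p - 1) * m := Nat.mul_le_mul_right _ (by omega)
    omega

/-- The criterion when `k + l ≥ 2 p + 2`. -/
lemma BP.crit_one (h : BP k l κ p 1) (hl : 0 < l) (hlk : l < k) (hAB : AB k l κ)
    (hs : 2 * p + 2 ≤ k + l) : Crit k l κ (k + l - p) := by
  obtain ⟨h3, h4, h5⟩ := h.three hl hlk hAB
  have hodd : p % 2 = 1 := by
    rcases h.prime.eq_two_or_odd with h | h <;> omega
  apply h.crit hl hlk hAB _ (by omega)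
  intro j hj hjκ
  obtain ⟨m, i, hji, hi1, hi2, hi3, hm⟩ := h.powdata hl hlk hAB j hjκ
  rw [hm, hji]
  rw [pow_one] at hi2
  have hred : i ≤ (k + l - 2 * p) * m → (k + l) * m + i ≤ 2 * (k + l - p) * m := by
    intro hi
    have e : 2 * (k + l - p) = (k + l) + (k + l - 2 * p) := by omega
    have e2 : 2 * (k + l - p) * m = (k + l) * m + (k + l - 2 * p) * m := by
      rw [e]; ring
    omega
  apply hred
  rcases Nat.lt_or_ge j 3 with h6 | h6
  · have hj2 : j = 2 := by omega
    subst hj2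
    have hm1 : 1 ≤ m := by
      rcases Nat.eq_zero_or_pos m with h0 | h0
      · rw [h0, sq] at hji
        have : p * 1 < p * p := Nat.mul_lt_mul_of_pos_left (by omega) (by omega)
        omega
      · exact h0
    have h7 := ar_e2 (k + l : ℤ) p m i (by exact_mod_cast h3) (by exact_mod_cast hs)
      (by rw [sq] at hji; exact_mod_cast hji) (by exact_mod_cast hi1) (by exact_mod_cast hi2)
      (by exact_mod_cast hm1) (by exact_mod_cast hodd)
    have h8 : ((k + l - 2 * p : ℕ) : ℤ) = (k : ℤ) + l - 2 * p := by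
      rw [Nat.cast_sub (by omega)]; push_cast; ring
    have h9 : (i : ℤ) ≤ (((k + l - 2 * p) * m : ℕ) : ℤ) := by
      rw [Nat.cast_mul, h8]; exact h7
    exact_mod_cast h9
  · have h7 := h.j3 hl hlk hAB j h6
    rw [hm] at h7
    have h8 : 1 * m ≤ (k + l - 2 * p) * m := Nat.mul_le_mul_right _ (by omega)
    omega

/-- The exact shape of the quotient for `k = l + p`. -/
lemma BP.exact (h : BP k l κ p 1) (hl : 0 < l) (hlk : l < k) (hAB : AB k l κ)
    (hk : k = l + p) (m i : ℕ) (hm : p * p = (k + l) * m + i) (hi : 1 ≤ i) (hip : i ≤ p) :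
    ∃ c, m + 2 * c + 1 = p ∧ 1 ≤ c ∧ p ≤ l * m := by
  obtain ⟨h3, h4, h5⟩ := h.three hl hlk hAB
  have hd : p * p ∣ κ := by
    have := h.dκ
    rwa [show p ^ (1 + 1) = p * p by ring] at this
  have hg : Nat.gcd (p * p) (k - l) = p := by
    have : k - l = p := by omega
    rw [this]
    exact Nat.gcd_eq_right (Dvd.intro_left _ rfl)
  have h2 := hAB _ hd
  obtain ⟨c, hc⟩ : ∃ c, c = (l * m) / p := ⟨_, rfl⟩
  have hc1 := Nat.div_add_mod (l * m) p
  have hc2 := Nat.mod_lt (l * m) (by omega : p > 0)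
  rw [← hc] at hc1
  set z := l * m % p with hz
  have h6 : p * p ≤ p * (c + 1) + k * m := by
    by_contra hcon
    push Not at hcon
    have h7 := mz_interval k l (p * p) m (c + 1) hlk (by rw [hg, mul_add]; omega)
      (by rw [hg]; exact hcon)
    have h8 : (k + l) * (m + 1) ≤ (k + l) * mz k l (p * p) := Nat.mul_le_mul_left _ h7
    have h9 : (k + l) * (m + 1) = (k + l) * m + (k + l) := by ring
    omega
  have h7 : m + 2 * c < p := by
    by_contra hcon
    push Not at hcon
    have h8 : p * p ≤ p * (m + 2 * c) := Nat.mul_le_mul_left _ hcon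
    have e1 : (k + l) * m = p * m + 2 * (l * m) := by rw [hk]; ring
    have e2 : p * (m + 2 * c) = p * m + 2 * (p * c) := by ring
    omega
  have h8 : p < m + 2 * c + 2 := by
    by_contra hcon
    push Not at hcon
    have h9 : p * (m + 2 * c + 2) ≤ p * p := Nat.mul_le_mul_left _ hcon
    have e1 : k * m = p * m + l * m := by rw [hk]; ring
    have e2 : p * (m + 2 * c + 2) = p * m + 2 * (p * c) + 2 * p := by ring
    have e3 : p * (c + 1) = p * c + p := by ring
    omega
  refine ⟨c, by omega, ?_, ?_⟩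
  · by_contra hcon
    have hc0 : c = 0 := by omega
    have hmp : m + 1 = p := by omega
    have h9 : (p + 2) * m ≤ (k + l) * m := Nat.mul_le_mul_right _ (by omega)
    rw [← hmp] at hm h9
    nlinarith
  · have h9 : 1 ≤ c := by
      by_contra hcon
      have hc0 : c = 0 := by omega
      have hmp : m + 1 = p := by omega
      have h9 : (p + 2) * m ≤ (k + l) * m := Nat.mul_le_mul_right _ (by omega)
      rw [← hmp] at hm h9
      nlinarith
    have h10 : p * 1 ≤ p * c := Nat.mul_le_mul_left _ h9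
    omega

end arith

end Pool.Agent.H59.KM
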