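import Mathlib
import Pool.Agent.H59.KM7

set_option autoImplicit false

open Finset Pointwise

namespace Pool.Agent.H59.KM

open Pool.Agent.H59.Kneser
open Pool.Agent.H59.KG
open Pool.Agent.H59.KL (SF)

section arith

lemma ar_m2 (p q c l m w y' : ℤ) (hp : p = 2 * q + 1) (hc : m + 2 * c + 1 = p)
    (hlm : p ≤ l * m) (h1 : m * y' < 2 * w) (h2 : 2 * l * w + 2 ≤ p * y' + 2 * l)
    (hl : 1 ≤ l) (hy : 0 ≤ y') : False := by
  have hm : m = 2 * (q - c) := by linarith
  rw [hm] at h1
  have h3 : (q - c) * y' + 1 ≤ w := by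
    have : 2 * ((q - c) * y') < 2 * w := by linarith
    linarith
  have h4 : 2 * l * ((q - c) * y' + 1) ≤ 2 * l * w := mul_le_mul_of_nonneg_left h3 (by linarith)
  have h5 : p * y' ≤ (l * m) * y' := mul_le_mul_of_nonneg_right hlm hy
  rw [hm] at h5
  linarith

lemma ar_m3 (p c l m w y r q' s : ℤ) (hc : m + 2 * c + 1 = p) (hc1 : 1 ≤ c)
    (hlm : p ≤ l * m) (hs : s = p + 2 * l) (hr : r = s * q' + 1) (hq' : 2 ≤ q') (hy : r ≤ y)
    (h1 : p * q' * y < 2 * w * r) (h2 : 2 * l * w + 2 ≤ y + 2 * l) (hl : 1 ≤ l) (hm : 2 ≤ m) :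
    False := by
  have hp5 : 5 ≤ p := by linarith
  have hl2 : 2 ≤ l := by
    by_contra hcon
    push Not at hcon
    have : l = 1 := by linarith
    rw [this, one_mul] at hlm
    linarith
  have hs0 : 0 < s := by linarith
  have hr0 : 0 < r := by nlinarith
  have h3 : l * (p * q' * y) < l * (2 * w * r) := mul_lt_mul_of_pos_left h1 (by linarith)
  have h4 : (2 * l * w) * r ≤ (y + 2 * l - 2) * r :=
    mul_le_mul_of_nonneg_right (by linarith) hr0.le
  have h5 : y * (q' * (l * p - s) - 1) < r * (2 * l - 2) := by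
    have e : y * (q' * (l * p - s) - 1) = l * (p * q' * y) - y * r := by rw [hr]; ring
    rw [e]
    linarith
  -- `l p - s > 0`
  have h6 : 2 * (p * (l - 1)) ≥ 6 * l - 1 := by
    rcases lt_or_ge l 3 with h | h
    · have hl2' : l = 2 := by linarith
      rw [hl2'] at hlm ⊢
      rcases lt_or_ge p 6 with h7 | h7
      · exfalso
        have hp : p = 5 := by linarith
        have : m ≤ 2 := by linarith
        linarith
      · linarith
    · have : 5 * (l - 1) ≤ p * (l - 1) := mul_le_mul_of_nonneg_right hp5 (by linarith)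
      linarith
  have h7 : 2 * l - 1 ≤ 2 * (l * p - s) := by rw [hs]; linarith
  have h8 : 0 ≤ l * p - s := by linarith
  have h9 : 2 * (l * p - s) ≤ q' * (l * p - s) := mul_le_mul_of_nonneg_right hq' h8
  have h10 : r * (q' * (l * p - s) - 1) ≤ y * (q' * (l * p - s) - 1) :=
    mul_le_mul_of_nonneg_right hy (by linarith)
  have h11 : r * (2 * l - 2) ≤ r * (q' * (l * p - s) - 1) :=
    mul_le_mul_of_nonneg_left (by linarith) hr0.le
  linarith

end arith

section mv

variable {X : Type} [AddCommGroup X] [Fintype X] [DecidableEq X]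
variable {a b κ : ℕ} {V W : Finset X}

lemma count_two {Y₀ Y : Type} [AddCommGroup Y₀] [Fintype Y₀] [DecidableEq Y₀]
    [AddCommGroup Y] [Fintype Y] [DecidableEq Y] (f₀ : X →+ Y₀) (p : ℕ) (hf₀ : Nice f₀ p)
    (f : X →+ Y) (n : ℕ) (hf : Nice f n) (hker : ∀ x, f₀ x = 0 → f x = 0)
    (hM : ∀ c, (fib f₀ W c).card ≤ 2) : p * W.card ≤ 2 * ((W.image f).card * n) := by
  rw [← card_preimage f n hf (W.image f)]
  set D : Finset X := univ.filter (fun x => f x ∈ W.image f) with hD
  have h1 : ∀ w ∈ W, p = ∑ x ∈ D, if f₀ x = f₀ w then 1 else 0 := by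
    intro w hw
    rw [← card_filter, ← hf₀.card_fib (f₀ w)]
    congr 1
    ext x
    rw [mem_fib, mem_filter, hD, mem_filter]
    constructor
    · rintro ⟨_, hx⟩
      refine ⟨⟨mem_univ _, ?_⟩, hx⟩
      have h2 : f₀ (x - w) = 0 := by rw [map_sub, hx, sub_self]
      have h3 := hker _ h2
      rw [map_sub, sub_eq_zero] at h3
      rw [h3]
      exact mem_image_of_mem f hw
    · rintro ⟨_, hx⟩
      exact ⟨mem_univ _, hx⟩
  have h2 : p * W.card = ∑ w ∈ W, ∑ x ∈ D, if f₀ x = f₀ w then 1 else 0 := by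
    rw [← sum_congr rfl h1, sum_const, smul_eq_mul, mul_comm]
  rw [h2, sum_comm]
  calc ∑ x ∈ D, ∑ w ∈ W, (if f₀ x = f₀ w then 1 else 0) ≤ ∑ x ∈ D, 2 := by
        apply sum_le_sum
        intro x _
        rw [← card_filter]
        refine le_trans (le_of_eq ?_) (hM (f₀ x))
        congr 1
        ext w
        rw [mem_filter, mem_fib]
        constructor
        · rintro ⟨h3, h4⟩; exact ⟨h3, h4.symm⟩
        · rintro ⟨h3, h4⟩; exact ⟨h3, h4.symm⟩
    _ = 2 * D.card := by rw [sum_const, smul_eq_mul, mul_comm]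

/-- Injectivity when `p ^ 2` does not divide `k - l`. -/
lemma MV.inj_one (h : MV a b κ V W) (hba : b ≤ a) (hAB : AB (a + 2) (b + 1) κ) (p : ℕ)
    (hbp : BP (a + 2) (b + 1) κ p 1) (w : X) (hw : w ∈ W) (w' : X) (hw' : w' ∈ W)
    (hww : p • (w' - w) = 0) : w' = w := by
  have hκ0 := hAB.ne
  have hp := hbp.prime
  obtain ⟨hp3, hs1, hs2⟩ := hbp.three (by omega) (by omega) hAB
  have e0 : a + 2 + (b + 1) = a + b + 3 := by ring
  have hpg : p ∣ a + 1 - b := by
    rw [← sub_eq hba]
    have := hbp.dvd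
    rwa [pow_one] at this
  have hpa : p ≤ a + 1 := by
    have h1 := Nat.le_of_dvd (by omega) hpg
    omega
  rcases hbp.mult (by omega) (by omega) with hk | hk
  swap
  · have hcr := hbp.crit_one (by omega) (by omega) hAB hk
    rw [e0] at hcr
    exact h.no_diff hba hκ0 p hp (by omega) hcr w w' hw hw' hww
  by_contra hne
  have hne' : w' - w ≠ 0 := sub_ne_zero.mpr hne
  have : Fact p.Prime := ⟨hp⟩
  have hord : addOrderOf (w' - w) = p := addOrderOf_eq_prime hww hne'
  obtain ⟨q, hq⟩ : ∃ q, p = 2 * q + 1 := by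
    have : p % 2 = 1 := by rcases hp.eq_two_or_odd with h | h <;> omega
    exact ⟨p / 2, by omega⟩
  set H := AddSubgroup.zmultiples (w' - w) with hH
  have hHc : Nat.card H = p := by rw [hH, Nat.card_zmultiples, hord]
  obtain ⟨Y₀, j1, j2, j3, f₀, hsurj₀, hker₀, hnice₀⟩ := exists_quot H
  rw [hHc] at hnice₀
  have hkerp : ∀ g, f₀ g = 0 → p • g = 0 := by
    intro g hg
    rw [hker₀, hH, AddSubgroup.mem_zmultiples_iff] at hg
    obtain ⟨k, rfl⟩ := hg
    rw [smul_comm, hww, smul_zero]
  -- fibres have at most two elements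
  have hM : ∀ c, (fib f₀ W c).card ≤ 2 := by
    intro c
    by_contra hcon
    push Not at hcon
    obtain ⟨x, hx⟩ := card_pos.mp (by omega : 0 < (fib f₀ W c).card)
    rw [mem_fib] at hx
    obtain ⟨hxW, hxc⟩ := hx
    subst hxc
    have hcr := hbp.crit_three (by omega) (by omega) hAB q hq
    refine h.no_fill hba hκ0 x hxW q (by omega) H (by rw [hHc]; exact hp.two_le) ?_ ?_
    · intro z hz
      exact fill_lev hnice₀ hp hkerp W x 3 q (by norm_num) (by omega) (by omega) z
        ((hker₀ z).mpr hz)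
    · have e1 : a + b + 2 - q = a + 2 + (b + 1) - (q + 1) := by omega
      rw [e1]; exact hcr
  -- the sum with `p - 1` copies of `{w, w'}`
  classical
  set U : Finset X := univ.filter (· ∈ H) with hUdef
  have hU : ∀ x, x ∈ U ↔ x ∈ H := fun x => by simp [hUdef]
  have hfib2 : 2 ≤ (fib f₀ W (f₀ w)).card := by
    have h1 : ({w, w'} : Finset X) ⊆ fib f₀ W (f₀ w) := by
      intro z hz
      rw [mem_insert, mem_singleton] at hz
      rw [mem_fib]
      rcases hz with rfl | rfl
      · exact ⟨hw, rfl⟩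
      · refine ⟨hw', ?_⟩
        have : f₀ (z - w) = 0 := (hker₀ _).mpr (by rw [hH]; exact AddSubgroup.mem_zmultiples _)
        rwa [map_sub, sub_eq_zero] at this
    have h2 := card_le_card h1
    rwa [card_pair (fun hh => hne hh.symm)] at h2
  have hfill : ∀ x ∈ H, (p - 1) • w + x ∈ R (p - 1) 0 W := by
    intro x hx
    exact fill_lev hnice₀ hp hkerp W w 2 (p - 1) (by norm_num) hfib2 (by omega) x
      ((hker₀ x).mpr hx)
  have h0 := h.filler w (p - 1) (by omega) H hfill U hU
  have hUT := mem_univ_filter_st H U (V + R (a + 1 - (p - 1)) (b + 1) W) hU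
    (V + (U + R (a + 1 - (p - 1)) (b + 1) W)) (by abel)
  obtain ⟨Y, i1, i2, i3, f, hsurj, hker, hnice, ⟨y0, hy0⟩, hle⟩ := h.period hba w hw (p - 1)
    (by omega) U _ (by rw [hU]; exact H.zero_mem) rfl hUT h0
  set T := V + (U + R (a + 1 - (p - 1)) (b + 1) W) with hT
  have hcount := count_two (W := W) f₀ p hnice₀ f _ hnice (by
    intro x hx
    rw [hker]
    apply hUT
    rw [hU]
    exact (hker₀ x).mp hx) hM
  have hYk := killed_of_surj κ f hsurj h.kill
  have hstp : 1 ≤ (st T).card := hnice.pos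
  -- `2 κ w > p μ y`
  have hκpos : 0 < κ := Nat.pos_of_ne_zero hκ0
  set μ := mz (a + 2) (b + 1) κ with hμdef
  have hbig : p * μ * Fintype.card Y < 2 * κ * (W.image f).card := by
    have h1 := h.big
    rw [hnice.card, ← hμdef] at h1
    have h2 := h.W_le
    have h3 : κ * (V.card + W.card) ≤ κ * (2 * W.card) := Nat.mul_le_mul_left _ (by omega)
    have h4 : (p * μ * Fintype.card Y) * (2 * (st T).card) <
        (2 * κ * (W.image f).card) * (2 * (st T).card) := by
      calc (p * μ * Fintype.card Y) * (2 * (st T).card)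
          = p * (2 * μ * (Fintype.card Y * (st T).card)) := by ring
        _ < p * (κ * (2 * W.card)) :=
          Nat.mul_lt_mul_of_pos_left (lt_of_lt_of_le h1 h3) (by omega)
        _ = 2 * κ * (p * W.card) := by ring
        _ ≤ 2 * κ * (2 * ((W.image f).card * (st T).card)) := Nat.mul_le_mul_left _ hcount
        _ = (2 * κ * (W.image f).card) * (2 * (st T).card) := by ring
    exact Nat.lt_of_mul_lt_mul_right h4
  -- arithmetic data
  have hdκ : p * p ∣ κ := by
    have := hbp.dκ
    rwa [show p ^ (1 + 1) = p * p by ring] at this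
  obtain ⟨m, i, hji, hi1, hi2, hi3, hm⟩ := hbp.powdata (by omega) (by omega) hAB 2 (by
    rw [sq]; exact hdκ)
  rw [sq] at hji hm
  rw [pow_one] at hi2
  obtain ⟨c, hc, hc1, hlm⟩ := hbp.exact (by omega) (by omega) hAB hk m i hji hi1 hi2
  have hfl := mz_floor (a + 2) (b + 1) (p * p) (by omega) (by omega)
  rw [hm] at hfl
  have hmono := mz_mono (a + 2) (b + 1) (by omega) _ κ hκ0 hdκ
  rw [← hμdef] at hmono
  have hmκ : m * κ ≤ μ * (p * p) := (Nat.mul_le_mul_right _ hfl).trans hmono
  have hle' : 2 * (b + 1) * (W.image f).card + 2 ≤ Fintype.card Y + 2 * (b + 1) := by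
    have e1 : a + b + 2 - (p - 1) = 2 * (b + 1) := by omega
    rwa [e1] at hle
  have hm0 : 1 ≤ m := by
    rcases Nat.eq_zero_or_pos m with h0 | h0
    · rw [h0, mul_zero] at hlm; omega
    · exact h0
  have hm2 : 2 ≤ m := by omega
  by_cases hpy : p ∣ Fintype.card Y
  · obtain ⟨y', hy'⟩ := hpy
    rw [hy'] at hbig hle'
    have h1 : m * y' < 2 * (W.image f).card := by
      have h2 : κ * (m * y') < κ * (2 * (W.image f).card) := by
        calc κ * (m * y') = (m * κ) * y' := by ring
          _ ≤ (μ * (p * p)) * y' := Nat.mul_le_mul_right _ hmκ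
          _ = p * μ * (p * y') := by ring
          _ < 2 * κ * (W.image f).card := hbig
          _ = κ * (2 * (W.image f).card) := by ring
      exact Nat.lt_of_mul_lt_mul_left h2
    apply ar_m2 p q c (b + 1) m (W.image f).card y'
    · exact_mod_cast hq
    · exact_mod_cast hc
    · exact_mod_cast hlm
    · exact_mod_cast h1
    · exact_mod_cast hle'
    · have : (0 : ℤ) ≤ b := by positivity
      linarith
    · positivity
  · -- a pure prime factor `r` of `|Y|`
    have hY1 : Fintype.card Y ≠ 1 := by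
      intro h1
      have hsub : Subsingleton Y := Fintype.card_le_one_iff_subsingleton.mp (by omega)
      exact hy0 (Subsingleton.elim _ _)
    set r := (Fintype.card Y).minFac with hr
    have hrp : r.Prime := Nat.minFac_prime hY1
    have hrY : r ∣ Fintype.card Y := Nat.minFac_dvd _
    have hrκ : r ∣ κ := prime_dvd_of_killed κ hYk r hrp hrY
    have hrne : r ≠ p := fun hh => hpy (hh ▸ hrY)
    have hmod := hbp.pure (by omega) (by omega) hAB r hrp hrκ hrne
    rw [e0] at hmod
    have hdm := Nat.div_add_mod r (a + b + 3)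
    rw [hmod] at hdm
    set q' := r / (a + b + 3) with hq'
    have hq2 : 2 ≤ q' := by
      by_contra hcon
      rcases Nat.le_one_iff_eq_zero_or_eq_one.mp (Nat.lt_succ_iff.mp (not_le.mp hcon)) with
        h1 | h1
      · rw [h1, mul_zero, zero_add] at hdm
        exact hrp.ne_one hdm.symm
      · rw [h1, mul_one] at hdm
        have h2 : 2 ∣ r := ⟨q + b + 2, by omega⟩
        have h3 := (Nat.prime_dvd_prime_iff_eq Nat.prime_two hrp).mp h2
        omega
    have hfl2 := mz_floor (a + 2) (b + 1) r (by omega) (by omega)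
    rw [e0, ← hq'] at hfl2
    have hmono2 := mz_mono (a + 2) (b + 1) (by omega) _ κ hκ0 hrκ
    rw [← hμdef] at hmono2
    have hqκ : q' * κ ≤ μ * r := (Nat.mul_le_mul_right _ hfl2).trans hmono2
    have h1 : p * q' * Fintype.card Y < 2 * (W.image f).card * r := by
      have h2 : κ * (p * q' * Fintype.card Y) < κ * (2 * (W.image f).card * r) := by
        calc κ * (p * q' * Fintype.card Y) = p * Fintype.card Y * (q' * κ) := by ring
          _ ≤ p * Fintype.card Y * (μ * r) := Nat.mul_le_mul_left _ hqκ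
          _ = (p * μ * Fintype.card Y) * r := by ring
          _ < (2 * κ * (W.image f).card) * r := Nat.mul_lt_mul_of_pos_right hbig hrp.pos
          _ = κ * (2 * (W.image f).card * r) := by ring
      exact Nat.lt_of_mul_lt_mul_left h2
    have hry : r ≤ Fintype.card Y := Nat.le_of_dvd Fintype.card_pos hrY
    apply ar_m3 p c (b + 1) m (W.image f).card (Fintype.card Y) r q' (a + b + 3)
    · exact_mod_cast hc
    · exact_mod_cast hc1
    · exact_mod_cast hlm
    · have : ((a + b + 3 : ℕ) : ℤ) = ((p + 2 * (b + 1) : ℕ) : ℤ) := by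
        congr 1; omega
      push_cast at this
      linarith
    · exact_mod_cast hdm.symm
    · exact_mod_cast hq2
    · exact_mod_cast hry
    · exact_mod_cast h1
    · exact_mod_cast hle'
    · have : (0 : ℤ) ≤ b := by positivity
      linarith
    · exact_mod_cast hm2

/-- The contradiction for a noncyclic `p`-part, when `p ^ 2` does not divide `k - l`. -/
lemma MV.bad_one (h : MV a b κ V W) (hba : b ≤ a) (hAB : AB (a + 2) (b + 1) κ) (p : ℕ)
    (hbp : BP (a + 2) (b + 1) κ p 1) (hQ : p * p ≤ (tor X p).card) : False := by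
  have hκ0 := hAB.ne
  have hinj := h.inj_one hba hAB p hbp
  obtain ⟨Y, i1, i2, i3, f, hsurj, hker, hnice⟩ := exists_quot (torG X p)
  rw [card_torG] at hnice
  have h1 : (W.image f).card = W.card := by
    apply card_image_of_injOn
    intro w hw w' hw' hww
    have h2 : f (w' - w) = 0 := by rw [map_sub, ← hww, sub_self]
    rw [hker, mem_torG] at h2
    exact (hinj w hw w' hw' h2).symm
  have h2 : W.card ≤ Fintype.card Y := by
    rw [← h1]; exact card_le_univ _
  have h3 := hnice.card
  have hdκ : p * p ∣ κ := by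
    have := hbp.dκ
    rwa [show p ^ (1 + 1) = p * p by ring] at this
  have hp := hbp.prime
  have hfl : 1 ≤ mz (a + 2) (b + 1) (p * p) := by
    obtain ⟨h4, h5, h6⟩ := hbp.three (by omega) (by omega) hAB
    refine le_trans ?_ (mz_floor (a + 2) (b + 1) (p * p) (by omega) (by omega))
    rw [Nat.le_div_iff_mul_le (by omega)]
    omega
  have hmono := mz_mono (a + 2) (b + 1) (by omega) _ κ hκ0 hdκ
  have h4 := h.big
  have h5 := h.W_le
  set μ := mz (a + 2) (b + 1) κ
  have h6 : κ ≤ μ * (p * p) := by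
    refine le_trans ?_ hmono
    exact Nat.le_mul_of_pos_left _ hfl
  have h7 : κ * (V.card + W.card) ≤ κ * (2 * W.card) := Nat.mul_le_mul_left _ (by omega)
  have h8 : κ * (2 * W.card) ≤ 2 * μ * Fintype.card X := by
    rw [h3]
    calc κ * (2 * W.card) ≤ (μ * (p * p)) * (2 * W.card) := Nat.mul_le_mul_right _ h6
      _ = 2 * μ * (W.card * (p * p)) := by ring
      _ ≤ 2 * μ * (Fintype.card Y * (tor X p).card) :=
        Nat.mul_le_mul_left _ (Nat.mul_le_mul h2 hQ)
  omega

end mv

end Pool.Agent.H59.KM
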