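import Mathlib
import Pool.Agent.H59.KM8

set_option autoImplicit false

open Finset Pointwise

namespace Pool.Agent.H59.KM

open Pool.Agent.H59.Kneser
open Pool.Agent.H59.KG
open Pool.Agent.H59.KL (SF)

section cyc

variable {X : Type} [AddCommGroup X] [Fintype X] [DecidableEq X]

/-- Sum-free sets in cyclic groups. -/
lemma sf_card_cyclic (k l : ℕ) (hcyc : AddMonoid.exponent X = Fintype.card X) (A : Finset X)
    (hA : SF k l A) : A.card ≤ mz k l (Fintype.card X) := by
  have h1 : IsAddCyclic X := IsAddCyclic.of_exponent_eq_card (by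
    rw [Nat.card_eq_fintype_card]; exact hcyc)
  obtain ⟨e⟩ : Nonempty (ZMod (Fintype.card X) ≃+ X) := by
    rw [← Nat.card_eq_fintype_card]
    exact ⟨zmodAddCyclicAddEquiv h1⟩
  have hne : Fintype.card X ≠ 0 := Fintype.card_ne_zero
  have : NeZero (Fintype.card X) := ⟨hne⟩
  have h2 := KL.sf_preimage k l A hA e.toAddMonoidHom
  have h3 := le_mz k l _ hne _ h2
  refine le_trans (le_of_eq ?_) h3
  symm
  apply card_bij (fun x _ => e x)
  · intro x hx
    exact (mem_filter.mp hx).2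
  · intro x _ y _ hxy
    exact e.injective hxy
  · intro z hz
    refine ⟨e.symm z, ?_, by simp⟩
    rw [mem_filter]
    refine ⟨mem_univ _, ?_⟩
    simpa using hz

variable {a b κ : ℕ} {V W : Finset X}

lemma MV.cyclic (h : MV a b κ V W) (hba : b ≤ a) (hAB : AB (a + 2) (b + 1) κ)
    (hcyc : AddMonoid.exponent X = Fintype.card X) : False := by
  have hκ0 := hAB.ne
  have hd : Fintype.card X ∣ κ := by
    rw [← hcyc]
    exact AddMonoid.exponent_dvd_of_forall_nsmul_eq_zero h.kill
  obtain ⟨w0, hw0⟩ := h.W_ne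
  have hdg : ¬ Fintype.card X ∣ (a + 2) - (b + 1) := by
    intro hc
    apply h.gw hba w0 hw0
    have e : a + 1 - b = (a + 2) - (b + 1) := by omega
    rw [e]
    rw [← hcyc] at hc
    exact AddMonoid.exponent_dvd_iff_forall_nsmul_eq_zero.mp hc w0
  obtain ⟨h1, h2⟩ := hAB.res (a + 2) (b + 1) κ (by omega) (by omega) _ hd
  have h3 := mz_floor (a + 2) (b + 1) (Fintype.card X) (by omega) (by omega)
  have h4 := hAB _ hd
  have h5 := Nat.div_add_mod (Fintype.card X) (a + 2 + (b + 1))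
  have h6 : Nat.gcd (Fintype.card X) (a + 2 - (b + 1)) ≤ a + 2 - (b + 1) :=
    Nat.le_of_dvd (by omega) (Nat.gcd_dvd_right _ _)
  have hbig := h.bigd hκ0 (Fintype.card X) 1 hd (by ring)
  have hap := h.aper_lt hba hAB
  have hVW := h.W_le
  have hVc := hVW
  set N := Fintype.card X with hN
  set m := N / (a + 2 + (b + 1)) with hm
  set i := N % (a + 2 + (b + 1)) with hi
  have e0 : a + 2 + (b + 1) = a + b + 3 := by ring
  rw [e0] at h4 h5
  have hmz : mz (a + 2) (b + 1) N = m := by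
    apply le_antisymm _ h3
    by_contra hcon
    push Not at hcon
    have h7 : (a + b + 3) * (m + 1) ≤ (a + b + 3) * mz (a + 2) (b + 1) N :=
      Nat.mul_le_mul_left _ hcon
    have h8 : i < a + 2 + (b + 1) := Nat.mod_lt _ (by omega)
    rw [mul_add, mul_one] at h7
    omega
  rw [hmz, mul_one] at hbig
  have hW1 : W.card ≤ m + 1 := by
    by_contra hcon
    push Not at hcon
    have h7 : (a + b + 1) * (m + 2) ≤ (a + b + 1) * W.card := Nat.mul_le_mul_left _ hcon
    have e1 : (a + b + 2) * W.card = (a + b + 1) * W.card + W.card := by ring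
    have e2 : (a + b + 3) * m = (a + b + 1) * m + 2 * m := by ring
    have e3 : (a + b + 1) * (m + 2) = (a + b + 1) * m + 2 * (a + b + 1) := by ring
    omega
  have hWc : W.card = m + 1 := by omega
  have hsd : (W \ V).card ≤ 1 := by
    rw [card_sdiff_of_subset h.sub]; omega
  -- `W` is not sum-free
  have hnot : ¬ SF (a + 2) (b + 1) W := by
    intro hSF
    have h7 := sf_card_cyclic (a + 2) (b + 1) hcyc W hSF
    rw [← hN, hmz] at h7
    omega
  rw [sf_iff_R, not_not, mem_R] at hnot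
  obtain ⟨P, Q, hP, hQ, hPW, hQW, hPQ⟩ := hnot
  have hPu : ∀ z ∈ P, z ∈ W \ V := by
    intro z hz
    rw [mem_sdiff]
    refine ⟨hPW z hz, ?_⟩
    intro hzV
    obtain ⟨P', h1, h2, h3⟩ := list_split P z hz
    apply h.noz.1
    rw [mem_add]
    refine ⟨z, hzV, P'.sum - Q.sum, ?_, ?_⟩
    · rw [mem_R]
      exact ⟨P', Q, by omega, hQ, fun x hx => hPW x (h2 x hx), hQW, rfl⟩
    · rw [hPQ, h3]; abel
  have hQu : ∀ z ∈ Q, z ∈ W \ V := by
    intro z hz
    rw [mem_sdiff]
    refine ⟨hQW z hz, ?_⟩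
    intro hzV
    obtain ⟨Q', h1, h2, h3⟩ := list_split Q z hz
    apply h.noz.2
    rw [mem_add]
    refine ⟨-z, by rw [mem_neg', neg_neg]; exact hzV, P.sum - Q'.sum, ?_, ?_⟩
    · rw [mem_R]
      exact ⟨P, Q', hP, by omega, hPW, fun x hx => hQW x (h2 x hx), rfl⟩
    · rw [hPQ, h3]; abel
  obtain ⟨u, hu⟩ : ∃ u, u ∈ P := List.exists_mem_of_length_pos (by omega)
  have huW : u ∈ W \ V := hPu u hu
  rw [card_le_one] at hsd
  have hP' : ∀ z ∈ P, z = u := fun z hz => hsd z (hPu z hz) u huW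
  have hQ' : ∀ z ∈ Q, z = u := fun z hz => hsd z (hQu z hz) u huW
  rw [List.eq_replicate_of_mem hP', List.eq_replicate_of_mem hQ', List.sum_replicate,
    List.sum_replicate, hP, hQ] at hPQ
  apply h.gw hba u (mem_sdiff.mp huW).1
  have e1 : (a + 2) • u = (a + 1 - b) • u + (b + 1) • u := by
    rw [← add_nsmul]; congr 1; omega
  rw [e1, add_sub_cancel_right] at hPQ
  exact hPQ.symm

end cyc

end Pool.Agent.H59.KM
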