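import Mathlib
import Pool.Agent.H59.KM9

set_option autoImplicit false

open Finset Pointwise

namespace Pool.Agent.H59.KM

open Pool.Agent.H59.Kneser
open Pool.Agent.H59.KG
open Pool.Agent.H59.KL (SF)

section arith

lemma arD0 (s q κ μ y v w : ℤ) (hs : 3 ≤ s) (hκ : 0 < κ) (hy : 1 ≤ y)
    (hE : 2 * (s - 1) * (s * q + 1) * (κ - s * μ) ≤ (s - 2) * κ)
    (h1 : 2 * μ * (y * (s * q + 1)) < κ * (v + w))
    (h2 : v + (s - 1) * w ≤ y * (s * q + 1) + (s - 2)) : q * y ≤ v := by
  by_contra hcon
  push Not at hcon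
  have hv : v ≤ q * y - 1 := by linarith
  have h3 : (s - 2) * v ≤ (s - 2) * (q * y - 1) := mul_le_mul_of_nonneg_left hv (by linarith)
  have h4 : (s - 1) * (v + w) ≤ y * (2 * (s - 1) * q + 1) := by linarith
  have h5 : κ * ((s - 1) * (v + w)) ≤ κ * (y * (2 * (s - 1) * q + 1)) :=
    mul_le_mul_of_nonneg_left h4 hκ.le
  have h6 : (s - 1) * (2 * μ * (y * (s * q + 1))) < (s - 1) * (κ * (v + w)) :=
    mul_lt_mul_of_pos_left h1 (by linarith)
  have h7 : y * ((s - 1) * (2 * μ * (s * q + 1))) < y * (κ * (2 * (s - 1) * q + 1)) := by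
    linarith
  have h8 := lt_of_mul_lt_mul_left h7 (by linarith)
  have h9 : s * ((s - 1) * (2 * μ * (s * q + 1))) < s * (κ * (2 * (s - 1) * q + 1)) :=
    mul_lt_mul_of_pos_left h8 (by linarith)
  linarith

lemma arD1 (s q κ μ y x : ℤ) (hs : 3 ≤ s) (hq : 1 ≤ q) (hκ : 0 < κ) (hy : s + 1 ≤ y)
    (hE : 2 * (s - 1) * (s * q + 1) * (κ - s * μ) ≤ (s - 2) * κ)
    (h1 : (s - 1) * x ≤ y + (s - 2)) : κ * x ≤ 2 * μ * y := by
  have hr : 0 < s * q + 1 := by nlinarith
  have hyq : 0 ≤ y * q - s * q - 1 := by nlinarith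
  have h2 : s * ((s * q + 1) * κ) * ((s - 1) * x) ≤ s * ((s * q + 1) * κ) * (y + (s - 2)) := by
    apply mul_le_mul_of_nonneg_left h1
    apply mul_nonneg (by linarith) (mul_pos hr hκ).le
  have h3 : y * (2 * (s - 1) * (s * q + 1) * (κ - s * μ)) ≤ y * ((s - 2) * κ) :=
    mul_le_mul_of_nonneg_left hE (by linarith)
  have h4 : 0 ≤ κ * ((s - 2) * (s * (y * q - s * q - 1))) := by
    apply mul_nonneg hκ.le
    apply mul_nonneg (by linarith)
    exact mul_nonneg (by linarith) hyq
  have h5 : (s * ((s * q + 1) * (s - 1))) * (κ * x) ≤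
      (s * ((s * q + 1) * (s - 1))) * (2 * μ * y) := by
    linarith
  exact le_of_mul_le_mul_left h5 (mul_pos (by linarith) (mul_pos hr (by linarith)))

lemma arD2 (s q d κ μ y S σ : ℤ) (hs : 3 ≤ s) (hq : 1 ≤ q) (hd : 1 ≤ d) (hκ : 0 < κ)
    (hsμ : s * μ < κ) (hy : 1 ≤ y)
    (hE : 2 * (s - 1) * (s * q + 1) * (κ - s * μ) ≤ (s - 2) * κ)
    (h1 : 2 * μ * (y * (s * q + 1)) < κ * S)
    (h2 : S ≤ (2 * q - d) * y + (d + 1) * σ) (h3 : κ * σ ≤ 2 * μ * y) : False := by
  have h4 : κ * S ≤ κ * ((2 * q - d) * y + (d + 1) * σ) := mul_le_mul_of_nonneg_left h2 hκ.le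
  have h5 : (d + 1) * (κ * σ) ≤ (d + 1) * (2 * μ * y) :=
    mul_le_mul_of_nonneg_left h3 (by linarith)
  have h6 : y * (2 * μ * (s * q + 1)) < y * (κ * (2 * q - d) + (d + 1) * (2 * μ)) := by linarith
  have h7 := lt_of_mul_lt_mul_left h6 (by linarith)
  have h8 : s * (2 * μ * (s * q - d)) < s * (κ * (2 * q - d)) := by
    apply mul_lt_mul_of_pos_left _ (by linarith)
    linarith
  -- `κ d (s - 2) < 2 ι (s q - d)`
  have h9 : κ * d * (s - 2) < 2 * (κ - s * μ) * (s * q - d) := by linarith
  have h10 : 2 * (κ - s * μ) * (s * q - d) ≤ 2 * (κ - s * μ) * (s * q + 1) := by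
    apply mul_le_mul_of_nonneg_left (by linarith) (by linarith)
  have h11 : (s - 1) * (κ * d * (s - 2)) < (s - 2) * κ := by
    have := mul_lt_mul_of_pos_left (lt_of_lt_of_le h9 h10) (by linarith : (0 : ℤ) < s - 1)
    linarith
  have h12 : (s - 2) * κ * 1 ≤ (s - 2) * κ * ((s - 1) * d) := by
    apply mul_le_mul_of_nonneg_left _ (mul_nonneg (by linarith) hκ.le)
    nlinarith
  linarith

lemma arD3 (s q κ μ y v x m : ℤ) (hs : 3 ≤ s) (hq : 1 ≤ q) (hκ : 0 < κ) (hsμ : s * μ < κ)
    (hy : 1 ≤ y) (hm : q < m) (h1 : q * y ≤ v) (h2 : 2 * v ≤ q * y + (m - q) * (2 * x))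
    (h3 : κ * (2 * x) ≤ 2 * μ * y) : s * q < 2 * (m - q) := by
  have h4 : κ * (2 * v) ≤ κ * (q * y) + (m - q) * (κ * (2 * x)) := by
    have := mul_le_mul_of_nonneg_left h2 hκ.le
    linarith
  have h5 : (m - q) * (κ * (2 * x)) ≤ (m - q) * (2 * μ * y) :=
    mul_le_mul_of_nonneg_left h3 (by linarith)
  have h6 : κ * (q * y) ≤ κ * v := mul_le_mul_of_nonneg_left h1 hκ.le
  have h7 : y * (κ * q) ≤ y * (2 * μ * (m - q)) := by linarith
  have h8 := le_of_mul_le_mul_left h7 (by linarith)
  have h9 : s * (κ * q) ≤ s * (2 * μ * (m - q)) := mul_le_mul_of_nonneg_left h8 (by linarith)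
  have h10 : (s * μ) * (m - q) < κ * (m - q) := mul_lt_mul_of_pos_right hsμ (by linarith)
  have h11 : κ * (s * q) < κ * (2 * (m - q)) := by linarith
  exact lt_of_mul_lt_mul_left h11 hκ.le

end arith

section mv

variable {X : Type} [AddCommGroup X] [Fintype X] [DecidableEq X]
variable {a b κ : ℕ} {V W : Finset X}

/-- Composition with a quotient map. -/
lemma nice_comp {Y Z : Type} [AddCommGroup Y] [Fintype Y] [DecidableEq Y] [AddCommGroup Z]
    [Fintype Z] [DecidableEq Z] (f : X →+ Y) (hs : Function.Surjective f) (r : ℕ)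
    (hf : Nice f r) (hr : 2 ≤ r) (g : Y →+ Z) (hg : Function.Surjective g) :
    ∃ n, Nice (g.comp f) n ∧ 2 ≤ n ∧ Function.Surjective (g.comp f) := by
  have hgf : Function.Surjective (g.comp f) := hg.comp hs
  obtain ⟨n, hn⟩ := nice_of_surj (g.comp f) hgf
  obtain ⟨n', hn'⟩ := nice_of_surj g hg
  refine ⟨n, hn, ?_, hgf⟩
  have h1 := hn.card
  have h2 := hf.card
  have h3 := hn'.card
  rw [h2, h3] at h1
  have hZ : 0 < Fintype.card Z := Fintype.card_pos
  have h4 : Fintype.card Z * (n' * r) = Fintype.card Z * n := by rw [← h1]; ring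
  have h5 := Nat.eq_of_mul_eq_mul_left hZ h4
  have h6 := hn'.pos
  nlinarith

/-- Kneser's theorem applied to two level sets and the support. -/
lemma MV.levels (h : MV a b κ V W) (hba : b ≤ a) (hκ0 : κ ≠ 0) {Y : Type} [AddCommGroup Y]
    [Fintype Y] [DecidableEq Y] (f : X →+ Y) (hs : Function.Surjective f) (r : ℕ)
    (hf : Nice f r) (hr : 2 ≤ r) (hcrit : Crit (a + 2) (b + 1) κ (a + b + 1))
    (A B : Finset Y) (hA : A.Nonempty) (hB : B.Nonempty) (hAW : A ⊆ W.image f)
    (hBW : B ⊆ W.image f) (h0 : (0 : Y) ∉ A + (B + R a (b + 1) (W.image f))) : False := by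
  have hW1 : (W.image f).Nonempty := h.W_ne.image f
  have hk := kneser_gen a (b + 1) A B (W.image f) hA hB hW1 _ rfl
  have hk2 := card_add_st_le _ _ h0
  set S := A + (B + R a (b + 1) (W.image f)) with hS
  obtain ⟨Z, i1, i2, i3, g, hsurj, hker, hnice⟩ := exists_quot (stab S)
  rw [card_stab] at hnice
  have hker' : ∀ x, g x = 0 ↔ x ∈ st S := hker
  have h1 : 1 ≤ (st S).card := hnice.pos
  by_cases hg : ∃ z : Z, (a + 1 - b) • z ≠ 0
  · obtain ⟨n, hn, hn2, hgs⟩ := nice_comp f hs r hf hr g hsurj
    apply h.crit hba hκ0 (a + b + 1) hcrit (g.comp f) hgs n hn hn2 hg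
    rw [card_add_ker hnice _ hker', card_add_ker hnice _ hker', card_add_ker hnice _ hker'] at hk
    rw [hnice.card] at hk2
    have hA1 : 1 ≤ (A.image g).card := (hA.image g).card_pos
    have hB1 : 1 ≤ (B.image g).card := (hB.image g).card_pos
    have e1 : W.image (g.comp f) = (W.image f).image g := by
      rw [image_image]; rfl
    rw [e1]
    have h3 : ((a + b + 1) * ((W.image f).image g).card + 2) * (st S).card ≤
        (Fintype.card Z + (a + b + 1)) * (st S).card := by
      have h4 : 1 * (st S).card ≤ (A.image g).card * (st S).card := Nat.mul_le_mul_right _ hA1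
      have h5 : 1 * (st S).card ≤ (B.image g).card * (st S).card := Nat.mul_le_mul_right _ hB1
      have e2 : (a + (b + 1)) = a + b + 1 := by ring
      rw [e2] at hk
      have e3 : ((a + b + 1) * ((W.image f).image g).card + 2) * (st S).card =
        (a + b + 1) * (((W.image f).image g).card * (st S).card) + 2 * (st S).card := by ring
      have e4 : (Fintype.card Z + (a + b + 1)) * (st S).card =
        Fintype.card Z * (st S).card + (a + b + 1) * (st S).card := by ring
      have e5 : (a + b + 1 + 1) * (st S).card = (a + b + 1) * (st S).card + (st S).card := by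
        ring
      rw [e3, e4]
      rw [e5] at hk
      omega
    exact Nat.le_of_mul_le_mul_right h3 h1
  · push Not at hg
    obtain ⟨a0, ha0⟩ := hA
    obtain ⟨b0, hb0⟩ := hB
    -- the trivial solution
    have h2 : (a + 1 - b) • b0 ∈ S := by
      rw [hS, mem_add]
      refine ⟨a0, ha0, b0 + (a • b0 - (a0 + b • b0)), add_mem_add hb0 ?_, ?_⟩
      · rw [mem_R]
        refine ⟨List.replicate a b0, a0 :: List.replicate b b0, by simp, by simp, ?_, ?_,
          by simp⟩
        · intro z hz
          rw [List.mem_replicate] at hz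
          rw [hz.2]; exact hBW hb0
        · intro z hz
          rw [List.mem_cons, List.mem_replicate] at hz
          rcases hz with rfl | hz
          · exact hAW ha0
          · rw [hz.2]; exact hBW hb0
      · have e1 : (a + 1) • b0 = (a + 1 - b) • b0 + b • b0 := by
          rw [← add_nsmul]; congr 1; omega
        have e2 : (a + 1) • b0 = a • b0 + b0 := succ_nsmul _ _
        have e3 : (a + 1 - b) • b0 = a • b0 + b0 - b • b0 := by
          rw [← e2, e1]; abel
        rw [e3]; abel
    have h3 : (a + 1 - b) • b0 ∈ st S := by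
      rw [← hker', map_nsmul]
      exact hg _
    have h4 := (mem_st _ _).mp (neg_mem_st _ _ h3) _ h2
    rw [neg_add_cancel] at h4
    exact h0 h4

/-- Fibres of `W` and the top levels: the case `s ≥ 5`. -/
lemma MV.dich (h : MV a b κ V W) (hba : b ≤ a) (hAB : AB (a + 2) (b + 1) κ) {Y : Type}
    [AddCommGroup Y] [Fintype Y] [DecidableEq Y] (f : X →+ Y) (hs : Function.Surjective f)
    (r : ℕ) (hr : r.Prime) (hf : Nice f r) (hker : ∀ g, f g = 0 → r • g = 0) (q : ℕ)
    (hq : r = (a + b + 3) * q + 1)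
    (hE : 2 * ((a + b + 3 : ℤ) - 1) * ((a + b + 3) * q + 1) *
      (κ - (a + b + 3) * mz (a + 2) (b + 1) κ) ≤ ((a + b + 3) - 2) * κ)
    (hy : a + b + 4 ≤ Fintype.card Y)
    (hno : (lev f V (q + 1)).Nonempty →
      κ * ((lev f V (q + 1)).card + (lev f W (q + 1)).card) ≤
        2 * mz (a + 2) (b + 1) κ * Fintype.card Y →
      q * Fintype.card Y ≤ V.card →
      ∀ c, (fib f W c).card ≤ q + 1) :
    (∀ c, (fib f W c).card ≤ q + 1) ∧
      κ * ((lev f V (q + 1)).card + (lev f W (q + 1)).card) ≤
        2 * mz (a + 2) (b + 1) κ * Fintype.card Y := by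
  have hκ0 := hAB.ne
  have hκpos : 0 < κ := Nat.pos_of_ne_zero hκ0
  have hsμ := hAB κ dvd_rfl
  have hap := h.aper_lt hba hAB
  have hbig := h.big
  have hXc := hf.card
  set μ := mz (a + 2) (b + 1) κ with hμdef
  set y := Fintype.card Y with hydef
  have hq1 : 1 ≤ q := by
    rcases Nat.eq_zero_or_pos q with h | h
    · rw [h, mul_zero, zero_add] at hq
      rw [hq] at hr
      exact absurd hr Nat.not_prime_one
    · exact h
  rw [hXc, hq] at hap hbig
  have hVq : q * y ≤ V.card := by
    have h1 := arD0 (a + b + 3) q κ μ y V.card W.card (by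
        have : (0 : ℤ) ≤ a := by positivity
        have : (0 : ℤ) ≤ b := by positivity
        linarith) (by exact_mod_cast hκpos)
      (by
        have : 1 ≤ y := by omega
        exact_mod_cast this) hE
      (by exact_mod_cast hbig)
      (by
        have : ((V.card + (a + b + 2) * W.card : ℕ) : ℤ) ≤
          ((y * ((a + b + 3) * q + 1) + (a + b + 1) : ℕ) : ℤ) := by exact_mod_cast hap
        push_cast at this
        linarith)
    exact_mod_cast h1
  rcases (lev f V (q + 1)).eq_empty_or_nonempty with he | hne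
  · -- all fibres of `V` have exactly `q` elements
    have hV1 : ∀ c, (fib f V c).card ≤ q := by
      intro c
      by_contra hc
      have : c ∈ lev f V (q + 1) := by rw [mem_lev]; omega
      rw [he] at this
      simp at this
    have hVeq : ∀ c, (fib f V c).card = q := by
      by_contra hcon
      push Not at hcon
      obtain ⟨c, hc⟩ := hcon
      have h1 : ∑ c, (fib f V c).card < ∑ _c : Y, q := by
        apply sum_lt_sum (fun c _ => hV1 c)
        exact ⟨c, mem_univ _, lt_of_le_of_ne (hV1 c) hc⟩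
      rw [sum_fib, sum_const, card_univ, smul_eq_mul, mul_comm, ← hydef] at h1
      omega
    have hVc : V.card = q * y := by
      rw [← sum_fib f V, sum_congr rfl (fun c _ => hVeq c), sum_const, card_univ, smul_eq_mul,
        mul_comm]
    have hWq : ∀ c, q ≤ (fib f W c).card := by
      intro c
      rw [← hVeq c]
      exact card_le_card (filter_subset_filter _ h.sub)
    have hlevV : lev f V q = univ := by
      ext c
      rw [mem_lev, hVeq c]
      simp
    have hM : ∀ c, (fib f W c).card ≤ q + 1 := by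
      intro c
      by_contra hcon
      push Not at hcon
      have h1 : (0 : Y) ∉ lev f V q + (lev f W (q + 2) + R a (b + 1) (lev f W (q + 2))) := by
        apply thr1 hf hr hker a (b + 1) V W W q (q + 2) (q + 2) hq1 (by omega) (by omega)
        · rw [← R_succ_left]; exact h.noz.1
        · rw [hq]
          have e1 : (a + (b + 1)) * (q + 2) = (a + b + 3) * q - 2 * q + 2 * (a + b + 1) := by
            have : (a + b + 3) * q = (a + b + 1) * q + 2 * q := by ring
            rw [this, Nat.add_sub_cancel]; ring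
          rw [e1]
          have : 2 * q ≤ (a + b + 3) * q := Nat.mul_le_mul_right _ (by omega)
          omega
      apply h1
      have hcW : (lev f W (q + 2)).Nonempty := ⟨c, by rw [mem_lev]; exact hcon⟩
      obtain ⟨x, hx⟩ := hcW.add (R_nonempty a (b + 1) _ hcW)
      rw [mem_add]
      exact ⟨-x, by rw [hlevV]; exact mem_univ _, x, hx, by abel⟩
    refine ⟨hM, ?_⟩
    have hWl : (lev f W (q + 1)).card + q * y = W.card := by
      rw [← sum_fib f W, mul_comm q y, hydef, ← card_univ, ← smul_eq_mul, ← sum_const]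
      have h2 : (lev f W (q + 1)).card = ∑ c : Y, if q + 1 ≤ (fib f W c).card then 1 else 0 := by
        rw [sum_ite_lev, one_mul]
      rw [h2, ← sum_add_distrib]
      apply sum_congr rfl
      intro c _
      have h3 := hM c
      have h4 := hWq c
      split_ifs <;> omega
    rw [he, card_empty, zero_add]
    have h1 := arD1 (a + b + 3) q κ μ y (lev f W (q + 1)).card (by
        have : (0 : ℤ) ≤ a := by positivity
        have : (0 : ℤ) ≤ b := by positivity
        linarith) (by exact_mod_cast hq1) (by exact_mod_cast hκpos)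
      (by
        have : ((a + b + 4 : ℕ) : ℤ) ≤ y := by exact_mod_cast hy
        push_cast at this
        linarith) hE
      (by
        have h5 : ((V.card + (a + b + 2) * W.card : ℕ) : ℤ) ≤
          ((y * ((a + b + 3) * q + 1) + (a + b + 1) : ℕ) : ℤ) := by exact_mod_cast hap
        rw [← hWl, hVc] at h5
        push_cast at h5
        linarith)
    exact_mod_cast h1
  · have hYk := killed_of_surj κ f hs h.kill
    have hYlt : Fintype.card Y < Fintype.card X := by
      rw [hXc]
      have := hr.two_le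
      have h1 : 0 < y := by omega
      nlinarith
    have hσ := h.ih Y hYk hYlt (lev f V (q + 1)) (lev f W (q + 1)) (lev_mono f h.sub le_rfl) hne
      (noz_lev hf hr hker a b V W h.noz (q + 1) (by omega) (by rw [hq]; ring_nf; omega))
    exact ⟨hno hne hσ hVq, hσ⟩

/-- Small fibres for `s ≥ 5`. -/
lemma MV.fib5 (h : MV a b κ V W) (hba : b ≤ a) (hAB : AB (a + 2) (b + 1) κ)
    (hs5 : 5 ≤ a + b + 3) (hcrit : Crit (a + 2) (b + 1) κ (a + b + 1)) {Y : Type}
    [AddCommGroup Y] [Fintype Y] [DecidableEq Y] (f : X →+ Y) (hs : Function.Surjective f)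
    (r : ℕ) (hr : r.Prime) (hf : Nice f r) (hker : ∀ g, f g = 0 → r • g = 0) (q : ℕ)
    (hq : r = (a + b + 3) * q + 1)
    (hE : 2 * ((a + b + 3 : ℤ) - 1) * ((a + b + 3) * q + 1) *
      (κ - (a + b + 3) * mz (a + 2) (b + 1) κ) ≤ ((a + b + 3) - 2) * κ)
    (hVne : (lev f V (q + 1)).Nonempty)
    (hσ : κ * ((lev f V (q + 1)).card + (lev f W (q + 1)).card) ≤
        2 * mz (a + 2) (b + 1) κ * Fintype.card Y)
    (hVq : q * Fintype.card Y ≤ V.card) : ∀ c, (fib f W c).card ≤ q + 1 := by
  have hκ0 := hAB.ne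
  have hκpos : 0 < κ := Nat.pos_of_ne_zero hκ0
  have hsμ := hAB κ dvd_rfl
  have hbig := h.big
  have hXc := hf.card
  have hsz : (3 : ℤ) ≤ a + b + 3 := by
    have : (0 : ℤ) ≤ a := by positivity
    have : (0 : ℤ) ≤ b := by positivity
    linarith
  have hsμz : (a + b + 3 : ℤ) * (mz (a + 2) (b + 1) κ) < κ := by
    have : (((a + 2 + (b + 1)) * mz (a + 2) (b + 1) κ : ℕ) : ℤ) < (κ : ℕ) := by exact_mod_cast hsμ
    push_cast at this
    linarith
  set μ := mz (a + 2) (b + 1) κ with hμdef
  set y := Fintype.card Y with hydef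
  have hy1 : 1 ≤ y := Fintype.card_pos
  have hq1 : 1 ≤ q := by
    rcases Nat.eq_zero_or_pos q with h | h
    · rw [h, mul_zero, zero_add] at hq
      rw [hq] at hr
      exact absurd hr Nat.not_prime_one
    · exact h
  rw [hXc, hq] at hbig
  have hfibV : ∀ c, (fib f V c).card ≤ (fib f W c).card := fun c =>
    card_le_card (filter_subset_filter _ h.sub)
  by_contra hcon
  push Not at hcon
  obtain ⟨c₁, hc₁⟩ := hcon
  obtain ⟨c₀, hc₀⟩ := Finite.exists_max (fun c => (fib f W c).card)
  set M := (fib f W c₀).card with hM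
  have hMq : q + 2 ≤ M := by
    have := hc₀ c₁
    omega
  have hMp : M ≤ r := hf.fib_le W c₀
  have hMne : (lev f W M).Nonempty := ⟨c₀, by rw [mem_lev]⟩
  have h0' : (0 : X) ∉ V + (W + R a (b + 1) W) := by
    rw [← R_succ_left]; exact h.noz.1
  -- pairs of levels
  have hpair : ∀ i, 1 ≤ i → r + (a + b + 3) ≤ 2 * i + (a + b + 1) * M + 1 →
      (lev f V i).card + (lev f W i).card ≤ y := by
    intro i hi hbig
    apply disj_card _ _ (R a (b + 1) (lev f W M)) (R_nonempty _ _ _ hMne)
    apply thr1 hf hr hker a (b + 1) V W W i i M hi hi (by omega) h0'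
    have e : a + (b + 1) = a + b + 1 := by ring
    rw [e]
    omega
  rcases Nat.lt_or_ge M (2 * q + 2) with hM2 | hM2
  · -- `M ≤ 2 q + 1`
    obtain ⟨d, hd⟩ : ∃ d, M = q + 1 + d := ⟨M - (q + 1), by omega⟩
    obtain ⟨e, he⟩ : ∃ e, q = e + d := ⟨q - d, by omega⟩
    have hpr := hpair (e + 1) (by omega) (by
      rw [hq, hd, he]
      have : 1 ≤ a + b := by omega
      obtain ⟨t, ht⟩ : ∃ t, a + b = t + 1 := ⟨a + b - 1, by omega⟩
      rw [ht]
      ring_nf
      have h1 : 0 ≤ t * d := Nat.zero_le _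
      nlinarith)
    have hbV := lev_bound f V e d (fun c => by
      have h1 := hfibV c
      have h2 := hc₀ c
      omega)
    have hbW := lev_bound f W e d (fun c => by
      have h2 := hc₀ c
      omega)
    rw [← he] at hbV hbW
    apply arD2 (a + b + 3 : ℤ) q d κ μ y (V.card + W.card)
      ((lev f V (q + 1)).card + (lev f W (q + 1)).card) hsz (by exact_mod_cast hq1)
    · have : 1 ≤ d := by omega
      exact_mod_cast this
    · exact_mod_cast hκpos
    · exact hsμz
    · exact_mod_cast hy1
    · exact hE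
    · exact_mod_cast hbig
    · have h1 : V.card + W.card ≤ 2 * e * y + d * ((lev f V (e + 1)).card +
          (lev f W (e + 1)).card) + (d + 1) * ((lev f V (q + 1)).card +
          (lev f W (q + 1)).card) := by
        rw [← hydef] at hbV hbW
        linarith
      have h2 : d * ((lev f V (e + 1)).card + (lev f W (e + 1)).card) ≤ d * y :=
        Nat.mul_le_mul_left _ hpr
      have h3 : V.card + W.card ≤ 2 * e * y + d * y + (d + 1) * ((lev f V (q + 1)).card +
          (lev f W (q + 1)).card) := by linarith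
      have h4 : ((V.card + W.card : ℕ) : ℤ) ≤ ((2 * e * y + d * y + (d + 1) *
          ((lev f V (q + 1)).card + (lev f W (q + 1)).card) : ℕ) : ℤ) := by exact_mod_cast h3
      have h5 : (q : ℤ) = e + d := by exact_mod_cast he
      push_cast at h4
      rw [h5]
      linarith
    · exact_mod_cast hσ
  · -- `M ≥ 2 q + 2`
    have hpr := hpair 1 le_rfl (by
      have h1 : (a + b + 1) * (2 * q + 2) ≤ (a + b + 1) * M := Nat.mul_le_mul_left _ hM2
      have h2 : 1 ≤ a + b := by omega
      have h3 : q * 1 ≤ q * (a + b) := Nat.mul_le_mul_left _ h2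
      rw [hq]
      linarith)
    obtain ⟨c₂, hc₂⟩ := Finite.exists_max (fun c => (fib f V c).card)
    set m := (fib f V c₂).card with hm
    have hmq : q + 1 ≤ m := by
      obtain ⟨c, hc⟩ := hVne
      rw [mem_lev] at hc
      have := hc₂ c
      omega
    have hmp : m ≤ r := hf.fib_le V c₂
    have hV1 : 2 * (lev f V 1).card ≤ y := by
      have := card_le_card (lev_mono f h.sub (le_refl 1))
      omega
    have hVq2 : 2 * (lev f V (q + 1)).card ≤
        (lev f V (q + 1)).card + (lev f W (q + 1)).card := by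
      have := card_le_card (lev_mono f h.sub (le_refl (q + 1)))
      omega
    have hbV := lev_bound2 f V q m (by omega) (fun c => hc₂ c)
    have h2m := arD3 (a + b + 3 : ℤ) q κ μ y V.card (lev f V (q + 1)).card m hsz
      (by exact_mod_cast hq1) (by exact_mod_cast hκpos) hsμz (by exact_mod_cast hy1)
      (by exact_mod_cast hmq) (by exact_mod_cast hVq)
      (by
        have h1 : ((V.card : ℕ) : ℤ) ≤ ((q * (lev f V 1).card + (m - q) *
          (lev f V (q + 1)).card : ℕ) : ℤ) := by exact_mod_cast hbV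
        have h2 : ((m - q : ℕ) : ℤ) = m - q := by rw [Nat.cast_sub (by omega)]
        rw [Nat.cast_add, Nat.cast_mul, Nat.cast_mul, h2] at h1
        have h3 : 2 * ((lev f V 1).card : ℤ) ≤ y := by exact_mod_cast hV1
        have h4 : (q : ℤ) * (2 * ((lev f V 1).card : ℤ)) ≤ q * y :=
          mul_le_mul_of_nonneg_left h3 (by positivity)
        linarith)
      (by
        have h1 : κ * (2 * (lev f V (q + 1)).card) ≤ 2 * μ * y :=
          (Nat.mul_le_mul_left _ hVq2).trans hσ
        exact_mod_cast h1)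
    have h2m' : (a + b + 3) * q < 2 * (m - q) := by
      have h2 : ((m - q : ℕ) : ℤ) = m - q := by rw [Nat.cast_sub (by omega)]
      have h3 : (((a + b + 3) * q : ℕ) : ℤ) < ((2 * (m - q) : ℕ) : ℤ) := by
        push_cast
        rw [h2]
        exact h2m
      exact_mod_cast h3
    obtain ⟨d, hd⟩ : ∃ d, r = m + d := ⟨r - m, by omega⟩
    have hVm : (lev f V m).Nonempty := ⟨c₂, by rw [mem_lev]⟩
    have hWm : (lev f W m).Nonempty := hVm.mono (lev_mono f h.sub le_rfl)
    have hVd : (lev f V (d + 1)).Nonempty := hVm.mono (lev_mono f subset_rfl (by omega))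
    have hpg := pigeon hf V W (R a (b + 1) W) (d + 1) m (by omega) h0'
    rw [image_R] at hpg
    apply h.levels hba hκ0 f hs r hf hr.two_le hcrit _ _ hVd hWm _ _ hpg
    · rw [← lev_one]
      exact lev_mono f h.sub (by omega)
    · rw [← lev_one]
      exact lev_mono f subset_rfl (by omega)

end mv

end Pool.Agent.H59.KM
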