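import Mathlib
import Pool.Agent.H59.KM10

set_option autoImplicit false

open Finset Pointwise

namespace Pool.Agent.H59.KM

open Pool.Agent.H59.Kneser
open Pool.Agent.H59.KG
open Pool.Agent.H59.KL (SF)

section comb

lemma sum_refl (m M : ℕ) (g : ℕ → ℕ) : ∑ i ∈ Icc m M, g (m + M - i) = ∑ i ∈ Icc m M, g i := by
  apply sum_bij' (fun i _ => m + M - i) (fun i _ => m + M - i)
  · intro i hi; rw [mem_Icc] at *; omega
  · intro i hi; rw [mem_Icc] at *; omega
  · intro i hi; rw [mem_Icc] at hi; omega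
  · intro i hi; rw [mem_Icc] at hi; omega
  · intro i _; rfl

lemma sum_split (r M n : ℕ) (hn1 : 1 ≤ n) (hnr : n ≤ r + 1) (hM : M ≤ r) (g : ℕ → ℕ)
    (h0 : ∀ i, M < i → g i = 0) :
    ∑ i ∈ Icc 1 r, g i = ∑ i ∈ Icc 1 (n - 1), g i + ∑ i ∈ Icc n M, g i := by
  rw [← sum_union]
  · symm
    apply sum_subset
    · intro i hi
      rw [mem_union, mem_Icc, mem_Icc] at hi
      rw [mem_Icc]
      omega
    · intro i hi hi'
      rw [mem_union, mem_Icc, mem_Icc] at hi'
      rw [mem_Icc] at hi
      apply h0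
      omega
  · rw [Finset.disjoint_left]
    intro i hi hi'
    rw [mem_Icc] at hi hi'
    omega

lemma pair3 (r M m' n y : ℕ) (v w : ℕ → ℕ) (hn : n + M = r + 2) (hn2 : 2 ≤ n) (hM : M ≤ r)
    (hM1 : 1 ≤ M) (hm : m' ≤ M) (hv0 : ∀ i, m' < i → v i = 0) (hw0 : ∀ j, M < j → w j = 0)
    (H1 : ∀ i j, 1 ≤ i → 1 ≤ j → n ≤ i + j → v i + w j ≤ y)
    (H2 : ∀ j k, 1 ≤ j → 1 ≤ k → r + 2 ≤ j + k + m' → w j + w k ≤ y)
    (H3 : ∀ i j, 1 ≤ i → 1 ≤ j → i ≤ m' → j ≤ M → r + 1 ≤ i + j → 2 * (v i + w j) ≤ y) :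
    2 * (∑ i ∈ Icc 1 r, v i + ∑ i ∈ Icc 1 r, w i) ≤ 2 * ((n - 1) * y) + (M + 1 - n) * y := by
  rw [sum_split r M n (by omega) (by omega) hM v (fun i hi => hv0 i (by omega)),
    sum_split r M n (by omega) (by omega) hM w hw0]
  have hA : ∑ i ∈ Icc 1 (n - 1), v i + ∑ i ∈ Icc 1 (n - 1), w i ≤ (n - 1) * y := by
    rw [← sum_reflect (n - 1) w, ← sum_add_distrib]
    calc ∑ i ∈ Icc 1 (n - 1), (v i + w (n - 1 + 1 - i)) ≤ ∑ i ∈ Icc 1 (n - 1), y := by
          apply sum_le_sum
          intro i hi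
          rw [mem_Icc] at hi
          apply H1 <;> omega
      _ = (n - 1) * y := by rw [sum_const, Nat.card_Icc, smul_eq_mul]; congr 1
  have hB : 2 * (∑ i ∈ Icc n M, v i + ∑ i ∈ Icc n M, w i) ≤ (M + 1 - n) * y := by
    rw [← sum_refl n M w, ← sum_add_distrib, mul_sum]
    have hcard : (Icc n M).card = M + 1 - n := Nat.card_Icc _ _
    rw [← hcard, ← card_filter_add_card_filter_not (s := Icc n M) (fun i => i ≤ m'), add_mul,
      ← sum_filter_add_sum_filter_not (Icc n M) (fun i => i ≤ m')]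
    apply Nat.add_le_add
    · rw [← smul_eq_mul, ← sum_const]
      apply sum_le_sum
      intro i hi
      rw [mem_filter, mem_Icc] at hi
      apply H3 <;> omega
    · obtain ⟨u, hu⟩ : ∃ u, u = max n (m' + 1) := ⟨_, rfl⟩
      have hfil : (Icc n M).filter (fun i => ¬ i ≤ m') = Icc u M := by
        ext i
        rw [mem_filter, mem_Icc, mem_Icc, hu]
        omega
      rw [hfil]
      have h1 : ∑ i ∈ Icc u M, 2 * (v i + w (n + M - i)) =
          ∑ i ∈ Icc u M, w (n + M - i) + ∑ i ∈ Icc u M, w (n + M - (u + M - i)) := by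
        rw [sum_refl u M (fun i => w (n + M - i)), ← sum_add_distrib]
        apply sum_congr rfl
        intro i hi
        rw [mem_Icc, hu] at hi
        rw [hv0 i (by omega)]
        ring
      rw [h1, ← sum_add_distrib, ← smul_eq_mul, ← sum_const]
      apply sum_le_sum
      intro i hi
      rw [mem_Icc, hu] at hi
      apply H2
      · omega
      · rw [hu]; omega
      · rw [hu]; omega
  have e : 2 * (∑ i ∈ Icc 1 (n - 1), v i + ∑ i ∈ Icc n M, v i +
      (∑ i ∈ Icc 1 (n - 1), w i + ∑ i ∈ Icc n M, w i)) =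
      2 * (∑ i ∈ Icc 1 (n - 1), v i + ∑ i ∈ Icc 1 (n - 1), w i) +
      2 * (∑ i ∈ Icc n M, v i + ∑ i ∈ Icc n M, w i) := by ring
  rw [e]
  exact Nat.add_le_add (Nat.mul_le_mul_left _ hA) hB

/-- The final inequality for `s = 3`. -/
lemma ar3f (r q κ μ y S n M : ℤ) (hr : r = 3 * q + 1) (hq : 1 ≤ q) (hκ : 0 < κ) (hy : 1 ≤ y)
    (hn : n + M = r + 2) (hM : q + 2 ≤ M)
    (hE : 4 * r * (κ - 3 * μ) ≤ κ) (h1 : 2 * μ * (y * r) < κ * S)
    (h2 : 2 * S ≤ 2 * ((n - 1) * y) + max 0 (M + 1 - n) * y) : False := by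
  have h3 : 2 * S ≤ max (r + 1) (4 * q) * y := by
    refine h2.trans ?_
    rcases le_total 0 (M + 1 - n) with h | h
    · rw [max_eq_right h]
      have e : 2 * ((n - 1) * y) + (M + 1 - n) * y = (r + 1) * y := by
        have : M = r + 2 - n := by linarith
        rw [this]; ring
      rw [e]
      exact mul_le_mul_of_nonneg_right (le_max_left _ _) (by linarith)
    · rw [max_eq_left h]
      have e : 2 * ((n - 1) * y) + 0 * y = (2 * (n - 1)) * y := by ring
      rw [e]
      apply mul_le_mul_of_nonneg_right _ (by linarith)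
      refine le_trans ?_ (le_max_right _ _)
      linarith
  have h4 : κ * (2 * S) ≤ κ * (max (r + 1) (4 * q) * y) := mul_le_mul_of_nonneg_left h3 hκ.le
  have h5 : y * (4 * μ * r) < y * (κ * max (r + 1) (4 * q)) := by linarith
  have h6 := lt_of_mul_lt_mul_left h5 (by linarith)
  have h7 : 4 * r * (3 * μ) ≥ 4 * r * κ - κ := by linarith
  have h8 : κ * (4 * r - 1) < κ * (3 * max (r + 1) (4 * q)) := by linarith
  have h9 := lt_of_mul_lt_mul_left h8 hκ.le
  rcases le_total (r + 1) (4 * q) with h | h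
  · rw [max_eq_right h] at h9
    linarith
  · rw [max_eq_left h] at h9
    linarith

end comb

section mv

variable {X : Type} [AddCommGroup X] [Fintype X] [DecidableEq X]
variable {κ : ℕ} {V W : Finset X}

/-- Kneser's theorem applied to two level sets and the support, `s = 3`. -/
lemma MV.levels3 (h : MV 0 0 κ V W) (hAB : AB 2 1 κ) {Y : Type} [AddCommGroup Y]
    [Fintype Y] [DecidableEq Y] (f : X →+ Y) (hs : Function.Surjective f) (r : ℕ)
    (hf : Nice f r) (hr : 2 ≤ r)
    (A B : Finset Y) (hA : A.Nonempty) (hB : B.Nonempty)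
    (h0 : (0 : Y) ∉ A + (B + R 0 1 (W.image f))) : 2 * (A.card + B.card) ≤ Fintype.card Y := by
  have hκ0 := hAB.ne
  have hW1 : (W.image f).Nonempty := h.W_ne.image f
  have hk := kneser_gen 0 1 A B (W.image f) hA hB hW1 _ rfl
  have hk2 := card_add_st_le _ _ h0
  have hSn : (A + (B + R 0 1 (W.image f))).Nonempty := hA.add (hB.add (R_nonempty _ _ _ hW1))
  set S := A + (B + R 0 1 (W.image f)) with hS
  obtain ⟨Z, i1, i2, i3, g, hsurj, hker, hnice⟩ := exists_quot (stab S)
  rw [card_stab] at hnice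
  have hker' : ∀ x, g x = 0 ↔ x ∈ st S := hker
  have h1 : 1 ≤ (st S).card := hnice.pos
  obtain ⟨n, hn, hn2, hgs⟩ := nice_comp f hs r hf hr g hsurj
  have hZk := killed_of_surj κ (g.comp f) hgs h.kill
  have hd : AddMonoid.exponent Z ∣ κ := AddMonoid.exponent_dvd_of_forall_nsmul_eq_zero hZk
  have hdc : AddMonoid.exponent Z ∣ Fintype.card Z := by
    rw [← Nat.card_eq_fintype_card]
    exact AddGroup.exponent_dvd_nat_card
  obtain ⟨z, hz⟩ := hdc
  have hdg : ¬ AddMonoid.exponent Z ∣ 2 - 1 := by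
    intro hcon
    have h2 : AddMonoid.exponent Z = 1 := Nat.dvd_one.mp hcon
    obtain ⟨x, hx⟩ := hSn
    have h3 : g x = 0 := by
      have := AddMonoid.exponent_nsmul_eq_zero (g x)
      rwa [h2, one_smul] at this
    have h4 := (mem_st _ _).mp (neg_mem_st _ _ ((hker' _).mp h3)) x hx
    rw [neg_add_cancel] at h4
    exact h0 h4
  have hcr := hAB.crit 2 1 κ (by omega) (by omega) _ hd hdg
  have hfd := h.flatd (g.comp f) hgs n hn hn2 hκ0 _ z hd hz
  have e1 : W.image (g.comp f) = (W.image f).image g := by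
    rw [image_image]; rfl
  rw [e1] at hfd
  rw [card_add_ker hnice _ hker', card_add_ker hnice _ hker', card_add_ker hnice _ hker'] at hk
  rw [hnice.card] at hk2
  have hle : ∀ T : Finset Y, T.card ≤ (T.image g).card * (st S).card := by
    intro T
    rw [← card_add_ker hnice _ hker']
    exact card_le_card_add_right ⟨0, zero_mem_st _⟩
  have hA1 := hle A
  have hB1 := hle B
  have h3 : ((A.image g).card + (B.image g).card + ((W.image f).image g).card) * (st S).card ≤
      (Fintype.card Z + 1) * (st S).card := by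
    have e2 : (0 + 1 + 1) * (st S).card = (st S).card + (st S).card := by ring
    rw [e2] at hk
    have e3 : (0 + 1) * (((W.image f).image g).card * (st S).card) =
      ((W.image f).image g).card * (st S).card := by ring
    rw [e3] at hk
    rw [add_mul, add_mul, add_mul, one_mul]
    omega
  have h4 := Nat.le_of_mul_le_mul_right h3 h1
  set d := AddMonoid.exponent Z
  set α := (A.image g).card
  set β := (B.image g).card
  set w := ((W.image f).image g).card
  set M := mz 2 1 d
  have h5 : d * z ≤ (4 * M) * z := by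
    apply Nat.mul_le_mul_right
    have : 2 * (2 + 1 - 1) * M = 4 * M := by ring
    omega
  have hfd' : 2 * M * z + 1 ≤ w := hfd
  have h6 : 2 * (α + β) ≤ Fintype.card Z := by
    rw [hz] at h4 ⊢
    have e2 : (4 * M) * z = 2 * (2 * M * z) := by ring
    omega
  rw [hnice.card]
  calc 2 * (A.card + B.card) ≤ 2 * (α * (st S).card + β * (st S).card) := by omega
    _ = (2 * (α + β)) * (st S).card := by ring
    _ ≤ Fintype.card Z * (st S).card := Nat.mul_le_mul_right _ h6

/-- Small fibres for `s = 3`. -/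
lemma MV.fib3 (h : MV 0 0 κ V W) (hAB : AB 2 1 κ) {Y : Type}
    [AddCommGroup Y] [Fintype Y] [DecidableEq Y] (f : X →+ Y) (hs : Function.Surjective f)
    (r : ℕ) (hr : r.Prime) (hf : Nice f r) (hker : ∀ g, f g = 0 → r • g = 0) (q : ℕ)
    (hq : r = 3 * q + 1)
    (hE : 4 * (r : ℤ) * (κ - 3 * mz 2 1 κ) ≤ κ)
    (hVne : (lev f V (q + 1)).Nonempty) : ∀ c, (fib f W c).card ≤ q + 1 := by
  have hκ0 := hAB.ne
  have hκpos : 0 < κ := Nat.pos_of_ne_zero hκ0
  have hbig := h.big
  have hXc := hf.card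
  have hy1 : 1 ≤ Fintype.card Y := Fintype.card_pos
  have hq1 : 1 ≤ q := by
    rcases Nat.eq_zero_or_pos q with h | h
    · rw [h, mul_zero, zero_add] at hq
      rw [hq] at hr
      exact absurd hr Nat.not_prime_one
    · exact h
  have hfibV : ∀ c, (fib f V c).card ≤ (fib f W c).card := fun c =>
    card_le_card (filter_subset_filter _ h.sub)
  by_contra hcon
  push Not at hcon
  obtain ⟨c₁, hc₁⟩ := hcon
  obtain ⟨c₀, hc₀⟩ := Finite.exists_max (fun c => (fib f W c).card)
  set M := (fib f W c₀).card with hM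
  have hMq : q + 2 ≤ M := by
    have := hc₀ c₁
    omega
  have hMp : M ≤ r := hf.fib_le W c₀
  have hMne : (lev f W M).Nonempty := ⟨c₀, by rw [mem_lev]⟩
  obtain ⟨c₂, hc₂⟩ := Finite.exists_max (fun c => (fib f V c).card)
  set m := (fib f V c₂).card with hm
  have hmq : q + 1 ≤ m := by
    obtain ⟨c, hc⟩ := hVne
    rw [mem_lev] at hc
    have := hc₂ c
    omega
  have hmM : m ≤ M := (hfibV c₂).trans (hc₀ c₂)
  have hmne : (lev f V m).Nonempty := ⟨c₂, by rw [mem_lev]⟩
  have h0' : (0 : X) ∉ V + (W + R 0 1 W) := by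
    rw [← R_succ_left]; exact h.noz.1
  have h0'' : (0 : X) ∉ W + ((-W) + V) := by
    have e : W + ((-W) + V) = V + R 1 1 W := by
      rw [R_eq, one_nsmul, one_nsmul, add_comm V, add_assoc]
    rw [e]; exact h.noz.1
  obtain ⟨n, hn⟩ : ∃ n, n + M = r + 2 := ⟨r + 2 - M, by omega⟩
  have hp3 := pair3 r M m n (Fintype.card Y) (fun i => (lev f V i).card)
    (fun i => (lev f W i).card) hn (by omega) hMp (by omega) hmM
    (by
      intro i hi
      rw [card_eq_zero, eq_empty_iff_forall_notMem]
      intro c hc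
      rw [mem_lev] at hc
      have := hc₂ c
      omega)
    (by
      intro i hi
      rw [card_eq_zero, eq_empty_iff_forall_notMem]
      intro c hc
      rw [mem_lev] at hc
      have := hc₀ c
      omega)
    (by
      intro i j hi hj hij
      apply disj_card _ _ (R 0 1 (lev f W M)) (R_nonempty _ _ _ hMne)
      apply thr1 hf hr hker 0 1 V W W i j M hi hj (by omega) h0'
      omega)
    (by
      intro j k hj hk hjk
      have h1 := threshold hf hr hker [(W, j), (-W, k), (V, m)]
        (by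
          intro q hq
          simp only [List.mem_cons, List.not_mem_nil, or_false] at hq
          rcases hq with rfl | rfl | rfl
          · exact hj
          · exact hk
          · show 1 ≤ m
            omega)
        (by
          simp only [List.map_cons, List.map_nil, List.sum_cons, List.sum_nil, add_zero]
          exact h0'')
        (by
          simp only [List.map_cons, List.map_nil, List.sum_cons, List.sum_nil, List.length_cons,
            List.length_nil]
          omega)
      simp only [List.map_cons, List.map_nil, List.sum_cons, List.sum_nil, add_zero] at h1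
      have h2 := disj_card _ _ _ hmne h1
      rw [lev_neg, card_neg] at h2
      exact h2)
    (by
      intro i j hi hj him hjM hij
      have hVi : (lev f V i).Nonempty := hmne.mono (lev_mono f subset_rfl him)
      have hWj : (lev f W j).Nonempty := hMne.mono (lev_mono f subset_rfl hjM)
      have hpg := pigeon hf V W (R 0 1 W) i j hij h0'
      rw [image_R] at hpg
      exact h.levels3 hAB f hs r hf hr.two_le _ _ hVi hWj hpg)
  rw [sum_lev f V r (hf.fib_le V), sum_lev f W r (hf.fib_le W)] at hp3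
  rw [hXc] at hbig
  apply ar3f r q κ (mz 2 1 κ) (Fintype.card Y) (V.card + W.card) n M
  · exact_mod_cast hq
  · exact_mod_cast hq1
  · exact_mod_cast hκpos
  · exact_mod_cast hy1
  · exact_mod_cast hn
  · exact_mod_cast hMq
  · exact hE
  · exact_mod_cast hbig
  · have h1 : ((2 * (V.card + W.card) : ℕ) : ℤ) ≤ ((2 * ((n - 1) * Fintype.card Y) +
      (M + 1 - n) * Fintype.card Y : ℕ) : ℤ) := by exact_mod_cast hp3
    have h2 : ((n - 1 : ℕ) : ℤ) = n - 1 := by rw [Nat.cast_sub (by omega)]; simp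
    have h3 : ((M + 1 - n : ℕ) : ℤ) ≤ max 0 ((M : ℤ) + 1 - n) := by
      rcases Nat.le_total n (M + 1) with h4 | h4
      · rw [Nat.cast_sub h4]
        push_cast
        exact le_max_right _ _
      · have : M + 1 - n = 0 := by omega
        rw [this]
        simp
    rw [Nat.cast_add, Nat.cast_mul, Nat.cast_mul, Nat.cast_mul, Nat.cast_mul, h2] at h1
    have h4 : ((M + 1 - n : ℕ) : ℤ) * (Fintype.card Y : ℤ) ≤ max 0 ((M : ℤ) + 1 - n) *
      (Fintype.card Y : ℤ) := mul_le_mul_of_nonneg_right h3 (by positivity)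
    push_cast at h1
    linarith

end mv

end Pool.Agent.H59.KM
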