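import Mathlib
import Pool.Agent.H59.KM11

set_option autoImplicit false

open Finset Pointwise

namespace Pool.Agent.H59.KM

open Pool.Agent.H59.Kneser
open Pool.Agent.H59.KG
open Pool.Agent.H59.KL (SF)

section arith

lemma ar6g_fin (s r Q : ℤ) (hs : 3 ≤ s) (hQ : 2 * r ≤ Q) (hr : s + 1 ≤ r)
    (h : 2 * (s - 1) * ((s - 1) * (Q - r - 1)) ≤ Q * (s - 2)) : False := by
  obtain ⟨t, rfl⟩ : ∃ t, s = t + 3 := ⟨s - 3, by ring⟩
  have ht : 0 ≤ t := by linarith
  have h23 : (0 : ℤ) ≤ 2 * (t + 2) * (t + 2) - (t + 1) := by nlinarith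
  have h24 := mul_le_mul_of_nonneg_right hQ h23
  have h25 : r * (2 * (t + 2) * (t + 2) - 2 * (t + 1)) ≤ 2 * (t + 2) * (t + 2) := by linarith
  have h26 : (0 : ℤ) ≤ 2 * (t + 2) * (t + 2) - 2 * (t + 1) := by nlinarith
  have h27 := mul_le_mul_of_nonneg_right hr h26
  have h28 : (t + 3 + 1) * (2 * (t + 2) * (t + 2) - 2 * (t + 1)) ≤ 2 * (t + 2) * (t + 2) :=
    h27.trans h25
  have h29 : 0 ≤ t ^ 3 := by positivity
  have h30 : 0 ≤ t ^ 2 := by positivity
  nlinarith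

lemma ar6g_a (s κ μ q Q N y S Z r : ℤ) (hs : 3 ≤ s) (hq : 1 ≤ q) (hκ : 0 < κ)
    (hr : r = s * q + 1)
    (hQ : 2 * r ≤ Q) (hN : N = y * r) (hN0 : 0 < N)
    (h1 : κ * ((Q - 1) * S + (s * q) * Z - (s * q) * S) ≤
      (Q - 1) * (κ * (q * S) + (q + 1) * (2 * μ * y)))
    (h3 : Q * S ^ 2 ≤ 2 * (N * Z)) (hr4 : 4 ≤ r)
    (h4 : 2 * μ * N < κ * S) :
    (κ * S) * (r * (2 * N * (Q - r) + (s * q) * (Q * S))) ≤
      (κ * S) * (2 * N * (Q - 1) * (r * q + (q + 1))) := by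
  have hsq : 0 < s * q := mul_pos (by linarith) (by linarith)
  have h5 : κ * (2 * N * (Q - r) * S + (s * q) * (Q * S ^ 2)) ≤
      2 * N * ((Q - 1) * (κ * (q * S) + (q + 1) * (2 * μ * y))) := by
    have h6 := mul_le_mul_of_nonneg_left h1 (by linarith : (0 : ℤ) ≤ 2 * N)
    have h7 : κ * ((s * q) * (Q * S ^ 2)) ≤ κ * ((s * q) * (2 * (N * Z))) :=
      mul_le_mul_of_nonneg_left (mul_le_mul_of_nonneg_left h3 hsq.le) hκ.le
    rw [hr]
    linarith
  have h9 := mul_le_mul_of_nonneg_left h5 (by linarith : (0 : ℤ) ≤ r)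
  have h10 : 2 * N * (Q - 1) * (q + 1) * (2 * μ * N) ≤
      2 * N * (Q - 1) * (q + 1) * (κ * S) := by
    apply mul_le_mul_of_nonneg_left h4.le
    apply mul_nonneg _ (by linarith)
    apply mul_nonneg (by linarith) (by linarith)
  have e : 2 * μ * N = r * (2 * μ * y) := by rw [hN]; ring
  rw [e] at h10
  linarith

lemma ar6g_b (s κ μ q Q N S r : ℤ) (hs : 3 ≤ s) (hq : 1 ≤ q) (hκ : 0 < κ)
    (hr : r = s * q + 1)
    (hQ0 : 0 < Q) (hN0 : 0 < N) (hr4 : 4 ≤ r)
    (h12 : r * (2 * N * (Q - r) + (s * q) * (Q * S)) ≤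
      2 * N * (Q - 1) * (r * q + (q + 1)))
    (h4 : 2 * μ * N < κ * S) :
    κ * ((s - 1) * (Q - r - 1)) ≤ r * Q * (κ - s * μ) := by
  have hsq : 0 < s * q := mul_pos (by linarith) (by linarith)
  have h13 : (2 * N) * (r * κ * (Q - r) + r * q * Q * (s * μ)) ≤
      (2 * N) * ((Q - 1) * (r * q + (q + 1)) * κ) := by
    have h14 := mul_le_mul_of_nonneg_left h12 hκ.le
    have h15 : (r * (s * q) * Q) * (2 * μ * N) ≤ (r * (s * q) * Q) * (κ * S) := by
      apply mul_le_mul_of_nonneg_left h4.le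
      exact mul_nonneg (mul_nonneg (by linarith) hsq.le) hQ0.le
    linarith
  have h16 := le_of_mul_le_mul_left h13 (by linarith)
  have h17 : q * (κ * ((s - 1) * (Q - r - 1))) ≤ q * (r * Q * (κ - s * μ)) := by
    have e : q * (κ * ((s - 1) * (Q - r - 1))) =
      r * κ * (Q - r) + r * q * Q * κ - (Q - 1) * (r * q + (q + 1)) * κ := by
      rw [hr]; ring
    rw [e]
    linarith
  exact le_of_mul_le_mul_left h17 (by linarith)

lemma ar6g (s κ μ q Q N y S Z v w : ℤ) (hs : 3 ≤ s) (hq : 1 ≤ q) (hκ : 0 < κ)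
    (hμ : 0 ≤ μ)
    (hE : 2 * (s - 1) * (s * q + 1) * (κ - s * μ) ≤ (s - 2) * κ)
    (hQ : 2 * (s * q + 1) ≤ Q) (hN : N = y * (s * q + 1)) (hy : 1 ≤ y) (hS : S = v + w)
    (h1 : κ * ((Q - 1) * S + (s * q) * Z - (s * q) * S) ≤
      (Q - 1) * (κ * (q * S) + (q + 1) * (2 * μ * y)))
    (h2 : Q * (v ^ 2 + w ^ 2) ≤ N * Z)
    (h4 : 2 * μ * N < κ * S) : False := by
  obtain ⟨r, hr⟩ : ∃ r, r = s * q + 1 := ⟨_, rfl⟩
  have hsq : s * 1 ≤ s * q := mul_le_mul_of_nonneg_left hq (by linarith)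
  have hrs : s + 1 ≤ r := by rw [hr]; linarith
  have hr4 : 4 ≤ r := by linarith
  have hN0 : 0 < N := by rw [hN, ← hr]; exact mul_pos (by linarith) (by linarith)
  rw [← hr] at hQ hN hE
  have hQ0 : 0 < Q := by linarith
  have hκS : 0 < κ * S := by
    refine lt_of_le_of_lt ?_ h4
    exact mul_nonneg (mul_nonneg (by norm_num) hμ) hN0.le
  have h3 : Q * S ^ 2 ≤ 2 * (N * Z) := by
    have : S ^ 2 ≤ 2 * (v ^ 2 + w ^ 2) := by rw [hS]; nlinarith [sq_nonneg (v - w)]
    have := mul_le_mul_of_nonneg_left this hQ0.le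
    linarith
  have h12 := le_of_mul_le_mul_left (ar6g_a s κ μ q Q N y S Z r hs hq hκ hr hQ hN hN0 h1 h3
    hr4 h4) hκS
  have h18 := ar6g_b s κ μ q Q N S r hs hq hκ hr hQ0 hN0 hr4 h12 h4
  have h19 : κ * (2 * (s - 1) * ((s - 1) * (Q - r - 1))) ≤ κ * (Q * (s - 2)) := by
    have h20 := mul_le_mul_of_nonneg_left h18 (by linarith : (0 : ℤ) ≤ 2 * (s - 1))
    have h21 := mul_le_mul_of_nonneg_left hE hQ0.le
    linarith
  exact ar6g_fin s r Q hs hQ hrs (le_of_mul_le_mul_left h19 hκ)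

end arith

section mv

variable {X : Type} [AddCommGroup X] [Fintype X] [DecidableEq X]
variable {a b κ : ℕ} {V W : Finset X}

lemma tor_card_pow (p : ℕ) (hp : p.Prime) : ∃ ρ, (tor X p).card = p ^ ρ := by
  classical
  have : Fintype (torG X p) := Fintype.ofFinite _
  have h1 : (tor X p).card = Fintype.card (torG X p) := by
    rw [← card_torG, Nat.card_eq_fintype_card]
  rw [h1]
  refine ⟨_, Nat.eq_prime_pow_of_unique_prime_dvd Fintype.card_ne_zero (p := p) ?_⟩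
  intro d hd hdd
  have h2 := prime_dvd_of_killed p (by
    intro (x : torG X p)
    apply Subtype.ext
    have := (mem_torG p (x : X)).mp x.2
    rw [AddSubgroup.coe_nsmul, this]; rfl) d hd hdd
  exact (Nat.prime_dvd_prime_iff_eq hd hp).mp h2

lemma tor_card_sq (p : ℕ) (hp : p.Prime) (h : 2 * p ≤ (tor X p).card) :
    p * p ∣ (tor X p).card ∧ (p = 2 → (tor X p).card = 4 ∨ 8 ≤ (tor X p).card) := by
  obtain ⟨ρ, hρ⟩ := tor_card_pow (X := X) p hp
  have hρ2 : 2 ≤ ρ := by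
    by_contra hcon
    have h1 : p ^ ρ ≤ p ^ 1 := Nat.pow_le_pow_right hp.pos (by omega)
    rw [pow_one] at h1
    have := hp.pos
    omega
  refine ⟨?_, ?_⟩
  · rw [hρ, ← sq]; exact pow_dvd_pow p hρ2
  · intro hp2
    subst hp2
    rcases Nat.lt_or_ge ρ 3 with h3 | h3
    · left
      have : ρ = 2 := by omega
      rw [hρ, this]; norm_num
    · right
      rw [hρ]
      calc 8 = 2 ^ 3 := by norm_num
        _ ≤ 2 ^ ρ := Nat.pow_le_pow_right (by norm_num) h3

/-- The estimate in the direction of one element `e` of order `r`. -/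
lemma MV.direction (h : MV a b κ V W) (hba : b ≤ a) (hAB : AB (a + 2) (b + 1) κ)
    (hs35 : (a = 0 ∧ b = 0) ∨ (5 ≤ a + b + 3 ∧ Crit (a + 2) (b + 1) κ (a + b + 1)))
    (r : ℕ) (hr : r.Prime) (q : ℕ) (hq : r = (a + b + 3) * q + 1)
    (hE : 2 * ((a + b + 3 : ℤ) - 1) * ((a + b + 3) * q + 1) *
      (κ - (a + b + 3) * mz (a + 2) (b + 1) κ) ≤ ((a + b + 3) - 2) * κ)
    (y : ℕ) (hy : Fintype.card X = y * r) (hyr : a + b + 4 ≤ y) (e : X) (he : r • e = 0)
    (he0 : e ≠ 0) [∀ e : X, DecidablePred (· ∈ AddSubgroup.zmultiples e)] :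
    κ * (prs V (· ∈ AddSubgroup.zmultiples e) + prs W (· ∈ AddSubgroup.zmultiples e)) ≤
      κ * (q * (V.card + W.card)) + (q + 1) * (2 * mz (a + 2) (b + 1) κ * y) := by
  have : Fact r.Prime := ⟨hr⟩
  have hord : addOrderOf e = r := addOrderOf_eq_prime he he0
  obtain ⟨Y, i1, i2, i3, f, hsurj, hker, hnice⟩ := exists_quot (AddSubgroup.zmultiples e)
  rw [Nat.card_zmultiples, hord] at hnice
  have hYc : Fintype.card Y = y := by
    have h1 := hnice.card
    rw [hy] at h1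
    exact (Nat.eq_of_mul_eq_mul_right hr.pos h1).symm
  have hkerp : ∀ g, f g = 0 → r • g = 0 := by
    intro g hg
    rw [hker, AddSubgroup.mem_zmultiples_iff] at hg
    obtain ⟨k, rfl⟩ := hg
    rw [smul_comm, he, smul_zero]
  obtain ⟨h1, h2⟩ := h.dich hba hAB f hsurj r hr hnice hkerp q hq hE (by rw [hYc]; exact hyr)
    (by
      intro hne hσ hVq
      rcases hs35 with ⟨ha, hb⟩ | ⟨h5, hcr⟩
      · subst ha
        subst hb
        apply h.fib3 hAB f hsurj r hr hnice hkerp q (by simpa using hq) _ hne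
        have e1 : (r : ℤ) = 3 * q + 1 := by
          rw [hq]; push_cast; ring
        rw [e1]
        push_cast at hE
        linarith
      · exact h.fib5 hba hAB h5 hcr f hsurj r hr hnice hkerp q hq hE hne hσ hVq)
  rw [hYc] at h2
  have h3 := sum_sq_le f (· ∈ AddSubgroup.zmultiples e) hker V q (fun c =>
    (card_le_card (filter_subset_filter _ h.sub)).trans (h1 c))
  have h4 := sum_sq_le f (· ∈ AddSubgroup.zmultiples e) hker W q h1
  have h5 : κ * (prs V (· ∈ AddSubgroup.zmultiples e) +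
      prs W (· ∈ AddSubgroup.zmultiples e)) ≤ κ * ((q * V.card +
      (q + 1) * (lev f V (q + 1)).card) + (q * W.card + (q + 1) * (lev f W (q + 1)).card)) :=
    Nat.mul_le_mul_left _ (Nat.add_le_add h3 h4)
  have h6 := Nat.mul_le_mul_left (q + 1) h2
  linarith

/-- The contradiction for a noncyclic `r`-part, `r` a pure prime. -/
lemma MV.rpart (h : MV a b κ V W) (hba : b ≤ a) (hAB : AB (a + 2) (b + 1) κ)
    (hs35 : (a = 0 ∧ b = 0) ∨ (5 ≤ a + b + 3 ∧ Crit (a + 2) (b + 1) κ (a + b + 1)))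
    (r : ℕ) (hr : r.Prime) (q : ℕ) (hq : r = (a + b + 3) * q + 1)
    (hE : 2 * ((a + b + 3 : ℤ) - 1) * ((a + b + 3) * q + 1) *
      (κ - (a + b + 3) * mz (a + 2) (b + 1) κ) ≤ ((a + b + 3) - 2) * κ)
    (hQ : 2 * r ≤ (tor X r).card) : False := by
  classical
  have hκ0 := hAB.ne
  have hκpos : 0 < κ := Nat.pos_of_ne_zero hκ0
  have hq1 : 1 ≤ q := by
    rcases Nat.eq_zero_or_pos q with h | h
    · rw [h, mul_zero, zero_add] at hq
      rw [hq] at hr
      exact absurd hr Nat.not_prime_one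
    · exact h
  have hr1 : a + b + 4 ≤ r := by
    rw [hq]
    have : (a + b + 3) * 1 ≤ (a + b + 3) * q := Nat.mul_le_mul_left _ hq1
    omega
  obtain ⟨⟨c, hc⟩, -⟩ := tor_card_sq (X := X) r hr hQ
  obtain ⟨Z, i1, i2, i3, g, hsurj, hker, hnice⟩ := exists_quot (torG X r)
  rw [card_torG] at hnice
  have hXc := hnice.card
  obtain ⟨y, hy⟩ : ∃ y, Fintype.card X = y * r := by
    refine ⟨Fintype.card Z * (r * c), ?_⟩
    rw [hXc, hc]; ring
  have hyr : a + b + 4 ≤ y := by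
    have h1 : y * r = (Fintype.card Z * c * r) * r := by
      rw [← hy, hXc, hc]; ring
    have h2 := Nat.eq_of_mul_eq_mul_right hr.pos h1
    have h3 : 0 < y := by
      rcases Nat.eq_zero_or_pos y with h0 | h0
      · rw [h0, zero_mul] at hy
        exact absurd hy Fintype.card_ne_zero
      · exact h0
    have h4 : r ≤ y := Nat.le_of_dvd h3 ⟨Fintype.card Z * c, by rw [h2]; ring⟩
    omega
  -- sum over all directions
  have h0 : (0 : X) ∈ tor X r := by rw [mem_tor, smul_zero]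
  have hsum := sum_le_sum (fun e (he : e ∈ (tor X r).erase 0) =>
    h.direction hba hAB hs35 r hr q hq hE y hy hyr e
      ((mem_tor r e).mp (mem_erase.mp he).2) (mem_erase.mp he).1)
  rw [← mul_sum, sum_add_distrib, sum_const,
    card_erase_of_mem h0, smul_eq_mul] at hsum
  have hcV := sum_count r hr V
  have hcW := sum_count r hr W
  have hP : ∀ x, g x = 0 ↔ x ∈ tor X r := by
    intro x
    rw [hker, mem_torG, mem_tor]
  have hcsV := prs_cs g (· ∈ tor X r) hP _ hnice V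
  have hcsW := prs_cs g (· ∈ tor X r) hP _ hnice W
  have hbig := h.big
  set μ := mz (a + 2) (b + 1) κ with hμdef
  set Q := (tor X r).card with hQdef
  set SV := ∑ e ∈ (tor X r).erase 0, prs V (· ∈ AddSubgroup.zmultiples e)
  set SW := ∑ e ∈ (tor X r).erase 0, prs W (· ∈ AddSubgroup.zmultiples e)
  have hQz : ((Q - 1 : ℕ) : ℤ) = (Q : ℤ) - 1 := by
    rw [Nat.cast_sub (by omega)]; simp
  have hpz : ((r - 1 : ℕ) : ℤ) = (a + b + 3 : ℤ) * q := by
    rw [Nat.cast_sub (by omega), hq]; push_cast; ring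
  apply ar6g (a + b + 3 : ℤ) κ μ q Q (Fintype.card X) y (V.card + W.card)
    (prs V (· ∈ tor X r) + prs W (· ∈ tor X r)) V.card W.card
  · have : (0 : ℤ) ≤ a := by positivity
    have : (0 : ℤ) ≤ b := by positivity
    linarith
  · exact_mod_cast hq1
  · exact_mod_cast hκpos
  · positivity
  · exact hE
  · have h1 : 2 * ((a + b + 3) * q + 1) ≤ Q := by rw [← hq]; exact hQ
    exact_mod_cast h1
  · rw [hy, hq]; push_cast; ring
  · have : 1 ≤ y := by omega
    exact_mod_cast this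
  · ring
  · have h1 : (((Q - 1) * V.card + (r - 1) * prs V (· ∈ tor X r) : ℕ) : ℤ) ≤
        ((SV + (r - 1) * V.card : ℕ) : ℤ) := by exact_mod_cast hcV
    have h2 : (((Q - 1) * W.card + (r - 1) * prs W (· ∈ tor X r) : ℕ) : ℤ) ≤
        ((SW + (r - 1) * W.card : ℕ) : ℤ) := by exact_mod_cast hcW
    push_cast at h1 h2
    rw [hQz, hpz] at h1 h2
    have h3 : ((κ * (SV + SW) : ℕ) : ℤ) ≤
        (((Q - 1) * (κ * (q * (V.card + W.card)) + (q + 1) * (2 * μ * y)) : ℕ) :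
        ℤ) := by exact_mod_cast hsum
    push_cast at h3
    rw [hQz] at h3
    have h4 : (κ : ℤ) * (((Q : ℤ) - 1) * (V.card + W.card) + ((a + b + 3) * q) *
        (prs V (· ∈ tor X r) + prs W (· ∈ tor X r)) - ((a + b + 3) * q) *
        (V.card + W.card)) ≤ (κ : ℤ) * (SV + SW) := by
      apply mul_le_mul_of_nonneg_left _ (by positivity)
      linarith
    linarith
  · have h1 : ((Q * V.card ^ 2 : ℕ) : ℤ) ≤ ((Fintype.card X * prs V (· ∈ tor X r) : ℕ) : ℤ) := by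
      exact_mod_cast hcsV
    have h2 : ((Q * W.card ^ 2 : ℕ) : ℤ) ≤ ((Fintype.card X * prs W (· ∈ tor X r) : ℕ) : ℤ) := by
      exact_mod_cast hcsW
    push_cast at h1 h2
    linarith
  · exact_mod_cast hbig

end mv

end Pool.Agent.H59.KM
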