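import Mathlib
import Pool.Agent.H59.KM12

set_option autoImplicit false

open Finset Pointwise

namespace Pool.Agent.H59.KM

open Pool.Agent.H59.Kneser
open Pool.Agent.H59.KG
open Pool.Agent.H59.KL (SF)

/-- The structure of the prime factors of `κ` dividing `k - l`. -/
def Str (k l κ : ℕ) : Prop :=
  ∀ p : ℕ, p.Prime → p ∣ κ → p ∣ k - l → ∃ e, BP k l κ p e

section str

variable {k l κ : ℕ}

/-- A prime factor not dividing `k - l` is `1` modulo `k + l`. -/
lemma pure_of_ndvd (hl : 0 < l) (hlk : l < k) (hAB : AB k l κ) (r : ℕ)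
    (hr : r.Prime) (hrκ : r ∣ κ) (hrp : ¬ r ∣ k - l) : r % (k + l) = 1 := by
  obtain ⟨h1, h2⟩ := hAB.res k l κ hl hlk r hrκ
  have h3 : Nat.gcd r (k - l) = 1 := Nat.coprime_iff_gcd_eq_one.mp
    ((Nat.Prime.coprime_iff_not_dvd hr).mpr hrp)
  rw [h3] at h2
  omega

lemma crit_main (hl : 0 < l) (hlk : l < k) (hAB : AB k l κ) (hs : 5 ≤ k + l)
    (hst : Str k l κ) : Crit k l κ (k + l - 2) := by
  by_cases hex : ∃ p : ℕ, p.Prime ∧ p ∣ κ ∧ p ∣ k - l
  · obtain ⟨p, hp, hpκ, hpg⟩ := hex
    obtain ⟨e, he⟩ := hst p hp hpκ hpg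
    rcases Nat.lt_or_ge e 2 with h1 | h1
    · have he1 : e = 1 := by have := he.e1; omega
      subst he1
      obtain ⟨h3, -, -⟩ := he.three hl hlk hAB
      have hodd : p % 2 = 1 := by
        rcases hp.eq_two_or_odd with h | h <;> omega
      obtain ⟨q, hq⟩ : ∃ q, p = 2 * q + 1 := ⟨p / 2, by omega⟩
      exact (he.crit_three hl hlk hAB q hq).mono k l κ _ _ (by omega)
    · obtain ⟨h2, -, -⟩ := he.crit_two hl hlk hAB h1
      have := hp.two_le
      exact h2.mono k l κ _ _ (by omega)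
  · push Not at hex
    intro d hd hdg
    have hκ0 := hAB.ne
    have hd0 : d ≠ 0 := fun h0 => hκ0 (by rw [h0] at hd; exact zero_dvd_iff.mp hd)
    have hmod := mod_one_of_primes (k + l) (by omega) d hd0 (fun r hr hrd =>
      pure_of_ndvd hl hlk hAB r hr (hrd.trans hd) (hex r hr (hrd.trans hd)))
    have hd1 : d ≠ 1 := by
      rintro rfl
      exact hdg (one_dvd _)
    have hge := mod_one_ge (k + l) d (by omega) hmod hd1
    have hfl := mz_floor k l d hl hlk
    have h6 := Nat.div_add_mod d (k + l)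
    rw [hmod] at h6
    have hm1 : 1 ≤ d / (k + l) := by
      rcases Nat.eq_zero_or_pos (d / (k + l)) with h0 | h0
      · rw [h0] at h6; omega
      · exact h0
    obtain ⟨c, hc⟩ : ∃ c, k + l = c + 4 := ⟨k + l - 4, by omega⟩
    have h7 : 2 * (k + l - 2) * (d / (k + l)) ≤ 2 * (k + l - 2) * mz k l d :=
      Nat.mul_le_mul_left _ hfl
    have e1 : 2 * (k + l - 2) = (k + l) + c := by omega
    have e2 : 2 * (k + l - 2) * (d / (k + l)) = (k + l) * (d / (k + l)) + c * (d / (k + l)) := by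
      rw [e1]; ring
    have h8 : 1 * 1 ≤ c * (d / (k + l)) := Nat.mul_le_mul (by omega) hm1
    omega

/-- The inequality `(E)` passes from a divisor to `κ`. -/
lemma E_of_dvd (hk : 0 < k) (hκ : κ ≠ 0) (d r : ℕ) (hd : d ∣ κ) (x y : ℤ) (hx : 0 ≤ x)
    (h : x * r * (d - (k + l) * mz k l d) ≤ y * d) :
    x * r * (κ - (k + l) * mz k l κ) ≤ y * κ := by
  have hd0 : 0 < d := Nat.pos_of_ne_zero (fun h0 => hκ (by
    rw [h0] at hd; exact zero_dvd_iff.mp hd))
  have h1 := mz_mono k l hk d κ hκ hd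
  have h1' : (mz k l d : ℤ) * κ ≤ mz k l κ * d := by exact_mod_cast h1
  have h2 : ((k : ℤ) + l) * (mz k l d * κ) ≤ (k + l) * (mz k l κ * d) :=
    mul_le_mul_of_nonneg_left h1' (by positivity)
  have h3 : ((κ : ℤ) - (k + l) * mz k l κ) * d ≤ (d - (k + l) * mz k l d) * κ := by linarith
  have h4 : x * r * (((κ : ℤ) - (k + l) * mz k l κ) * d) ≤
      x * r * ((d - (k + l) * mz k l d) * κ) :=
    mul_le_mul_of_nonneg_left h3 (mul_nonneg hx (by positivity))
  have h5 : x * r * (d - (k + l) * mz k l d) * κ ≤ y * d * κ :=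
    mul_le_mul_of_nonneg_right h (by positivity)
  have h6 : (x * r * (κ - (k + l) * mz k l κ)) * d ≤ (y * κ) * d := by linarith
  exact le_of_mul_le_mul_right h6 (by exact_mod_cast hd0)

/-- `(E)` for a divisor with small residue. -/
lemma E_of_res (hl : 0 < l) (hlk : l < k) (d r i : ℕ) (x y : ℤ) (hx : 0 ≤ x)
    (hi : d % (k + l) = i) (h : x * r * i ≤ y * d) :
    x * r * (d - (k + l) * mz k l d) ≤ y * d := by
  refine le_trans ?_ h
  apply mul_le_mul_of_nonneg_left _ (mul_nonneg hx (by positivity))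
  have hfl := mz_floor k l d hl hlk
  have h6 := Nat.div_add_mod d (k + l)
  rw [hi] at h6
  have h7 : (k + l) * (d / (k + l)) ≤ (k + l) * mz k l d := Nat.mul_le_mul_left _ hfl
  have h8 : d ≤ (k + l) * mz k l d + i := by omega
  have h9 : (d : ℤ) ≤ (k + l) * mz k l d + i := by exact_mod_cast h8
  linarith

lemma E_main (hl : 0 < l) (hlk : l < k) (hAB : AB k l κ) (hst : Str k l κ) (r : ℕ)
    (hr : r.Prime) (hrκ : r ∣ κ) (hrg : ¬ r ∣ k - l) (hne : κ ≠ r) :
    2 * ((k + l : ℤ) - 1) * r * (κ - (k + l) * mz k l κ) ≤ ((k + l) - 2) * κ := by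
  have hκ0 := hAB.ne
  obtain ⟨κ', hκ'⟩ := hrκ
  have hκ'1 : κ' ≠ 1 := by
    rintro rfl
    exact hne (by rw [hκ', mul_one])
  obtain ⟨p, hp, hpκ'⟩ := Nat.exists_prime_and_dvd hκ'1
  have hrmod := pure_of_ndvd hl hlk hAB r hr ⟨κ', hκ'⟩ hrg
  have hpκ : p ∣ κ := hpκ'.trans ⟨r, by rw [hκ', mul_comm]⟩
  have hx : (0 : ℤ) ≤ 2 * ((k + l : ℤ) - 1) := by
    have : (1 : ℤ) ≤ k := by exact_mod_cast (by omega : 1 ≤ k)
    have : (0 : ℤ) ≤ l := by positivity
    linarith
  have hs3 : (3 : ℤ) ≤ k + l := by exact_mod_cast (by omega : 3 ≤ k + l)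
  by_cases hpg : p ∣ k - l
  · obtain ⟨e, he⟩ := hst p hp hpκ hpg
    have hrp : r ≠ p := by
      rintro rfl
      exact hrg hpg
    have hcop : Nat.Coprime (p ^ (e + 1)) r :=
      Nat.Coprime.pow_left _ ((Nat.coprime_primes hp hr).mpr (Ne.symm hrp))
    have hd : p ^ (e + 1) * r ∣ κ := Nat.Coprime.mul_dvd_of_dvd_of_dvd hcop he.dκ ⟨κ', hκ'⟩
    have hlow := he.low hl hlk
    have hhigh := he.high hl hlk hAB
    obtain ⟨h2, h3⟩ := hAB.res k l κ hl hlk _ he.dκ
    have h4 := h3.trans (gcd_le_pow he (e + 1))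
    obtain ⟨i, hi⟩ : ∃ i, i = p ^ (e + 1) % (k + l) := ⟨_, rfl⟩
    rw [← hi] at h2 h4
    apply E_of_dvd (by omega) hκ0 (p ^ (e + 1) * r) r hd _ _ hx
    apply E_of_res hl hlk _ r i _ _ hx
    · rw [Nat.mul_mod, hrmod, ← hi, mul_one, Nat.mod_eq_of_lt]
      rw [hi]
      exact Nat.mod_lt _ (by omega)
    · -- `2 (s - 1) i ≤ (s - 2) p ^ (e + 1)`
      have key : 2 * ((k + l : ℤ) - 1) * i ≤ ((k + l) - 2) * (p ^ (e + 1) : ℕ) := by
        have e1 : p ^ (e + 1) = p * p ^ e := by ring
        have hp2 := hp.two_le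
        rcases Nat.lt_or_ge p 3 with hp3 | hp3
        · have hp2' : p = 2 := by omega
          subst hp2'
          have h5 : 2 ^ (e + 1) = (k + l) + i := by
            have h6 : (2 ^ (e + 1) - (k + l)) % (k + l) = 2 ^ (e + 1) % (k + l) :=
              (Nat.mod_eq_sub_mod (by omega)).symm
            rw [← hi, Nat.mod_eq_of_lt (by omega)] at h6
            omega
          have h6 : (i : ℤ) = (2 ^ (e + 1) : ℕ) - (k + l) := by
            rw [h5]; push_cast; ring
          have h7 : ((2 ^ (e + 1) : ℕ) : ℤ) ≤ 2 * ((k + l) - 1) := by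
            have : 2 ^ (e + 1) + 2 ≤ 2 * (k + l) := by omega
            have h8 : ((2 ^ (e + 1) + 2 : ℕ) : ℤ) ≤ ((2 * (k + l) : ℕ) : ℤ) := by
              exact_mod_cast this
            push_cast at h8 ⊢
            linarith
          rw [h6]
          have h8 : ((k : ℤ) + l) * ((2 ^ (e + 1) : ℕ) : ℤ) ≤ (k + l) * (2 * ((k + l) - 1)) :=
            mul_le_mul_of_nonneg_left h7 (by linarith)
          linarith
        · have h5 : 3 * i ≤ p ^ (e + 1) := by
            rw [e1]
            exact Nat.mul_le_mul hp3 h4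
          have h6 : (3 : ℤ) * i ≤ (p ^ (e + 1) : ℕ) := by exact_mod_cast h5
          have h7 : (0 : ℤ) ≤ i := by positivity
          have h8 : (4 : ℤ) ≤ k + l := by
            have h9 : 2 ≤ p ^ e := hp2.trans (Nat.le_self_pow (by have := he.e1; omega) p)
            exact_mod_cast (by omega : 4 ≤ k + l)
          have h9 : ((k + l : ℤ) - 2) * (3 * i) ≤ ((k + l) - 2) * (p ^ (e + 1) : ℕ) :=
            mul_le_mul_of_nonneg_left h6 (by linarith)
          have h10 : (0 : ℤ) ≤ ((k + l) - 4) * i := mul_nonneg (by linarith) h7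
          linarith
      have h5 := mul_le_mul_of_nonneg_right key (by positivity : (0 : ℤ) ≤ r)
      push_cast at h5 ⊢
      linarith
  · have hpmod := pure_of_ndvd hl hlk hAB p hp hpκ hpg
    have hpge := mod_one_ge (k + l) p (by omega) hpmod hp.ne_one
    have hd : r * p ∣ κ := by rw [hκ']; exact Nat.mul_dvd_mul_left _ hpκ'
    apply E_of_dvd (by omega) hκ0 (r * p) r hd _ _ hx
    apply E_of_res hl hlk _ r 1 _ _ hx
    · rw [Nat.mul_mod, hrmod, hpmod, mul_one, Nat.mod_eq_of_lt (by omega)]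
    · have h5 : ((k + l + 1 : ℕ) : ℤ) ≤ p := by exact_mod_cast hpge
      push_cast at h5 ⊢
      have h6 : ((k + l : ℤ) - 2) * (k + l + 1) ≤ ((k + l) - 2) * p :=
        mul_le_mul_of_nonneg_left h5 (by linarith)
      have h7 : (0 : ℤ) ≤ (k + l) * ((k + l) - 3) := mul_nonneg (by linarith) (by linarith)
      have h8 : 2 * ((k + l : ℤ) - 1) ≤ ((k + l) - 2) * p := by linarith
      have h9 := mul_le_mul_of_nonneg_right h8 (by positivity : (0 : ℤ) ≤ r)
      linarith

end str

/-- The inequality for pairs. -/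
lemma pair_main (a b κ : ℕ) (hba : b ≤ a) (hAB : AB (a + 2) (b + 1) κ) (hs : a + b ≠ 1)
    (hst : Str (a + 2) (b + 1) κ) (hnp : ¬ κ.Prime) :
    ∀ (n : ℕ) (X : Type) [AddCommGroup X] [Fintype X] [DecidableEq X], Fintype.card X = n →
      (∀ x : X, κ • x = 0) → ∀ V W : Finset X, V ⊆ W → V.Nonempty → NoZ a b V W →
      κ * (V.card + W.card) ≤ 2 * mz (a + 2) (b + 1) κ * Fintype.card X := by
  intro n
  induction n using Nat.strong_induction_on with
  | _ n ih =>
    intro X _ _ _ hn hX V W hVW hV hZ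
    by_contra hcon
    push Not at hcon
    have h : MV a b κ V W := ⟨hVW, hV, hZ, hcon, hX, by
      intro Y _ _ _ hY hYX V' W' hVW' hV' hZ'
      exact ih (Fintype.card Y) (by omega) Y rfl hY V' W' hVW' hV' hZ'⟩
    by_cases hcyc : AddMonoid.exponent X = Fintype.card X
    · exact h.cyclic hba hAB hcyc
    · have hdvd : AddMonoid.exponent X ∣ Fintype.card X := by
        rw [← Nat.card_eq_fintype_card]
        exact AddGroup.exponent_dvd_nat_card
      have hlt : AddMonoid.exponent X < Fintype.card X :=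
        lt_of_le_of_ne (Nat.le_of_dvd Fintype.card_pos hdvd) hcyc
      have hexκ : AddMonoid.exponent X ∣ κ :=
        AddMonoid.exponent_dvd_of_forall_nsmul_eq_zero hX
      have hκ0 := hAB.ne
      have hex0 : AddMonoid.exponent X ≠ 0 := fun h0 => hκ0 (by
        rw [h0] at hexκ
        exact zero_dvd_iff.mp hexκ)
      obtain ⟨p, hp, hpe, hQ⟩ := exists_rank_two (AddMonoid.exponent X) hex0
        (fun x => AddMonoid.exponent_nsmul_eq_zero x) hlt
      have hpκ : p ∣ κ := hpe.trans hexκ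
      obtain ⟨hpp, hp2⟩ := tor_card_sq (X := X) p hp hQ
      have hcpos : 0 < (tor X p).card := by
        have := hp.pos
        omega
      by_cases hpg : p ∣ a + 2 - (b + 1)
      · obtain ⟨e, he⟩ := hst p hp hpκ hpg
        rcases Nat.lt_or_ge e 2 with h1 | h1
        · have he1 : e = 1 := by have := he.e1; omega
          subst he1
          exact h.bad_one hba hAB p he (Nat.le_of_dvd hcpos hpp)
        · exact h.bad_two hba hAB p e he h1 (Nat.le_of_dvd hcpos hpp) hp2
      · have hmod := pure_of_ndvd (by omega) (by omega) hAB p hp hpκ hpg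
        have hE := E_main (by omega) (by omega) hAB hst p hp hpκ hpg (by
          rintro rfl
          exact hnp hp)
        have h6 := Nat.div_add_mod p (a + 2 + (b + 1))
        rw [hmod] at h6
        have hq : p = (a + b + 3) * (p / (a + 2 + (b + 1))) + 1 := by
          have e1 : a + 2 + (b + 1) = a + b + 3 := by ring
          rw [e1] at h6 ⊢
          exact h6.symm
        refine h.rpart hba hAB ?_ p hp _ hq ?_ hQ
        · by_cases h0 : a + b = 0
          · left; omega
          · right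
            refine ⟨by omega, ?_⟩
            have := crit_main (k := a + 2) (l := b + 1) (by omega) (by omega) hAB (by omega) hst
            exact this.mono _ _ _ _ _ (by omega)
        · have e2 : (((a + b + 3) * (p / (a + 2 + (b + 1))) + 1 : ℕ) : ℤ) = p := by
            exact_mod_cast hq.symm
          push_cast at e2 hE ⊢
          rw [e2]
          have e3 : ((a : ℤ) + 2 + (b + 1)) = a + b + 3 := by ring
          rw [e3] at hE
          exact hE

end Pool.Agent.H59.KM
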