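import Mathlib
import Pool.Agent.H59.KM13

set_option autoImplicit false

open Finset Pointwise

namespace Pool.Agent.H59.KM

open Pool.Agent.H59.Kneser
open Pool.Agent.H59.KG
open Pool.Agent.H59.KL (SF)

/-- Splitting off a factor of the exponent that divides `k - l`. -/
lemma coset_red (G : Type) [AddCommGroup G] [Fintype G] [DecidableEq G] (k l κ₁ κ₂ m : ℕ)
    (hlk : l < k) (hcop : Nat.Coprime κ₁ κ₂) (hκ1 : κ₁ ∣ k - l)
    (hG : ∀ x : G, (κ₁ * κ₂) • x = 0)
    (hb : ∀ (Y : Type) [AddCommGroup Y] [Fintype Y] [DecidableEq Y], (∀ y : Y, κ₂ • y = 0) →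
      ∀ B : Finset Y, SF k l B → B.card * κ₂ ≤ m * Fintype.card Y)
    (A : Finset G) (hA : SF k l A) : A.card * κ₂ ≤ m * Fintype.card G := by
  classical
  -- the product map
  have hinj : ∀ x ∈ tor G κ₁, ∀ y ∈ tor G κ₂, ∀ x' ∈ tor G κ₁, ∀ y' ∈ tor G κ₂,
      x + y = x' + y' → x = x' ∧ y = y' := by
    intro x hx y hy x' hx' y' hy' h
    rw [mem_tor] at hx hy hx' hy'
    have h1 : κ₁ • (x - x') = 0 := by rw [smul_sub, hx, hx', sub_self]
    have h2 : x - x' = y' - y := by
      rw [sub_eq_sub_iff_add_eq_add, h, add_comm]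
    have h3 : κ₂ • (x - x') = 0 := by rw [h2, smul_sub, hy, hy', sub_self]
    have h4 : addOrderOf (x - x') = 1 := Nat.eq_one_of_dvd_coprimes hcop
      (addOrderOf_dvd_of_nsmul_eq_zero h1) (addOrderOf_dvd_of_nsmul_eq_zero h3)
    have h5 : x - x' = 0 := AddMonoid.addOrderOf_eq_one_iff.mp h4
    have h6 : x = x' := sub_eq_zero.mp h5
    refine ⟨h6, ?_⟩
    rw [h6] at h
    exact add_left_cancel h
  have hsurj : ∀ z : G, ∃ x ∈ tor G κ₁, ∃ y ∈ tor G κ₂, x + y = z := by
    intro z
    have hb : (κ₁ : ℤ) * Nat.gcdA κ₁ κ₂ + (κ₂ : ℤ) * Nat.gcdB κ₁ κ₂ = 1 := by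
      have := Nat.gcd_eq_gcd_ab κ₁ κ₂
      rw [Nat.coprime_iff_gcd_eq_one.mp hcop] at this
      exact_mod_cast this.symm
    refine ⟨((κ₂ : ℤ) * Nat.gcdB κ₁ κ₂) • z, ?_, ((κ₁ : ℤ) * Nat.gcdA κ₁ κ₂) • z, ?_, ?_⟩
    · rw [mem_tor, ← natCast_zsmul, ← mul_zsmul']
      have e : (κ₁ : ℤ) * ((κ₂ : ℤ) * Nat.gcdB κ₁ κ₂) = Nat.gcdB κ₁ κ₂ * ((κ₁ * κ₂ : ℕ) : ℤ) := by
        push_cast; ring
      rw [mul_comm] at e
      rw [e, mul_zsmul, natCast_zsmul, hG, smul_zero]
    · rw [mem_tor, ← natCast_zsmul, ← mul_zsmul']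
      have e : (κ₂ : ℤ) * ((κ₁ : ℤ) * Nat.gcdA κ₁ κ₂) = Nat.gcdA κ₁ κ₂ * ((κ₁ * κ₂ : ℕ) : ℤ) := by
        push_cast; ring
      rw [mul_comm] at e
      rw [e, mul_zsmul, natCast_zsmul, hG, smul_zero]
    · rw [← add_zsmul, add_comm, hb, one_zsmul]
  -- cardinalities
  have hcount : ∀ B : Finset G, B.card =
      ∑ x ∈ tor G κ₁, ((tor G κ₂).filter (fun y => x + y ∈ B)).card := by
    intro B
    have h1 : B.card = (((tor G κ₁) ×ˢ (tor G κ₂)).filter (fun q => q.1 + q.2 ∈ B)).card := by
      symm
      apply card_bij (fun q _ => q.1 + q.2)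
      · intro q hq
        exact (mem_filter.mp hq).2
      · intro q hq q' hq' hqq
        rw [mem_filter, mem_product] at hq hq'
        obtain ⟨h1, h2⟩ := hinj _ hq.1.1 _ hq.1.2 _ hq'.1.1 _ hq'.1.2 hqq
        exact Prod.ext h1 h2
      · intro z hz
        obtain ⟨x, hx, y, hy, hxy⟩ := hsurj z
        refine ⟨(x, y), ?_, hxy⟩
        rw [mem_filter, mem_product]
        exact ⟨⟨hx, hy⟩, by rw [hxy]; exact hz⟩
    rw [h1, card_filter, sum_product]
    apply sum_congr rfl
    intro x _
    rw [card_filter]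
  have hcG : Fintype.card G = (tor G κ₁).card * (tor G κ₂).card := by
    rw [← card_univ, hcount univ]
    simp
  -- the bound on each coset
  have hcoset : ∀ x ∈ tor G κ₁,
      ((tor G κ₂).filter (fun y => x + y ∈ A)).card * κ₂ ≤ m * (tor G κ₂).card := by
    intro x hx
    rw [mem_tor] at hx
    have hgx : (k - l) • x = 0 := by
      obtain ⟨c, hc⟩ := hκ1
      rw [hc, mul_comm, mul_nsmul', hx, smul_zero]
    have hkl : k • x = l • x := by
      have e : k = (k - l) + l := by omega
      conv_lhs => rw [e]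
      rw [add_nsmul, hgx, zero_add]
    let B : Finset (torG G κ₂) := univ.filter (fun y => x + (y : G) ∈ A)
    have hB : SF k l B := by
      intro P Q hP hQ hPB hQB hs
      apply hA (P.map (fun (y : torG G κ₂) => x + (y : G)))
        (Q.map (fun (y : torG G κ₂) => x + (y : G))) (by simpa using hP)
        (by simpa using hQ)
      · intro z hz
        rw [List.mem_map] at hz
        obtain ⟨y, hy, rfl⟩ := hz
        exact (mem_filter.mp (hPB y hy)).2
      · intro z hz
        rw [List.mem_map] at hz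
        obtain ⟨y, hy, rfl⟩ := hz
        exact (mem_filter.mp (hQB y hy)).2
      · have hmap : ∀ L : List (torG G κ₂), (L.map (fun (y : torG G κ₂) => x + (y : G))).sum =
            L.length • x + ((L.sum : torG G κ₂) : G) := by
          intro L
          induction L with
          | nil => simp
          | cons y L ih =>
            rw [List.map_cons, List.sum_cons, ih, List.length_cons, List.sum_cons, succ_nsmul,
              AddSubgroup.coe_add]
            abel
        rw [hmap, hmap, hP, hQ, hs, hkl]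
    have hb := hb (torG G κ₂) (by
      intro y
      apply Subtype.ext
      have := (mem_torG κ₂ (y : G)).mp y.2
      rw [AddSubgroup.coe_nsmul, this]; rfl) B hB
    have e1 : Fintype.card (torG G κ₂) = (tor G κ₂).card := by
      rw [← Nat.card_eq_fintype_card, card_torG]
    have e2 : B.card = ((tor G κ₂).filter (fun y => x + y ∈ A)).card := by
      apply card_bij (fun (y : torG G κ₂) _ => (y : G))
      · intro y hy
        rw [mem_filter, mem_tor]
        exact ⟨(mem_torG κ₂ (y : G)).mp y.2, (mem_filter.mp hy).2⟩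
      · intro y _ y' _ h
        exact Subtype.ext h
      · intro z hz
        rw [mem_filter, mem_tor] at hz
        exact ⟨⟨z, (mem_torG κ₂ z).mpr hz.1⟩, mem_filter.mpr ⟨mem_univ _, hz.2⟩, rfl⟩
    rw [e1, e2] at hb
    exact hb
  have hsum := sum_le_sum hcoset
  rw [← sum_mul, ← hcount A, sum_const, smul_eq_mul] at hsum
  rw [hcG]
  calc A.card * κ₂ ≤ (tor G κ₁).card * (m * (tor G κ₂).card) := hsum
    _ = m * ((tor G κ₁).card * (tor G κ₂).card) := by ring

section arith

variable {k l κ : ℕ}

/-- The powers of the bad primes are large. -/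
lemma high_pow (hl : 0 < l) (hlk : l < k) (hAB : AB k l κ) (p e : ℕ) (hp : p.Prime)
    (hn : ¬ p ^ (e + 1) ∣ k - l) (hd : p ^ (e + 1) ∣ κ) : k + l < p ^ (e + 1) := by
  obtain ⟨h1, h2⟩ := hAB.res k l κ hl hlk _ hd
  by_contra hcon
  rcases Nat.lt_or_ge (p ^ (e + 1)) (k + l) with h5 | h5
  · rw [Nat.mod_eq_of_lt h5] at h2
    have h3 : Nat.gcd (p ^ (e + 1)) (k - l) = p ^ (e + 1) := le_antisymm
      (Nat.le_of_dvd (Nat.pow_pos hp.pos) (Nat.gcd_dvd_left _ _)) h2
    exact hn (by rw [← h3]; exact Nat.gcd_dvd_right _ _)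
  · have h6 : p ^ (e + 1) = k + l := by omega
    rw [h6, Nat.mod_self] at h1
    omega

/-- If no full prime power of `κ` divides `k - l`, the bad prime is unique. -/
lemma str_of (hl : 0 < l) (hlk : l < k) (hAB : AB k l κ)
    (hfull : ∀ p : ℕ, p.Prime → p ∣ κ → ¬ p ^ (κ.factorization p) ∣ k - l) : Str k l κ := by
  have hκ0 := hAB.ne
  have hg0 : k - l ≠ 0 := by omega
  have main : ∀ p : ℕ, p.Prime → p ∣ κ → p ∣ k - l → ∃ e, 1 ≤ e ∧ p ^ e ∣ k - l ∧
      ¬ p ^ (e + 1) ∣ k - l ∧ p ^ (e + 1) ∣ κ := by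
    intro p hp hpκ hpg
    refine ⟨(k - l).factorization p, ?_, Nat.ordProj_dvd _ p, ?_, ?_⟩
    · have : p ^ 1 ∣ k - l := by simpa using hpg
      rw [hp.pow_dvd_iff_le_factorization hg0] at this
      exact this
    · rw [hp.pow_dvd_iff_le_factorization hg0]
      omega
    · rw [hp.pow_dvd_iff_le_factorization hκ0]
      have := hfull p hp hpκ
      rw [hp.pow_dvd_iff_le_factorization hg0] at this
      omega
  have two : ∀ p r : ℕ, p.Prime → r.Prime → p ∣ κ → r ∣ κ → p ∣ k - l → r ∣ k - l → p ≠ r →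
      r < p := by
    intro p r hp hr hpκ hrκ hpg hrg hne
    obtain ⟨e, he1, he2, he3, he4⟩ := main p hp hpκ hpg
    obtain ⟨f, hf1, hf2, hf3, hf4⟩ := main r hr hrκ hrg
    have hcop : Nat.Coprime (p ^ e) (r ^ f) :=
      Nat.Coprime.pow _ _ ((Nat.coprime_primes hp hr).mpr hne)
    have hd := Nat.Coprime.mul_dvd_of_dvd_of_dvd hcop he2 hf2
    have h1 := Nat.le_of_dvd (by omega) hd
    have h2 := high_pow hl hlk hAB p e hp he3 he4
    have h3 : r ≤ r ^ f := Nat.le_self_pow (by omega) r
    have h4 : p ^ e * r ≤ p ^ e * r ^ f := Nat.mul_le_mul_left _ h3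
    have h5 : p ^ e * r < p ^ e * p := by
      rw [← pow_succ]; omega
    exact lt_of_mul_lt_mul_left h5 (Nat.zero_le _)
  intro p hp hpκ hpg
  obtain ⟨e, he1, he2, he3, he4⟩ := main p hp hpκ hpg
  refine ⟨e, hp, he1, he2, he3, he4, ?_⟩
  intro r hr hrκ hrp hrg
  have h1 := two p r hp hr hpκ hrκ hpg hrg (Ne.symm hrp)
  have h2 := two r p hr hp hrκ hpκ hrg hpg hrp
  omega

end arith

/-- The main bound when every divisor of the exponent is bad. -/
theorem type3 (k l : ℕ) (hl : 0 < l) (hlk : l < k) : ∀ κ : ℕ, AB k l κ →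
    ∀ (Y : Type) [AddCommGroup Y] [Fintype Y] [DecidableEq Y], (∀ y : Y, κ • y = 0) →
    ∀ A : Finset Y, SF k l A → A.card * κ ≤ mz k l κ * Fintype.card Y := by
  intro κ
  induction κ using Nat.strong_induction_on with
  | _ κ ih =>
    intro hAB Y _ _ _ hY A hA
    have hκ0 := hAB.ne
    have hκpos : 0 < κ := Nat.pos_of_ne_zero hκ0
    rcases A.eq_empty_or_nonempty with rfl | hAn
    · rw [card_empty, zero_mul]; exact Nat.zero_le _
    by_cases hfull : ∀ p : ℕ, p.Prime → p ∣ κ → ¬ p ^ (κ.factorization p) ∣ k - l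
    · have hst := str_of hl hlk hAB hfull
      by_cases hp : κ.Prime
      · -- prime exponent
        have hg : ¬ κ ∣ k - l := by
          have := hfull κ hp dvd_rfl
          rwa [hp.factorization_self, pow_one] at this
        have hmod := pure_of_ndvd hl hlk hAB κ hp dvd_rfl hg
        have h1 := prime_bound Y k l κ hl hlk hp hmod hY A hA
        have h6 := Nat.div_add_mod κ (k + l)
        rw [hmod] at h6
        have hfl := mz_floor k l κ hl hlk
        have h2 : (k + l) * (A.card * κ) ≤ (k + l) * ((κ / (k + l)) * Fintype.card Y) := by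
          have e1 : κ * Fintype.card Y =
              (k + l) * ((κ / (k + l)) * Fintype.card Y) + Fintype.card Y := by
            conv_lhs => rw [← h6]
            ring
          rw [e1] at h1
          have e2 : (k + l) * (A.card * κ) = (k + l) * κ * A.card := by ring
          omega
        exact (Nat.le_of_mul_le_mul_left h2 (by omega)).trans (Nat.mul_le_mul_right _ hfl)
      · by_cases hs4 : k + l = 4
        · -- the pair `(3, 1)`
          have hk3 : k = 3 := by omega
          have hl1 : l = 1 := by omega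
          have hpure : Pure (k + l) κ := by
            refine ⟨hκ0, ?_⟩
            intro r hr hrκ
            apply pure_of_ndvd hl hlk hAB r hr hrκ
            intro hrg
            obtain ⟨e, he⟩ := hst r hr hrκ hrg
            have h2 : k - l = 2 := by omega
            have hr2 : r = 2 := by
              rw [h2] at hrg
              exact (Nat.prime_dvd_prime_iff_eq hr Nat.prime_two).mp hrg
            have h3 := he.dvd
            have h4 := he.e1
            rw [h2, hr2] at h3
            have he1 : e = 1 := by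
              by_contra hne
              have h5 : 2 ^ 2 ∣ 2 := (pow_dvd_pow 2 (by omega : 2 ≤ e)).trans h3
              norm_num at h5
            subst he1
            obtain ⟨h3, -, -⟩ := he.three hl hlk hAB
            omega
          have h1 := pure_bound Y k l κ hl hlk (by omega) hpure hY A hA
          have hmod := mod_one_of_primes (k + l) (by omega) κ hκ0 hpure.pr
          have h6 := Nat.div_add_mod κ (k + l)
          rw [hmod] at h6
          have hfl := mz_floor k l κ hl hlk
          have h2 : (k + l) * (A.card * κ) ≤ (k + l) * ((κ / (k + l)) * Fintype.card Y) := by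
            have e1 : κ * Fintype.card Y =
                (k + l) * ((κ / (k + l)) * Fintype.card Y) + Fintype.card Y := by
              conv_lhs => rw [← h6]
              ring
            rw [e1] at h1
            have e2 : (k + l) * (A.card * κ) = (k + l) * κ * A.card := by ring
            omega
          exact (Nat.le_of_mul_le_mul_left h2 (by omega)).trans (Nat.mul_le_mul_right _ hfl)
        · obtain ⟨a, ha⟩ : ∃ a, k = a + 2 := ⟨k - 2, by omega⟩
          obtain ⟨b, hb⟩ : ∃ b, l = b + 1 := ⟨l - 1, by omega⟩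
          subst ha
          subst hb
          have h1 := pair_main a b κ (by omega) hAB (by omega) hst hp _ Y rfl hY A A subset_rfl
            hAn (sf_noz a b A hA)
          have e1 : κ * (A.card + A.card) = 2 * (A.card * κ) := by ring
          rw [e1, mul_assoc] at h1
          omega
    · -- split off a prime power
      push Not at hfull
      obtain ⟨p, hp, hpκ, hpg⟩ := hfull
      obtain ⟨κ₂, hκ₂⟩ := Nat.ordProj_dvd κ p
      have hf1 : 0 < κ.factorization p := hp.factorization_pos_of_dvd hκ0 hpκ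
      have hκ₂0 : κ₂ ≠ 0 := by
        rintro rfl
        exact hκ0 (by rw [hκ₂, mul_zero])
      have hκ₂p : ¬ p ∣ κ₂ := by
        intro hd
        have h1 : p ^ (κ.factorization p + 1) ∣ κ := by
          rw [pow_succ]
          conv_rhs => rw [hκ₂]
          exact Nat.mul_dvd_mul_left _ hd
        rw [hp.pow_dvd_iff_le_factorization hκ0] at h1
        omega
      have hcop : Nat.Coprime (p ^ (κ.factorization p)) κ₂ :=
        Nat.Coprime.pow_left _ ((Nat.Prime.coprime_iff_not_dvd hp).mpr hκ₂p)
      have hpe : 2 ≤ p ^ (κ.factorization p) :=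
        hp.two_le.trans (Nat.le_self_pow (by omega) p)
      have hlt : κ₂ < κ := by
        conv_rhs => rw [hκ₂]
        have h1 : 2 * κ₂ ≤ p ^ (κ.factorization p) * κ₂ := Nat.mul_le_mul_right _ hpe
        omega
      have hdκ : κ₂ ∣ κ := Dvd.intro_left _ hκ₂.symm
      have h1 := coset_red Y k l _ κ₂ (mz k l κ₂) hlk hcop hpg (by
        intro x
        rw [← hκ₂]
        exact hY x) (ih κ₂ hlt (hAB.of_dvd k l κ κ₂ hdκ)) A hA
      have h2 := mz_mono k l (by omega) κ₂ κ hκ0 hdκ
      have h3 : (A.card * κ) * κ₂ ≤ (mz k l κ * Fintype.card Y) * κ₂ := by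
        calc (A.card * κ) * κ₂ = (A.card * κ₂) * κ := by ring
          _ ≤ (mz k l κ₂ * Fintype.card Y) * κ := Nat.mul_le_mul_right _ h1
          _ = (mz k l κ₂ * κ) * Fintype.card Y := by ring
          _ ≤ (mz k l κ * κ₂) * Fintype.card Y := Nat.mul_le_mul_right _ h2
          _ = (mz k l κ * Fintype.card Y) * κ₂ := by ring
      exact Nat.le_of_mul_le_mul_right h3 (Nat.pos_of_ne_zero hκ₂0)

end Pool.Agent.H59.KM
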