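import Mathlib
import Pool.Agent.H59.KM14

set_option autoImplicit false

open Finset Pointwise

namespace Pool.Agent.H59.KM

open Pool.Agent.H59.Kneser
open Pool.Agent.H59.KG
open Pool.Agent.H59.KL (SF)

/-- The upper bound for all groups. -/
theorem upper_all (G : Type) [AddCommGroup G] [Fintype G] [DecidableEq G] (κ : ℕ)
    (hκ : κ ≠ 0) (hG : ∀ x : G, κ • x = 0) (k l : ℕ) (hl : 0 < l) (hlk : l < k)
    (A : Finset G) (hA : SF k l A) : A.card * κ ≤ mz k l κ * Fintype.card G := by
  rcases A.eq_empty_or_nonempty with rfl | hAn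
  · rw [card_empty, zero_mul]; exact Nat.zero_le _
  obtain ⟨a, ha⟩ : ∃ a, k = a + 2 := ⟨k - 2, by omega⟩
  obtain ⟨b, hb⟩ : ∃ b, l = b + 1 := ⟨l - 1, by omega⟩
  have h0 : (0 : G) ∉ A + R (a + 1) (b + 1) A := by
    rw [← R_succ_left]
    rw [ha, hb, sf_iff_R] at hA
    exact hA
  have hk := kneser_R1 (a + 1) (b + 1) A A hAn hAn h0
  set S := A + R (a + 1) (b + 1) A with hS
  obtain ⟨Y, i1, i2, i3, f, hsurj, hker, hnice⟩ := exists_quot (stab S)
  rw [card_stab] at hnice
  have hker' : ∀ x, f x = 0 ↔ x ∈ st S := hker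
  have h1 : 1 ≤ (st S).card := hnice.pos
  have hcardG := hnice.card
  have hYk := killed_of_surj κ f hsurj hG
  have hAle : A.card ≤ (A.image f).card * (st S).card := by
    rw [← card_add_ker hnice _ hker']
    exact card_le_card_add_right ⟨0, zero_mem_st _⟩
  rw [card_add_ker hnice _ hker', hcardG] at hk
  have hk2 : ((k + l) * (A.image f).card) * (st S).card ≤
      (Fintype.card Y + (k + l - 2)) * (st S).card := by
    have e : k + l - 2 = a + b + 1 := by omega
    rw [e, ha, hb]
    linarith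
  have hk3 := Nat.le_of_mul_le_mul_right hk2 h1
  have hA' : SF k l (A.image f) := by
    rw [sf_iff_R, ← image_R, mem_image]
    rintro ⟨x, hx, hx0⟩
    apply h0
    have hxS : x ∈ S := by
      rw [hS, ← R_succ_left, ← ha, ← hb]; exact hx
    have := (mem_st _ _).mp (neg_mem_st _ _ ((hker' x).mp hx0)) x hxS
    rwa [neg_add_cancel] at this
  have hκ'dvd : AddMonoid.exponent Y ∣ κ :=
    AddMonoid.exponent_dvd_of_forall_nsmul_eq_zero hYk
  obtain ⟨κ', hκ'⟩ : ∃ κ', κ' = AddMonoid.exponent Y := ⟨_, rfl⟩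
  rw [← hκ'] at hκ'dvd
  have hκ'card : κ' ∣ Fintype.card Y := by
    rw [hκ', ← Nat.card_eq_fintype_card]
    exact AddGroup.exponent_dvd_nat_card
  have hκ'0 : κ' ≠ 0 := fun h => hκ (by rw [h] at hκ'dvd; exact zero_dvd_iff.mp hκ'dvd)
  -- the bound for the quotient
  have key : ∃ d, d ∣ κ ∧ d ≠ 0 ∧ (A.image f).card * d ≤ mz k l d * Fintype.card Y := by
    by_cases hAB : AB k l κ'
    · refine ⟨κ', hκ'dvd, hκ'0, ?_⟩
      apply type3 k l hl hlk κ' hAB Y _ _ hA'
      intro y
      rw [hκ']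
      exact AddMonoid.exponent_nsmul_eq_zero y
    · rw [AB] at hAB
      push Not at hAB
      obtain ⟨d, hd, hdm⟩ := hAB
      have hd0 : d ≠ 0 := fun h => hκ'0 (by rw [h] at hd; exact zero_dvd_iff.mp hd)
      refine ⟨d, hd.trans hκ'dvd, hd0, ?_⟩
      obtain ⟨t, ht⟩ := hd.trans hκ'card
      have hAt : (A.image f).card ≤ mz k l d * t := by
        by_contra hcon
        have h2 : mz k l d * t + 1 ≤ (A.image f).card := by omega
        have h3 := Nat.mul_le_mul_left (k + l) h2
        have h4 : d * t ≤ (k + l) * mz k l d * t := Nat.mul_le_mul_right _ hdm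
        have e : (k + l) * (mz k l d * t + 1) = (k + l) * mz k l d * t + (k + l) := by ring
        rw [e] at h3
        rw [ht] at hk3
        omega
      calc (A.image f).card * d ≤ (mz k l d * t) * d := Nat.mul_le_mul_right _ hAt
        _ = mz k l d * (d * t) := by ring
        _ = mz k l d * Fintype.card Y := by rw [ht]
  obtain ⟨d, hdκ, hd0, hdb⟩ := key
  have h2 := mz_mono k l (by omega) d κ hκ hdκ
  have h3 : (A.card * κ) * d ≤ (mz k l κ * Fintype.card G) * d := by
    calc (A.card * κ) * d ≤ (((A.image f).card * (st S).card) * κ) * d :=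
          Nat.mul_le_mul_right _ (Nat.mul_le_mul_right _ hAle)
      _ = ((A.image f).card * d) * ((st S).card * κ) := by ring
      _ ≤ (mz k l d * Fintype.card Y) * ((st S).card * κ) := Nat.mul_le_mul_right _ hdb
      _ = (mz k l d * κ) * (Fintype.card Y * (st S).card) := by ring
      _ ≤ (mz k l κ * d) * (Fintype.card Y * (st S).card) := Nat.mul_le_mul_right _ h2
      _ = (mz k l κ * Fintype.card G) * d := by rw [hcardG]; ring
  exact Nat.le_of_mul_le_mul_right h3 (Nat.pos_of_ne_zero hd0)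

end Pool.Agent.H59.KM
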